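import Mathlib

/-! The group von Neumann algebra of a discrete group. -/

namespace Pool.Agent.MP_494aff_an.Pinch

/-- The Hilbert space of square summable complex functions on `G`. -/
abbrev H (G : Type) : Type := lp (fun _ : G => ℂ) 2

/-- The bounded operators on `H G`. -/
abbrev Op (G : Type) : Type := H G →L[ℂ] H G

open Classical in
/-- The unit vector at `x`. -/
noncomputable def dl {G : Type} (x : G) : H G := lp.single 2 x 1

/-- The group von Neumann algebra: the bicommutant of the left translation operators. -/
noncomputable def vN (G : Type) [Group G] : StarSubalgebra ℂ (Op G) :=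
  StarSubalgebra.centralizer ℂ
    (StarSubalgebra.centralizer ℂ {T : Op G | ∃ g : G, ∀ x, T (dl x) = dl (g * x)} : Set (Op G))

end Pool.Agent.MP_494aff_an.Pinch
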