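import Mathlib
import Pool.Agent.MP_494aff_an.pinch.Defs

/-! Isomorphism of group von Neumann algebras. -/

namespace Pool.Agent.MP_494aff_an.Pinch

/-- The bicommutant of `s` in a star algebra. -/
def Bic {A : Type} [Ring A] [StarRing A] [Algebra ℂ A] [StarModule ℂ A] (s : Set A) :
    StarSubalgebra ℂ A :=
  StarSubalgebra.centralizer ℂ (StarSubalgebra.centralizer ℂ s : Set A)

/-- The bicommutants of `s` and `t` are isomorphic complex star algebras. -/
def BicIso {A B : Type} [Ring A] [StarRing A] [Algebra ℂ A] [StarModule ℂ A] [Ring B] [StarRing B]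
    [Algebra ℂ B] [StarModule ℂ B] (s : Set A) (t : Set B) : Prop :=
  Nonempty (Bic s ≃⋆ₐ[ℂ] Bic t)

/-- The von Neumann algebras generated by two sets of operators are isomorphic. -/
def OpIso (E F : Type) [NormedAddCommGroup E] [InnerProductSpace ℂ E] [CompleteSpace E]
    [NormedAddCommGroup F] [InnerProductSpace ℂ F] [CompleteSpace F] (s : Set (E →L[ℂ] E))
    (t : Set (F →L[ℂ] F)) : Prop :=
  BicIso s t

/-- The left translation operators. -/
def Lt (G : Type) [Group G] : Set (Op G) := {T | ∃ g : G, ∀ x, T (dl x) = dl (g * x)}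

/-- The group von Neumann algebras of `G` and `G'` are isomorphic. -/
def VNIso (G G' : Type) [Group G] [Group G'] : Prop := OpIso (H G) (H G') (Lt G) (Lt G')

end Pool.Agent.MP_494aff_an.Pinch
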