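import Mathlib
import Pool.Agent.MP_494aff_an.pinch.St

/-! Towers of groups. -/

open Monoid

namespace Pool.Agent.MP_494aff_an.Pinch

/-- `G` embeds in an ultrapower of the free group of rank two. -/
def Lim (G : Type) [Group G] : Prop :=
  ∃ (U : Ultrafilter ℕ) (φ : G →* Filter.Germ (U : Filter ℕ) (FreeGroup (Fin 2))),
    Function.Injective φ

/-- No `w i` is a proper power, and `w i` is not conjugate to `w j` or its inverse. -/
def Mal {ι P : Type} [Group P] (w : ι → P) : Prop :=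
  (∀ (i : ι) (z : P) (k : ℕ), 2 ≤ k → z ^ k ≠ w i) ∧
    ∀ i j, i ≠ j → ¬ IsConj (w i) (w j) ∧ ¬ IsConj (w i) (w j)⁻¹

/-- The fundamental group of the closed orientable surface of genus `g`. -/
abbrev Surf (g : ℕ) : Type :=
  PresentedGroup ({(List.ofFn fun i : Fin g =>
    FreeGroup.of (i, false) * FreeGroup.of (i, true) * (FreeGroup.of (i, false))⁻¹ *
      (FreeGroup.of (i, true))⁻¹).prod} : Set (FreeGroup (Fin g × Bool)))

section Star

variable {S J : Type} {Q : J → Type} {I : J → Type}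

/-- The generator attached to an element of an outer vertex group. -/
def vt {j : J} (q : Q j) : FreeGroup (S ⊕ (Σ j, Q j) ⊕ (Σ j, I j)) :=
  FreeGroup.of (Sum.inr (Sum.inl ⟨j, q⟩))

/-- The generator attached to an edge. -/
def ed {j : J} (i : I j) : FreeGroup (S ⊕ (Σ j, Q j) ⊕ (Σ j, I j)) :=
  FreeGroup.of (Sum.inr (Sum.inr ⟨j, i⟩))

/-- Relators of the fundamental group of the graph of groups with central vertex group free on
`S`, outer vertex groups `Q j`, and for every `i : I j` an edge from the centre to `j` that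
identifies `w ⟨j, i⟩` with `v j i`; the edges `b j` form the maximal tree. -/
def StarRel [∀ j, Group (Q j)] (w : (Σ j, I j) → FreeGroup S) (v : ∀ j, I j → Q j)
    (b : ∀ j, I j) : Set (FreeGroup (S ⊕ (Σ j, Q j) ⊕ (Σ j, I j))) :=
  {r | (∃ (j : J) (x y : Q j), r = vt x * vt y * (vt (x * y))⁻¹) ∨ (∃ j, r = ed (b j)) ∨
    ∃ (j : J) (i : I j),
      r = (FreeGroup.map Sum.inl (w ⟨j, i⟩))⁻¹ * ed i * vt (v j i) * (ed i)⁻¹}

end Star

/-- Towers of rank `N`. -/
inductive Tow : (G : Type) → [Group G] → ℕ → Prop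
  | abel (k : ℕ) : 1 ≤ k → Tow (Multiplicative (Fin k → ℤ)) 1
  | free (m : ℕ) : 1 ≤ m → Tow (FreeGroup (Fin m)) m
  | surf (g : ℕ) : 2 ≤ g → Tow (Surf g) (2 * g - 1)
  | iso (G G' : Type) [Group G] [Group G'] (N : ℕ) : Tow G N → (G ≃* G') → Tow G' N
  | prod (G G' : Type) [Group G] [Group G'] (N N' : ℕ) :
      Tow G N → Tow G' N' → Tow (Coprod G G') (N + N')
  | star (n : ℕ) (J : Type) [Fintype J] (Q : J → Type) [∀ j, Group (Q j)] (N : J → ℕ)
      (I : J → Type) [∀ j, Finite (I j)] (w : (Σ j, I j) → FreeGroup (Fin n))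
      (v : ∀ j, I j → Q j) (b : ∀ j, I j) :
      (∀ j, Tow (Q j) (N j)) → (∀ j, Lim (Q j)) → (∃ j, 2 ≤ N j) → Mal w →
      (∀ j i, v j i ≠ 1) → Tow (PresentedGroup (StarRel w v b)) (n + ∑ j, (N j - 1))

end Pool.Agent.MP_494aff_an.Pinch
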