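import Mathlib
import Mathlib.Tactic.NormNum.Ineq
import Mathlib.Data.Fin.VecNotation
import Mathlib.Algebra.Notation.Lemmas
import Mathlib.Algebra.Group.TypeTags.Finite
import Mathlib.Logic.Equiv.Fintype
import Mathlib.Algebra.Field.ZMod
import Mathlib.GroupTheory.FreeGroup.Reduce
import Mathlib.Data.Int.ConditionallyCompleteOrder
import Mathlib.Algebra.Order.Ring.Star
import Mathlib.Data.List.Lookmap
import Mathlib.GroupTheory.FreeGroup.NielsenSchreier
import Pool.Agent.MP_494aff_an.pinch.Top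
import Pool.Agent.MP_494aff_an.pinch.St2

-- ======== part 0: formerly Pool.Agent.MP_494aff_an.pinch.FreePair
section MrgPart0

namespace Pool.Agent.MP_494aff_an.Pinch

open Function

/-- a nontrivial element of a free group survives in a finite permutation group -/
theorem exists_perm {T : Type*} (x : FreeGroup T) (hx : x ≠ 1) :
    ∃ (B : Finset (FreeGroup T)) (φ : FreeGroup T →* Equiv.Perm B), φ x ≠ 1 := by
  classical
  obtain ⟨L, rfl⟩ := Quot.exists_rep x
  let B : Finset (FreeGroup T) := (L.tails.map FreeGroup.mk).toFinset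
  have hB : ∀ M, M <:+ L → FreeGroup.mk M ∈ B := fun M hM => by
    simp only [B, List.mem_toFinset, List.mem_map, List.mem_tails]
    exact ⟨M, hM, rfl⟩
  have hσ : ∀ t : T, ∃ σ : Equiv.Perm B, ∀ g : B, ∀ h : FreeGroup.of t * g.1 ∈ B,
      σ g = ⟨FreeGroup.of t * g.1, h⟩ := fun t => by
    obtain ⟨σ, hσ⟩ := Equiv.Perm.exists_extending_pair
      (α := {g : B // FreeGroup.of t * g.1 ∈ B}) (β := B) (f := fun g => g.1)
      (g := fun g => ⟨FreeGroup.of t * g.1.1, g.2⟩) Subtype.val_injective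
      (fun a b h => Subtype.ext (Subtype.ext (mul_left_cancel (congrArg Subtype.val h))))
    exact ⟨σ, fun g h => hσ ⟨g, h⟩⟩
  choose σ hσ using hσ
  have h1 : (1 : FreeGroup T) ∈ B := hB [] List.nil_suffix
  have key : ∀ M, ∀ hM : M <:+ L,
      FreeGroup.lift σ (FreeGroup.mk M) ⟨1, h1⟩ = ⟨FreeGroup.mk M, hB M hM⟩ := by
    intro M
    induction M with
    | nil => intro _; rfl
    | cons a M ih =>
      intro hM
      have hM' : M <:+ L := (List.suffix_cons a M).trans hM
      obtain ⟨t, b⟩ := a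
      cases b
      · have e : FreeGroup.mk ((t, false) :: M) = (FreeGroup.of t)⁻¹ * FreeGroup.mk M := rfl
        have e2 : FreeGroup.of t * FreeGroup.mk ((t, false) :: M) = FreeGroup.mk M := by
          rw [e, mul_inv_cancel_left]
        have h3 := hσ t ⟨_, hB _ hM⟩ (e2 ▸ hB M hM')
        conv_lhs => rw [e, map_mul, map_inv, FreeGroup.lift_apply_of]
        rw [Equiv.Perm.mul_apply, ih hM', Equiv.Perm.inv_eq_iff_eq, h3]
        exact Subtype.ext e2.symm
      · have e : FreeGroup.mk ((t, true) :: M) = FreeGroup.of t * FreeGroup.mk M := rfl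
        conv_lhs => rw [e, map_mul, FreeGroup.lift_apply_of]
        rw [Equiv.Perm.mul_apply, ih hM', hσ t ⟨_, hB M hM'⟩ (e ▸ hB _ hM)]
        exact Subtype.ext e.symm
  refine ⟨B, FreeGroup.lift σ, fun h => hx ?_⟩
  have := key L (List.suffix_refl L)
  rw [show FreeGroup.lift σ (FreeGroup.mk L) = 1 from h] at this
  exact (congrArg Subtype.val this).symm

/-- finitely generated free groups are Hopfian -/
theorem hopf {T : Type*} [Finite T] (f : FreeGroup T →* FreeGroup T) (hf : Surjective f) :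
    Injective f := by
  rw [injective_iff_map_eq_one]
  intro x hx
  by_contra hne
  obtain ⟨B, φ, hφ⟩ := exists_perm x hne
  have : Finite (FreeGroup T →* Equiv.Perm B) := Finite.of_equiv _ FreeGroup.lift
  have hi : Injective fun ψ : FreeGroup T →* Equiv.Perm B => ψ.comp f :=
    fun ψ ψ' h => (MonoidHom.cancel_right hf).1 h
  obtain ⟨ψ, hψ⟩ := Finite.injective_iff_surjective.1 hi φ
  exact hφ (by rw [← hψ]; simp [hx])

theorem card_le_two {T : Type*} (f : FreeGroup (Fin 2) →* FreeGroup T) (hf : Surjective f) :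
    Finite T ∧ Nat.card T ≤ 2 := by
  classical
  let Z := Multiplicative (ZMod 2)
  have hi : Injective fun u : T → Z =>
      FreeGroup.lift.symm ((FreeGroup.lift u).comp f) := fun u u' h =>
    FreeGroup.lift.injective ((MonoidHom.cancel_right hf).1 (FreeGroup.lift.symm.injective h))
  have : Finite (T → Z) := Finite.of_injective _ hi
  have hT : Finite T := by
    refine Finite.of_injective (fun t : T => (Pi.mulSingle t (Multiplicative.ofAdd 1) : T → Z)) ?_
    intro t t' h
    by_contra hne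
    have := congrFun h t
    simp only [Pi.mulSingle_eq_same, Pi.mulSingle_eq_of_ne hne] at this
    exact absurd this (by decide)
  refine ⟨hT, ?_⟩
  have h2 := Nat.card_le_card_of_injective _ hi
  have hz : Nat.card Z = 2 := by simp [Z]
  rw [Nat.card_fun, Nat.card_fun, hz] at h2
  simpa using (Nat.pow_le_pow_iff_right (by norm_num : 1 < 2)).1 h2

theorem cyclic_of_subsingleton {T : Type*} [Subsingleton T] :
    ∃ z : FreeGroup T, ∀ y, ∃ n : ℤ, y = z ^ n := by
  rcases isEmpty_or_nonempty T with h | ⟨⟨t⟩⟩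
  · refine ⟨1, fun y => ⟨0, ?_⟩⟩
    induction y using FreeGroup.induction_on with
    | C1 => simp
    | of s => exact h.elim s
    | inv_of s _ => exact h.elim s
    | mul a b ha hb => simp [ha, hb]
  · refine ⟨FreeGroup.of t, fun y => ?_⟩
    induction y using FreeGroup.induction_on with
    | C1 => exact ⟨0, by simp⟩
    | of s => exact ⟨1, by rw [Subsingleton.elim s t]; simp⟩
    | inv_of s _ => exact ⟨-1, by rw [Subsingleton.elim s t]; simp⟩
    | mul a b ha hb =>
      obtain ⟨m, rfl⟩ := ha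
      obtain ⟨n, rfl⟩ := hb
      exact ⟨m + n, (zpow_add _ _ _).symm⟩

/-- two elements of a free group are powers of one element, or a free pair -/
theorem dich {G : Type*} [Group G] [IsFreeGroup G] (a b : G) :
    (∃ (z : G) (m n : ℤ), a = z ^ m ∧ b = z ^ n) ∨
      Injective (FreeGroup.lift ![a, b] : FreeGroup (Fin 2) →* G) := by
  let p : FreeGroup (Fin 2) →* G := FreeGroup.lift ![a, b]
  let H := p.range
  let e := IsFreeGroup.toFreeGroup H
  let f := e.toMonoidHom.comp p.rangeRestrict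
  have hf : Surjective f := e.surjective.comp p.rangeRestrict_surjective
  obtain ⟨hT, hc⟩ := card_le_two f hf
  rcases hc.lt_or_eq with hc | hc
  · left
    have : Subsingleton (IsFreeGroup.Generators H) :=
      Finite.card_le_one_iff_subsingleton.1 (by omega)
    obtain ⟨z, hz⟩ := cyclic_of_subsingleton (T := IsFreeGroup.Generators H)
    have : ∀ i, ∃ n : ℤ, p (FreeGroup.of i) = (e.symm z).1 ^ n := fun i => by
      obtain ⟨n, hn⟩ := hz (f (FreeGroup.of i))
      refine ⟨n, ?_⟩
      have h2 : p.rangeRestrict (FreeGroup.of i) = e.symm z ^ n := by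
        rw [← map_zpow, ← hn]; simp [f]
      simpa using congrArg Subtype.val h2
    obtain ⟨m, hm⟩ := this 0
    obtain ⟨n, hn⟩ := this 1
    exact ⟨_, m, n, by simpa [p] using hm, by simpa [p] using hn⟩
  · right
    obtain ⟨u⟩ : Nonempty (IsFreeGroup.Generators H ≃ Fin 2) :=
      Finite.card_eq.1 (by simpa using hc)
    have hi := hopf ((FreeGroup.freeGroupCongr u).toMonoidHom.comp f)
      ((FreeGroup.freeGroupCongr u).surjective.comp hf)
    intro x y hxy
    apply hi
    have : p.rangeRestrict x = p.rangeRestrict y := Subtype.ext hxy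
    simp [f, this]

/-- a free pair does not commute -/
theorem not_commute_of_inj {G : Type*} [Group G] {a b : G}
    (h : Injective (FreeGroup.lift ![a, b] : FreeGroup (Fin 2) →* G)) : a * b ≠ b * a := by
  intro hc
  have : (FreeGroup.of 0 * FreeGroup.of 1 : FreeGroup (Fin 2)) = FreeGroup.of 1 * FreeGroup.of 0 :=
    h (by simpa using hc)
  exact absurd this (by decide)

/-- commuting elements of a free group are powers of one element -/
theorem cyc_of_commute {G : Type*} [Group G] [IsFreeGroup G] {a b : G} (h : a * b = b * a) :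
    ∃ (z : G) (m n : ℤ), a = z ^ m ∧ b = z ^ n :=
  (dich a b).resolve_right fun hi => not_commute_of_inj hi h

/-- non commuting elements of a free group are a free pair -/
theorem inj_of_not_commute {G : Type*} [Group G] [IsFreeGroup G] {a b : G} (h : a * b ≠ b * a) :
    Injective (FreeGroup.lift ![a, b] : FreeGroup (Fin 2) →* G) :=
  (dich a b).resolve_left fun ⟨z, m, n, ha, hb⟩ => h (by
    rw [ha, hb, ← zpow_add, ← zpow_add, add_comm])

/-- if `w` is not a proper power and `q` is not a power of `w`, then `(q, w)` is a free pair -/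
theorem inj_of_not_mem {G : Type*} [Group G] [IsFreeGroup G] {q w : G} (hw : w ≠ 1)
    (hp : ∀ (z : G) (k : ℕ), 2 ≤ k → w ≠ z ^ k) (hq : q ∉ Subgroup.zpowers w) :
    Injective (FreeGroup.lift ![q, w] : FreeGroup (Fin 2) →* G) := by
  refine (dich q w).resolve_left ?_
  rintro ⟨z, m, n, ha, hb⟩
  apply hq
  have h0 : n ≠ 0 := by rintro rfl; exact hw (by simpa using hb)
  have h1 : n.natAbs < 2 := by
    by_contra hk
    rcases Int.natAbs_eq n with h | h
    · exact hp z n.natAbs (by omega) (by rw [hb, ← zpow_natCast, ← h])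
    · exact hp z⁻¹ n.natAbs (by omega) (by rw [hb, inv_pow, ← zpow_natCast, ← zpow_neg, ← h])
  rcases (by omega : n = 1 ∨ n = -1) with rfl | rfl
  · exact ⟨m, by simp [ha, hb]⟩
  · exact ⟨-m, by simp [ha, hb]⟩

/-- conjugation by an element with nontrivial image moves every nontrivial element of the kernel -/
theorem conj_ne {G G' : Type*} [Group G] [IsFreeGroup G] [Group G'] [IsMulTorsionFree G']
    (r : G →* G') {x n : G} (hx : r x ≠ 1) (hn : r n = 1) (hn1 : n ≠ 1) : x * n * x⁻¹ ≠ n := by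
  intro h
  obtain ⟨z, a, b, rfl, rfl⟩ := cyc_of_commute (a := x) (b := n) (mul_inv_eq_iff_eq_mul.1 h)
  have hb : b ≠ 0 := by rintro rfl; exact hn1 (by simp)
  rw [map_zpow] at hn hx
  have : r z = 1 := (IsMulTorsionFree.zpow_eq_one_iff_left hb).1 hn
  exact hx (by simp [this])

/-- a nontrivial element forms a free pair with one of two distinct generators -/
theorem exists_gen_pair {S : Type*} {s t : S} (hst : s ≠ t) {v : FreeGroup S} (hv : v ≠ 1) :
    ∃ i : S, Injective (FreeGroup.lift ![v, FreeGroup.of i] : FreeGroup (Fin 2) →* FreeGroup S) := by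
  classical
  by_contra hne
  push Not at hne
  have hp : ∀ i : S, v ∈ Subgroup.zpowers (FreeGroup.of i) := fun i => by
    by_contra hq
    refine hne i (inj_of_not_mem (FreeGroup.of_ne_one i) ?_ hq)
    intro z k hk h
    have := congrArg (FreeGroup.lift fun _ : S => Multiplicative.ofAdd (1 : ℤ)) h
    rw [map_pow, FreeGroup.lift_apply_of] at this
    have h2 := congrArg Multiplicative.toAdd this
    simp only [toAdd_ofAdd, toAdd_pow, nsmul_eq_mul] at h2
    have h3 : (k : ℤ) ∣ 1 := ⟨_, h2⟩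
    have := Int.le_of_dvd one_pos h3
    omega
  obtain ⟨a, ha⟩ := hp s
  obtain ⟨b, hb⟩ := hp t
  have h := congrArg (FreeGroup.lift fun j : S => if j = s then FreeGroup.of s else 1)
    (ha.trans hb.symm)
  simp only [map_zpow, FreeGroup.lift_apply_of, if_true, if_neg hst.symm, one_zpow] at h
  exact hv (ha.symm.trans h)

end Pool.Agent.MP_494aff_an.Pinch

end MrgPart0

-- ======== part 1: formerly Pool.Agent.MP_494aff_an.pinch.Gap
section MrgPart1

/-! Free pairs, and the cocycle whose value at `w` is close to one. -/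

open MonoidAlgebra (single)

namespace Pool.Agent.MP_494aff_an.Pinch

noncomputable section

lemma pr_inj {G : Type} [Group G] {x y : G}
    (h : Function.Injective (FreeGroup.lift ![x, y] : FreeGroup (Fin 2) →* G)) :
    Function.Injective (pr x y) := by
  let e : Option Unit ≃ Fin 2 :=
    { toFun := fun o => o.elim 0 fun _ => 1
      invFun := ![none, some ()]
      left_inv := by decide
      right_inv := by decide }
  have : pr x y = (FreeGroup.lift ![x, y]).comp (FreeGroup.freeGroupCongr e).toMonoidHom := by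
    ext o; cases o <;> simp [pr, e]
  rw [this]
  exact h.comp (FreeGroup.freeGroupCongr e).injective

theorem pair : PairStmt := fun _ x y => by
  rcases dich x y with ⟨z, m, n, hx, hy⟩ | h
  · exact Or.inl ⟨z, ⟨m, hx.symm⟩, ⟨n, hy.symm⟩⟩
  · exact Or.inr (pr_inj h)

/-- A free action has an equivariant map to the group. -/
lemma exists_equivariant {Γ Z : Type} [Group Γ] (a : Γ →* Equiv.Perm Z) (X : Set Z)
    (hf : ∀ γ, ∀ z ∈ X, a γ z = z → γ = 1) :
    ∃ ψ : Z → Γ, ∀ γ, ∀ z ∈ X, ψ (a γ z) = γ * ψ z := by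
  let r : Setoid Z := ⟨fun z z' => ∃ γ, a γ z = z', fun z => ⟨1, by simp⟩,
    fun ⟨γ, h⟩ => ⟨γ⁻¹, by simp [← h]⟩, fun ⟨γ, h⟩ ⟨δ, h'⟩ => ⟨δ * γ, by simp [h, h']⟩⟩
  have : ∀ z, ∃ γ, a γ (Quotient.mk r z).out = z := fun z => Quotient.mk_out (s := r) z
  choose ψ hψ using this
  refine ⟨ψ, fun γ z hz => ?_⟩
  have h1 : Quotient.mk r (a γ z) = Quotient.mk r z :=
    (Quotient.sound (show r z (a γ z) from ⟨γ, rfl⟩)).symm
  have h2 := hψ (a γ z)
  rw [h1] at h2
  have h3 : a (ψ z)⁻¹ z = (Quotient.mk r z).out := by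
    rw [map_inv, Equiv.Perm.inv_eq_iff_eq, hψ]
  have h4 : a (γ⁻¹ * ψ (a γ z) * (ψ z)⁻¹) z = z := by
    rw [map_mul, map_mul, Equiv.Perm.mul_apply, Equiv.Perm.mul_apply, h3, h2]
    simp
  have h5 := hf _ z hz h4
  rw [mul_inv_eq_one, inv_mul_eq_iff_eq_mul] at h5
  exact h5

/-- The sum of the conjugates of `q` by the powers of `w` is small on the kernel. -/
lemma avg_bound (hP : PPStmt) (hW : WordStmt) {S : Type} {q w : FreeGroup S}
    (h : Function.Injective (pr q w)) (K : ℕ) {ξ : H (Lm S)} (hξ : Supp (N0 S) ξ) :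
    ‖∑ k ∈ Finset.range K, cj (io ((w ^ k)⁻¹ * q * w ^ k)) ξ‖ ≤ 2 * √K * ‖ξ‖ := by
  classical
  obtain ⟨E, hE1, hE2⟩ := hW Unit
  let φ : Lm Unit →* Lm S := io.comp (pr q w)
  let a : Lm Unit →* Equiv.Perm (Lm S) := (MulAut.toPerm (Lm S)).comp (MulAut.conj.comp φ)
  have ha : ∀ γ z, a γ z = φ γ * z * (φ γ)⁻¹ := fun _ _ => rfl
  obtain ⟨ψ, hψ⟩ := exists_equivariant a (N0 S) fun γ z hz hγ => by
    by_contra hne
    refine conj_ne kl (x := φ γ) ?_ hz.1 hz.2 hγ
    intro h1
    refine hne (h ?_)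
    rw [map_one, ← h1]
    exact (kl_io _).symm
  let t : FreeGroup Unit := FreeGroup.of ()
  have key := hP (Lm S) ℕ (Finset.range K) (fun k => cj (io ((w ^ k)⁻¹ * q * w ^ k)))
    (fun _ => 1) (fun k => {z | io t ^ k * ψ z ∈ E}) (N0 S) 1 ξ zero_le_one
    (fun k _ => ContinuousLinearMap.opNorm_le_bound _ zero_le_one fun η => by
      rw [cj_norm, one_mul])
    (fun i _ j _ hij => by
      rw [Set.disjoint_left]
      intro z hi hj
      have hx : t ^ j * (t ^ i)⁻¹ ≠ 1 := by
        intro h1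
        rw [mul_inv_eq_one] at h1
        have h2 := congrArg (FreeGroup.lift fun _ : Unit => Multiplicative.ofAdd (1 : ℤ)) h1
        simp only [t, map_pow, FreeGroup.lift_apply_of] at h2
        have h3 := congrArg Multiplicative.toAdd h2
        simp only [toAdd_ofAdd, toAdd_pow, nsmul_eq_mul, mul_one, Nat.cast_inj] at h3
        exact hij h3.symm
      refine hE2 _ hx _ hi ?_
      have hj' : io t ^ j * ψ z ∈ E := hj
      simpa [mul_assoc] using hj')
    (fun k _ η hη => by
      refine supp_map _ (fun z hz => ?_) hη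
      rw [cj_dl]
      refine supp_dl ?_
      have e : io ((w ^ k)⁻¹ * q * w ^ k) = φ ((io t ^ k)⁻¹ * cc Unit * io t ^ k) := by
        simp only [φ, t, MonoidHom.comp_apply, map_mul, map_inv, map_pow, pr_cc, pr_io]
      show io t ^ k * ψ _ ∈ E
      rw [e, ← ha, hψ _ z hz.1]
      have := hE1 _ hz.2 1 one_ne_zero
      simpa [mul_assoc] using this) hξ
  simpa using key

section Ideal

variable {G : Type} [Group G]

/-- The values at `w` of the cocycles. -/
def Vals (w : G) : Submodule ℝ (RA G) where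
  carrier := {a | ∃ β, Coc β ∧ β w = a}
  zero_mem' := ⟨0, fun _ _ => by simp, rfl⟩
  add_mem' := by
    rintro _ _ ⟨β, hβ, rfl⟩ ⟨β', hβ', rfl⟩
    refine ⟨β + β', fun x y => ?_, rfl⟩
    simp only [Pi.add_apply, hβ x y, hβ' x y, mul_add]
    abel
  smul_mem' := by
    rintro r _ ⟨β, hβ, rfl⟩
    refine ⟨r • β, fun x y => ?_, rfl⟩
    simp only [Pi.smul_apply, hβ x y, smul_add, mul_smul_comm]

lemma vals_mul {w : G} {a : RA G} (h : a ∈ Vals w) (b : RA G) : a * b ∈ Vals w := by
  obtain ⟨β, hβ, rfl⟩ := h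
  exact ⟨fun x => β x * b, fun x y => by simp only [hβ x y, add_mul, mul_assoc], rfl⟩

lemma sgl_mul (x y : G) : (single x 1 * single y 1 : RA G) = single (x * y) 1 := by
  rw [MonoidAlgebra.single_mul_single, mul_one]

lemma coc_sub : Coc fun x : G => (single x 1 - 1 : RA G) := fun x y => by
  simp only [mul_sub, sgl_mul, mul_one, sub_add_sub_cancel']

lemma vals_zpow {w h : G} (hh : h ∈ Subgroup.zpowers w) : (single h 1 - 1 : RA G) ∈ Vals w := by
  have h0 : (single w 1 - 1 : RA G) ∈ Vals w := ⟨_, coc_sub, rfl⟩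
  obtain ⟨k, rfl⟩ := hh
  induction k using Int.induction_on with
  | zero => simp [← MonoidAlgebra.one_def]
  | succ k ih =>
    have := add_mem (vals_mul h0 (single (w ^ (k : ℤ)) 1)) ih
    convert this using 1
    simp only [sub_mul, sgl_mul, one_mul, add_comm (k : ℤ) 1, zpow_add, zpow_one]
    abel
  | pred k ih =>
    have := sub_mem ih (vals_mul h0 (single (w ^ (-(k : ℤ) - 1)) 1))
    convert this using 1
    have e : w * w ^ (-(k : ℤ) - 1) = w ^ (-(k : ℤ)) := by group
    simp only [sub_mul, sgl_mul, one_mul, e]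
    abel

lemma vals_left {w h : G} (hh : h ∈ Subgroup.zpowers w) {a : RA G} (ha : a ∈ Vals w) :
    single h 1 * a ∈ Vals w := by
  have := add_mem (vals_mul (vals_zpow hh) a) ha
  rwa [sub_mul, one_mul, sub_add_cancel] at this

/-- The linear extension of a map on the group. -/
def lin {V : Type} [AddCommGroup V] [Module ℝ V] (f : G → V) : RA G →ₗ[ℝ] V :=
  Finsupp.linearCombination ℝ f ∘ₗ (MonoidAlgebra.coeffLinearEquiv ℝ).toLinearMap

lemma lin_single {V : Type} [AddCommGroup V] [Module ℝ V] (f : G → V) (x : G) (r : ℝ) :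
    lin f (single x r) = r • f x := by
  simp [lin]

open Classical in
/-- The sum of the coefficients on the powers of `w`. -/
def sg (w : G) : RA G →ₗ[ℝ] ℝ := lin fun x => if x ∈ Subgroup.zpowers w then 1 else 0

lemma lin_eq_zero {w : G} {a : RA G} (ha : ∀ y, sg w (a * single y 1) = 0) (m : G → ℝ)
    (hm : ∀ h ∈ Subgroup.zpowers w, ∀ x, m (h * x) = m x) : lin m a = 0 := by
  classical
  let r := QuotientGroup.rightRel (Subgroup.zpowers w)
  let p : RA G →ₗ[ℝ] (Quotient r →₀ ℝ) := lin fun x => Finsupp.single (Quotient.mk r x) 1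
  have h1 : ∀ (b : RA G) (y : G), p b (Quotient.mk r y) = sg w (b * single y⁻¹ 1) := by
    intro b y
    induction b using MonoidAlgebra.induction_linear with
    | zero => simp
    | add b c hb hc => simp only [map_add, add_mul, Finsupp.add_apply, hb, hc]
    | single x s =>
      have e : Quotient.mk r x = Quotient.mk r y ↔ x * y⁻¹ ∈ Subgroup.zpowers w := by
        rw [eq_comm, Quotient.eq]
        exact QuotientGroup.rightRel_apply
      simp only [p, sg, MonoidAlgebra.single_mul_single, lin_single, mul_one,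
        Finsupp.smul_apply, Finsupp.single_apply, e]
  have h2 : ∀ b : RA G, lin m b = Finsupp.linearCombination ℝ (fun c => m c.out) (p b) := by
    intro b
    induction b using MonoidAlgebra.induction_linear with
    | zero => simp
    | add b c hb hc => simp only [map_add, hb, hc]
    | single x s =>
      have e : x * (Quotient.mk r x).out⁻¹ ∈ Subgroup.zpowers w :=
        QuotientGroup.rightRel_apply.1 (Quotient.mk_out (s := r) x)
      have e2 := hm _ e (Quotient.mk r x).out
      rw [inv_mul_cancel_right] at e2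
      simp only [p, lin_single, map_smul, Finsupp.linearCombination_single, one_smul, e2]
  have h3 : p a = 0 := by
    ext c
    obtain ⟨y, rfl⟩ := Quotient.exists_rep c
    rw [h1, ha]; rfl
  rw [h2, h3, map_zero]

lemma lin_mul_single (m : G → ℝ) (a : RA G) (y : G) :
    lin m (a * single y 1) = lin (fun x => m (x * y)) a := by
  induction a using MonoidAlgebra.induction_linear with
  | zero => simp
  | add b c hb hc => simp only [map_add, add_mul, hb, hc]
  | single x s => simp only [MonoidAlgebra.single_mul_single, lin_single, mul_one]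

lemma lin_sub (m m' : G → ℝ) (a : RA G) : lin (fun x => m x - m' x) a = lin m a - lin m' a := by
  induction a using MonoidAlgebra.induction_linear with
  | zero => simp
  | add b c hb hc => simp only [map_add, hb, hc]; abel
  | single x s => simp only [lin_single, smul_sub]

end Ideal

section Fox

variable {S : Type}

/-- A cocycle on a free group with given values on the generators. -/
lemma exists_coc (f : S → RA (FreeGroup S)) : ∃ β, Coc β ∧ ∀ s, β (FreeGroup.of s) = f s := by
  let A : S → Equiv.Perm (RA (FreeGroup S)) := fun s =>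
    { toFun := fun a => f s + single (FreeGroup.of s) 1 * a
      invFun := fun a => single (FreeGroup.of s)⁻¹ 1 * (a - f s)
      left_inv := fun a => by
        simp only [add_sub_cancel_left, ← mul_assoc, sgl_mul, inv_mul_cancel,
          ← MonoidAlgebra.one_def, one_mul]
      right_inv := fun a => by
        simp only [← mul_assoc, sgl_mul, mul_inv_cancel, ← MonoidAlgebra.one_def, one_mul,
          add_sub_cancel] }
  have key : ∀ x a, FreeGroup.lift A x a = FreeGroup.lift A x 0 + single x 1 * a := by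
    intro x
    induction x using FreeGroup.induction_on with
    | C1 => intro a; simp [← MonoidAlgebra.one_def]
    | of s => intro a; simp [A]
    | inv_of s _ =>
      intro a
      rw [map_inv, FreeGroup.lift_apply_of]
      show single (FreeGroup.of s)⁻¹ 1 * (a - f s) =
        single (FreeGroup.of s)⁻¹ 1 * (0 - f s) + single (FreeGroup.of s)⁻¹ 1 * a
      rw [← mul_add]; congr 1; abel
    | mul x y hx hy =>
      intro a
      rw [map_mul, Equiv.Perm.mul_apply, Equiv.Perm.mul_apply, hx, hy a,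
        hx (FreeGroup.lift A y 0), mul_add, ← mul_assoc, sgl_mul, add_assoc]
  refine ⟨fun x => FreeGroup.lift A x 0, fun x y => ?_, fun s => by simp [A]⟩
  show FreeGroup.lift A (x * y) 0 = _
  rw [map_mul, Equiv.Perm.mul_apply, key]

lemma Coc.one {G : Type} [Group G] {β : G → RA G} (h : Coc β) : β 1 = 0 := by
  have := h 1 1
  rw [mul_one, ← MonoidAlgebra.one_def, one_mul] at this
  exact left_eq_add.1 this

lemma coc_ext {β β' : FreeGroup S → RA (FreeGroup S)} (h : Coc β) (h' : Coc β')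
    (e : ∀ s, β (FreeGroup.of s) = β' (FreeGroup.of s)) (x : FreeGroup S) : β x = β' x := by
  induction x using FreeGroup.induction_on with
  | C1 => rw [h.one, h'.one]
  | of s => exact e s
  | inv_of s hs =>
    have h1 := h (FreeGroup.of s)⁻¹ (FreeGroup.of s)
    have h2 := h' (FreeGroup.of s)⁻¹ (FreeGroup.of s)
    rw [inv_mul_cancel, h.one] at h1
    rw [inv_mul_cancel, h'.one, ← hs] at h2
    exact add_right_cancel (h1.symm.trans h2)
  | mul x y hx hy => rw [h, h', hx, hy]

/-- Some cocycle value has a nonzero sum of coefficients on the powers of `w`. -/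
lemma exists_sg [Fintype S] {w : FreeGroup S} (hw : w ≠ 1) : ∃ D ∈ Vals w, sg w D ≠ 0 := by
  classical
  by_contra hne
  push Not at hne
  let a : Multiplicative ℤ →* Equiv.Perm (FreeGroup S) :=
    (MulAction.toPermHom (FreeGroup S) (FreeGroup S)).comp (zpowersHom _ w)
  have ha : ∀ k z, a k z = w ^ k.toAdd * z := fun _ _ => rfl
  obtain ⟨ψ, hψ⟩ := exists_equivariant a Set.univ fun k z _ hk => by
    rw [ha, mul_eq_right] at hk
    by_contra h0
    exact hw ((IsMulTorsionFree.zpow_eq_one_iff_left (n := k.toAdd) h0).1 hk)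
  let l : FreeGroup S → ℝ := fun x => ((ψ x).toAdd : ℤ)
  have hl : ∀ (k : ℤ) x, l (w ^ k * x) = k + l x := fun k x => by
    have := hψ (Multiplicative.ofAdd k) x trivial
    rw [ha, toAdd_ofAdd] at this
    simp only [l, this, toAdd_mul, toAdd_ofAdd, Int.cast_add]
  choose β hβ hβs using fun s : S => exists_coc (S := S) fun t => if t = s then 1 else 0
  have fox : (single w 1 - 1 : RA (FreeGroup S)) =
      ∑ s, β s w * (single (FreeGroup.of s) 1 - 1) := by
    refine coc_ext coc_sub (β' := fun x => ∑ s, β s x * (single (FreeGroup.of s) 1 - 1))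
      (fun x y => ?_) (fun t => ?_) w
    · simp only [hβ _ x y, add_mul, Finset.sum_add_distrib, Finset.mul_sum, mul_assoc]
    · simp [hβs]
  have h1 := congrArg (lin l) fox
  rw [map_sum, Finset.sum_eq_zero, map_sub, MonoidAlgebra.one_def, lin_single, lin_single] at h1
  · have := hl 1 1
    simp only [zpow_one, mul_one, Int.cast_one] at this
    simp [this] at h1
  · intro s _
    rw [mul_sub, mul_one, map_sub, lin_mul_single, ← lin_sub]
    refine lin_eq_zero (w := w) (fun y => hne _ (vals_mul ⟨_, hβ s, rfl⟩ _)) _ ?_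
    rintro _ ⟨k, rfl⟩ x
    simp only [mul_assoc, hl]
    ring

lemma avg_vals (hP : PPStmt) (hW : WordStmt) {w : FreeGroup S} (hw : Prim w)
    (a : RA (FreeGroup S)) : ∃ C : ℝ, ∀ K : ℕ, ∃ Y : RA (FreeGroup S),
      ∑ k ∈ Finset.range K, single (w ^ k)⁻¹ 1 * a * single (w ^ k) 1 - (K * sg w a) • 1 - Y
        ∈ Vals w ∧ ∀ ξ, Supp (N0 S) ξ → ‖Pj Y ξ‖ ≤ C * √K * ‖ξ‖ := by
  classical
  induction a using MonoidAlgebra.induction_linear with
  | zero => exact ⟨0, fun K => ⟨0, by simp, by simp⟩⟩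
  | add b c hb hc =>
    obtain ⟨B, hB⟩ := hb
    obtain ⟨C, hC⟩ := hc
    refine ⟨B + C, fun K => ?_⟩
    obtain ⟨Y, hY, hY'⟩ := hB K
    obtain ⟨Z, hZ, hZ'⟩ := hC K
    refine ⟨Y + Z, ?_, fun ξ hξ => ?_⟩
    · convert add_mem hY hZ using 1
      simp only [mul_add, add_mul, Finset.sum_add_distrib, map_add, add_smul]
      abel
    · rw [map_add, add_apply]
      refine (norm_add_le _ _).trans ?_
      have := add_le_add (hY' ξ hξ) (hZ' ξ hξ)
      linarith
  | single q r =>
    refine ⟨2 * |r|, fun K => ?_⟩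
    by_cases hq : q ∈ Subgroup.zpowers w
    · refine ⟨0, ?_, fun ξ _ => by simp; positivity⟩
      have e : ∀ k : ℕ, (w ^ k)⁻¹ * q * w ^ k = q := fun k => by
        obtain ⟨j, rfl⟩ := hq
        group
      have := Submodule.smul_mem _ (K * r : ℝ) (vals_zpow hq)
      convert this using 1
      simp only [MonoidAlgebra.single_mul_single, e, sg, lin_single, hq, if_true, one_mul,
        mul_one, Finset.sum_const, Finset.card_range, smul_eq_mul, sub_zero, smul_sub,
        MonoidAlgebra.smul_single, nsmul_eq_mul]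
    · refine ⟨∑ k ∈ Finset.range K, single ((w ^ k)⁻¹ * q * w ^ k) r, ?_, fun ξ hξ => ?_⟩
      · simp [MonoidAlgebra.single_mul_single, sg, lin_single, hq]
      · have h1 : w ≠ 1 := fun h => hw 1 2 le_rfl (by simp [h])
        have hi := pr_inj (inj_of_not_mem h1 (fun z k hk h => hw z k hk h.symm) hq)
        have := avg_bound hP hW hi K hξ
        simp only [map_sum, Pj_single, sum_apply,
          smul_apply, ← Finset.smul_sum, norm_smul, Real.norm_eq_abs]
        have := mul_le_mul_of_nonneg_left this (abs_nonneg r)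
        linarith

end Fox

theorem gap (hP : PPStmt) (hW : WordStmt) : GapStmt := by
  intro S _ w hw
  have h1 : w ≠ 1 := fun h => hw 1 2 le_rfl (by simp [h])
  obtain ⟨D, hD, hs⟩ := exists_sg h1
  obtain ⟨C, hC⟩ := avg_vals hP hW hw D
  obtain ⟨n, hn⟩ := exists_nat_gt (2 * |C| / |sg w D|)
  have hs' : 0 < |sg w D| := abs_pos.2 hs
  have hn0 : (0 : ℝ) < n := lt_of_le_of_lt (by positivity) hn
  obtain ⟨Y, hY, hY'⟩ := hC (n ^ 2)
  have h2 : ∑ k ∈ Finset.range (n ^ 2), single (w ^ k)⁻¹ 1 * D * single (w ^ k) 1 ∈ Vals w :=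
    Submodule.sum_mem _ fun k _ => vals_mul (vals_left (inv_mem (Subgroup.npow_mem_zpowers w k)) hD) _
  set c : ℝ := ((n ^ 2 : ℕ) : ℝ) * sg w D with hc
  have hc0 : c ≠ 0 := by rw [hc]; push_cast; positivity
  obtain ⟨β, hβ, hβw⟩ := Submodule.smul_mem _ c⁻¹ (sub_mem h2 hY)
  refine ⟨β, -(c⁻¹ • Y), hβ, ?_, fun ξ hξ => ?_⟩
  · rw [hβw, sub_sub, sub_sub_cancel, smul_add, smul_smul, inv_mul_cancel₀ hc0, one_smul,
      sub_neg_eq_add]
  · have h3 := hY' ξ hξ
    rw [map_neg, map_smul, neg_apply, norm_neg, smul_apply,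
      norm_smul, norm_inv, Real.norm_eq_abs, inv_mul_le_iff₀ (abs_pos.2 hc0)]
    refine h3.trans ?_
    rw [← mul_assoc]
    refine mul_le_mul_of_nonneg_right ?_ (norm_nonneg _)
    rw [hc, abs_mul]
    push_cast
    rw [Real.sqrt_sq hn0.le, abs_of_pos (pow_pos hn0 2)]
    rw [div_lt_iff₀ hs'] at hn
    have := le_abs_self C
    nlinarith

end

end Pool.Agent.MP_494aff_an.Pinch

end MrgPart1

-- ======== part 2: formerly Pool.Agent.MP_494aff_an.pinch.Lim
section MrgPart2

-- ======== part 0: formerly Pool.Agent.MP_494aff_an.pinch.Spec2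
section MrgPart0

/-! Shared objects and statements for towers. -/

open Monoid
open MonoidAlgebra (single)

namespace Pool.Agent.MP_494aff_an.Pinch

noncomputable section

/-- `x` has infinite order. -/
def InfOrd {G : Type} [Group G] (x : G) : Prop := ∀ k : ℤ, x ^ k = 1 → k = 0

/-- `x` and `y` freely generate a free group of rank two (basis `x⁻¹ * y`, `x`). -/
def Fr {G : Type} [Group G] (x y : G) : Prop := Function.Injective (pr (x⁻¹ * y) x)

/-- A unitary of `LL G`. -/
def UL {G : Type} [Group G] (u : Op G) : Prop := u ∈ LL G ∧ star u * u = 1 ∧ u * star u = 1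

/-- An isomorphism of the von Neumann algebras of `G'` and `G` that is the identity on `Q` and
sends `a' l` to a unitary conjugate of `a l`. -/
def Sim {Q L G G' : Type} [Group Q] [Group G] [Group G'] (g : Q →* G) (a : L → G) (g' : Q →* G')
    (a' : L → G') : Prop :=
  ∃ π : G' →* Op G, Gen π ∧ (∀ q, π (g' q) = lam (g q)) ∧
    ∀ l, ∃ u, UL u ∧ π (a' l) = u * lam (a l) * star u

/-- `Sim` without a fixed group. -/
abbrev Sim0 {L G G' : Type} [Group G] [Group G'] (a : L → G) (a' : L → G') : Prop :=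
  Sim (1 : Unit →* G) a (1 : Unit →* G') a'

/-- `Sim` without a fixed group and without marked elements. -/
abbrev Eqv (G G' : Type) [Group G] [Group G'] : Prop :=
  Sim0 (Empty.elim : Empty → G) (Empty.elim : Empty → G')

/-- Two vertices `P`, `Q`, a base edge with group `K`, further edges `L` with cyclic groups. -/
structure AttK {K P Q G L : Type} [Group K] [Group P] [Group Q] [Group G] (i : K →* P)
    (j : K →* Q) (a : L → P) (u : L → Q) (f : P →* G) (g : Q →* G) (t : L → G) : Prop where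
  comm0 : ∀ x, f (i x) = g (j x)
  comm : ∀ l, f (a l) = t l * g (u l) * (t l)⁻¹
  lift : ∀ (M : Type) [Group M] (φ : P →* M) (ψ : Q →* M) (τ : L → M),
    (∀ x, φ (i x) = ψ (j x)) → (∀ l, φ (a l) = τ l * ψ (u l) * (τ l)⁻¹) →
    ∃ π : G →* M, (∀ p, π (f p) = φ p) ∧ (∀ q, π (g q) = ψ q) ∧ ∀ l, π (t l) = τ l
  gen : ∀ T : Subgroup G, (∀ p, f p ∈ T) → (∀ q, g q ∈ T) → (∀ l, t l ∈ T) → ∀ z, z ∈ T

/-- Two vertices `P`, `Q`, edges `I` with cyclic groups, base edge `b`. -/
structure Att {P Q G I : Type} [Group P] [Group Q] [Group G] (a : I → P) (u : I → Q) (b : I)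
    (f : P →* G) (g : Q →* G) (t : I → G) : Prop where
  base : t b = 1
  comm : ∀ i, f (a i) = t i * g (u i) * (t i)⁻¹
  lift : ∀ (M : Type) [Group M] (φ : P →* M) (ψ : Q →* M) (τ : I → M), τ b = 1 →
    (∀ i, φ (a i) = τ i * ψ (u i) * (τ i)⁻¹) →
    ∃ π : G →* M, (∀ p, π (f p) = φ p) ∧ (∀ q, π (g q) = ψ q) ∧ ∀ i, π (t i) = τ i
  gen : ∀ T : Subgroup G, (∀ p, f p ∈ T) → (∀ q, g q ∈ T) → (∀ i, t i ∈ T) → ∀ z, z ∈ T

/-- `q` is supported in the free group on `S`. -/
def InP {S ι : Type} (q : RA (FreeGroup (S ⊕ ι))) : Prop :=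
  ∀ x, q.coeff x ≠ 0 → x ∈ (FreeGroup.map (Sum.inl : S → S ⊕ ι)).range

open Classical in
/-- The letter attached to the port `i` (none for `i0`). -/
def sl (S : Type) {ι : Type} (i0 i : ι) : FreeGroup (S ⊕ ι) :=
  if i = i0 then 1 else FreeGroup.of (Sum.inr i)

open Classical in
/-- The gap for several ports. -/
def MGapStmt : Prop :=
  ∀ (S ι : Type) [Fintype S] [Fintype ι] (w : ι → FreeGroup S) (i0 : ι), Mal w →
    ∃ (β : ι → FreeGroup (S ⊕ ι) → RA (FreeGroup (S ⊕ ι)))
      (X : ι → ι → RA (FreeGroup (S ⊕ ι))), (∀ j, Coc (β j)) ∧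
      (∀ i j, β j (sl S i0 i * FreeGroup.map Sum.inl (w i) * (sl S i0 i)⁻¹) =
        single (sl S i0 i) 1 * ((if i = j then 1 else 0) - X i j)) ∧
      (∀ i j ξ, Supp (N0 (S ⊕ ι)) ξ → ‖Pj (X i j) ξ‖ ≤ 1 / (2 * Fintype.card ι) * ‖ξ‖) ∧
      (∀ i j, InP (X i j)) ∧ (∀ j s, InP (β j (FreeGroup.of (Sum.inl s)))) ∧
      ∀ j i, ∃ ζ : RA (FreeGroup (S ⊕ ι)), InP ζ ∧
        β j (FreeGroup.of (Sum.inr i)) = single (FreeGroup.of (Sum.inr i)) 1 * ζ

/-- One port is multiplied by the extra generator, the others are conjugated. -/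
def MFlexStmt : Prop :=
  ∀ (S ι : Type) [Finite S] [Finite ι] (w : ι → FreeGroup S) (i0 : ι), Mal w →
    Sim (pr (cc S) (io (w i0))) (fun i : {i // i ≠ i0} => io (w i))
      (pr (cc S) (io (w i0) * (cc S)⁻¹)) (fun i : {i // i ≠ i0} => io (w i))

/-- Replacing the vertex `P`. -/
def FGStmt : Prop :=
  ∀ (K P P' Q G G' L M : Type) [Group K] [Group P] [Group P'] [Group Q] [Group G] [Group G']
    [Finite L] (i : K →* P) (i' : K →* P') (j : K →* Q) (a : L → P) (a' : L → P') (u : L → Q)
    (f : P →* G) (g : Q →* G) (t : L → G) (f' : P' →* G') (g' : Q →* G') (t' : L → G')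
    (c : M → P) (c' : M → P'),
    AttK i j a u f g t → AttK i' j a' u f' g' t' → Function.Injective i → Function.Injective j →
    (∀ l, InfOrd (a l)) → (∀ l, InfOrd (u l)) → Sim i (Sum.elim a c) i' (Sum.elim a' c') →
    Sim g (f ∘ c) g' (f' ∘ c')

/-- Free abelian groups. -/
def AbelStmt : Prop := ∀ k : ℕ, 1 ≤ k → Eqv (Multiplicative (Fin k → ℤ)) (FreeGroup (Fin 1))

/-- The first outer vertex: all edges are moved to `x`, then resolved. -/
def FloorStmt : Prop :=
  ∀ (S I M H R G : Type) [Finite S] [Finite I] [Finite M] [Group H] [Group R] [Group G]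
    (w : I ⊕ M → FreeGroup S) (v : I → H) (b : I) (f : FreeGroup S →* G) (g : H →* G) (t : I → G)
    (x : H) (y : R), Mal w → (∀ i, ∃ z, Fr (v i) z ∧ Fr z x) → InfOrd y →
    Sim0 (fun _ : Unit => x) (fun _ : Unit => (Coprod.inl y : Coprod R (Multiplicative ℤ))) →
    Att (w ∘ Sum.inl) v b f g t →
    Sim0 (Sum.elim (f ∘ w ∘ Sum.inr) fun _ : Unit => g x)
      (Sum.elim (Coprod.inl ∘ w ∘ Sum.inr) fun _ : Unit => (Coprod.inr y : Coprod (FreeGroup S) R))

/-- A further outer vertex. -/
def AttachStmt : Prop :=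
  ∀ (S I M R B G G₁ : Type) [Finite S] [Finite I] [Finite M] [Group R] [Group B] [Group G]
    [Group G₁] (w : I ⊕ M → FreeGroup S) (a : I ⊕ M → G) (u : I → B) (b : I) (f : G →* G₁)
    (g : B →* G₁) (t : I → G₁), Mal w → (∀ i, InfOrd (u i)) →
    Sim0 a (Coprod.inl ∘ w : I ⊕ M → Coprod (FreeGroup S) (Coprod R (Multiplicative ℤ))) →
    Att (a ∘ Sum.inl) u b f g t →
    Sim g (f ∘ a ∘ Sum.inr)
      ((Coprod.inr : Coprod R B →* Coprod (FreeGroup S) (Coprod R B)).comp Coprod.inr)
      (Coprod.inl ∘ w ∘ Sum.inr)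

/-- The final statement. -/
def TowStmt : Prop := ∀ (G : Type) [Group G] (N : ℕ), Tow G N → VNIso G (FreeGroup (Fin N))

end

end Pool.Agent.MP_494aff_an.Pinch

end MrgPart0

-- ======== part 1: formerly Pool.Agent.MP_494aff_an.pinch.Lim
section MrgPart1

/-! Free pairs in free groups and in subgroups of their ultrapowers. -/

namespace Pool.Agent.MP_494aff_an.Pinch

namespace TowP

/-- No torsion, non commuting pairs are free, centralisers are abelian. -/
structure CT (G : Type) [Group G] : Prop where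
  tf : ∀ x : G, x ≠ 1 → InfOrd x
  fr : ∀ x y : G, x * y ≠ y * x → Function.Injective (pr x y)
  ct : ∀ x y z : G, x ≠ 1 → x * y = y * x → x * z = z * x → y * z = z * y

lemma pr_map {G G' : Type} [Group G] [Group G'] (φ : G →* G') (x y : G) (ω : Lm Unit) :
    φ (pr x y ω) = pr (φ x) (φ y) ω := by
  have : φ.comp (pr x y) = pr (φ x) (φ y) := by
    ext o
    cases o <;> simp [pr]
  exact DFunLike.congr_fun this ω

lemma ct_free (α : Type) : CT (FreeGroup α) where
  tf := fun x hx k hk => by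
    by_contra h0
    exact hx ((IsMulTorsionFree.zpow_eq_one_iff_left h0).1 hk)
  fr := fun x y h => pr_inj (inj_of_not_commute h)
  ct := fun x y z hx h1 h2 => by
    obtain ⟨c, a, b, ha, rfl⟩ := cyc_of_commute h1
    obtain ⟨d, e, f, he, rfl⟩ := cyc_of_commute h2
    by_cases hcd : c * d = d * c
    · exact ((show Commute c d from hcd).zpow_zpow b f).eq
    · exfalso
      have hi := inj_of_not_commute hcd
      have h3 : (FreeGroup.of 0 ^ a : FreeGroup (Fin 2)) = FreeGroup.of 1 ^ e :=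
        hi (by simpa using ha.symm.trans he)
      have h4 := congrArg (FreeGroup.lift ![c, 1]) h3
      simp only [map_zpow, FreeGroup.lift_apply_of, Matrix.cons_val_zero, Matrix.cons_val_one,
        one_zpow] at h4
      exact hx (ha.trans h4)

lemma lim_key {G : Type} [Group G] (h : Lim G) :
    ∃ (U : Ultrafilter ℕ) (s : ℕ → FreeGroup G →* FreeGroup (Fin 2)), ∀ ω ω' : FreeGroup G,
      FreeGroup.lift id ω = FreeGroup.lift id ω' ↔ ∀ᶠ n in U, s n ω = s n ω' := by
  obtain ⟨U, φ, hφ⟩ := h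
  have h1 : ∀ x : G, ∃ r : ℕ → FreeGroup (Fin 2), φ x = (r : Filter.Germ (U : Filter ℕ) _) :=
    fun x => Filter.Germ.inductionOn (p := fun y => ∃ r : ℕ → FreeGroup (Fin 2), y = r) (φ x)
      fun r => ⟨r, rfl⟩
  choose r hr using h1
  let s : ℕ → FreeGroup G →* FreeGroup (Fin 2) := fun n => FreeGroup.lift fun x => r x n
  have h2 : φ.comp (FreeGroup.lift id) =
      (Filter.Germ.coeMulHom (U : Filter ℕ)).comp (MonoidHom.pi s) := by
    ext x
    simp only [MonoidHom.comp_apply, FreeGroup.lift_apply_of, id, hr]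
    congr 1
    ext n
    simp [s]
  refine ⟨U, s, fun ω ω' => ?_⟩
  rw [← hφ.eq_iff, ← MonoidHom.comp_apply, ← MonoidHom.comp_apply, h2]
  exact Filter.Germ.coe_eq

lemma ct_lim {G : Type} [Group G] (h : Lim G) : CT G := by
  obtain ⟨U, s, hs⟩ := lim_key h
  have hne : ∀ ω ω' : FreeGroup G, FreeGroup.lift id ω ≠ FreeGroup.lift id ω' →
      ∀ᶠ n in U, s n ω ≠ s n ω' := fun ω ω' h =>
    Ultrafilter.eventually_not.2 fun h' => h ((hs ω ω').2 h')
  have F := ct_free (Fin 2)
  refine ⟨fun x hx k hk => ?_, fun x y hxy => ?_, fun x y z hx h1 h2 => ?_⟩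
  · have h1 := hne (FreeGroup.of x) 1 (by simpa using hx)
    have h2 := (hs (FreeGroup.of x ^ k) 1).1 (by simpa using hk)
    obtain ⟨n, a, b⟩ := (h1.and h2).exists
    exact F.tf _ (by simpa using a) k (by simpa using b)
  · intro ω ω' he
    have h1 := hne (FreeGroup.of x * FreeGroup.of y) (FreeGroup.of y * FreeGroup.of x)
      (by simpa using hxy)
    have h2 := (hs (pr (FreeGroup.of x) (FreeGroup.of y) ω)
      (pr (FreeGroup.of x) (FreeGroup.of y) ω')).1 (by simpa [pr_map] using he)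
    obtain ⟨n, a, b⟩ := (h1.and h2).exists
    rw [pr_map, pr_map] at b
    exact F.fr _ _ (by simpa using a) b
  · have h0 := hne (FreeGroup.of x) 1 (by simpa using hx)
    have h3 := (hs (FreeGroup.of x * FreeGroup.of y) (FreeGroup.of y * FreeGroup.of x)).1
      (by simpa using h1)
    have h4 := (hs (FreeGroup.of x * FreeGroup.of z) (FreeGroup.of z * FreeGroup.of x)).1
      (by simpa using h2)
    have h5 := (hs (FreeGroup.of y * FreeGroup.of z) (FreeGroup.of z * FreeGroup.of y)).2 (by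
      filter_upwards [h0, h3, h4] with n a b c
      simp only [map_mul, map_one] at a b c ⊢
      exact F.ct _ _ _ a b c)
    simpa using h5

lemma CT.fr' {G : Type} [Group G] (h : CT G) {x y : G} (hxy : x * y ≠ y * x) : Fr x y :=
  h.fr _ _ fun e => hxy (by
    rw [mul_inv_cancel_left, mul_assoc, inv_mul_eq_iff_eq_mul] at e
    exact e.symm)

/-- In a non abelian group of this kind two nontrivial elements are joined by two free pairs. -/
lemma CT.exists_mid {G : Type} [Group G] (h : CT G) (hn : ¬ ∀ a b : G, a * b = b * a) {v x : G}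
    (hv : v ≠ 1) (hx : x ≠ 1) : ∃ z, Fr v z ∧ Fr z x := by
  have key : ∀ c : G, c ≠ 1 → ∃ a, c * a ≠ a * c := fun c hc => by
    by_contra hh
    push Not at hh
    exact hn fun a b => h.ct c a b hc (hh a) (hh b)
  obtain ⟨a, ha⟩ := key v hv
  obtain ⟨b, hb⟩ := key x hx
  by_cases h1 : x * a = a * x
  · by_cases h2 : v * b = b * v
    · refine ⟨a * b, h.fr' fun e => ha ?_, h.fr' fun e => hb ?_⟩
      · rw [mul_assoc, ← h2, ← mul_assoc, ← mul_assoc] at e
        exact mul_right_cancel e
      · rw [← mul_assoc, h1, mul_assoc, mul_assoc] at e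
        exact (mul_left_cancel e).symm
    · exact ⟨b, h.fr' h2, h.fr' (Ne.symm hb)⟩
  · exact ⟨a, h.fr' ha, h.fr' (Ne.symm h1)⟩

end TowP

end Pool.Agent.MP_494aff_an.Pinch

end MrgPart1

-- marker of a merged file
example : 731051 + 316554 = 731051 + 316554 := rfl

end MrgPart2

-- ======== part 3: formerly Pool.Agent.MP_494aff_an.pinch.Glue
section MrgPart3

/-! Gluing an automorphism of one side of an amalgam with the identity of the other side. -/

open scoped InnerProductSpace ComplexConjugate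

namespace Pool.Agent.MP_494aff_an.Pinch

noncomputable section

namespace Gl

section Comb

variable {K P Q G : Type} [Group K] [Group P] [Group Q] [Group G]

/-- Alternating products, sorted by the side of the first letter. -/
inductive Typ (i : K →* P) (j : K →* Q) (f : P →* G) (g : Q →* G) : Option Bool → G → Prop
  | base (x : K) : Typ i j f g none (f (i x))
  | left (p : P) (z : G) (t : Option Bool) : p ∉ i.range → Typ i j f g t z → t ≠ some true →
      Typ i j f g (some true) (f p * z)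
  | right (q : Q) (z : G) (t : Option Bool) : q ∉ j.range → Typ i j f g t z → t ≠ some false →
      Typ i j f g (some false) (g q * z)

variable {i : K →* P} {j : K →* Q} {f : P →* G} {g : Q →* G}

lemma Typ.base_mul (hc : ∀ x, f (i x) = g (j x)) (x : K) {t : Option Bool} {z : G}
    (h : Typ i j f g t z) : Typ i j f g t (f (i x) * z) := by
  cases h with
  | base y =>
    rw [← map_mul, ← map_mul]
    exact Typ.base _
  | left p z t hp hz ht =>
    rw [← mul_assoc, ← map_mul]
    refine Typ.left _ z t (fun hh => hp ?_) hz ht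
    exact (Subgroup.mul_mem_cancel_left _ (⟨x, rfl⟩ : i x ∈ i.range)).1 hh
  | right q z t hq hz ht =>
    rw [hc, ← mul_assoc, ← map_mul]
    refine Typ.right _ z t (fun hh => hq ?_) hz ht
    exact (Subgroup.mul_mem_cancel_left _ (⟨x, rfl⟩ : j x ∈ j.range)).1 hh

lemma Typ.f_mul (hc : ∀ x, f (i x) = g (j x)) (p : P) {t : Option Bool} {z : G}
    (h : Typ i j f g t z) : ∃ t', Typ i j f g t' (f p * z) := by
  by_cases hp : p ∈ i.range
  · obtain ⟨x, rfl⟩ := hp
    exact ⟨t, h.base_mul hc x⟩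
  by_cases ht : t = some true
  · subst ht
    cases h with
    | left p' z t hp' hz ht =>
      rw [← mul_assoc, ← map_mul]
      by_cases hpp : p * p' ∈ i.range
      · obtain ⟨x, hx⟩ := hpp
        rw [← hx]
        exact ⟨t, hz.base_mul hc x⟩
      · exact ⟨_, Typ.left _ z t hpp hz ht⟩
  · exact ⟨_, Typ.left p z t hp h ht⟩

lemma Typ.g_mul (hc : ∀ x, f (i x) = g (j x)) (q : Q) {t : Option Bool} {z : G}
    (h : Typ i j f g t z) : ∃ t', Typ i j f g t' (g q * z) := by
  by_cases hq : q ∈ j.range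
  · obtain ⟨x, rfl⟩ := hq
    rw [← hc]
    exact ⟨t, h.base_mul hc x⟩
  by_cases ht : t = some false
  · subst ht
    cases h with
    | right q' z t hq' hz ht =>
      rw [← mul_assoc, ← map_mul]
      by_cases hqq : q * q' ∈ j.range
      · obtain ⟨x, hx⟩ := hqq
        rw [← hx, ← hc]
        exact ⟨t, hz.base_mul hc x⟩
      · exact ⟨_, Typ.right _ z t hqq hz ht⟩
  · exact ⟨_, Typ.right q z t hq h ht⟩

lemma exists_typ (hA : Amal i j f g) (z : G) : ∃ t, Typ i j f g t z := by
  let T : Subgroup G :=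
    { carrier := {z | (∀ t y, Typ i j f g t y → ∃ t', Typ i j f g t' (z * y)) ∧
        ∀ t y, Typ i j f g t y → ∃ t', Typ i j f g t' (z⁻¹ * y)}
      one_mem' := ⟨fun t y h => ⟨t, by simpa using h⟩, fun t y h => ⟨t, by simpa using h⟩⟩
      mul_mem' := fun {a b} ha hb => ⟨fun t y h => by
          obtain ⟨t', h'⟩ := hb.1 t y h
          rw [mul_assoc]
          exact ha.1 t' _ h',
        fun t y h => by
          obtain ⟨t', h'⟩ := ha.2 t y h
          rw [mul_inv_rev, mul_assoc]
          exact hb.2 t' _ h'⟩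
      inv_mem' := fun {a} ha => ⟨ha.2, by simpa using ha.1⟩ }
  have hz : z ∈ T := hA.gen T
    (fun p => ⟨fun t y h => h.f_mul hA.comm p, fun t y h => by
      rw [← map_inv]; exact h.f_mul hA.comm _⟩)
    (fun q => ⟨fun t y h => h.g_mul hA.comm q, fun t y h => by
      rw [← map_inv]; exact h.g_mul hA.comm _⟩) z
  obtain ⟨t, ht⟩ := hz.1 none _ (Typ.base 1)
  exact ⟨t, by simpa using ht⟩

/-- The two factors as a family. -/
def Fam (P Q : Type) : Bool → Type
  | true => P
  | false => Q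

instance famGroup : ∀ b, Group (Fam P Q b)
  | true => (inferInstance : Group P)
  | false => (inferInstance : Group Q)

/-- The two inclusions as a family. -/
def famHom (i : K →* P) (j : K →* Q) : ∀ b, K →* Fam P Q b
  | true => i
  | false => j

open Monoid in
lemma nf (hA : Amal i j f g) (hi : Function.Injective i) (hj : Function.Injective j) :
    Function.Injective f ∧ ∀ b z, Typ i j f g (some b) z → z ≠ 1 := by
  have hφ : ∀ b, Function.Injective (famHom i j b) := fun b => by
    cases b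
    · exact hj
    · exact hi
  obtain ⟨Φ, hf, hg⟩ := hA.lift (PushoutI (famHom i j))
    (PushoutI.of (φ := famHom i j) true) (PushoutI.of (φ := famHom i j) false) fun x =>
      (PushoutI.of_apply_eq_base (famHom i j) true x).trans
        (PushoutI.of_apply_eq_base (famHom i j) false x).symm
  refine ⟨fun a b hab => PushoutI.of_injective hφ true
    ((hf a).symm.trans ((congrArg Φ hab).trans (hf b))), ?_⟩
  have key : ∀ t z, Typ i j f g t z → ∃ (w : CoprodI.Word (Fam P Q)) (x : K),
      PushoutI.Reduced (famHom i j) w ∧ w.fstIdx = t ∧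
        Φ z = PushoutI.ofCoprodI w.prod * PushoutI.base (famHom i j) x := by
    intro t z h
    induction h with
    | base x =>
      refine ⟨CoprodI.Word.empty, x, fun y hy => ?_, rfl, ?_⟩
      · simp [CoprodI.Word.empty] at hy
      · rw [hf, CoprodI.Word.prod_empty, map_one, one_mul]
        exact PushoutI.of_apply_eq_base (famHom i j) true x
    | left p z t hp _ ht ih =>
      obtain ⟨w, x, hw, hwt, hz⟩ := ih
      have h1 : (show Fam P Q true from p) ≠ 1 := fun h => hp (by
        have h' : p = 1 := h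
        rw [h']; exact one_mem _)
      refine ⟨CoprodI.Word.cons (i := true) p w (hwt ▸ ht) h1, x, fun y hy => ?_,
        CoprodI.Word.fstIdx_cons _ _ _ _, ?_⟩
      · rcases List.mem_cons.1 hy with rfl | hy
        · exact hp
        · exact hw y hy
      · rw [map_mul, hf, hz, CoprodI.Word.prod_cons, map_mul, PushoutI.ofCoprodI_of, mul_assoc]
        rfl
    | right q z t hq _ ht ih =>
      obtain ⟨w, x, hw, hwt, hz⟩ := ih
      have h1 : (show Fam P Q false from q) ≠ 1 := fun h => hq (by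
        have h' : q = 1 := h
        rw [h']; exact one_mem _)
      refine ⟨CoprodI.Word.cons (i := false) q w (hwt ▸ ht) h1, x, fun y hy => ?_,
        CoprodI.Word.fstIdx_cons _ _ _ _, ?_⟩
      · rcases List.mem_cons.1 hy with rfl | hy
        · exact hq
        · exact hw y hy
      · rw [map_mul, hg, hz, CoprodI.Word.prod_cons, map_mul, PushoutI.ofCoprodI_of, mul_assoc]
        rfl
  intro b z h hz
  obtain ⟨w, x, hw, hwt, hΦ⟩ := key _ z h
  rw [hz, map_one] at hΦ
  have := hw.eq_empty_of_mem_range hφ ⟨x⁻¹, by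
    rw [map_inv]; exact (eq_inv_of_mul_eq_one_left hΦ.symm).symm⟩
  rw [this] at hwt
  simp [CoprodI.Word.fstIdx, CoprodI.Word.empty] at hwt

end Comb

section Ind

variable {P G : Type} [Group P] [Group G] (f : P →* G) (hf : Function.Injective f)

lemma rho_emb (p : P) (η : H P) : rho (f p) (emb f hf η) = emb f hf (rho p η) := by
  have : (rho (f p) : Op G).comp (emb f hf) = (emb f hf).comp (rho p : Op P) :=
    op_ext fun x => by simp [emb_dl, rho_dl]
  exact congrArg (fun T : H P →L[ℂ] H G => T η) this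

lemma on_ind {m : Op P} (hm : m ∈ LL P) (hu : ∀ ξ η, ⟪m ξ, m η⟫_ℂ = ⟪ξ, η⟫_ℂ) :
    Orthonormal ℂ fun z : G => rho z⁻¹ (emb f hf (m (dl 1))) := by
  classical
  rw [orthonormal_iff_ite]
  intro z y
  have h1 : rho y⁻¹ (emb f hf (m (dl 1))) = rho z⁻¹ (rho (z * y⁻¹) (emb f hf (m (dl 1)))) := by
    rw [← mul_ap, ← map_mul, inv_mul_cancel_left]
  rw [h1, rho_inner]
  by_cases hr : z * y⁻¹ ∈ f.range
  · obtain ⟨p, hp⟩ := hr
    rw [← hp, rho_emb, emb_inner, rho_LL hm, hu, rho_dl, inner_dl, dl_apply]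
    have : (1 = 1 * p⁻¹) ↔ z = y := by
      rw [one_mul, eq_comm, inv_eq_one, ← mul_inv_eq_one (a := z), ← hp]
      exact ⟨fun h => by rw [h, map_one], fun h => hf (by rw [h, map_one])⟩
    simp only [this]
  · have hs : Supp (f.range : Set G) (emb f hf (m (dl 1))) :=
      (supp_emb f hf (supp_univ _)).mono (by rintro _ ⟨p, -, rfl⟩; exact ⟨p, rfl⟩)
    rw [if_neg (fun h => hr (by rw [h, mul_inv_cancel]; exact one_mem _))]
    refine inner_eq_zero_of_supp hs (Y := (f.range : Set G)ᶜ) (supp_rho _ hs fun x hx hx' => hr ?_)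
      disjoint_compl_right
    have := mul_mem (inv_mem hx') hx
    simpa using this

/-- The operator induced from a unitary of the algebra of a subgroup. -/
def ind {m : Op P} (hm : m ∈ LL P) (hu : ∀ ξ η, ⟪m ξ, m η⟫_ℂ = ⟪ξ, η⟫_ℂ) : Op G :=
  ofON _ (on_ind f hf hm hu)

variable {m : Op P} (hm : m ∈ LL P) (hu : ∀ ξ η, ⟪m ξ, m η⟫_ℂ = ⟪ξ, η⟫_ℂ)

lemma ind_dl (z : G) : ind f hf hm hu (dl z) = rho z⁻¹ (emb f hf (m (dl 1))) := ofON_dl _ _ z

lemma ind_one : ind f hf hm hu (dl 1) = emb f hf (m (dl 1)) := by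
  rw [ind_dl, inv_one, map_one, one_ap]

lemma ind_inner (ξ η : H G) : ⟪ind f hf hm hu ξ, ind f hf hm hu η⟫_ℂ = ⟪ξ, η⟫_ℂ :=
  ofON_inner _ _ ξ η

lemma ind_mem : ind f hf hm hu ∈ LL G :=
  mem_LL.2 fun y => op_ext fun z => by
    rw [mul_ap, mul_ap, rho_dl, ind_dl, ind_dl, ← mul_ap, ← map_mul, mul_inv_rev, inv_inv]

lemma ind_emb (η : H P) : ind f hf hm hu (emb f hf η) = emb f hf (m η) := by
  have : (ind f hf hm hu).comp (emb f hf) = (emb f hf).comp m :=
    op_ext fun x => by
      rw [ContinuousLinearMap.comp_apply, ContinuousLinearMap.comp_apply, emb_dl, ind_dl,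
        ← map_inv, rho_emb, ← LL_dl hm]
  exact congrArg (fun T : H P →L[ℂ] H G => T η) this

end Ind

lemma gen_inner {P G : Type} [Group P] [Group G] {α : P →* Op G}
    (h : ∀ p, star (α p) = α p⁻¹) (p : P) (ξ η : H G) : ⟪α p ξ, α p η⟫_ℂ = ⟪ξ, η⟫_ℂ :=
  inner_of_star_mul_self (by rw [h, ← map_mul, inv_mul_cancel, map_one]) ξ η

/-- The induced representation. -/
def indHom {P G : Type} [Group P] [Group G] (f : P →* G) (hf : Function.Injective f)
    {α : P →* Op P} (hα : Gen α) : P →* Op G where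
  toFun p := ind f hf (hα.mem p) (gen_inner hα.star_eq p)
  map_one' := LL_ext (ind_mem _ _ _ _) (one_mem _) (by
    rw [ind_one, map_one, one_ap, one_ap, emb_dl, map_one])
  map_mul' p q := LL_ext (ind_mem _ _ _ _) (mul_mem (ind_mem _ _ _ _) (ind_mem _ _ _ _)) (by
    rw [mul_ap, ind_one, ind_one, ind_emb, map_mul, mul_ap])

end Gl

open Gl in
theorem glue : GlueStmt := by
  intro K P Q G G' _ _ _ _ _ i i' j f g f' g' hA hA' hi hj α hα hii
  obtain ⟨hf, hnf⟩ := nf hA hi hj
  set I : P →* Op G := indHom f hf hα with hI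
  have I_mem : ∀ p, I p ∈ LL G := fun p => ind_mem f hf (hα.mem p) (gen_inner hα.star_eq p)
  have I_one : ∀ p, I p (dl 1) = emb f hf (α p (dl 1)) := fun p =>
    ind_one f hf (hα.mem p) (gen_inner hα.star_eq p)
  have I_star : ∀ p, star (I p) = I p⁻¹ := fun p =>
    star_eq_of_inner (ind_inner f hf (hα.mem p) (gen_inner hα.star_eq p))
      (by rw [← map_mul, mul_inv_cancel, map_one])
  have I_base : ∀ x, I (i' x) = lam (f (i x)) := fun x =>
    LL_ext (I_mem _) (lam_mem _) (by rw [I_one, hii, lam_one, lam_one, emb_dl])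
  obtain ⟨π₀, h1, h2⟩ := hA'.lift (Op G)ˣ I.toHomUnits
    ((lam : G →* Op G).comp g).toHomUnits fun x => Units.ext (by
      simp only [MonoidHom.coe_toHomUnits, MonoidHom.comp_apply]
      rw [I_base, hA.comm])
  set π : G' →* Op G := (Units.coeHom (Op G)).comp π₀ with hπ
  have π_f : ∀ p, π (f' p) = I p := fun p => by
    simp only [hπ, MonoidHom.comp_apply, h1, Units.coeHom_apply, MonoidHom.coe_toHomUnits]
  have π_g : ∀ q, π (g' q) = lam (g q) := fun q => by
    simp only [hπ, MonoidHom.comp_apply, h2, Units.coeHom_apply, MonoidHom.coe_toHomUnits]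
  have hms : ∀ z, π z ∈ LL G ∧ star (π z) = π z⁻¹ := by
    let T : Subgroup G' :=
      { carrier := {z | π z ∈ LL G ∧ star (π z) = π z⁻¹}
        one_mem' := ⟨by rw [map_one]; exact one_mem _, by rw [inv_one, map_one, star_one]⟩
        mul_mem' := fun {a b} ha hb => ⟨by rw [map_mul]; exact mul_mem ha.1 hb.1, by
          rw [map_mul, star_mul, ha.2, hb.2, mul_inv_rev, map_mul]⟩
        inv_mem' := fun {a} ha => ⟨by rw [← ha.2]; exact star_mem ha.1, by
          rw [← ha.2, star_star, inv_inv]⟩ }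
    exact hA'.gen T
      (fun p => ⟨by rw [π_f]; exact I_mem p, by rw [← map_inv, π_f, π_f, I_star]⟩)
      (fun q => ⟨by rw [π_g]; exact lam_mem _, by rw [← map_inv, π_g, π_g, star_lam, map_inv g]⟩)
  have hoff : ∀ p, p ∉ i'.range → Supp (i.range : Set P)ᶜ (α p (dl 1)) := by
    intro p hp y hy
    obtain ⟨x, rfl⟩ : y ∈ i.range := by simpa using hy
    rw [← inner_dl, ← lam_one, ← hii, ← inner_star, hα.star_eq, ← mul_ap, ← map_mul, inner_dl]
    refine hα.trace _ fun h => hp ⟨x, ?_⟩
    exact inv_mul_eq_one.1 h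
  have hsupp : ∀ t z, Typ i' j f' g' t z → Supp {y | Typ i j f g t y} (π z (dl 1)) := by
    intro t z h
    induction h with
    | base x =>
      rw [π_f, I_base, lam_one]
      exact supp_dl (Typ.base x)
    | left p z t hp _ ht ih =>
      rw [map_mul, mul_ap, π_f]
      refine supp_LL (I_mem p) (X := f '' (i.range : Set P)ᶜ) ?_ ih ?_
      · rw [I_one]
        exact supp_emb f hf (hoff p hp)
      · rintro _ ⟨p', hp', rfl⟩ y hy
        exact Typ.left p' y t hp' hy ht
    | right q z t hq _ ht ih =>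
      rw [map_mul, mul_ap, π_g]
      exact supp_lam _ ih fun y hy => Typ.right q y t hq hy ht
  refine ⟨π, fun z => (hms z).1, fun z => (hms z).2, fun z hz => ?_, ?_⟩
  · obtain ⟨t, ht⟩ := exists_typ hA' z
    cases t with
    | none =>
      cases ht with
      | base x =>
        rw [π_f, I_base, lam_one]
        refine dl_ne fun h => hz ?_
        have hx : x = 1 := hi (hf (by rw [← h, map_one, map_one]))
        rw [hx, map_one, map_one]
    | some b => exact hsupp _ z ht 1 fun h => hnf b 1 h rfl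
  · set V : Submodule ℂ (H G) := Submodule.span ℂ (Set.range fun z => π z (dl 1)) with hV
    have hV1 : ∀ z, π z (dl 1) ∈ V := fun z => Submodule.subset_span ⟨z, rfl⟩
    have ext_cl : ∀ A : Op G, (∀ z, A (π z (dl 1)) ∈ closure (V : Set (H G))) →
        ∀ ξ ∈ closure (V : Set (H G)), A ξ ∈ closure (V : Set (H G)) := by
      intro A hA ξ hξ
      have h3 : ∀ η ∈ V, A η ∈ V.topologicalClosure := by
        intro η hη
        induction hη using Submodule.span_induction with
        | mem _ h => obtain ⟨z, rfl⟩ := h; exact hA z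
        | zero => rw [map_zero]; exact zero_mem _
        | add a b _ _ ha hb => rw [map_add]; exact add_mem ha hb
        | smul c a _ ha => rw [map_smul]; exact Submodule.smul_mem _ c ha
      have h4 := map_mem_closure A.continuous hξ (t := closure (V : Set (H G))) h3
      rwa [closure_closure] at h4
    have hg1 : ∀ q, ∀ ξ ∈ closure (V : Set (H G)), lam (g q) ξ ∈ closure (V : Set (H G)) :=
      fun q => ext_cl _ fun z => subset_closure (by
        rw [← π_g, ← mul_ap, ← map_mul]; exact hV1 _)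
    have hf1 : ∀ p, ∀ ξ ∈ closure (V : Set (H G)), lam (f p) ξ ∈ closure (V : Set (H G)) := by
      refine fun p => ext_cl _ fun z => ?_
      have h5 : ∀ η ∈ Submodule.span ℂ (Set.range fun p => α p (dl 1)), ∃ A ∈ LL G,
          A (dl 1) = emb f hf η ∧ A (π z (dl 1)) ∈ V := by
        intro η hη
        induction hη using Submodule.span_induction with
        | mem _ h =>
          obtain ⟨p', rfl⟩ := h
          exact ⟨I p', I_mem p', I_one p', by rw [← π_f, ← mul_ap, ← map_mul]; exact hV1 _⟩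
        | zero => exact ⟨0, zero_mem _, by simp, by simp⟩
        | add a b _ _ ha hb =>
          obtain ⟨A, hA1, hA2, hA3⟩ := ha
          obtain ⟨B, hB1, hB2, hB3⟩ := hb
          exact ⟨A + B, add_mem hA1 hB1, by rw [map_add, ← hA2, ← hB2]; rfl, add_mem hA3 hB3⟩
        | smul c a _ ha =>
          obtain ⟨A, hA1, hA2, hA3⟩ := ha
          exact ⟨c • A, SMulMemClass.smul_mem c hA1, by rw [map_smul, ← hA2]; rfl,
            V.smul_mem c hA3⟩
      refine Metric.mem_closure_iff.2 fun ε hε => ?_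
      obtain ⟨η, hη, hd⟩ := Metric.mem_closure_iff.1 (hα.dense (dl p)) ε hε
      obtain ⟨A, hA1, hA2, hA3⟩ := h5 η hη
      refine ⟨_, hA3, ?_⟩
      have h6 := norm_mul_hat (sub_mem (lam_mem (f p)) hA1) (hms z).1
      have h7 : ‖π z‖ ≤ 1 := opNorm_le_one (by
        rw [(hms z).2, ← map_mul, inv_mul_cancel, map_one])
      have h8 : (lam (f p) - A) (dl 1) = emb f hf (dl p - η) := by
        rw [map_sub, sub_apply, lam_one, hA2, emb_dl]
      rw [h8, emb_norm, sub_apply] at h6
      rw [dist_eq_norm] at hd ⊢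
      calc _ ≤ ‖dl p - η‖ * ‖π z‖ := h6
        _ ≤ ‖dl p - η‖ * 1 := by gcongr
        _ < ε := by rwa [mul_one]
    let T : Subgroup G :=
      { carrier := {y | (∀ ξ ∈ closure (V : Set (H G)), lam y ξ ∈ closure (V : Set (H G))) ∧
          ∀ ξ ∈ closure (V : Set (H G)), lam y⁻¹ ξ ∈ closure (V : Set (H G))}
        one_mem' := ⟨fun ξ h => by rwa [map_one, one_ap], fun ξ h => by
          rwa [inv_one, map_one, one_ap]⟩
        mul_mem' := fun {a b} ha hb => ⟨fun ξ h => by
            rw [map_mul, mul_ap]; exact ha.1 _ (hb.1 ξ h),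
          fun ξ h => by rw [mul_inv_rev, map_mul, mul_ap]; exact hb.2 _ (ha.2 ξ h)⟩
        inv_mem' := fun {a} ha => ⟨ha.2, by rw [inv_inv]; exact ha.1⟩ }
    have hT : ∀ y, y ∈ T := hA.gen T
      (fun p => ⟨hf1 p, by rw [← map_inv]; exact hf1 _⟩)
      (fun q => ⟨hg1 q, by rw [← map_inv]; exact hg1 _⟩)
    have hdl : ∀ y, dl y ∈ V.topologicalClosure := fun y => by
      have h9 := (hT y).1 (dl 1) (subset_closure (by simpa using hV1 1))
      rwa [lam_one] at h9
    have h10 : Submodule.span ℂ (Set.range (dl : G → H G)) ≤ V.topologicalClosure :=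
      Submodule.span_le.2 (by rintro _ ⟨y, rfl⟩; exact hdl y)
    exact dense_closure.1 (dense_dl.mono h10)

end

end Pool.Agent.MP_494aff_an.Pinch

end MrgPart3

-- ======== part 4: formerly Pool.Agent.MP_494aff_an.pinch.Flow
section MrgPart4

/-! The flow of a skew derivation with analytic bounds. -/

open scoped InnerProductSpace ComplexConjugate
open MonoidAlgebra (single)
open Finset

namespace Pool.Agent.MP_494aff_an.Pinch

namespace Fl

noncomputable section

/-- The coefficients of the exponential series. -/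
def cf (t : ℝ) (k : ℕ) : ℂ := (t : ℂ) ^ k / (k.factorial : ℂ)

lemma cf_zero (t : ℝ) : cf t 0 = 1 := by simp [cf]

lemma cf_one (t : ℝ) : cf t 1 = t := by simp [cf]

lemma cf_zero_succ (k : ℕ) : cf 0 (k + 1) = 0 := by simp [cf]

lemma norm_cf (t : ℝ) (k : ℕ) : ‖cf t k‖ = |t| ^ k / k.factorial := by
  simp [cf]

lemma conj_cf (t : ℝ) (k : ℕ) : conj (cf t k) = cf t k := by simp [cf]

lemma cf_neg (t : ℝ) (k : ℕ) : cf (-t) k = (-1) ^ k * cf t k := by
  unfold cf
  rw [Complex.ofReal_neg, neg_pow, mul_div_assoc]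

lemma fac_ne (k : ℕ) : (k.factorial : ℂ) ≠ 0 := by exact_mod_cast k.factorial_ne_zero

lemma choose_cf {i j n : ℕ} (h : i + j = n) :
    (n.choose i : ℂ) / (n.factorial : ℂ) = 1 / (i.factorial : ℂ) * (1 / (j.factorial : ℂ)) := by
  have h1 : ((i + j).choose j : ℂ) * (i.factorial : ℂ) * (j.factorial : ℂ) =
      ((i + j).factorial : ℂ) := by
    exact_mod_cast Nat.add_choose_mul_factorial_mul_factorial i j
  rw [← Nat.choose_symm_add, h] at h1
  have := fac_ne i
  have := fac_ne j
  have := fac_ne n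
  field_simp
  rw [← h1]

lemma cf_add (s t : ℝ) (n : ℕ) :
    ∑ p ∈ antidiagonal n, cf s p.1 * cf t p.2 = cf (s + t) n := by
  unfold cf
  rw [Complex.ofReal_add, (Commute.all (s : ℂ) (t : ℂ)).add_pow', sum_div]
  refine sum_congr rfl fun p hp => ?_
  have := choose_cf (mem_antidiagonal.1 hp)
  rw [nsmul_eq_mul, mul_comm (n.choose p.1 : ℂ), mul_div_assoc, this]
  ring

lemma cf_choose (t : ℝ) {i j n : ℕ} (h : i + j = n) :
    cf t n * (n.choose i : ℂ) = cf t i * cf t j := by
  unfold cf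
  rw [div_mul_eq_mul_div, mul_div_assoc, choose_cf h, ← h, pow_add]
  ring

variable {G : Type} [Group G] {D : CA G →ₗ[ℂ] CA G} {a : ℝ}

/-- The hypotheses on the derivation. -/
structure Hyp (D : CA G →ₗ[ℂ] CA G) (a : ℝ) : Prop where
  leib : ∀ x y, D (x * y) = D x * y + x * D y
  skew : ∀ x y, ⟪hat (D x), hat y⟫_ℂ + ⟪hat x, hat (D y)⟫_ℂ = 0
  bd : ∀ x, ∃ C : ℝ, 0 ≤ C ∧ ∀ k : ℕ, ‖op ((D ^ k) x)‖ ≤ C * k.factorial * a ^ k
  pos : 0 < a

/-- The terms of the series. -/
def tm (D : CA G →ₗ[ℂ] CA G) (t : ℝ) (x : CA G) (k : ℕ) : Op G := cf t k • op ((D ^ k) x)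

/-- The sum of the series. -/
def A (D : CA G →ₗ[ℂ] CA G) (t : ℝ) (x : CA G) : Op G := ∑' k, tm D t x k

lemma pow_succ_ap (k : ℕ) (x : CA G) : (D ^ (k + 1)) x = D ((D ^ k) x) := by
  rw [pow_succ']; rfl

lemma pow_succ_ap' (k : ℕ) (x : CA G) : (D ^ (k + 1)) x = (D ^ k) (D x) := by
  rw [pow_succ]; rfl

lemma norm_tm (h : Hyp D a) (x : CA G) :
    ∃ C : ℝ, 0 ≤ C ∧ ∀ (t : ℝ) (k : ℕ), ‖tm D t x k‖ ≤ C * (|t| * a) ^ k := by
  obtain ⟨C, hC, hb⟩ := h.bd x
  refine ⟨C, hC, fun t k => ?_⟩
  have hk : (0 : ℝ) < k.factorial := by exact_mod_cast k.factorial_pos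
  rw [tm, norm_smul, norm_cf]
  calc |t| ^ k / k.factorial * ‖op ((D ^ k) x)‖
      ≤ |t| ^ k / k.factorial * (C * k.factorial * a ^ k) := by gcongr; exact hb k
    _ = C * (|t| * a) ^ k := by rw [mul_pow]; field_simp

lemma sum_norm (h : Hyp D a) {t : ℝ} (ht : |t| * a < 1) (x : CA G) :
    Summable fun k => ‖tm D t x k‖ := by
  obtain ⟨C, -, hb⟩ := norm_tm h x
  exact Summable.of_nonneg_of_le (fun _ => norm_nonneg _) (hb t)
    ((summable_geometric_of_lt_one (mul_nonneg (abs_nonneg t) h.pos.le) ht).mul_left C)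

lemma hasSum_A (h : Hyp D a) {t : ℝ} (ht : |t| * a < 1) (x : CA G) :
    HasSum (tm D t x) (A D t x) := (sum_norm h ht x).of_norm.hasSum

lemma tm_mem (t : ℝ) (x : CA G) (k : ℕ) : tm D t x k ∈ LL G :=
  SMulMemClass.smul_mem _ (op_mem _)

lemma A_mem (h : Hyp D a) {t : ℝ} (ht : |t| * a < 1) (x : CA G) : A D t x ∈ LL G :=
  isClosed_LL.mem_of_tendsto (hasSum_A h ht x)
    (Filter.Eventually.of_forall fun _ => sum_mem fun k _ => tm_mem t x k)

lemma A_add (h : Hyp D a) {t : ℝ} (ht : |t| * a < 1) (x y : CA G) :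
    A D t (x + y) = A D t x + A D t y := by
  refine (hasSum_A h ht (x + y)).unique ?_
  have : tm D t (x + y) = fun k => tm D t x k + tm D t y k := by
    funext k; simp [tm]
  rw [this]
  exact (hasSum_A h ht x).add (hasSum_A h ht y)

lemma A_smul (h : Hyp D a) {t : ℝ} (ht : |t| * a < 1) (c : ℂ) (x : CA G) :
    A D t (c • x) = c • A D t x := by
  refine (hasSum_A h ht (c • x)).unique ?_
  have : tm D t (c • x) = fun k => c • tm D t x k := by
    funext k; simp only [tm, map_smul]; rw [smul_comm]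
  rw [this]
  exact (hasSum_A h ht x).const_smul c

lemma A_of_tail {t : ℝ} {x : CA G} (hx : ∀ k, tm D t x (k + 1) = 0) : A D t x = op x := by
  rw [A, tsum_eq_single 0]
  · simp [tm, cf_zero]
  · intro k hk
    obtain ⟨j, rfl⟩ := Nat.exists_eq_succ_of_ne_zero hk
    exact hx j

lemma A_zero (x : CA G) : A D 0 x = op x :=
  A_of_tail fun k => by rw [tm, cf_zero_succ, zero_smul]

lemma A_ker (t : ℝ) {x : CA G} (hx : D x = 0) : A D t x = op x :=
  A_of_tail fun k => by rw [tm, pow_succ_ap', hx, map_zero, map_zero, smul_zero]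

lemma leib_pow (h : Hyp D a) (n : ℕ) (x y : CA G) :
    (D ^ n) (x * y) = ∑ p ∈ antidiagonal n, n.choose p.1 • ((D ^ p.1) x * (D ^ p.2) y) := by
  induction n with
  | zero => simp
  | succ n ih =>
    rw [sum_antidiagonal_choose_succ_nsmul (M := CA G) (fun i j => (D ^ i) x * (D ^ j) y) n,
      pow_succ_ap, ih, map_sum, ← sum_add_distrib]
    refine sum_congr rfl fun p hp => ?_
    rw [map_nsmul, h.leib, pow_succ_ap, pow_succ_ap, smul_add, add_comm,
      Nat.choose_symm_of_eq_add (mem_antidiagonal.1 hp).symm]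

lemma A_mul (h : Hyp D a) {t : ℝ} (ht : |t| * a < 1) (x y : CA G) :
    A D t (x * y) = A D t x * A D t y := by
  unfold A
  rw [tsum_mul_tsum_eq_tsum_sum_antidiagonal_of_summable_norm (sum_norm h ht x) (sum_norm h ht y)]
  refine tsum_congr fun n => ?_
  rw [tm, leib_pow h, map_sum, smul_sum]
  refine sum_congr rfl fun p hp => ?_
  rw [map_nsmul, map_mul, ← Nat.cast_smul_eq_nsmul ℂ, smul_smul,
    cf_choose t (mem_antidiagonal.1 hp), tm, tm, smul_mul_smul_comm]

lemma skew_pow (h : Hyp D a) (i : ℕ) (x y : CA G) :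
    ⟪hat ((D ^ i) x), hat y⟫_ℂ = (-1) ^ i * ⟪hat x, hat ((D ^ i) y)⟫_ℂ := by
  induction i generalizing y with
  | zero => simp
  | succ i ih =>
    rw [pow_succ_ap, eq_neg_of_add_eq_zero_left (h.skew _ y), ih, ← pow_succ_ap', pow_succ]
    ring

/-- The vector state at the unit vector of the identity. -/
def st (G : Type) [Group G] : Op G →L[ℂ] ℂ :=
  (innerSL ℂ (dl (1 : G))).comp (ContinuousLinearMap.apply ℂ (H G) (dl 1))

lemma st_apply (T : Op G) : st G T = ⟪dl (1 : G), T (dl 1)⟫_ℂ := rfl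

lemma st_star_mul (S T : Op G) : st G (star S * T) = ⟪S (dl 1), T (dl 1)⟫_ℂ := by
  rw [st_apply, mul_ap, inner_star]

lemma tm_dl (t : ℝ) (x : CA G) (k : ℕ) : tm D t x k (dl 1) = cf t k • hat ((D ^ k) x) := rfl

lemma hasSum_A_dl (h : Hyp D a) {t : ℝ} (ht : |t| * a < 1) (x : CA G) :
    HasSum (fun k => cf t k • hat ((D ^ k) x)) (A D t x (dl 1)) :=
  (hasSum_A h ht x).mapL (ContinuousLinearMap.apply ℂ (H G) (dl 1))

lemma inner_A (h : Hyp D a) {s t : ℝ} (hs : |s| * a < 1) (ht : |t| * a < 1)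
    (hst : |-s + t| * a < 1) (x y : CA G) :
    ⟪A D s x (dl 1), A D t y (dl 1)⟫_ℂ = ⟪hat x, A D (-s + t) y (dl 1)⟫_ℂ := by
  have h1 : Summable fun k => ‖star (tm D s x k)‖ :=
    (sum_norm h hs x).congr fun k => (norm_star (tm D s x k)).symm
  have h2 := sum_norm h ht y
  have h3 : star (A D s x) = ∑' k, star (tm D s x k) := (hasSum_A h hs x).star.tsum_eq.symm
  have h4 := (summable_norm_sum_mul_antidiagonal_of_summable_norm h1 h2).of_norm.hasSum.mapL (st G)
  rw [← tsum_mul_tsum_eq_tsum_sum_antidiagonal_of_summable_norm h1 h2, ← h3] at h4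
  have h5 := (hasSum_A_dl h hst y).mapL (innerSL ℂ (hat x))
  rw [← st_star_mul]
  refine h4.unique ?_
  have : (fun n => st G (∑ p ∈ antidiagonal n, star (tm D s x p.1) * tm D t y p.2)) =
      fun n => innerSL ℂ (hat x) (cf (-s + t) n • hat ((D ^ n) y)) := by
    funext n
    rw [map_sum, map_smul, ← cf_add, smul_eq_mul, sum_mul]
    refine sum_congr rfl fun p hp => ?_
    rw [st_star_mul, tm_dl, tm_dl, inner_smul_left, inner_smul_right, conj_cf, skew_pow h, cf_neg,
      ← mem_antidiagonal.1 hp, pow_add D, innerSL_apply_apply, Module.End.mul_apply]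
    ring
  rw [this]
  exact h5

lemma inner_A_self (h : Hyp D a) {t : ℝ} (ht : |t| * a < 1) (x y : CA G) :
    ⟪A D t x (dl 1), A D t y (dl 1)⟫_ℂ = ⟪hat x, hat y⟫_ℂ := by
  rw [inner_A h ht ht (by simp), neg_add_cancel, A_zero]
  rfl

lemma hat_ext {S T : Op G} (h : ∀ x, S (hat x) = T (hat x)) : S = T :=
  op_ext fun g => by rw [← hat_single_one]; exact h _

lemma inner_ext {ξ η : H G} (h : ∀ x, ⟪hat x, ξ⟫_ℂ = ⟪hat x, η⟫_ℂ) : ξ = η := by
  ext g
  rw [← inner_dl, ← inner_dl, ← hat_single_one]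
  exact h _

lemma exists_V (h : Hyp D a) :
    ∃ V : ℝ → Op G, ∀ t, |t| * a < 1 → ∀ x, V t (hat x) = A D t x (dl 1) := by
  have : ∀ t : ℝ, ∃ V : Op G, |t| * a < 1 → ∀ x, V (hat x) = A D t x (dl 1) := fun t => by
    by_cases ht : |t| * a < 1
    · have hv : Orthonormal ℂ fun g : G => A D t (single g 1) (dl 1) := by
        classical
        rw [orthonormal_iff_ite]
        intro g g'
        rw [inner_A_self h ht, hat_single_one, hat_single_one]
        exact orthonormal_iff_ite.1 orthonormal_dl g g'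
      refine ⟨ofON _ hv, fun _ x => ?_⟩
      induction x using MonoidAlgebra.induction_linear with
      | zero => rw [hat_zero, map_zero, A_ker t (map_zero D), map_zero]; rfl
      | add x y hx hy => rw [hat_add, map_add, hx, hy, A_add h ht]; rfl
      | single g c =>
        have : (single g c : CA G) = c • single g 1 := by simp
        rw [hat_single, map_smul, ofON_dl, this, A_smul h ht]; rfl
    · exact ⟨1, fun h' => (ht h').elim⟩
  choose V hV using this
  exact ⟨V, hV⟩

section Loc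

variable {V : ℝ → Op G}

lemma star_V_mul (h : Hyp D a) (hV : ∀ t, |t| * a < 1 → ∀ x, V t (hat x) = A D t x (dl 1))
    {s t : ℝ} (hs : |s| * a < 1) (ht : |t| * a < 1) (hst : |-s + t| * a < 1) :
    star (V s) * V t = V (-s + t) :=
  hat_ext fun y => inner_ext fun x => by
    rw [mul_ap, inner_star, hV s hs, hV t ht, hV _ hst, inner_A h hs ht hst]

lemma V_zero (hV : ∀ t, |t| * a < 1 → ∀ x, V t (hat x) = A D t x (dl 1)) : V 0 = 1 :=
  hat_ext fun x => by rw [hV 0 (by simp), A_zero]; rfl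

lemma star_V (h : Hyp D a) (hV : ∀ t, |t| * a < 1 → ∀ x, V t (hat x) = A D t x (dl 1))
    {s : ℝ} (hs : |s| * a < 1) : star (V s) = V (-s) := by
  have := star_V_mul h hV hs (t := 0) (by simp) (by simpa using hs)
  rwa [V_zero hV, mul_one, add_zero] at this

lemma V_mul (h : Hyp D a) (hV : ∀ t, |t| * a < 1 → ∀ x, V t (hat x) = A D t x (dl 1))
    {s t : ℝ} (hs : |s| * a < 1) (ht : |t| * a < 1) (hst : |s + t| * a < 1) :
    V s * V t = V (s + t) := by
  have hs' : |-s| * a < 1 := by rwa [abs_neg]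
  have := star_V_mul h hV hs' ht (by rwa [neg_neg])
  rwa [star_V h hV hs', neg_neg] at this

lemma V_inv (h : Hyp D a) (hV : ∀ t, |t| * a < 1 → ∀ x, V t (hat x) = A D t x (dl 1))
    {s : ℝ} (hs : |s| * a < 1) : V s * V (-s) = 1 := by
  rw [V_mul h hV hs (by rwa [abs_neg]) (by simp), add_neg_cancel, V_zero hV]

lemma V_inv' (h : Hyp D a) (hV : ∀ t, |t| * a < 1 → ∀ x, V t (hat x) = A D t x (dl 1))
    {s : ℝ} (hs : |s| * a < 1) : V (-s) * V s = 1 := by
  have := V_inv h hV (s := -s) (by rwa [abs_neg])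
  rwa [neg_neg] at this

lemma V_lam (h : Hyp D a) (hV : ∀ t, |t| * a < 1 → ∀ x, V t (hat x) = A D t x (dl 1))
    {s : ℝ} (hs : |s| * a < 1) (g : G) : V s * lam g * V (-s) ∈ LL G := by
  have : V s * lam g = A D s (single g 1) * V s := hat_ext fun y => by
    rw [mul_ap, mul_ap, ← op_single_one, ← hat_mul, hV s hs, hV s hs, A_mul h hs, mul_ap]
  rw [this, mul_assoc, V_inv h hV hs, mul_one]
  exact A_mem h hs _

lemma V_pow_mem (h : Hyp D a) (hV : ∀ t, |t| * a < 1 → ∀ x, V t (hat x) = A D t x (dl 1))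
    {s : ℝ} (hs : |s| * a < 1) (n : ℕ) {m : Op G} (hm : m ∈ LL G) :
    V s ^ n * m * V (-s) ^ n ∈ LL G := by
  induction n with
  | zero => simpa using hm
  | succ n ih =>
    have := conj_mem_LL (V_inv' h hV hs) (V_inv h hV hs) (V_lam h hV hs) ih
    rw [pow_succ', pow_succ]
    simpa only [mul_assoc] using this

lemma V_pow (h : Hyp D a) (hV : ∀ t, |t| * a < 1 → ∀ x, V t (hat x) = A D t x (dl 1))
    (s : ℝ) (n : ℕ) (hn : |n * s| * a < 1) : V s ^ n = V (n * s) := by
  induction n with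
  | zero => simp [V_zero hV]
  | succ n ih =>
    have hle : ∀ r : ℝ, 0 ≤ r → r ≤ (n + 1 : ℕ) → |r * s| * a < 1 := fun r h0 h1 => by
      refine lt_of_le_of_lt ?_ hn
      rw [abs_mul, abs_mul, abs_of_nonneg h0, Nat.abs_cast]
      have := h.pos.le
      gcongr
    have h1 := hle n (Nat.cast_nonneg _) (by push_cast; linarith)
    have h2 := hle 1 zero_le_one (by push_cast; linarith [(Nat.cast_nonneg n : (0 : ℝ) ≤ n)])
    have h3 : (n : ℝ) * s + s = (n + 1 : ℕ) * s := by push_cast; ring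
    rw [one_mul] at h2
    rw [pow_succ, ih h1, V_mul h hV h1 h2 (by rwa [h3]), h3]

omit [Group G] in
lemma pow_fix {T : Op G} {ξ : H G} (hT : T ξ = ξ) (n : ℕ) : (T ^ n) ξ = ξ := by
  induction n with
  | zero => rfl
  | succ n ih => rw [pow_succ, mul_ap, hT, ih]

omit [Group G] in
lemma pow_supp {T : Op G} {X : Set G} (hT : ∀ ξ, Supp X ξ → Supp X (T ξ)) (n : ℕ) {ξ : H G}
    (hξ : Supp X ξ) : Supp X ((T ^ n) ξ) := by
  induction n with
  | zero => exact hξ
  | succ n ih => rw [pow_succ', mul_ap]; exact hT _ ih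

lemma supp_D {X : Set G} (hX : ∀ g ∈ X, Supp X (hat (D (single g 1)))) {y : CA G}
    (hy : Supp X (hat y)) : Supp X (hat (D y)) := by
  rw [← MonoidAlgebra.sum_coeff_single y, Finsupp.sum, map_sum, hat_sum]
  refine supp_sum _ _ fun g hg => ?_
  have h1 : (single g (y.coeff g) : CA G) = y.coeff g • single g 1 := by simp
  rw [h1, map_smul, hat_smul]
  refine (hX g ?_).smul _
  by_contra hg'
  have := hy g hg'
  rw [hat_coef] at this
  exact Finsupp.mem_support_iff.1 hg this

lemma V_supp (h : Hyp D a) (hV : ∀ t, |t| * a < 1 → ∀ x, V t (hat x) = A D t x (dl 1))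
    {s : ℝ} (hs : |s| * a < 1) {X : Set G} (hX : ∀ g ∈ X, Supp X (hat (D (single g 1))))
    (ξ : H G) (hξ : Supp X ξ) : Supp X (V s ξ) := by
  refine supp_map _ (fun g hg => ?_) hξ
  have h1 : ∀ k : ℕ, Supp X (hat ((D ^ k) (single g 1))) := fun k => by
    induction k with
    | zero => simpa [hat_single_one] using supp_dl hg
    | succ k ih => rw [pow_succ_ap]; exact supp_D hX ih
  rw [← hat_single_one, hV s hs]
  exact (isClosed_supp X).mem_of_tendsto (hasSum_A_dl h hs _)
    (Filter.Eventually.of_forall fun _ => supp_sum _ _ fun k _ => (h1 k).smul _)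

lemma small (a : ℝ) {c : ℝ} (hc : 0 < c) : ∀ᶠ r in nhds (0 : ℝ), |r| * a < c := by
  have : Continuous fun r : ℝ => |r| * a := by fun_prop
  exact this.continuousAt.eventually_lt continuousAt_const (by simpa using hc)

lemma deriv_A (h : Hyp D a) (x : CA G) : HasDerivAt (fun r => A D r x) (op (D x)) 0 := by
  obtain ⟨C, hC, hb⟩ := norm_tm h x
  rw [hasDerivAt_iff_isLittleO_nhds_zero]
  refine Asymptotics.IsBigO.trans_isLittleO (g := fun r : ℝ => r ^ 2) ?_
    (Asymptotics.isLittleO_pow_id one_lt_two)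
  refine Asymptotics.IsBigO.of_bound (2 * C * a ^ 2) ?_
  filter_upwards [small a (c := 1 / 2) (by norm_num)] with r hr
  have hr1 : |r| * a < 1 := by linarith
  have h0 : 0 ≤ |r| * a := mul_nonneg (abs_nonneg r) h.pos.le
  have h1 := (sum_norm h hr1 x).of_norm.sum_add_tsum_nat_add 2
  have h2 : A D (0 + r) x - A D 0 x - r • op (D x) = ∑' k, tm D r x (k + 2) := by
    have e0 : tm D r x 0 = op x := by rw [tm, cf_zero, one_smul, pow_zero]; rfl
    have e1 : tm D r x 1 = r • op (D x) := by rw [tm, cf_one, pow_one]; rfl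
    rw [zero_add, A_zero, A, ← h1, sum_range_succ, sum_range_one, e0, e1, add_assoc,
      add_sub_cancel_left, add_sub_cancel_left]
  rw [h2]
  have h3 := (hasSum_geometric_of_lt_one h0 hr1).mul_left (C * (|r| * a) ^ 2)
  have h4 := tsum_of_norm_bounded (f := fun k => tm D r x (k + 2)) h3 fun k => by
    refine (hb r _).trans (le_of_eq ?_); ring
  refine h4.trans ?_
  have h5 : (1 - |r| * a)⁻¹ ≤ 2 := by
    rw [inv_le_comm₀ (by linarith) (by norm_num)]; linarith
  calc C * (|r| * a) ^ 2 * (1 - |r| * a)⁻¹ ≤ C * (|r| * a) ^ 2 * 2 := by gcongr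
    _ = 2 * C * a ^ 2 * ‖r ^ 2‖ := by rw [norm_pow, Real.norm_eq_abs]; ring

lemma deriv_V (h : Hyp D a) (hV : ∀ t, |t| * a < 1 → ∀ x, V t (hat x) = A D t x (dl 1))
    (T : Op G) (x : CA G) : HasDerivAt (fun r => T (V r (hat x))) (T (hat (D x))) 0 := by
  have h1 := ((T.comp (ContinuousLinearMap.apply ℂ (H G) (dl 1))).restrictScalars ℝ).hasFDerivAt
    (x := A D 0 x) |>.comp_hasDerivAt (0 : ℝ) (deriv_A h x)
  refine h1.congr_of_eventuallyEq ?_
  filter_upwards [small a one_pos] with r hr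
  rw [hV r hr]
  rfl

end Loc

lemma main (h : Hyp D a) :
    ∃ U : ℝ → Op G, U 0 = 1 ∧ ∀ t, |t| ≤ 1 →
      star (U t) = U (-t) ∧ U t * U (-t) = 1 ∧ (∀ g, U t * lam g * U (-t) ∈ LL G) ∧
      (∀ x, HasDerivAt (fun s => U s (hat x)) (U t (hat (D x))) t) ∧
      (∀ x, D x = 0 → U t (hat x) = hat x) ∧
      ∀ X : Set G, (∀ g ∈ X, Supp X (hat (D (single g 1)))) → ∀ ξ, Supp X ξ → Supp X (U t ξ) := by
  obtain ⟨V, hV⟩ := exists_V h
  obtain ⟨m, hm⟩ := exists_nat_gt (2 * a + 1)
  have ha := h.pos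
  have hm0 : (0 : ℝ) < m := by linarith
  have hsm : ∀ t : ℝ, |t| ≤ 2 → |t / m| * a < 1 := fun t ht => by
    rw [abs_div, abs_of_pos hm0, div_mul_eq_mul_div, div_lt_one hm0]
    nlinarith
  refine ⟨fun t => V (t / m) ^ m, by simp [V_zero hV], fun t ht => ?_⟩
  have hs := hsm t (by linarith)
  refine ⟨?_, ?_, fun g => ?_, fun x => ?_, fun x hx => ?_, fun X hX ξ hξ => ?_⟩
  · simp only [star_pow, star_V h hV hs, neg_div]
  · have hc : Commute (V (t / m)) (V (-(t / m))) := by
      rw [Commute, SemiconjBy, V_inv h hV hs, V_inv' h hV hs]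
    simp only [neg_div]
    rw [← hc.mul_pow, V_inv h hV hs, one_pow]
  · simp only [neg_div]
    exact V_pow_mem h hV hs m (lam_mem g)
  · have h1 : HasDerivAt (fun r => (V (t / m) ^ m) (V r (hat x))) ((V (t / m) ^ m) (hat (D x)))
        (t - t) := by rw [sub_self]; exact deriv_V h hV _ x
    have h2 := h1.comp_sub_const t t
    refine h2.congr_of_eventuallyEq ?_
    have hc : Filter.Tendsto (fun s : ℝ => s - t) (nhds t) (nhds 0) := by
      simpa using (continuous_sub_right t).tendsto t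
    have h3 : ∀ᶠ r in nhds (0 : ℝ), |r| ≤ 1 := by
      filter_upwards [Metric.closedBall_mem_nhds (0 : ℝ) one_pos] with r hr
      simpa using hr
    filter_upwards [hc.eventually (small a one_pos), hc.eventually h3] with s hs1 hs2
    have e1 : s / m = t / m + (s - t) / m := by ring
    have hr := hsm (s - t) (by linarith)
    have hs3 : |t / m + (s - t) / m| * a < 1 := by
      rw [← e1]
      refine hsm s ?_
      have := abs_add_le t (s - t)
      rw [add_sub_cancel] at this
      linarith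
    have hcm : Commute (V (t / m)) (V ((s - t) / m)) := by
      rw [Commute, SemiconjBy, V_mul h hV hs hr hs3, V_mul h hV hr hs (by rwa [add_comm]),
        add_comm]
    have e2 : (m : ℝ) * ((s - t) / m) = s - t := by field_simp
    rw [e1, ← V_mul h hV hs hr hs3, hcm.mul_pow, V_pow h hV ((s - t) / m) m (by rwa [e2]), e2]
    rfl
  · refine pow_fix ?_ m
    rw [hV _ hs, A_ker _ hx]
    rfl
  · exact pow_supp (V_supp h hV hs hX) m hξ

end

end Fl

theorem flow : FlowStmt := by
  intro G _ D a h1 h2 h3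
  refine Fl.main (a := |a| + 1) ⟨h1, h2, fun x => ?_, by positivity⟩
  obtain ⟨C, hC⟩ := h3 x
  refine ⟨|C|, abs_nonneg C, fun k => (hC k).trans ((le_abs_self _).trans ?_)⟩
  rw [abs_mul, abs_mul, abs_pow, Nat.abs_cast]
  gcongr
  linarith

end Pool.Agent.MP_494aff_an.Pinch

end MrgPart4

-- ======== part 5: formerly Pool.Agent.MP_494aff_an.pinch.PP
section MrgPart5

/-! The ping-pong estimate and the ping-pong set of the extra generator. -/

open scoped InnerProductSpace ComplexConjugate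

namespace Pool.Agent.MP_494aff_an.Pinch

noncomputable section

variable {G : Type}

/-- The part of `ξ` on `X`. -/
def cut (X : Set G) (ξ : H G) : H G :=
  ⟨fun y => X.indicator (fun y => ξ y) y,
    (lp.memℓp ξ).mono' fun y => norm_indicator_le_norm_self (fun y => ξ y) y⟩

lemma cut_mem {X : Set G} (ξ : H G) {y : G} (h : y ∈ X) : cut X ξ y = ξ y :=
  Set.indicator_of_mem h _

lemma supp_cut (X : Set G) (ξ : H G) : Supp X (cut X ξ) :=
  fun _ h => Set.indicator_of_notMem h _

lemma supp_sub_cut {X Z : Set G} {ξ : H G} (h : Supp Z ξ) : Supp (Z \ X) (ξ - cut X ξ) := by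
  intro y hy
  rw [lp.coeFn_sub, Pi.sub_apply]
  by_cases hx : y ∈ X
  · rw [cut_mem ξ hx, sub_self]
  · rw [supp_cut X ξ y hx, sub_zero]
    exact h y fun hz => hy ⟨hz, hx⟩

lemma norm_sq_sum {ι : Type} (s : Finset ι) (v : ι → H G) (E : ι → Set G)
    (hE : ∀ i ∈ s, ∀ j ∈ s, i ≠ j → Disjoint (E i) (E j)) (hv : ∀ i ∈ s, Supp (E i) (v i)) :
    ‖∑ i ∈ s, v i‖ ^ 2 = ∑ i ∈ s, ‖v i‖ ^ 2 := by
  have : ((‖∑ i ∈ s, v i‖ ^ 2 : ℝ) : ℂ) = ((∑ i ∈ s, ‖v i‖ ^ 2 : ℝ) : ℂ) := by
    push_cast
    have h1 := inner_self_eq_norm_sq_to_K (𝕜 := ℂ) (∑ i ∈ s, v i)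
    simp only [Complex.coe_algebraMap] at h1
    rw [← h1, sum_inner]
    refine Finset.sum_congr rfl fun i hi => ?_
    rw [inner_sum, Finset.sum_eq_single i]
    · exact inner_self_eq_norm_sq_to_K (𝕜 := ℂ) (v i)
    · exact fun j hj hne => inner_eq_zero_of_supp (hv i hi) (hv j hj) (hE i hi j hj hne.symm)
    · exact fun h => (h hi).elim
  exact_mod_cast this

lemma norm_sq_cut (X : Set G) (ξ : H G) : ‖ξ‖ ^ 2 = ‖cut X ξ‖ ^ 2 + ‖ξ - cut X ξ‖ ^ 2 := by
  have h := norm_add_sq_eq_norm_sq_add_norm_sq_of_inner_eq_zero (𝕜 := ℂ) (cut X ξ) (ξ - cut X ξ)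
    (inner_eq_zero_of_supp (supp_cut X ξ) (supp_sub_cut (supp_univ ξ)) Set.disjoint_sdiff_right)
  rw [add_sub_cancel] at h
  rw [sq, sq, sq, h]

lemma norm_cut_le (X : Set G) (ξ : H G) : ‖cut X ξ‖ ≤ ‖ξ‖ := by
  refine abs_le_of_sq_le_sq' ?_ (norm_nonneg _) |>.2
  rw [norm_sq_cut X ξ]
  nlinarith [sq_nonneg ‖ξ - cut X ξ‖]

lemma norm_sub_cut_le (X : Set G) (ξ : H G) : ‖ξ - cut X ξ‖ ≤ ‖ξ‖ := by
  refine abs_le_of_sq_le_sq' ?_ (norm_nonneg _) |>.2
  rw [norm_sq_cut X ξ]
  nlinarith [sq_nonneg ‖cut X ξ‖]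

lemma sum_cut_le {ι : Type} (s : Finset ι) (E : ι → Set G)
    (hE : ∀ i ∈ s, ∀ j ∈ s, i ≠ j → Disjoint (E i) (E j)) (ξ : H G) :
    ∑ i ∈ s, ‖cut (E i) ξ‖ ^ 2 ≤ ‖ξ‖ ^ 2 := by
  rw [← norm_sq_sum s _ E hE fun i _ => supp_cut _ ξ]
  have : ∑ i ∈ s, cut (E i) ξ = cut (⋃ i ∈ s, E i) ξ := by
    ext y
    rw [lp.coeFn_sum, Finset.sum_apply]
    by_cases hy : y ∈ ⋃ i ∈ s, E i
    · rw [cut_mem ξ hy]
      simp only [Set.mem_iUnion] at hy
      obtain ⟨i, hi, hyi⟩ := hy
      rw [Finset.sum_eq_single i, cut_mem ξ hyi]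
      · exact fun j hj hne => supp_cut _ ξ y (Set.disjoint_left.1 (hE i hi j hj hne.symm) hyi)
      · exact fun h => (h hi).elim
    · rw [supp_cut _ ξ y hy]
      refine Finset.sum_eq_zero fun i hi => supp_cut _ ξ y fun h => hy ?_
      simp only [Set.mem_iUnion]
      exact ⟨i, hi, h⟩
  rw [this]
  exact pow_le_pow_left₀ (norm_nonneg _) (norm_cut_le _ ξ) 2

theorem pp : PPStmt := by
  intro G ι s T q E Z M ξ hM hT hE hS hξ
  have h0 : ∑ i ∈ s, q i • T i ξ =
      ∑ i ∈ s, q i • T i (ξ - cut (E i) ξ) + ∑ i ∈ s, q i • T i (cut (E i) ξ) := by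
    rw [← Finset.sum_add_distrib]
    refine Finset.sum_congr rfl fun i _ => ?_
    rw [← smul_add, ← map_add, sub_add_cancel]
  have hb : ∀ i ∈ s, ∀ η, ‖q i • T i η‖ ≤ ‖q i‖ * (M * ‖η‖) := fun i hi η => by
    rw [norm_smul]
    gcongr
    exact ((T i).le_opNorm η).trans (by gcongr; exact hT i hi)
  have hQ : 0 ≤ ∑ i ∈ s, ‖q i‖ ^ 2 := Finset.sum_nonneg fun _ _ => sq_nonneg _
  have h1 : ‖∑ i ∈ s, q i • T i (ξ - cut (E i) ξ)‖ ≤ M * √(∑ i ∈ s, ‖q i‖ ^ 2) * ‖ξ‖ := by
    refine abs_le_of_sq_le_sq' ?_ (by positivity) |>.2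
    rw [norm_sq_sum s _ E hE fun i hi => (hS i hi _ (supp_sub_cut hξ)).smul _, mul_pow, mul_pow,
      Real.sq_sqrt hQ, Finset.mul_sum, Finset.sum_mul]
    refine Finset.sum_le_sum fun i hi => ?_
    calc _ ≤ (‖q i‖ * (M * ‖ξ‖)) ^ 2 := by
          gcongr
          refine (hb i hi _).trans ?_
          gcongr
          exact norm_sub_cut_le _ _
      _ = _ := by ring
  have h2 : ‖∑ i ∈ s, q i • T i (cut (E i) ξ)‖ ≤ M * √(∑ i ∈ s, ‖q i‖ ^ 2) * ‖ξ‖ := by
    refine (norm_sum_le _ _).trans ((Finset.sum_le_sum fun i hi => hb i hi _).trans ?_)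
    have h3 := Real.sum_mul_le_sqrt_mul_sqrt s (fun i => ‖q i‖) fun i => ‖cut (E i) ξ‖
    have h4 : √(∑ i ∈ s, ‖cut (E i) ξ‖ ^ 2) ≤ ‖ξ‖ :=
      Real.sqrt_le_iff.2 ⟨norm_nonneg _, sum_cut_le s E hE ξ⟩
    calc _ = M * ∑ i ∈ s, ‖q i‖ * ‖cut (E i) ξ‖ := by
          rw [Finset.mul_sum]; exact Finset.sum_congr rfl fun i _ => by ring
      _ ≤ M * (√(∑ i ∈ s, ‖q i‖ ^ 2) * ‖ξ‖) := by
          gcongr
          exact h3.trans (by gcongr)
      _ = _ := by ring
  rw [h0]
  refine (norm_add_le _ _).trans ?_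
  linarith

open FreeGroup in
theorem word : WordStmt := by
  classical
  intro S
  refine ⟨startsWith (none, true) ∪ startsWith (none, false), ?_, ?_⟩
  · have key : ∀ (b : Bool) (z : Lm S), z ∉ startsWith (none, !b) → ∀ n : ℕ,
        (mk [(none, b)] : Lm S) ^ (n + 1) * z ∈ startsWith (none, b) := by
      intro b z hz n
      induction n with
      | zero => simpa using startsWith_mk_mul (w := (none, b)) z hz
      | succ n ih =>
        rw [pow_succ', mul_assoc]
        refine startsWith_mk_mul (w := (none, b)) _ fun h => ?_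
        exact Set.disjoint_left.1 (startsWith.disjoint_iff_ne.2 (by simp)) ih h
    intro z hz k hk
    simp only [Set.mem_union, not_or] at hz
    cases k with
    | ofNat n =>
      obtain ⟨n, rfl⟩ : ∃ m, n = m + 1 := ⟨n - 1, by simp at hk; omega⟩
      left
      rw [Int.ofNat_eq_natCast, zpow_natCast]
      exact key true z hz.2 n
    | negSucc n =>
      right
      rw [zpow_negSucc, ← inv_pow]
      exact key false z hz.1 n
  · have key : ∀ (z : Lm S), z ∈ startsWith (none, true) ∪ startsWith (none, false) →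
        ∀ (L : List (S × Bool)) (a : S × Bool), IsReduced (a :: L) →
        io (mk (a :: L)) * z ∈ startsWith (some a.1, a.2) := by
      intro z hz L
      induction L with
      | nil =>
        intro a _
        refine startsWith_mk_mul (w := (some a.1, a.2)) z fun h => ?_
        rcases hz with hz | hz <;>
          exact Set.disjoint_left.1 (startsWith.disjoint_iff_ne.2 (by simp)) hz h
      | cons b L ih =>
        intro a hr
        rw [isReduced_cons_cons] at hr
        have h1 : (mk (a :: b :: L) : FreeGroup S) = mk [a] * mk (b :: L) := by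
          rw [mul_mk]; rfl
        rw [h1, _root_.map_mul, mul_assoc]
        refine startsWith_mk_mul (w := (some a.1, a.2)) _ fun h => ?_
        refine Set.disjoint_left.1 (startsWith.disjoint_iff_ne.2 ?_) (ih b hr.2) h
        intro he
        simp only [Prod.mk.injEq, Option.some.injEq] at he
        have := hr.1 he.1.symm
        rw [this] at he
        simpa using he.2
    intro x hx z hz
    have h1 := isReduced_toWord (x := x)
    rcases hL : x.toWord with _ | ⟨a, L⟩
    · exact (hx (toWord_eq_nil_iff.1 hL)).elim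
    · rw [hL] at h1
      have h2 := key z hz L a h1
      rw [← hL, mk_toWord] at h2
      rintro (h | h) <;>
        exact Set.disjoint_left.1 (startsWith.disjoint_iff_ne.2 (by simp)) h2 h

end

end Pool.Agent.MP_494aff_an.Pinch

end MrgPart5

-- ======== part 6: formerly Pool.Agent.MP_494aff_an.pinch.AttA
section MrgPart6

/-! Group theory of two vertices joined by cyclic edges. -/

open Monoid

namespace Pool.Agent.MP_494aff_an.Pinch

namespace AttP

/-- The infinite cyclic group. -/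
abbrev Zm : Type := Multiplicative ℤ

/-- The generator of the infinite cyclic factor. -/
def zz (Q : Type) [Group Q] : Coprod Q Zm := Coprod.inr (Multiplicative.ofAdd 1)

section Basic

variable {G G' : Type} [Group G] [Group G']

lemma io_map {φ : G →* G'} (hφ : Function.Injective φ) {x : G} (hx : InfOrd x) :
    InfOrd (φ x) := fun k hk => hx k (hφ (by rw [map_zpow, hk, map_one]))

lemma io_free {S : Type} {x : FreeGroup S} (hx : x ≠ 1) : InfOrd x := fun k hk => by
  by_contra h
  exact hx ((IsMulTorsionFree.zpow_eq_one_iff_left h).1 hk)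

lemma zp_inj {x : G} (hx : InfOrd x) : Function.Injective (zpowersHom G x) :=
  (injective_iff_map_eq_one _).2 fun k hk =>
    Multiplicative.toAdd.injective (hx k.toAdd hk)

lemma fr_left {x y : G} (h : Fr x y) : InfOrd x := by
  have := io_map h (io_free (x := io (FreeGroup.of ())) (FreeGroup.of_ne_one (some ())))
  rwa [pr_io] at this

lemma fr_right {x y : G} (h : Fr x y) : InfOrd y := by
  have h1 : io (FreeGroup.of ()) * cc Unit ≠ 1 := fun e => by
    have := congrArg kl e
    rw [map_mul, kl_io, kl_cc, mul_one, map_one] at this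
    exact FreeGroup.of_ne_one () this
  have := io_map h (io_free h1)
  rwa [map_mul, pr_io, pr_cc, mul_inv_cancel_left] at this

lemma mal_ne {ι : Type} {w : ι → G} (h : Mal w) (i : ι) : w i ≠ 1 :=
  fun e => h.1 i 1 2 le_rfl (by simp [e])

lemma mal_comp {ι κ : Type} {w : ι → G} (h : Mal w) {φ : κ → ι} (hφ : Function.Injective φ) :
    Mal (w ∘ φ) :=
  ⟨fun i => h.1 (φ i), fun _ _ hij => h.2 _ _ fun e => hij (hφ e)⟩

lemma cop_gen {A B : Type} [Group A] [Group B] (φ : Coprod A B →* G) (T : Subgroup G)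
    (h1 : ∀ a, φ (Coprod.inl a) ∈ T) (h2 : ∀ b, φ (Coprod.inr b) ∈ T) (c : Coprod A B) :
    φ c ∈ T := by
  induction c using Coprod.induction_on with
  | inl a => exact h1 a
  | inr b => exact h2 b
  | mul x y hx hy => rw [map_mul]; exact mul_mem hx hy

lemma zm_gen (φ : Zm →* G) (T : Subgroup G) (h : φ (Multiplicative.ofAdd 1) ∈ T) (k : Zm) :
    φ k ∈ T := by
  have : k = Multiplicative.ofAdd 1 ^ k.toAdd := by
    rw [← ofAdd_zsmul]; simp
  rw [this, map_zpow]
  exact zpow_mem h _

lemma zm_ext {φ ψ : Zm →* G} (h : φ (Multiplicative.ofAdd 1) = ψ (Multiplicative.ofAdd 1))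
    (k : Zm) : φ k = ψ k := by
  rw [MonoidHom.ext_mint h]

lemma amal_cop (A B : Type) [Group A] [Group B] :
    Amal (1 : Unit →* A) (1 : Unit →* B) (Coprod.inl : A →* Coprod A B) Coprod.inr where
  comm := fun _ => by simp
  lift := fun _ _ φ ψ _ => ⟨Coprod.lift φ ψ, fun _ => rfl, fun _ => rfl⟩
  gen := fun T h1 h2 z => cop_gen (MonoidHom.id _) T h1 h2 z

lemma amal_two : Amal (1 : Unit →* Zm) (1 : Unit →* Zm)
    (zpowersHom (Lm Unit) (io (FreeGroup.of ()))) (zpowersHom (Lm Unit) (cc Unit)) where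
  comm := fun _ => by simp
  lift := fun M _ φ ψ _ => ⟨pr (ψ (Multiplicative.ofAdd 1)) (φ (Multiplicative.ofAdd 1)),
    zm_ext (φ := (pr _ _).comp (zpowersHom _ _)) (by simp [pr_io]),
    zm_ext (φ := (pr _ _).comp (zpowersHom _ _)) (by simp [pr_cc])⟩
  gen := fun T h1 h2 z => mem_of_gens T (fun o => by
    rcases o with _ | u
    · simpa [cc] using h2 (Multiplicative.ofAdd 1)
    · simpa [io_of] using h1 (Multiplicative.ofAdd 1)) z

lemma pr_zz {x : G} (hx : InfOrd x) : Function.Injective (pr (zz G) (Coprod.inl x)) := by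
  have hu : ∀ (A : Type) [Group A], Function.Injective (1 : Unit →* A) :=
    fun _ _ a b _ => Subsingleton.elim a b
  have hr : ∀ (A : Type) [Group A] (a : A), a ∈ (1 : Unit →* A).range ↔ a = 1 := fun A _ a =>
    ⟨fun ⟨_, e⟩ => e.symm, fun e => ⟨(), e.symm⟩⟩
  have e1 : ∀ p : Zm, pr (zz G) (Coprod.inl x) (zpowersHom (Lm Unit) (io (FreeGroup.of ())) p) =
      Coprod.inl (zpowersHom G x p) :=
    zm_ext (φ := (pr (zz G) (Coprod.inl x)).comp (zpowersHom _ (io (FreeGroup.of ()))))
      (ψ := Coprod.inl.comp (zpowersHom G x)) (by simp [pr_io])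
  have e2 : ∀ p : Zm, pr (zz G) (Coprod.inl x) (zpowersHom (Lm Unit) (cc Unit) p) =
      Coprod.inr p :=
    zm_ext (φ := (pr (zz G) (Coprod.inl x)).comp (zpowersHom _ (cc Unit))) (ψ := Coprod.inr)
      (by simp [pr_cc, zz])
  have key : ∀ t ω, Gl.Typ (1 : Unit →* Zm) (1 : Unit →* Zm)
      (zpowersHom (Lm Unit) (io (FreeGroup.of ()))) (zpowersHom (Lm Unit) (cc Unit)) t ω →
      Gl.Typ (1 : Unit →* G) (1 : Unit →* Zm) Coprod.inl Coprod.inr t
        (pr (zz G) (Coprod.inl x) ω) := by
    intro t ω h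
    induction h with
    | base u =>
      have := Gl.Typ.base (i := (1 : Unit →* G)) (j := (1 : Unit →* Zm))
        (f := (Coprod.inl : G →* Coprod G Zm)) (g := Coprod.inr) u
      simpa using this
    | left p z t hp _ ht ih =>
      rw [map_mul, e1]
      refine Gl.Typ.left _ _ t (fun hm => hp ?_) ih ht
      rw [hr] at hm ⊢
      exact zp_inj hx (by rw [hm, map_one])
    | right q z t hq _ ht ih =>
      rw [map_mul, e2]
      exact Gl.Typ.right _ _ t hq ih ht
  refine (injective_iff_map_eq_one _).2 fun ω hω => ?_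
  obtain ⟨t, ht⟩ := Gl.exists_typ amal_two ω
  rcases t with _ | b
  · cases ht with
    | base u => simp
  · exact ((Gl.nf (amal_cop G Zm) (hu _) (hu _)).2 b _ (key _ _ ht) hω).elim

lemma fr_zz {x : G} (hx : InfOrd x) : Fr (Coprod.inl x : Coprod G Zm) (zz G) := by
  let y : Lm Unit := io (FreeGroup.of ())
  have e : pr ((Coprod.inl x : Coprod G Zm)⁻¹ * zz G) (Coprod.inl x) =
      (pr (zz G) (Coprod.inl x)).comp (pr (y⁻¹ * cc Unit) y) :=
    MonoidHom.ext (lm_ext (by simp [y, pr_cc, pr_io]) (by simp [y, pr_io]))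
  have l : Function.LeftInverse (pr (y * cc Unit) y) (pr (y⁻¹ * cc Unit) y) :=
    lm_ext (φ := (pr (y * cc Unit) y).comp (pr (y⁻¹ * cc Unit) y)) (ψ := MonoidHom.id _)
      (by simp [y, pr_cc, pr_io]) (by simp [y, pr_io])
  unfold Fr
  rw [e]
  exact (pr_zz hx).comp l.injective

end Basic

section Att

variable {P Q G I : Type} [Group P] [Group Q] [Group G] {a : I → P} {u : I → Q} {b : I}
  {f : P →* G} {g : Q →* G} {t : I → G}

lemma unique (h : Att a u b f g t) {G' : Type} [Group G'] {f' : P →* G'} {g' : Q →* G'}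
    {t' : I → G'} (h' : Att a u b f' g' t') :
    ∃ e : G' ≃* G, (∀ p, e (f' p) = f p) ∧ ∀ q, e (g' q) = g q := by
  obtain ⟨π, p1, p2, p3⟩ := h.lift G' f' g' t' h'.base h'.comm
  obtain ⟨ρ, r1, r2, r3⟩ := h'.lift G f g t h.base h.comm
  have e1 : ∀ z, ρ (π z) = z :=
    h.gen ((ρ.comp π).eqLocus (MonoidHom.id G)) (fun p => (congrArg ρ (p1 p)).trans (r1 p))
      (fun q => (congrArg ρ (p2 q)).trans (r2 q)) fun i => (congrArg ρ (p3 i)).trans (r3 i)
  have e2 : ∀ z, π (ρ z) = z :=
    h'.gen ((π.comp ρ).eqLocus (MonoidHom.id G')) (fun p => (congrArg π (r1 p)).trans (p1 p))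
      (fun q => (congrArg π (r2 q)).trans (p2 q)) fun i => (congrArg π (r3 i)).trans (p3 i)
  exact ⟨MonoidHom.toMulEquiv ρ π (MonoidHom.ext e2) (MonoidHom.ext e1), r1, r2⟩

lemma rebase (h : Att a u b f g t) (i : I) :
    Att a u i f ((MulAut.conj (t i)).toMonoidHom.comp g) fun j => t j * (t i)⁻¹ where
  base := mul_inv_cancel _
  comm := fun j => by
    rw [h.comm j]
    simp [mul_assoc]
  lift := fun M _ φ ψ τ h0 h1 => by
    obtain ⟨π, p1, p2, p3⟩ := h.lift M φ ((MulAut.conj (τ b)).toMonoidHom.comp ψ)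
      (fun j => τ j * (τ b)⁻¹) (mul_inv_cancel _) fun j => by
        rw [h1 j]
        simp [mul_assoc]
    refine ⟨π, p1, fun q => ?_, fun j => ?_⟩
    · simp [p2, p3, h0, mul_assoc]
    · simp [p3, h0]
  gen := fun T h1 h2 h3 => by
    have hi : t i ∈ T := by simpa [h.base] using h3 b
    refine h.gen T h1 (fun q => ?_) fun j => ?_
    · have := mul_mem (mul_mem (inv_mem hi) (h2 q)) hi
      simpa [mul_assoc] using this
    · simpa using mul_mem (h3 j) hi

lemma swap (h : Att a u b f g t) : Att u a b g f fun i => (t i)⁻¹ where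
  base := by rw [h.base, inv_one]
  comm := fun i => by
    rw [h.comm i]
    group
  lift := fun M _ φ ψ τ h0 h1 => by
    obtain ⟨π, p1, p2, p3⟩ := h.lift M ψ φ (fun i => (τ i)⁻¹) (by rw [h0, inv_one]) fun i => by
      rw [h1 i]
      group
    exact ⟨π, p2, p1, fun i => by rw [map_inv, p3, inv_inv]⟩
  gen := fun T h1 h2 h3 => h.gen T h2 h1 fun i => by simpa using h3 i

/-- Extension of a family on the other edges by `s` at `b`. -/
lemma exists_ext {M : Type} (b : I) (s : M) (τ : {i // i ≠ b} → M) :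
    ∃ τ' : I → M, τ' b = s ∧ ∀ l : {i // i ≠ b}, τ' l = τ l := by
  classical
  exact ⟨fun i => if h : i = b then s else τ ⟨i, h⟩, by simp, fun l => by simp [l.2]⟩

lemma attZ (h : Att a u b f g t) :
    AttK (zpowersHom P (a b)) (zpowersHom Q (u b)) (fun l : {i // i ≠ b} => a l) (fun l => u l)
      f g fun l => t l where
  comm0 := zm_ext (φ := f.comp _) (ψ := g.comp _) (by simpa [h.base] using h.comm b)
  comm := fun l => h.comm l
  lift := fun M _ φ ψ τ h0 h1 => by
    obtain ⟨τ', e0, e1⟩ := exists_ext b (1 : M) τ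
    obtain ⟨π, p1, p2, p3⟩ := h.lift M φ ψ τ' e0 fun i => by
      by_cases hi : i = b
      · subst hi
        simpa [e0] using h0 (Multiplicative.ofAdd 1)
      · rw [e1 ⟨i, hi⟩]
        exact h1 ⟨i, hi⟩
    exact ⟨π, p1, p2, fun l => (p3 l).trans (e1 l)⟩
  gen := fun T h1 h2 h3 => h.gen T h1 h2 fun i => by
    by_cases hi : i = b
    · rw [hi, h.base]; exact one_mem _
    · exact h3 ⟨i, hi⟩

lemma attL {S : Type} {w : I → FreeGroup S} {f : FreeGroup S →* G} (h : Att w u b f g t)
    {v y : Q} (k : ℤ) (hu : u b = v * y ^ k) {u' : {i // i ≠ b} → Q} (hu' : ∀ l, u' l = u l) :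
    AttK (pr (cc S) (io (w b) * (cc S ^ k)⁻¹)) (pr y v) (fun l : {i // i ≠ b} => io (w l)) u'
      (ex f (g y)) g fun l => t l where
  comm0 := by
    have hb : f (w b) = g (u b) := by simpa [h.base] using h.comm b
    refine lm_ext (φ := (ex f (g y)).comp _) (ψ := g.comp _) ?_ ?_
    · simp [pr_cc, ex_cc]
    · simp [pr_io, ex_cc, ex_io, hb, hu]
  comm := fun l => by rw [ex_io, hu']; exact h.comm l
  lift := by
    intro M _ φ ψ τ hφ hτ
    have h1 := hφ (cc Unit)
    have h2 := hφ (io (FreeGroup.of ()))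
    rw [pr_cc, pr_cc] at h1
    rw [pr_io, pr_io, map_mul, map_inv, map_zpow, h1, mul_inv_eq_iff_eq_mul] at h2
    obtain ⟨τ', e0, e1⟩ := exists_ext b (1 : M) τ
    obtain ⟨π, p1, p2, p3⟩ := h.lift M (φ.comp io) ψ τ' e0 fun i => by
      by_cases hi : i = b
      · subst hi
        simp [h2, hu, e0]
      · rw [e1 ⟨i, hi⟩, ← hu' ⟨i, hi⟩]
        exact hτ ⟨i, hi⟩
    refine ⟨π, fun p => ?_, p2, fun l => (p3 l).trans (e1 l)⟩
    have : π.comp (ex f (g y)) = φ := by
      refine FreeGroup.ext_hom _ _ fun o => ?_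
      rcases o with _ | s
      · show π (ex f (g y) (cc S)) = φ (cc S)
        rw [ex_cc, p2, h1]
      · show π (ex f (g y) (io (FreeGroup.of s))) = φ (io (FreeGroup.of s))
        rw [ex_io, p1]
        rfl
    exact DFunLike.congr_fun this p
  gen := fun T h1 h2 h3 => h.gen T (fun p => by simpa [ex_io] using h1 (io p)) h2 fun i => by
    by_cases hi : i = b
    · rw [hi, h.base]; exact one_mem _
    · exact h3 ⟨i, hi⟩

variable {Q0 : Type} [Group Q0]

/-- An edge that ends at the free generator is removed; its letter becomes the generator. -/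
lemma drop {v : I → Coprod Q0 Zm} {g : Coprod Q0 Zm →* G} (h : Att a v b f g t) {i : I}
    (hb : b ≠ i) (hi : v i = zz Q0) {u0 : I → Q0} (hj : ∀ j, j ≠ i → v j = Coprod.inl (u0 j)) :
    Att (fun j : {j // j ≠ i} => a j) (fun j => (Coprod.inl (u0 j) : Coprod Q0 Zm)) ⟨b, hb⟩ f
      (Coprod.lift (g.comp Coprod.inl) (zpowersHom G (t i))) fun j => t j where
  base := h.base
  comm := fun j => by
    rw [h.comm j, hj j j.2]
    rfl
  lift := fun M _ φ ψ τ h0 h1 => by
    obtain ⟨τ', e0, e1⟩ := exists_ext i (ψ (zz Q0)) τ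
    obtain ⟨π, p1, p2, p3⟩ := h.lift M φ (Coprod.lift (ψ.comp Coprod.inl)
      (zpowersHom M ((ψ (zz Q0))⁻¹ * φ (a i) * ψ (zz Q0)))) τ' ((e1 ⟨b, hb⟩).trans h0) fun j => by
        by_cases hji : j = i
        · subst hji
          simp [hi, e0, zz, mul_assoc]
        · rw [e1 ⟨j, hji⟩, hj j hji]
          exact h1 ⟨j, hji⟩
    refine ⟨π, p1, fun q => ?_, fun j => (p3 j).trans (e1 j)⟩
    have : π.comp (Coprod.lift (g.comp Coprod.inl) (zpowersHom G (t i))) = ψ := by
      refine Coprod.hom_ext (MonoidHom.ext fun q => p2 (Coprod.inl q)) (MonoidHom.ext_mint ?_)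
      simp [p3, e0, zz]
    exact DFunLike.congr_fun this q
  gen := fun T h1 h2 h3 => by
    have ht : t i ∈ T := by simpa [zz] using h2 (zz Q0)
    refine h.gen T h1 (cop_gen g T (fun q => h2 (Coprod.inl q))
      (zm_gen (g.comp Coprod.inr) T ?_)) fun j => ?_
    · have := mul_mem (mul_mem (inv_mem ht) (h1 (a i))) ht
      rw [h.comm i, hi] at this
      simpa [mul_assoc, zz] using this
    · by_cases hji : j = i
      · rw [hji]; exact ht
      · exact h3 ⟨j, hji⟩

/-- A single edge that ends at the free generator gives a free product. -/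
lemma last (a : I → P) (b : I) (hb : ∀ i, i = b) :
    Att a (fun _ => zz Q0) b (Coprod.inl : P →* Coprod P Q0)
      (Coprod.lift Coprod.inr (zpowersHom _ (Coprod.inl (a b)))) fun _ => 1 where
  base := rfl
  comm := fun i => by simp [zz, hb i]
  lift := fun M _ φ ψ τ h0 h1 => by
    refine ⟨Coprod.lift φ (ψ.comp Coprod.inl), fun _ => rfl, fun q => ?_, fun i => ?_⟩
    · have : (Coprod.lift φ (ψ.comp Coprod.inl)).comp
          (Coprod.lift Coprod.inr (zpowersHom _ (Coprod.inl (a b)))) = ψ := by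
        refine Coprod.hom_ext (MonoidHom.ext fun q => rfl) (MonoidHom.ext_mint ?_)
        simpa [h0, zz] using h1 b
      exact DFunLike.congr_fun this q
    · rw [map_one, hb i, h0]
  gen := fun T h1 h2 _ z => cop_gen (MonoidHom.id _) T h1 (fun q => h2 (Coprod.inl q)) z

/-- The free factor of the first vertex is moved to the second vertex. -/
lemma shift {R Z : Type} [Group R] [Group Z] {f : Coprod P (Coprod R Z) →* G}
    (h : Att (fun i => (Coprod.inl (a i) : Coprod P (Coprod R Z))) u b f g t) :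
    Att a (fun i => (Coprod.inl (Coprod.inr (u i)) : Coprod (Coprod R Q) Z)) b (f.comp Coprod.inl)
      (Coprod.lift (Coprod.lift ((f.comp Coprod.inr).comp Coprod.inl) g)
        ((f.comp Coprod.inr).comp Coprod.inr)) t where
  base := h.base
  comm := h.comm
  lift := fun M _ φ ψ τ h0 h1 => by
    obtain ⟨π, p1, p2, p3⟩ := h.lift M (Coprod.lift φ (Coprod.lift
      ((ψ.comp Coprod.inl).comp Coprod.inl) (ψ.comp Coprod.inr)))
      ((ψ.comp Coprod.inl).comp Coprod.inr) τ h0 h1
    refine ⟨π, fun p => p1 (Coprod.inl p), fun q => ?_, p3⟩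
    have : π.comp (Coprod.lift (Coprod.lift ((f.comp Coprod.inr).comp Coprod.inl) g)
        ((f.comp Coprod.inr).comp Coprod.inr)) = ψ :=
      Coprod.hom_ext (Coprod.hom_ext (MonoidHom.ext fun r => p1 (Coprod.inr (Coprod.inl r)))
        (MonoidHom.ext p2)) (MonoidHom.ext fun z => p1 (Coprod.inr (Coprod.inr z)))
    exact DFunLike.congr_fun this q
  gen := fun T h1 h2 h3 => h.gen T (cop_gen f T h1 (cop_gen (f.comp Coprod.inr) T
    (fun r => h2 (Coprod.inl (Coprod.inl r))) fun z => h2 (Coprod.inr z)))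
    (fun q => h2 (Coprod.inl (Coprod.inr q))) h3

end Att

end AttP

end Pool.Agent.MP_494aff_an.Pinch

end MrgPart6

-- marker of a merged file
example : 731051 + 814230 = 731051 + 814230 := rfl
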