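import Mathlib
import Pool.Agent.MP_494aff_an.pinch.AttA

-- ======== part 0: formerly Pool.Agent.MP_494aff_an.pinch.FGa
section MrgPart0

/-! Induced unitaries, density criterion, and gluing over an amalgam. -/

open scoped InnerProductSpace ComplexConjugate

namespace Pool.Agent.MP_494aff_an.Pinch

noncomputable section

namespace FG

open Gl

section ULs

variable {G : Type} [Group G]

lemma ul_inner {u : Op G} (h : UL u) (ξ η : H G) : ⟪u ξ, u η⟫_ℂ = ⟪ξ, η⟫_ℂ :=
  inner_of_star_mul_self h.2.1 ξ η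

lemma ul_mul {u v : Op G} (h : UL u) (h' : UL v) : UL (u * v) :=
  ⟨mul_mem h.1 h'.1, by
    rw [star_mul, mul_assoc, ← mul_assoc (star u), h.2.1, one_mul, h'.2.1], by
    rw [star_mul, mul_assoc, ← mul_assoc v, h'.2.2, one_mul, h.2.2]⟩

lemma ul_star {u : Op G} (h : UL u) : UL (star u) :=
  ⟨star_mem h.1, by rw [star_star]; exact h.2.2, by rw [star_star]; exact h.2.1⟩

lemma ul_one : UL (1 : Op G) := ⟨one_mem _, by simp, by simp⟩

lemma ul_lam (g : G) : UL (lam g) :=
  ⟨lam_mem g, by rw [star_lam, ← map_mul, inv_mul_cancel, map_one],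
    by rw [star_lam, ← map_mul, mul_inv_cancel, map_one]⟩

lemma ul_gen {P : Type} [Group P] {α : P →* Op G} (h : Gen α) (p : P) : UL (α p) :=
  ⟨h.mem p, by rw [h.star_eq, ← map_mul, inv_mul_cancel, map_one],
    by rw [h.star_eq, ← map_mul, mul_inv_cancel, map_one]⟩

lemma star_of_ul {P : Type} [Group P] {α : P →* Op G} {p : P} (h : UL (α p)) :
    star (α p) = α p⁻¹ :=
  star_eq_of_inner (ul_inner h) (by rw [← map_mul, mul_inv_cancel, map_one])

/-- The elements that are sent to unitaries of the algebra. -/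
def ulSub {P : Type} [Group P] (α : P →* Op G) : Subgroup P where
  carrier := {p | UL (α p)}
  one_mem' := by
    show UL (α 1)
    rw [map_one]; exact ul_one
  mul_mem' := fun {a b} ha hb => by
    show UL (α (a * b))
    rw [map_mul]; exact ul_mul ha hb
  inv_mem' := fun {a} ha => by
    show UL (α a⁻¹)
    rw [← star_of_ul ha]; exact ul_star ha

lemma trace_comm {m n : Op G} (hm : m ∈ LL G) (hn : n ∈ LL G) :
    m (n (dl 1)) 1 = n (m (dl 1)) 1 := by
  have key : ∀ {m n : Op G}, m ∈ LL G →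
      m (n (dl 1)) 1 = ∑' y, m (dl 1) y⁻¹ * n (dl 1) y := fun {m n} hm => by
    rw [← inner_dl, ← star_inner, inner_tsum]
    exact tsum_congr fun y => by rw [star_coef hm, Complex.conj_conj]
  rw [key hm, key hn, ← (Equiv.inv G).tsum_eq]
  exact tsum_congr fun y => by simp [mul_comm]

end ULs

section Iu

variable {P G : Type} [Group P] [Group G] (f : P →* G) (hf : Function.Injective f)

open Classical in
/-- The induced unitary. -/
def iu (m : Op P) : Op G := if h : UL m then ind f hf h.1 (ul_inner h) else 0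

variable {m n : Op P}

lemma iu_mem (h : UL m) : iu f hf m ∈ LL G := by
  rw [iu, dif_pos h]; exact ind_mem _ _ _ _

lemma iu_emb (h : UL m) (η : H P) : iu f hf m (emb f hf η) = emb f hf (m η) := by
  rw [iu, dif_pos h]; exact ind_emb _ _ _ _ η

lemma iu_one (h : UL m) : iu f hf m (dl 1) = emb f hf (m (dl 1)) := by
  rw [iu, dif_pos h]; exact ind_one _ _ _ _

lemma iu_inner (h : UL m) (ξ η : H G) : ⟪iu f hf m ξ, iu f hf m η⟫_ℂ = ⟪ξ, η⟫_ℂ := by
  rw [iu, dif_pos h]; exact ind_inner _ _ _ _ ξ η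

lemma iu_mul (h : UL m) (h' : UL n) : iu f hf (m * n) = iu f hf m * iu f hf n :=
  LL_ext (iu_mem f hf (ul_mul h h')) (mul_mem (iu_mem f hf h) (iu_mem f hf h')) (by
    rw [mul_ap, iu_one f hf h', iu_emb f hf h, iu_one f hf (ul_mul h h'), mul_ap])

lemma iu_lam (p : P) : iu f hf (lam p) = lam (f p) :=
  LL_ext (iu_mem f hf (ul_lam p)) (lam_mem _) (by
    rw [iu_one f hf (ul_lam p), lam_one, lam_one, emb_dl])

lemma iu_id : iu f hf 1 = 1 := by
  have := iu_lam f hf 1
  rwa [map_one, map_one, map_one] at this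

lemma iu_star (h : UL m) : iu f hf (star m) = star (iu f hf m) :=
  (star_eq_of_inner (iu_inner f hf h) (by
    rw [← iu_mul f hf h (ul_star h), h.2.2, iu_id])).symm

lemma iu_ul (h : UL m) : UL (iu f hf m) :=
  ⟨iu_mem f hf h, by rw [← iu_star f hf h, ← iu_mul f hf (ul_star h) h, h.2.1, iu_id],
    by rw [← iu_star f hf h, ← iu_mul f hf h (ul_star h), h.2.2, iu_id]⟩

lemma iu_supp (h : UL m) {X : Set P} (hX : Supp X (m (dl 1))) :
    Supp (f '' X) (iu f hf m (dl 1)) := by
  rw [iu_one f hf h]; exact supp_emb f hf hX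

lemma iu_conj {u : Op P} (hu : UL u) (a : P) :
    iu f hf (u * lam a * star u) = iu f hf u * lam (f a) * star (iu f hf u) := by
  rw [iu_mul f hf (ul_mul hu (ul_lam a)) (ul_star hu), iu_mul f hf hu (ul_lam a), iu_lam,
    iu_star f hf hu]

lemma iu_comp {G₂ : Type} [Group G₂] (f₂ : G →* G₂) (hf₂ : Function.Injective f₂)
    (F : P →* G₂) (hF : Function.Injective F) (e : ∀ p, F p = f₂ (f p)) (h : UL m) :
    iu f₂ hf₂ (iu f hf m) = iu F hF m := by
  refine LL_ext (iu_mem _ _ (iu_ul f hf h)) (iu_mem _ _ h) ?_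
  rw [iu_one _ _ (iu_ul f hf h), iu_one _ _ h, iu_one _ _ h]
  have : (emb f₂ hf₂).comp (emb f hf) = emb F hF := op_ext fun x => by
    simp [emb_dl, e]
  exact congrArg (fun T : H P →L[ℂ] H G₂ => T (m (dl 1))) this

/-- The induced representation. -/
def iuHom {P' : Type} [Group P'] {α : P' →* Op P} (hα : Gen α) : P' →* Op G where
  toFun p := iu f hf (α p)
  map_one' := by rw [map_one, iu_id]
  map_mul' p q := by rw [map_mul, iu_mul f hf (ul_gen hα p) (ul_gen hα q)]

end Iu

section Dens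

variable {G G' : Type} [Group G] [Group G'] (π : G' →* Op G)

/-- The closed span of the orbit of the unit vector. -/
def KK : Submodule ℂ (H G) :=
  (Submodule.span ℂ (Set.range fun z => π z (dl 1))).topologicalClosure

/-- `A` preserves the closed span. -/
def Pres (A : Op G) : Prop := ∀ ξ ∈ KK π, A ξ ∈ KK π

variable {π}

lemma closed_KK : IsClosed (KK π : Set (H G)) := Submodule.isClosed_topologicalClosure _

lemma mem_KK (z : G') : π z (dl 1) ∈ KK π :=
  Submodule.le_topologicalClosure _ (Submodule.subset_span ⟨z, rfl⟩)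

lemma pres_of {A : Op G} (hA : ∀ z, A (π z (dl 1)) ∈ KK π) : Pres π A := by
  intro ξ hξ
  have h3 : ∀ η ∈ Submodule.span ℂ (Set.range fun z => π z (dl 1)), A η ∈ KK π := by
    intro η hη
    induction hη using Submodule.span_induction with
    | mem _ h => obtain ⟨z, rfl⟩ := h; exact hA z
    | zero => rw [map_zero]; exact zero_mem _
    | add a b _ _ ha hb => rw [map_add]; exact add_mem ha hb
    | smul c a _ ha => rw [map_smul]; exact Submodule.smul_mem _ c ha
  have h4 := map_mem_closure A.continuous hξ (t := (KK π : Set (H G))) h3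
  rwa [closed_KK.closure_eq] at h4

lemma pres_pi (z : G') : Pres π (π z) :=
  pres_of fun y => by rw [← mul_ap, ← map_mul]; exact mem_KK _

lemma Pres.mul {A B : Op G} (hA : Pres π A) (hB : Pres π B) : Pres π (A * B) :=
  fun ξ h => hA _ (hB ξ h)

lemma pres_iu (hπ : ∀ z, UL (π z)) {P P' : Type} [Group P] [Group P'] {f : P →* G}
    {hf : Function.Injective f} {α : P' →* Op P} (hα : Gen α)
    (h : ∀ p, ∃ z, π z = iu f hf (α p)) {m : Op P} (hm : UL m) : Pres π (iu f hf m) := by
  refine pres_of fun z => ?_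
  have h5 : ∀ η ∈ Submodule.span ℂ (Set.range fun p => α p (dl 1)), ∃ A ∈ LL G,
      A (dl 1) = emb f hf η ∧ A (π z (dl 1)) ∈ KK π := by
    intro η hη
    induction hη using Submodule.span_induction with
    | mem _ h' =>
      obtain ⟨p', rfl⟩ := h'
      obtain ⟨y, hy⟩ := h p'
      exact ⟨iu f hf (α p'), iu_mem f hf (ul_gen hα p'), iu_one f hf (ul_gen hα p'),
        by rw [← hy]; exact pres_pi y _ (mem_KK z)⟩
    | zero => exact ⟨0, zero_mem _, by simp, by simp⟩
    | add a b _ _ ha hb =>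
      obtain ⟨A, hA1, hA2, hA3⟩ := ha
      obtain ⟨B, hB1, hB2, hB3⟩ := hb
      exact ⟨A + B, add_mem hA1 hB1, by rw [map_add, ← hA2, ← hB2]; rfl, add_mem hA3 hB3⟩
    | smul c a _ ha =>
      obtain ⟨A, hA1, hA2, hA3⟩ := ha
      exact ⟨c • A, SMulMemClass.smul_mem c hA1, by rw [map_smul, ← hA2]; rfl,
        (KK π).smul_mem c hA3⟩
  rw [← SetLike.mem_coe, ← closed_KK.closure_eq]
  refine Metric.mem_closure_iff.2 fun ε hε => ?_
  obtain ⟨η, hη, hd⟩ := Metric.mem_closure_iff.1 (hα.dense (m (dl 1))) ε hε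
  obtain ⟨A, hA1, hA2, hA3⟩ := h5 η hη
  refine ⟨_, hA3, ?_⟩
  have h6 := norm_mul_hat (sub_mem (iu_mem f hf hm) hA1) (hπ z).1
  have h7 : ‖π z‖ ≤ 1 := opNorm_le_one (hπ z).2.1
  have h8 : (iu f hf m - A) (dl 1) = emb f hf (m (dl 1) - η) := by
    rw [map_sub, sub_apply, iu_one f hf hm, hA2]
  rw [h8, emb_norm, sub_apply] at h6
  rw [dist_eq_norm] at hd ⊢
  calc _ ≤ ‖m (dl 1) - η‖ * ‖π z‖ := h6
    _ ≤ ‖m (dl 1) - η‖ * 1 := by gcongr
    _ < ε := by rwa [mul_one]

variable (π) in
/-- The elements whose translations preserve the closed span. -/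
def presSub : Subgroup G where
  carrier := {y | Pres π (lam y) ∧ Pres π (lam y⁻¹)}
  one_mem' := ⟨fun ξ h => by rwa [map_one, one_ap], fun ξ h => by rwa [inv_one, map_one, one_ap]⟩
  mul_mem' := fun {a b} ha hb => ⟨by rw [map_mul]; exact ha.1.mul hb.1,
    by rw [mul_inv_rev, map_mul]; exact hb.2.mul ha.2⟩
  inv_mem' := fun {a} ha => ⟨ha.2, by rw [inv_inv]; exact ha.1⟩

lemma gen_of (hπ : ∀ z, UL (π z)) (ht : ∀ z, z ≠ 1 → π z (dl 1) 1 = 0)
    (hT : ∀ y, y ∈ presSub π) : Gen π := by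
  refine ⟨fun z => (hπ z).1, fun z => star_of_ul (hπ z), ht, ?_⟩
  have hdl : ∀ y, dl y ∈ KK π := fun y => by
    have h9 := (hT y).1 (dl 1) (by simpa using mem_KK (π := π) 1)
    rwa [lam_one] at h9
  have h10 : Submodule.span ℂ (Set.range (dl : G → H G)) ≤ KK π :=
    Submodule.span_le.2 (by rintro _ ⟨y, rfl⟩; exact hdl y)
  exact dense_closure.1 (dense_dl.mono h10)

end Dens

lemma amal_symm {K P Q G : Type} [Group K] [Group P] [Group Q] [Group G] {i : K →* P}
    {j : K →* Q} {f : P →* G} {g : Q →* G} (h : Amal i j f g) : Amal j i g f where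
  comm := fun x => (h.comm x).symm
  lift := fun M _ φ ψ hφ => by
    obtain ⟨π, h1, h2⟩ := h.lift M ψ φ fun x => (hφ x).symm
    exact ⟨π, h2, h1⟩
  gen := fun T h1 h2 => h.gen T h2 h1

/-- Gluing with the identity of the other side. -/
theorem glue2 {K P P' Q G G' : Type} [Group K] [Group P] [Group P'] [Group Q] [Group G] [Group G']
    {i : K →* P} {i' : K →* P'} {j : K →* Q} {f : P →* G} {g : Q →* G} {f' : P' →* G'}
    {g' : Q →* G'} (hA : Amal i j f g) (hA' : Amal i' j f' g') (hi : Function.Injective i)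
    (hj : Function.Injective j) {α : P' →* Op P} (hα : Gen α) (hii : ∀ x, α (i' x) = lam (i x))
    (hf : Function.Injective f) :
    ∃ π : G' →* Op G, Gen π ∧ (∀ p, π (f' p) = iu f hf (α p)) ∧ ∀ q, π (g' q) = lam (g q) := by
  obtain ⟨-, hnf⟩ := nf hA hi hj
  set I : P' →* Op G := iuHom f hf hα with hI
  have I_eq : ∀ p, I p = iu f hf (α p) := fun p => rfl
  have I_base : ∀ x, I (i' x) = lam (f (i x)) := fun x => by rw [I_eq, hii, iu_lam]
  obtain ⟨π₀, h1, h2⟩ := hA'.lift (Op G)ˣ I.toHomUnits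
    ((lam : G →* Op G).comp g).toHomUnits fun x => Units.ext (by
      simp only [MonoidHom.coe_toHomUnits, MonoidHom.comp_apply]
      rw [I_base, hA.comm])
  set π : G' →* Op G := (Units.coeHom (Op G)).comp π₀ with hπ
  have π_f : ∀ p, π (f' p) = I p := fun p => by
    simp only [hπ, MonoidHom.comp_apply, h1, Units.coeHom_apply, MonoidHom.coe_toHomUnits]
  have π_g : ∀ q, π (g' q) = lam (g q) := fun q => by
    simp only [hπ, MonoidHom.comp_apply, h2, Units.coeHom_apply, MonoidHom.coe_toHomUnits]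
  have hms : ∀ z, UL (π z) := hA'.gen (ulSub π)
    (fun p => by
      show UL (π (f' p))
      rw [π_f]; exact iu_ul f hf (ul_gen hα p))
    (fun q => by
      show UL (π (g' q))
      rw [π_g]; exact ul_lam _)
  have hoff : ∀ p, p ∉ i'.range → Supp (i.range : Set P)ᶜ (α p (dl 1)) := by
    intro p hp y hy
    obtain ⟨x, rfl⟩ : y ∈ i.range := by simpa using hy
    rw [← inner_dl, ← lam_one, ← hii, ← inner_star, hα.star_eq, ← mul_ap, ← map_mul, inner_dl]
    refine hα.trace _ fun h => hp ⟨x, ?_⟩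
    exact inv_mul_eq_one.1 h
  have hsupp : ∀ t z, Typ i' j f' g' t z → Supp {y | Typ i j f g t y} (π z (dl 1)) := by
    intro t z h
    induction h with
    | base x =>
      rw [π_f, I_base, lam_one]
      exact supp_dl (Typ.base x)
    | left p z t hp _ ht ih =>
      rw [map_mul, mul_ap, π_f]
      refine supp_LL (iu_mem f hf (ul_gen hα p)) (iu_supp f hf (ul_gen hα p) (hoff p hp)) ih ?_
      rintro _ ⟨p', hp', rfl⟩ y hy
      exact Typ.left p' y t hp' hy ht
    | right q z t hq _ ht ih =>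
      rw [map_mul, mul_ap, π_g]
      exact supp_lam _ ih fun y hy => Typ.right q y t hq hy ht
  refine ⟨π, gen_of hms (fun z hz => ?_) ?_, π_f, π_g⟩
  · obtain ⟨t, ht⟩ := exists_typ hA' z
    cases t with
    | none =>
      cases ht with
      | base x =>
        rw [π_f, I_base, lam_one]
        refine dl_ne fun h => hz ?_
        have hx : x = 1 := hi (hf (by rw [← h, map_one, map_one]))
        rw [hx, map_one, map_one]
    | some b => exact hsupp _ z ht 1 fun h => hnf b 1 h rfl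
  · have hg1 : ∀ q, Pres π (lam (g q)) := fun q => by rw [← π_g]; exact pres_pi _
    have hf1 : ∀ p, Pres π (lam (f p)) := fun p => by
      rw [← iu_lam f hf]
      exact pres_iu hms hα (fun p => ⟨f' p, π_f p⟩) (ul_lam p)
    exact hA.gen (presSub π) (fun p => ⟨hf1 p, by rw [← map_inv]; exact hf1 _⟩)
      (fun q => ⟨hg1 q, by rw [← map_inv]; exact hg1 _⟩)

end FG

end

end Pool.Agent.MP_494aff_an.Pinch

end MrgPart0

-- ======== part 1: formerly Pool.Agent.MP_494aff_an.pinch.FGb
section MrgPart1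

/-! One stable letter. -/

open scoped InnerProductSpace ComplexConjugate

namespace Pool.Agent.MP_494aff_an.Pinch

noncomputable section

namespace FG

/-- `G` is the HNN extension of `P` with stable letter `t` that conjugates `c` to `a`. -/
structure Hn {P G : Type} [Group P] [Group G] (a c : P) (F : P →* G) (t : G) : Prop where
  comm : F a = t * F c * t⁻¹
  lift : ∀ (M : Type) [Group M] (φ : P →* M) (τ : M), φ a = τ * φ c * τ⁻¹ →
    ∃ π : G →* M, (∀ p, π (F p) = φ p) ∧ π t = τ
  gen : ∀ T : Subgroup G, (∀ p, F p ∈ T) → t ∈ T → ∀ z, z ∈ T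

section Comb

variable {P G : Type} [Group P] [Group G]

/-- The stable letter or its inverse. -/
def tt (t : G) : Bool → G
  | true => t
  | false => t⁻¹

/-- The element that the letter conjugates back into the base. -/
def ee (a c : P) : Bool → P
  | true => c
  | false => a

lemma tt_not (t : G) (b : Bool) : tt t (!b) = (tt t b)⁻¹ := by cases b <;> simp [tt]

variable {a c : P} {F : P →* G} {t : G}

lemma Hn.conj (h : Hn a c F t) (b : Bool) :
    tt t b * F (ee a c b) * (tt t b)⁻¹ = F (ee a c (!b)) := by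
  cases b
  · show t⁻¹ * F a * t⁻¹⁻¹ = F c
    rw [h.comm]; group
  · exact h.comm.symm

lemma Hn.conj_zpow (h : Hn a c F t) (b : Bool) (k : ℤ) :
    tt t b * F (ee a c b ^ k) * (tt t b)⁻¹ = F (ee a c (!b) ^ k) := by
  rw [map_zpow, map_zpow, ← h.conj b, _root_.conj_zpow]

/-- Reduced words that start with a stable letter. -/
inductive Rd (a c : P) (F : P →* G) (t : G) : Bool → G → Prop
  | one (b : Bool) (p : P) : Rd a c F t b (tt t b * F p)
  | cons (b : Bool) (p : P) (b' : Bool) (z : G) : Rd a c F t b' z →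
      (b' = !b → p ∉ Subgroup.zpowers (ee a c b)) → Rd a c F t b (tt t b * F p * z)

lemma exists_rd (h : Hn a c F t) (z : G) :
    (∃ p, z = F p) ∨ ∃ p b y, Rd a c F t b y ∧ z = F p * y := by
  let N : G → Prop := fun z => (∃ p, z = F p) ∨ ∃ p b y, Rd a c F t b y ∧ z = F p * y
  have hF : ∀ p z, N z → N (F p * z) := by
    rintro p z (⟨q, rfl⟩ | ⟨q, b, y, hy, rfl⟩)
    · exact Or.inl ⟨p * q, by rw [map_mul]⟩
    · exact Or.inr ⟨p * q, b, y, hy, by rw [map_mul, mul_assoc]⟩
  have ht : ∀ b z, N z → N (tt t b * z) := by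
    rintro b z (⟨q, rfl⟩ | ⟨q, b', y, hy, rfl⟩)
    · exact Or.inr ⟨1, b, _, Rd.one b q, by rw [map_one, one_mul]⟩
    · by_cases hp : b' = !b → q ∉ Subgroup.zpowers (ee a c b)
      · exact Or.inr ⟨1, b, _, Rd.cons b q b' y hy hp, by rw [map_one, one_mul, mul_assoc]⟩
      · rw [Classical.not_imp, not_not] at hp
        obtain ⟨rfl, k, rfl⟩ := hp
        have e := h.conj_zpow b k
        rw [← tt_not] at e
        cases hy with
        | one _ p =>
          refine Or.inl ⟨ee a c (!b) ^ k * p, ?_⟩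
          rw [map_mul, ← e]; simp only [mul_assoc]
        | cons _ p b'' y' hy' _ =>
          refine Or.inr ⟨ee a c (!b) ^ k * p, b'', y', hy', ?_⟩
          rw [map_mul, ← e]; simp only [mul_assoc]
  let T : Subgroup G :=
    { carrier := {z | (∀ y, N y → N (z * y)) ∧ ∀ y, N y → N (z⁻¹ * y)}
      one_mem' := ⟨fun y h => by simpa using h, fun y h => by simpa using h⟩
      mul_mem' := fun {x y} hx hy => ⟨fun z h => by
          rw [mul_assoc]; exact hx.1 _ (hy.1 z h),
        fun z h => by rw [mul_inv_rev, mul_assoc]; exact hy.2 _ (hx.2 z h)⟩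
      inv_mem' := fun {x} hx => ⟨hx.2, by simpa using hx.1⟩ }
  have hz : z ∈ T := h.gen T (fun p => ⟨hF p, by rw [← map_inv]; exact hF _⟩)
    ⟨ht true, ht false⟩ z
  have := hz.1 1 (Or.inl ⟨1, (map_one F).symm⟩)
  rwa [mul_one] at this

lemma zpowersHom_inj {x : P} (hx : InfOrd x) : Function.Injective (zpowersHom P x) :=
  (injective_iff_map_eq_one _).2 fun k hk => by
    have := hx k.toAdd hk
    exact Multiplicative.toAdd.injective this

/-- The isomorphism of two infinite cyclic subgroups. -/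
def zEq (ha : InfOrd a) (hc : InfOrd c) : Subgroup.zpowers c ≃* Subgroup.zpowers a :=
  (MonoidHom.ofInjective (zpowersHom_inj hc)).symm.trans
    (MonoidHom.ofInjective (zpowersHom_inj ha))

lemma zEq_apply (ha : InfOrd a) (hc : InfOrd c) :
    (zEq ha hc ⟨c, Subgroup.mem_zpowers c⟩ : P) = a := by
  have : (⟨c, Subgroup.mem_zpowers c⟩ : (zpowersHom P c).range) =
      MonoidHom.ofInjective (zpowersHom_inj hc) (Multiplicative.ofAdd 1) :=
    Subtype.ext (by rw [MonoidHom.ofInjective_apply]; simp)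
  show ((MonoidHom.ofInjective (zpowersHom_inj ha))
    ((MonoidHom.ofInjective (zpowersHom_inj hc)).symm
      (⟨c, Subgroup.mem_zpowers c⟩ : (zpowersHom P c).range)) : P) = a
  rw [this, MulEquiv.symm_apply_apply, MonoidHom.ofInjective_apply]
  simp

/-- Britton's lemma. -/
lemma britton (h : Hn a c F t) (ha : InfOrd a) (hc : InfOrd c) :
    Function.Injective F ∧ ∀ b z, Rd a c F t b z → z ∉ F.range := by
  let φ := zEq ha hc
  obtain ⟨Φ, hF, hT⟩ := h.lift (HNNExtension P _ _ φ) HNNExtension.of HNNExtension.t (by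
    have := HNNExtension.equiv_eq_conj (φ := φ) ⟨c, Subgroup.mem_zpowers c⟩
    rwa [zEq_apply] at this)
  refine ⟨fun x y hxy => HNNExtension.of_injective φ
    ((hF x).symm.trans ((congrArg Φ hxy).trans (hF y))), ?_⟩
  let sg : Bool → ℤˣ := fun b => if b then 1 else -1
  have h1 : ∀ b, Φ (tt t b) = HNNExtension.t ^ (sg b : ℤ) := fun b => by
    cases b <;> simp [tt, sg, hT]
  have h2 : ∀ b, HNNExtension.toSubgroup (Subgroup.zpowers c) (Subgroup.zpowers a) (sg b) =
      Subgroup.zpowers (ee a c b) := fun b => by cases b <;> rfl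
  have key : ∀ b z, Rd a c F t b z → ∃ (p : P) (l : List (ℤˣ × P)),
      ((sg b, p) :: l).IsChain (fun x y => x.2 ∈ HNNExtension.toSubgroup (Subgroup.zpowers c)
        (Subgroup.zpowers a) x.1 → x.1 = y.1) ∧
      Φ z = (((sg b, p) :: l).map fun x : ℤˣ × P =>
        (HNNExtension.t : HNNExtension P _ _ φ) ^ (x.1 : ℤ) * HNNExtension.of x.2).prod := by
    intro b z hz
    induction hz with
    | one b p => exact ⟨p, [], List.isChain_singleton _, by simp [h1, hF]⟩
    | cons b p b' z _ hp ih =>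
      obtain ⟨q, l, hl, e⟩ := ih
      refine ⟨p, (sg b', q) :: l, List.isChain_cons_cons.2 ⟨fun hm => ?_, hl⟩, ?_⟩
      · rw [h2] at hm
        have : ¬ b' = !b := fun hb => hp hb hm
        have : b' = b := by cases b <;> cases b' <;> simp_all
        rw [this]
      · rw [map_mul, map_mul, e, h1, hF]
        rfl
  rintro b z hz ⟨p, hp⟩
  obtain ⟨q, l, hl, e⟩ := key b z hz
  have := HNNExtension.ReducedWord.toList_eq_nil_of_mem_of_range φ ⟨1, _, hl⟩ ⟨p, by
    rw [HNNExtension.NormalWord.ReducedWord.prod, map_one, one_mul, ← e, ← hp, hF]⟩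
  simp at this

end Comb

lemma off_zpowers {P P' : Type} [Group P] [Group P'] {α : P' →* Op P} (hα : Gen α) {V : Op P}
    (hV : UL V) {e : P} {e' : P'} (h : α e' = V * lam e * star V) {p : P'}
    (hp : p ∉ Subgroup.zpowers e') :
    Supp (Subgroup.zpowers e : Set P)ᶜ ((star V * α p * V) (dl 1)) := by
  intro y hy
  obtain ⟨k, rfl⟩ : y ∈ Subgroup.zpowers e := by simpa using hy
  have hk : ∀ k : ℤ, α (e' ^ k) = V * lam (e ^ k) * star V := by
    have hs : ∀ x y : P, V * lam x * star V * (V * lam y * star V) = V * lam (x * y) * star V :=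
      fun x y => by
        rw [map_mul]
        calc _ = V * lam x * (star V * V) * lam y * star V := by simp only [mul_assoc]
          _ = _ := by rw [hV.2.1, mul_one]; simp only [mul_assoc]
    have hi : α e'⁻¹ = V * lam e⁻¹ * star V := by
      rw [← hα.star_eq, h, star_mul, star_mul, star_star, star_lam, mul_assoc]
    intro k
    induction k using Int.induction_on with
    | zero => simp [hV.2.2]
    | succ n ih => rw [zpow_add_one, map_mul, ih, h, hs, zpow_add_one]
    | pred n ih => rw [zpow_sub_one, map_mul, ih, hi, hs, zpow_sub_one]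
  show (star V * α p * V) (dl 1) (e ^ k) = 0
  have e1 : (star V * α p * V) (dl 1) (e ^ k) =
      (lam (e ^ (-k)) * star V * α p) (V (dl 1)) 1 := by
    simp only [mul_ap]
    rw [lam_coef, zpow_neg, inv_inv, mul_one]
  rw [e1, trace_comm (mul_mem (mul_mem (lam_mem _) (star_mem hV.1)) (hα.mem p)) hV.1, ← mul_ap,
    ← mul_assoc, ← mul_assoc, ← hk, ← map_mul]
  refine hα.trace _ fun h1 => hp ⟨k, ?_⟩
  rw [zpow_neg, inv_mul_eq_one] at h1
  exact h1

/-- Extension over one stable letter. -/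
theorem hnn_lift {P P' G G' : Type} [Group P] [Group P'] [Group G] [Group G'] {a c : P}
    {a' c' : P'} {F : P →* G} {F' : P' →* G'} {t : G} {t' : G'} (h : Hn a c F t)
    (h' : Hn a' c' F' t') (ha : InfOrd a) (hc : InfOrd c) {α : P' →* Op P} (hα : Gen α)
    {U V : Op P} (hU : UL U) (hV : UL V) (eU : α a' = U * lam a * star U)
    (eV : α c' = V * lam c * star V) (hf : Function.Injective F) :
    ∃ π : G' →* Op G, Gen π ∧ ∀ p, π (F' p) = iu F hf (α p) := by
  obtain ⟨-, hnf⟩ := britton h ha hc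
  set I : P' →* Op G := iuHom F hf hα with hI
  have I_eq : ∀ p, I p = iu F hf (α p) := fun p => rfl
  let W : Bool → Op P := fun b => if b then V else U
  have hW : ∀ b, UL (W b) := fun b => by cases b; exacts [hU, hV]
  have eW : ∀ b, α (ee a' c' b) = W b * lam (ee a c b) * star (W b) := fun b => by
    cases b; exacts [eU, eV]
  let T : Op G := iu F hf U * lam t * star (iu F hf V)
  have hT : UL T := ul_mul (ul_mul (iu_ul F hf hU) (ul_lam t)) (ul_star (iu_ul F hf hV))
  let Tu : (Op G)ˣ := ⟨T, star T, hT.2.2, hT.2.1⟩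
  obtain ⟨π₀, h1, h2⟩ := h'.lift (Op G)ˣ I.toHomUnits Tu (Units.ext (by
    show I a' = T * I c' * star T
    have e3 := (iu_ul F hf hV).2.1
    rw [I_eq, I_eq, eU, eV, iu_conj F hf hU, iu_conj F hf hV, h.comm, map_mul, map_mul]
    simp only [T, star_mul, star_star, star_lam]
    calc _ = iu F hf U * lam t * (star (iu F hf V) * iu F hf V) * lam (F c) *
          (star (iu F hf V) * iu F hf V) * lam t⁻¹ * star (iu F hf U) := by
          rw [e3]; simp only [mul_one, mul_assoc]
      _ = _ := by simp only [mul_assoc]))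
  set π : G' →* Op G := (Units.coeHom (Op G)).comp π₀ with hπ
  have π_f : ∀ p, π (F' p) = I p := fun p => by
    simp only [hπ, MonoidHom.comp_apply, h1, Units.coeHom_apply, MonoidHom.coe_toHomUnits]
  have π_t : π t' = T := by
    simp only [hπ, MonoidHom.comp_apply, h2, Units.coeHom_apply, Tu]
  have hms : ∀ z, UL (π z) := h'.gen (ulSub π)
    (fun p => by
      show UL (π (F' p))
      rw [π_f]; exact iu_ul F hf (ul_gen hα p))
    (by
      show UL (π t')
      rw [π_t]; exact hT)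
  have π_tt : ∀ b, π (tt t' b) = iu F hf (W (!b)) * lam (tt t b) * star (iu F hf (W b)) := by
    intro b
    cases b
    · show π t'⁻¹ = iu F hf V * lam t⁻¹ * star (iu F hf U)
      rw [← star_of_ul (hms t'), π_t]
      simp only [T, star_mul, star_star, star_lam, mul_assoc]
    · exact π_t
  have hsupp : ∀ b z, Rd a' c' F' t' b z →
      Supp {y | Rd a c F t b y} (star (iu F hf (W (!b))) (π z (dl 1))) := by
    intro b z hz
    induction hz with
    | one b p =>
      have hm : UL (star (W b) * α p) := ul_mul (ul_star (hW b)) (ul_gen hα p)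
      have e : star (iu F hf (W (!b))) (π (tt t' b * F' p) (dl 1)) =
          lam (tt t b) (iu F hf (star (W b) * α p) (dl 1)) := by
        rw [map_mul, π_tt, π_f, I_eq, iu_mul F hf (ul_star (hW b)) (ul_gen hα p),
          iu_star F hf (hW b), ← mul_ap, ← mul_assoc, ← mul_assoc, ← mul_assoc,
          (iu_ul F hf (hW _)).2.1, one_mul]
        rfl
      rw [e]
      refine supp_lam _ (iu_supp F hf hm (supp_univ _)) ?_
      rintro _ ⟨q, -, rfl⟩
      exact Rd.one b q
    | cons b p b' z _ hp ih =>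
      have hm : UL (star (W b) * α p * W (!b')) :=
        ul_mul (ul_mul (ul_star (hW b)) (ul_gen hα p)) (hW _)
      have e : star (iu F hf (W (!b))) (π (tt t' b * F' p * z) (dl 1)) =
          lam (tt t b) (iu F hf (star (W b) * α p * W (!b'))
            (star (iu F hf (W (!b'))) (π z (dl 1)))) := by
        rw [map_mul, map_mul, π_tt, π_f, I_eq,
          iu_mul F hf (ul_mul (ul_star (hW b)) (ul_gen hα p)) (hW _),
          iu_mul F hf (ul_star (hW b)) (ul_gen hα p), iu_star F hf (hW b)]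
        simp only [← mul_ap, ← mul_assoc]
        rw [(iu_ul F hf (hW _)).2.1, one_mul, mul_assoc _ (iu F hf (W (!b'))),
          (iu_ul F hf (hW _)).2.2, mul_one]
      rw [e]
      have hX : Supp {q | b' = !b → q ∉ Subgroup.zpowers (ee a c b)}
          ((star (W b) * α p * W (!b')) (dl 1)) := by
        by_cases hb : b' = !b
        · have : (!b') = b := by rw [hb, Bool.not_not]
          rw [this]
          exact (off_zpowers hα (hW b) (eW b) (hp hb)).mono fun q hq _ => hq
        · exact (supp_univ _).mono fun q _ hq => (hb hq).elim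
      refine supp_lam _ (supp_LL (iu_mem F hf hm) (iu_supp F hf hm hX) ih
        (Z := {y | Rd a c F t b (tt t b * y)}) ?_) fun y hy => hy
      rintro _ ⟨q, hq, rfl⟩ y hy
      show Rd a c F t b (tt t b * (F q * y))
      rw [← mul_assoc]
      exact Rd.cons b q b' y hy hq
  refine ⟨π, gen_of hms (fun z hz => ?_) ?_, π_f⟩
  · rcases exists_rd h' z with ⟨p, rfl⟩ | ⟨p, b, y, hy, rfl⟩
    · rw [π_f, I_eq, iu_one F hf (ul_gen hα p), ← map_one F, emb_coef]
      exact hα.trace p fun h1 => hz (by rw [h1, map_one])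
    · have hm : UL (α p * W (!b)) := ul_mul (ul_gen hα p) (hW _)
      have e : π (F' p * y) (dl 1) =
          iu F hf (α p * W (!b)) (star (iu F hf (W (!b))) (π y (dl 1))) := by
        rw [map_mul, π_f, I_eq, iu_mul F hf (ul_gen hα p) (hW _)]
        simp only [← mul_ap, ← mul_assoc]
        rw [mul_assoc _ (iu F hf (W (!b))), (iu_ul F hf (hW _)).2.2, mul_one]
      rw [e]
      refine supp_LL (iu_mem F hf hm) (iu_supp F hf hm (supp_univ _)) (hsupp b y hy)
        (Z := {1}ᶜ) ?_ 1 (by simp)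
      rintro _ ⟨q, -, rfl⟩ y' hy' h1
      refine hnf b y' hy' ⟨q⁻¹, ?_⟩
      rw [map_inv]
      exact inv_eq_of_mul_eq_one_right h1
  · have hp : ∀ {m}, UL m → Pres π (iu F hf m) := fun hm =>
      pres_iu hms hα (fun p => ⟨F' p, π_f p⟩) hm
    have hf1 : ∀ p, Pres π (lam (F p)) := fun p => by
      rw [← iu_lam F hf]; exact hp (ul_lam p)
    have ht1 : ∀ b, Pres π (lam (tt t b)) := fun b => by
      have e : lam (tt t b) = iu F hf (star (W (!b))) * π (tt t' b) * iu F hf (W b) := by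
        rw [π_tt, iu_star F hf (hW _)]
        simp only [← mul_assoc]
        rw [(iu_ul F hf (hW _)).2.1, one_mul, mul_assoc, (iu_ul F hf (hW _)).2.1, mul_one]
      rw [e]
      exact ((hp (ul_star (hW _))).mul (pres_pi _)).mul (hp (hW _))
    exact h.gen (presSub π) (fun p => ⟨hf1 p, by rw [← map_inv]; exact hf1 _⟩)
      ⟨ht1 true, ht1 false⟩

end FG

end

end Pool.Agent.MP_494aff_an.Pinch

end MrgPart1

-- ======== part 2: formerly Pool.Agent.MP_494aff_an.pinch.FG
section MrgPart2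

/-! Replacing a vertex of a graph of groups with two vertices. -/

open Monoid

namespace Pool.Agent.MP_494aff_an.Pinch

noncomputable section

namespace FG

/-- Several stable letters. -/
structure HnL {P G L : Type} [Group P] [Group G] (a c : L → P) (F : P →* G) (t : L → G) :
    Prop where
  comm : ∀ l, F (a l) = t l * F (c l) * (t l)⁻¹
  lift : ∀ (M : Type) [Group M] (φ : P →* M) (τ : L → M), (∀ l, φ (a l) = τ l * φ (c l) * (τ l)⁻¹) →
    ∃ π : G →* M, (∀ p, π (F p) = φ p) ∧ ∀ l, π (t l) = τ l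
  gen : ∀ T : Subgroup G, (∀ p, F p ∈ T) → (∀ l, t l ∈ T) → ∀ z, z ∈ T

lemma quot_gen {A B : Type} [Group A] [Group B] (N : Subgroup (Coprod A B)) [N.Normal]
    (T : Subgroup (Coprod A B ⧸ N)) (h1 : ∀ p, QuotientGroup.mk' N (Coprod.inl p) ∈ T)
    (h2 : ∀ q, QuotientGroup.mk' N (Coprod.inr q) ∈ T) (z : Coprod A B ⧸ N) : z ∈ T := by
  obtain ⟨y, rfl⟩ := QuotientGroup.mk'_surjective N z
  induction y using Coprod.induction_on with
  | inl p => exact h1 p
  | inr q => exact h2 q
  | mul x y hx hy => rw [map_mul]; exact mul_mem hx hy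

lemma exists_hnL {P L : Type} [Group P] (a c : L → P) :
    ∃ (G : Type) (_ : Group G) (F : P →* G) (t : L → G), HnL a c F t := by
  let R : Set (Coprod P (FreeGroup L)) := Set.range fun l => (Coprod.inl (a l))⁻¹ *
    (Coprod.inr (FreeGroup.of l) * Coprod.inl (c l) * (Coprod.inr (FreeGroup.of l))⁻¹)
  let N := Subgroup.normalClosure R
  refine ⟨Coprod P (FreeGroup L) ⧸ N, inferInstance, (QuotientGroup.mk' N).comp Coprod.inl,
    fun l => QuotientGroup.mk' N (Coprod.inr (FreeGroup.of l)), fun l => ?_, ?_, ?_⟩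
  · simp only [MonoidHom.comp_apply]
    rw [← map_inv, ← map_mul, ← map_mul]
    exact QuotientGroup.eq.2 (Subgroup.subset_normalClosure ⟨l, rfl⟩)
  · intro M _ φ τ h
    refine ⟨QuotientGroup.lift N (Coprod.lift φ (FreeGroup.lift τ)) fun x hx => ?_,
      fun p => by simp, fun l => by simp⟩
    refine (Subgroup.normalClosure_le_normal (N := (Coprod.lift φ (FreeGroup.lift τ)).ker) ?_) hx
    rintro _ ⟨l, rfl⟩
    simp [h l, mul_assoc]
  · intro T h1 h2
    refine quot_gen N T h1 fun q => ?_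
    induction q using FreeGroup.induction_on with
    | C1 => rw [map_one, map_one]; exact one_mem _
    | of l => exact h2 l
    | inv_of l h => rw [map_inv, map_inv]; exact inv_mem h
    | mul x y hx hy => rw [map_mul, map_mul]; exact mul_mem hx hy

lemma exists_amal {K P Q : Type} [Group K] [Group P] [Group Q] (i : K →* P) (j : K →* Q) :
    ∃ (G : Type) (_ : Group G) (f : P →* G) (g : Q →* G), Amal i j f g := by
  let R : Set (Coprod P Q) := Set.range fun x => (Coprod.inl (i x))⁻¹ * Coprod.inr (j x)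
  let N := Subgroup.normalClosure R
  refine ⟨Coprod P Q ⧸ N, inferInstance, (QuotientGroup.mk' N).comp Coprod.inl,
    (QuotientGroup.mk' N).comp Coprod.inr, fun x => ?_, ?_, quot_gen N⟩
  · exact QuotientGroup.eq.2 (Subgroup.subset_normalClosure ⟨x, rfl⟩)
  · intro M _ φ ψ h
    refine ⟨QuotientGroup.lift N (Coprod.lift φ ψ) fun x hx => ?_,
      fun p => by simp, fun l => by simp⟩
    refine (Subgroup.normalClosure_le_normal (N := (Coprod.lift φ ψ).ker) ?_) hx
    rintro _ ⟨x, rfl⟩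
    simp [h x]

lemma InfOrd.map {P G : Type} [Group P] [Group G] {F : P →* G} (hF : Function.Injective F) {x : P}
    (hx : InfOrd x) : InfOrd (F x) := fun k hk =>
  hx k (hF (by rw [map_zpow, hk, map_one]))

/-- The last letter over the group built from the other letters. -/
lemma HnL.split {P G G₁ L : Type} [Group P] [Group G] [Group G₁] {a c : Option L → P}
    {F : P →* G} {t : Option L → G} (h : HnL a c F t) {F₁ : P →* G₁} {t₁ : L → G₁}
    (h₁ : HnL (a ∘ some) (c ∘ some) F₁ t₁) :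
    ∃ F₂ : G₁ →* G, (∀ p, F p = F₂ (F₁ p)) ∧ Hn (F₁ (a none)) (F₁ (c none)) F₂ (t none) := by
  obtain ⟨F₂, e1, e2⟩ := h₁.lift G F (t ∘ some) fun l => h.comm (some l)
  refine ⟨F₂, fun p => (e1 p).symm, by rw [e1, e1]; exact h.comm none, ?_, ?_⟩
  · intro M _ φ τ hφ
    obtain ⟨π, p1, p2⟩ := h.lift M (φ.comp F₁) (fun o => o.elim τ fun l => φ (t₁ l)) (by
      rintro (_ | l)
      · exact hφ
      · have := congrArg φ (h₁.comm l)
        rw [map_mul, map_mul, map_inv] at this
        exact this)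
    refine ⟨π, h₁.gen ((π.comp F₂).eqLocus φ) (fun p => ?_) fun l => ?_, p2 none⟩
    · show π (F₂ (F₁ p)) = φ (F₁ p)
      rw [e1, p1]; rfl
    · show π (F₂ (t₁ l)) = φ (t₁ l)
      rw [e2]; exact p2 (some l)
  · intro T h1 h2
    refine h.gen T (fun p => by rw [← e1]; exact h1 _) ?_
    rintro (_ | l)
    · exact h2
    · have := h1 (t₁ l)
      rwa [e2] at this

/-- Extension over finitely many stable letters. -/
def LiftL (L : Type) : Prop :=
  ∀ (P P' G G' : Type) [Group P] [Group P'] [Group G] [Group G'] (a c : L → P) (a' c' : L → P')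
    (F : P →* G) (F' : P' →* G') (t : L → G) (t' : L → G') (α : P' →* Op P),
    HnL a c F t → HnL a' c' F' t' → (∀ l, InfOrd (a l)) → (∀ l, InfOrd (c l)) → Gen α →
    (∀ l, ∃ U, UL U ∧ α (a' l) = U * lam (a l) * star U) →
    (∀ l, ∃ U, UL U ∧ α (c' l) = U * lam (c l) * star U) →
    ∃ (hf : Function.Injective F) (π : G' →* Op G), Gen π ∧ ∀ p, π (F' p) = iu F hf (α p)

lemma HnL.reindex {P G L L' : Type} [Group P] [Group G] {a c : L → P} {F : P →* G} {t : L → G}
    (h : HnL a c F t) (e : L' ≃ L) : HnL (a ∘ e) (c ∘ e) F (t ∘ e) where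
  comm := fun l => h.comm (e l)
  lift := fun M _ φ τ hφ => by
    obtain ⟨π, p1, p2⟩ := h.lift M φ (τ ∘ e.symm) fun l => by simpa using hφ (e.symm l)
    exact ⟨π, p1, fun l => by simpa using p2 (e l)⟩
  gen := fun T h1 h2 => h.gen T h1 fun l => by simpa using h2 (e.symm l)

lemma HnL.amal {P G L : Type} [Group P] [Group G] [IsEmpty L] {a c : L → P} {F : P →* G}
    {t : L → G} (h : HnL a c F t) :
    Amal (1 : Unit →* P) (1 : Unit →* Unit) F (1 : Unit →* G) where
  comm := fun x => by simp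
  lift := fun M _ φ ψ _ => by
    obtain ⟨π, p1, -⟩ := h.lift M φ isEmptyElim isEmptyElim
    exact ⟨π, p1, fun q => by rw [Subsingleton.elim q 1, map_one, map_one, map_one]⟩
  gen := fun T h1 _ => h.gen T h1 isEmptyElim

theorem liftL (L : Type) [Finite L] : LiftL L := by
  refine Finite.induction_empty_option (P := LiftL) ?_ ?_ ?_ L
  · intro L L' e ih P P' G G' _ _ _ _ a c a' c' F F' t t' α h h' ha hc hα hU hV
    exact ih P P' G G' _ _ _ _ F F' _ _ α (h.reindex e) (h'.reindex e) (fun l => ha (e l))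
      (fun l => hc (e l)) hα (fun l => hU (e l)) fun l => hV (e l)
  · intro P P' G G' _ _ _ _ a c a' c' F F' t t' α h h' _ _ hα _ _
    have i1 : Function.Injective (1 : Unit →* P) := fun x y _ => Subsingleton.elim x y
    have i2 : Function.Injective (1 : Unit →* Unit) := fun x y _ => Subsingleton.elim x y
    have hf := (Gl.nf h.amal i1 i2).1
    obtain ⟨π, p1, p2, -⟩ := glue2 h.amal h'.amal i1 i2 hα (fun x => by simp) hf
    exact ⟨hf, π, p1, p2⟩
  · intro L _ ih P P' G G' _ _ _ _ a c a' c' F F' t t' α h h' ha hc hα hU hV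
    obtain ⟨G₁, _, F₁, t₁, h₁⟩ := exists_hnL (a ∘ some) (c ∘ some)
    obtain ⟨G₁', _, F₁', t₁', h₁'⟩ := exists_hnL (a' ∘ some) (c' ∘ some)
    obtain ⟨F₂, e, h₂⟩ := h.split h₁
    obtain ⟨F₂', e', h₂'⟩ := h'.split h₁'
    obtain ⟨hf₁, π₁, g₁, p₁⟩ := ih P P' G₁ G₁' _ _ _ _ F₁ F₁' t₁ t₁' α h₁ h₁'
      (fun l => ha (some l)) (fun l => hc (some l)) hα (fun l => hU (some l)) fun l => hV (some l)
    obtain ⟨U, u1, u2⟩ := hU none
    obtain ⟨V, v1, v2⟩ := hV none
    have ia := InfOrd.map hf₁ (ha none)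
    have ic := InfOrd.map hf₁ (hc none)
    have hf₂ := (britton h₂ ia ic).1
    obtain ⟨π, g₂, p₂⟩ := hnn_lift h₂ h₂' ia ic g₁ (iu_ul F₁ hf₁ u1) (iu_ul F₁ hf₁ v1)
      (by rw [p₁, u2, iu_conj F₁ hf₁ u1]) (by rw [p₁, v2, iu_conj F₁ hf₁ v1]) hf₂
    have hf : Function.Injective F := fun x y hxy => hf₁ (hf₂ (by rw [← e, ← e, hxy]))
    exact ⟨hf, π, g₂, fun p => by
      rw [e', p₂, p₁, iu_comp F₁ hf₁ F₂ hf₂ F hf e (ul_gen hα p)]⟩

lemma attK_hnL {K P Q G G₀ L : Type} [Group K] [Group P] [Group Q] [Group G] [Group G₀]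
    {i : K →* P} {j : K →* Q} {a : L → P} {u : L → Q} {f : P →* G} {g : Q →* G} {t : L → G}
    (h : AttK i j a u f g t) {f₀ : P →* G₀} {g₀ : Q →* G₀} (h₀ : Amal i j f₀ g₀) :
    ∃ F : G₀ →* G, (∀ p, f p = F (f₀ p)) ∧ (∀ q, g q = F (g₀ q)) ∧
      HnL (f₀ ∘ a) (g₀ ∘ u) F t := by
  obtain ⟨F, e1, e2⟩ := h₀.lift G f g h.comm0
  refine ⟨F, fun p => (e1 p).symm, fun q => (e2 q).symm, fun l => ?_, ?_, ?_⟩
  · simp only [Function.comp_apply]
    rw [e1, e2]; exact h.comm l
  · intro M _ φ τ hφ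
    obtain ⟨π, p1, p2, p3⟩ := h.lift M (φ.comp f₀) (φ.comp g₀) τ
      (fun x => congrArg φ (h₀.comm x)) hφ
    refine ⟨π, h₀.gen ((π.comp F).eqLocus φ) (fun p => ?_) fun q => ?_, p3⟩
    · show π (F (f₀ p)) = φ (f₀ p)
      rw [e1, p1]; rfl
    · show π (F (g₀ q)) = φ (g₀ q)
      rw [e2, p2]; rfl
  · intro T h1 h2
    exact h.gen T (fun p => by rw [← e1]; exact h1 _) (fun q => by rw [← e2]; exact h1 _) h2

end FG

open FG in
theorem fg : FGStmt := by
  intro K P P' Q G G' L M _ _ _ _ _ _ _ i i' j a a' u f g t f' g' t' c c' h h' hi hj ha hu hS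
  obtain ⟨α, hα, s1, s2⟩ := hS
  obtain ⟨G₀, _, f₀, g₀, h₀⟩ := exists_amal i j
  obtain ⟨G₀', _, f₀', g₀', h₀'⟩ := exists_amal i' j
  obtain ⟨F, e1, e2, hL⟩ := attK_hnL h h₀
  obtain ⟨F', e1', e2', hL'⟩ := attK_hnL h' h₀'
  have hf₀ := (Gl.nf h₀ hi hj).1
  have hg₀ := (Gl.nf (amal_symm h₀) hj hi).1
  obtain ⟨π₀, g₁, p₁, p₂⟩ := glue2 h₀ h₀' hi hj hα s1 hf₀
  have mk : ∀ l, ∃ U, UL U ∧ π₀ (f₀' (Sum.elim a' c' l)) = U * lam (f₀ (Sum.elim a c l)) * star U :=
    fun l => by
      obtain ⟨U, u1, u2⟩ := s2 l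
      exact ⟨iu f₀ hf₀ U, iu_ul f₀ hf₀ u1, by rw [p₁, u2, iu_conj f₀ hf₀ u1]⟩
  obtain ⟨hf, π, g₂, p₃⟩ := liftL L G₀ G₀' G G' _ _ _ _ F F' t t' π₀ hL hL'
    (fun l => InfOrd.map hf₀ (ha l)) (fun l => InfOrd.map hg₀ (hu l)) g₁
    (fun l => mk (Sum.inl l)) fun l => ⟨1, ul_one, by simp [p₂]⟩
  refine ⟨π, g₂, fun q => by rw [e2', p₃, p₂, iu_lam, e2], fun m => ?_⟩
  obtain ⟨U, u1, u2⟩ := mk (Sum.inr m)
  refine ⟨iu F hf U, iu_ul F hf u1, ?_⟩
  simp only [Function.comp_apply, Sum.elim_inr] at u2 ⊢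
  rw [e1', p₃, u2, iu_conj F hf u1, e1]

end

end Pool.Agent.MP_494aff_an.Pinch

end MrgPart2

-- marker of a merged file
example : 731051 + 469831 = 731051 + 469831 := rfl
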