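import Mathlib
import Pool.Agent.MP_494aff_an.pinch.Defs

-- ======== part 0: formerly Pool.Agent.MP_494aff_an.pinch.Spec
section MrgPart0

-- ======== part 0: formerly Pool.Agent.MP_494aff_an.pinch.Base
section MrgPart0

/-! Translation operators, the commutant of the right translations, supports. -/

open scoped InnerProductSpace ComplexConjugate

namespace Pool.Agent.MP_494aff_an.Pinch

noncomputable section

section Basis

variable {G G' : Type}

lemma mul_ap (S T : Op G) (ξ : H G) : (S * T) ξ = S (T ξ) := rfl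

lemma one_ap (ξ : H G) : (1 : Op G) ξ = ξ := rfl

lemma dl_self (x : G) : dl x x = 1 := by
  classical
  unfold dl
  convert lp.single_apply_self (E := fun _ : G => ℂ) 2 x 1

lemma dl_ne {x y : G} (h : y ≠ x) : dl x y = 0 := by
  classical
  unfold dl
  convert lp.single_apply_ne (E := fun _ : G => ℂ) 2 x 1 h

lemma dl_apply [DecidableEq G] (x y : G) : dl x y = if y = x then 1 else 0 := by
  split_ifs with h
  · rw [h, dl_self]
  · exact dl_ne h

lemma inner_dl (x : G) (ξ : H G) : ⟪dl x, ξ⟫_ℂ = ξ x := by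
  classical
  unfold dl
  rw [lp.inner_single_left]
  simp

lemma inner_dl' (x : G) (ξ : H G) : ⟪ξ, dl x⟫_ℂ = conj (ξ x) := by
  rw [← inner_conj_symm, inner_dl]

lemma norm_dl (x : G) : ‖dl x‖ = 1 := by
  classical
  unfold dl
  rw [lp.norm_single (by norm_num)]
  simp

lemma orthonormal_dl : Orthonormal ℂ (dl : G → H G) :=
  ⟨norm_dl, fun x y h => (inner_dl x (dl y)).trans (dl_ne h)⟩

lemma inner_tsum (ξ η : H G) : ⟪ξ, η⟫_ℂ = ∑' y, conj (ξ y) * η y := by
  rw [lp.inner_eq_tsum]
  simp [mul_comm]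

lemma norm_coef_le (ξ : H G) (x : G) : ‖ξ x‖ ≤ ‖ξ‖ := lp.norm_apply_le_norm (by norm_num) ξ x

lemma hasSum_dl (ξ : H G) : HasSum (fun x => ξ x • dl x) ξ := by
  classical
  have := lp.hasSum_single (E := fun _ : G => ℂ) (p := 2) (by norm_num) ξ
  convert this using 2 with x
  unfold dl
  rw [← lp.single_smul]
  simp

lemma dense_dl : Dense (Submodule.span ℂ (Set.range (dl : G → H G)) : Set (H G)) := by
  intro ξ
  refine mem_closure_of_tendsto (hasSum_dl ξ) (Filter.Eventually.of_forall fun s => ?_)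
  exact Submodule.sum_mem _ fun x _ => Submodule.smul_mem _ _ (Submodule.subset_span ⟨x, rfl⟩)

lemma op_ext {E : Type} [NormedAddCommGroup E] [NormedSpace ℂ E] {S T : H G →L[ℂ] E}
    (h : ∀ x, S (dl x) = T (dl x)) : S = T :=
  ContinuousLinearMap.ext_on dense_dl (by rintro _ ⟨x, rfl⟩; exact h x)

/-- The isometry that sends the unit vectors to a given orthonormal family. -/
def ofON {E : Type} [NormedAddCommGroup E] [InnerProductSpace ℂ E] [CompleteSpace E]
    (v : G → E) (hv : Orthonormal ℂ v) : H G →L[ℂ] E :=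
  hv.orthogonalFamily.linearIsometry.toContinuousLinearMap

lemma ofON_dl {E : Type} [NormedAddCommGroup E] [InnerProductSpace ℂ E] [CompleteSpace E]
    (v : G → E) (hv : Orthonormal ℂ v) (x : G) : ofON v hv (dl x) = v x := by
  classical
  unfold ofON dl
  have := hv.orthogonalFamily.linearIsometry_apply_single (i := x) (1 : ℂ)
  simp only [LinearIsometry.toSpanSingleton_apply, one_smul] at this
  convert this using 1
  rfl

lemma ofON_inner {E : Type} [NormedAddCommGroup E] [InnerProductSpace ℂ E] [CompleteSpace E]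
    (v : G → E) (hv : Orthonormal ℂ v) (ξ η : H G) : ⟪ofON v hv ξ, ofON v hv η⟫_ℂ = ⟪ξ, η⟫_ℂ :=
  hv.orthogonalFamily.linearIsometry.inner_map_map ξ η

lemma ofON_norm {E : Type} [NormedAddCommGroup E] [InnerProductSpace ℂ E] [CompleteSpace E]
    (v : G → E) (hv : Orthonormal ℂ v) (ξ : H G) : ‖ofON v hv ξ‖ = ‖ξ‖ :=
  hv.orthogonalFamily.linearIsometry.norm_map ξ

/-- The isometry induced by an injective map. -/
def emb (f : G → G') (hf : Function.Injective f) : H G →L[ℂ] H G' :=
  ofON (dl ∘ f) (orthonormal_dl.comp f hf)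

lemma emb_dl (f : G → G') (hf : Function.Injective f) (x : G) : emb f hf (dl x) = dl (f x) :=
  ofON_dl _ _ x

lemma emb_inner (f : G → G') (hf : Function.Injective f) (ξ η : H G) :
    ⟪emb f hf ξ, emb f hf η⟫_ℂ = ⟪ξ, η⟫_ℂ := ofON_inner _ _ ξ η

lemma emb_norm (f : G → G') (hf : Function.Injective f) (ξ : H G) : ‖emb f hf ξ‖ = ‖ξ‖ :=
  ofON_norm _ _ ξ

lemma emb_coef (f : G → G') (hf : Function.Injective f) (ξ : H G) (x : G) :
    emb f hf ξ (f x) = ξ x := by
  rw [← inner_dl, ← emb_dl f hf, emb_inner, inner_dl]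

lemma star_inner (T : Op G) (ξ η : H G) : ⟪star T ξ, η⟫_ℂ = ⟪ξ, T η⟫_ℂ :=
  ContinuousLinearMap.adjoint_inner_left T η ξ

lemma inner_star (T : Op G) (ξ η : H G) : ⟪ξ, star T η⟫_ℂ = ⟪T ξ, η⟫_ℂ :=
  ContinuousLinearMap.adjoint_inner_right T ξ η

lemma star_mul_self_of_inner {T : Op G} (h : ∀ ξ η, ⟪T ξ, T η⟫_ℂ = ⟪ξ, η⟫_ℂ) :
    star T * T = 1 := by
  ext1 η
  refine ext_inner_left ℂ fun ξ => ?_
  simp only [mul_ap, one_ap]
  rw [inner_star, h]

lemma star_eq_of_inner {T T' : Op G} (h : ∀ ξ η, ⟪T ξ, T η⟫_ℂ = ⟪ξ, η⟫_ℂ) (h' : T * T' = 1) :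
    star T = T' := by
  rw [← mul_one (star T), ← h', ← mul_assoc, star_mul_self_of_inner h, one_mul]

lemma inner_of_star_mul_self {T : Op G} (h : star T * T = 1) (ξ η : H G) :
    ⟪T ξ, T η⟫_ℂ = ⟪ξ, η⟫_ℂ := by
  rw [← inner_star, ← mul_ap, h, one_ap]

lemma norm_of_star_mul_self {T : Op G} (h : star T * T = 1) (ξ : H G) : ‖T ξ‖ = ‖ξ‖ := by
  have := inner_of_star_mul_self h ξ ξ
  rw [inner_self_eq_norm_sq_to_K, inner_self_eq_norm_sq_to_K] at this
  have h2 : ‖T ξ‖ ^ 2 = ‖ξ‖ ^ 2 := by exact_mod_cast this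
  exact (pow_left_inj₀ (norm_nonneg _) (norm_nonneg _) two_ne_zero).1 h2

lemma opNorm_le_one {T : Op G} (h : star T * T = 1) : ‖T‖ ≤ 1 :=
  T.opNorm_le_bound zero_le_one fun ξ => by rw [norm_of_star_mul_self h, one_mul]

/-- `ξ` vanishes outside `X`. -/
def Supp (X : Set G) (ξ : H G) : Prop := ∀ y, y ∉ X → ξ y = 0

lemma Supp.mono {X Y : Set G} {ξ : H G} (h : Supp X ξ) (hXY : X ⊆ Y) : Supp Y ξ :=
  fun y hy => h y fun hx => hy (hXY hx)

lemma supp_zero (X : Set G) : Supp X (0 : H G) := fun _ _ => rfl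

lemma supp_univ (ξ : H G) : Supp Set.univ ξ := fun _ hy => (hy trivial).elim

lemma supp_dl {X : Set G} {x : G} (hx : x ∈ X) : Supp X (dl x) :=
  fun _ hy => dl_ne fun h => hy (h ▸ hx)

lemma Supp.add {X : Set G} {ξ η : H G} (h : Supp X ξ) (h' : Supp X η) : Supp X (ξ + η) :=
  fun y hy => by rw [lp.coeFn_add, Pi.add_apply, h y hy, h' y hy, add_zero]

lemma Supp.smul {X : Set G} {ξ : H G} (h : Supp X ξ) (a : ℂ) : Supp X (a • ξ) :=
  fun y hy => by rw [lp.coeFn_smul, Pi.smul_apply, h y hy, smul_zero]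

lemma Supp.rsmul {X : Set G} {ξ : H G} (h : Supp X ξ) (a : ℝ) : Supp X (a • ξ) :=
  fun y hy => by rw [lp.coeFn_smul, Pi.smul_apply, h y hy, smul_zero]

lemma Supp.neg {X : Set G} {ξ : H G} (h : Supp X ξ) : Supp X (-ξ) :=
  fun y hy => by rw [lp.coeFn_neg, Pi.neg_apply, h y hy, neg_zero]

lemma Supp.sub {X : Set G} {ξ η : H G} (h : Supp X ξ) (h' : Supp X η) : Supp X (ξ - η) := by
  rw [sub_eq_add_neg]; exact h.add h'.neg

lemma supp_sum {ι : Type*} {X : Set G} (s : Finset ι) (f : ι → H G) (h : ∀ i ∈ s, Supp X (f i)) :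
    Supp X (∑ i ∈ s, f i) :=
  Finset.sum_induction f (Supp X) (fun _ _ => Supp.add) (supp_zero X) h

lemma isClosed_supp (X : Set G) : IsClosed {ξ : H G | Supp X ξ} := by
  have : {ξ : H G | Supp X ξ} = ⋂ y ∈ Xᶜ, {ξ | ⟪dl y, ξ⟫_ℂ = 0} := by
    ext ξ; simp [Supp, inner_dl]
  rw [this]
  exact isClosed_biInter fun y _ => isClosed_eq (by fun_prop) continuous_const

/-- An operator that sends the unit vectors at `X` into `Y` sends all vectors on `X` into `Y`. -/
lemma supp_map {X : Set G} {Y : Set G'} (T : H G →L[ℂ] H G') (h : ∀ x ∈ X, Supp Y (T (dl x)))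
    {ξ : H G} (hξ : Supp X ξ) : Supp Y (T ξ) := by
  refine (isClosed_supp Y).mem_of_tendsto ((hasSum_dl ξ).mapL T)
    (Filter.Eventually.of_forall fun s => supp_sum s _ fun x _ => ?_)
  by_cases hx : x ∈ X
  · rw [map_smul]; exact (h x hx).smul _
  · rw [hξ x hx, zero_smul, map_zero]; exact supp_zero _

lemma inner_eq_zero_of_supp {X Y : Set G} {ξ η : H G} (h : Supp X ξ) (h' : Supp Y η)
    (hd : Disjoint X Y) : ⟪ξ, η⟫_ℂ = 0 := by
  rw [inner_tsum]
  have : ∀ y, conj (ξ y) * η y = 0 := fun y => by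
    by_cases hy : y ∈ X
    · rw [h' y (Set.disjoint_left.1 hd hy), mul_zero]
    · rw [h y hy, map_zero, zero_mul]
  simp [this]

lemma supp_emb (f : G → G') (hf : Function.Injective f) {X : Set G} {ξ : H G} (h : Supp X ξ) :
    Supp (f '' X) (emb f hf ξ) :=
  supp_map _ (fun x hx => by rw [emb_dl]; exact supp_dl ⟨x, hx, rfl⟩) h

end Basis

variable {G : Type} [Group G]

/-- Left translations. -/
def lam : G →* Op G where
  toFun g := emb (fun x => g * x) (mul_right_injective g)
  map_one' := op_ext fun x => by simp [emb_dl]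
  map_mul' g h := op_ext fun x => by simp [emb_dl, mul_assoc]

/-- Right translations. -/
def rho : G →* Op G where
  toFun g := emb (fun x => x * g⁻¹) (mul_left_injective g⁻¹)
  map_one' := op_ext fun x => by simp [emb_dl]
  map_mul' g h := op_ext fun x => by simp [emb_dl, mul_assoc]

lemma lam_dl (g x : G) : lam g (dl x) = dl (g * x) :=
  emb_dl _ (mul_right_injective g) x

lemma rho_dl (g x : G) : rho g (dl x) = dl (x * g⁻¹) :=
  emb_dl _ (mul_left_injective g⁻¹) x

lemma lam_one (g : G) : lam g (dl 1) = dl g := by rw [lam_dl, mul_one]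

lemma lam_inner (g : G) (ξ η : H G) : ⟪lam g ξ, lam g η⟫_ℂ = ⟪ξ, η⟫_ℂ :=
  emb_inner _ (mul_right_injective g) ξ η

lemma rho_inner (g : G) (ξ η : H G) : ⟪rho g ξ, rho g η⟫_ℂ = ⟪ξ, η⟫_ℂ :=
  emb_inner _ (mul_left_injective g⁻¹) ξ η

lemma lam_norm (g : G) (ξ : H G) : ‖lam g ξ‖ = ‖ξ‖ := emb_norm _ (mul_right_injective g) ξ

lemma rho_norm (g : G) (ξ : H G) : ‖rho g ξ‖ = ‖ξ‖ := emb_norm _ (mul_left_injective g⁻¹) ξ

lemma lam_coef (g : G) (ξ : H G) (y : G) : lam g ξ y = ξ (g⁻¹ * y) := by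
  have := emb_coef (fun x => g * x) (mul_right_injective g) ξ (g⁻¹ * y)
  simp only [mul_inv_cancel_left] at this
  exact this

lemma rho_coef (g : G) (ξ : H G) (y : G) : rho g ξ y = ξ (y * g) := by
  have := emb_coef (fun x => x * g⁻¹) (mul_left_injective g⁻¹) ξ (y * g)
  simp only [mul_inv_cancel_right] at this
  exact this

lemma star_lam (g : G) : star (lam g) = lam g⁻¹ :=
  star_eq_of_inner (lam_inner g) (by rw [← map_mul, mul_inv_cancel, map_one])

lemma star_rho (g : G) : star (rho g) = rho g⁻¹ :=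
  star_eq_of_inner (rho_inner g) (by rw [← map_mul, mul_inv_cancel, map_one])

lemma opNorm_lam (g : G) : ‖lam g‖ ≤ 1 := opNorm_le_one (star_mul_self_of_inner (lam_inner g))

lemma opNorm_rho (g : G) : ‖rho g‖ ≤ 1 := opNorm_le_one (star_mul_self_of_inner (rho_inner g))

lemma rho_lam (g h : G) : rho g * lam h = lam h * rho g :=
  op_ext fun x => by simp [lam_dl, rho_dl, mul_assoc]

/-- The commutant of the right translations. -/
def LL (G : Type) [Group G] : StarSubalgebra ℂ (Op G) :=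
  StarSubalgebra.centralizer ℂ (Set.range (rho : G →* Op G))

lemma mem_LL {m : Op G} : m ∈ LL G ↔ ∀ g, rho g * m = m * rho g := by
  unfold LL
  rw [StarSubalgebra.mem_centralizer_iff]
  constructor
  · exact fun h g => (h _ ⟨g, rfl⟩).1
  · rintro h _ ⟨g, rfl⟩
    exact ⟨h g, by rw [star_rho]; exact h _⟩

lemma rho_LL {m : Op G} (hm : m ∈ LL G) (g : G) (ξ : H G) : rho g (m ξ) = m (rho g ξ) :=
  congrArg (fun T : Op G => T ξ) (mem_LL.1 hm g)

lemma lam_mem (g : G) : lam g ∈ LL G := mem_LL.2 fun h => rho_lam h g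

lemma isClosed_LL : IsClosed (LL G : Set (Op G)) := by
  have : (LL G : Set (Op G)) = ⋂ g : G, {m | rho g * m = m * rho g} := by
    ext m; simp [mem_LL]
  rw [this]
  exact isClosed_iInter fun g => isClosed_eq (by fun_prop) (by fun_prop)

/-- `LL G` is closed under strong limits. -/
lemma mem_LL_of_tendsto {ι : Type*} {l : Filter ι} [l.NeBot] {T : ι → Op G} {m : Op G}
    (hT : ∀ i, T i ∈ LL G) (h : ∀ ξ, Filter.Tendsto (fun i => T i ξ) l (nhds (m ξ))) :
    m ∈ LL G := by
  refine mem_LL.2 fun g => ?_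
  ext1 ξ
  have h1 := ((rho g).continuous.tendsto _).comp (h ξ)
  have h2 := h (rho g ξ)
  refine tendsto_nhds_unique h1 (h2.congr fun i => ?_)
  exact (rho_LL (hT i) g ξ).symm

lemma LL_dl {m : Op G} (hm : m ∈ LL G) (x : G) : m (dl x) = rho x⁻¹ (m (dl 1)) := by
  rw [rho_LL hm, rho_dl]; simp

lemma LL_ext {m n : Op G} (hm : m ∈ LL G) (hn : n ∈ LL G) (h : m (dl 1) = n (dl 1)) : m = n :=
  op_ext fun x => by rw [LL_dl hm, LL_dl hn, h]

lemma LL_coef {m : Op G} (hm : m ∈ LL G) (x y : G) : m (dl x) y = m (dl 1) (y * x⁻¹) := by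
  rw [LL_dl hm, rho_coef]

omit [Group G] in
lemma star_coef' (m : Op G) (x y : G) : star m (dl x) y = conj (m (dl y) x) := by
  rw [← inner_dl, inner_star, inner_dl']

lemma star_coef {m : Op G} (hm : m ∈ LL G) (y : G) : star m (dl 1) y = conj (m (dl 1) y⁻¹) := by
  rw [star_coef', LL_coef hm, one_mul]

lemma norm_star_hat {m : Op G} (hm : m ∈ LL G) : ‖star m (dl 1)‖ = ‖m (dl 1)‖ := by
  have : star m (dl 1) = star (emb (fun x : G => x⁻¹) inv_injective (m (dl 1))) := by
    ext y
    rw [star_coef hm, lp.star_apply]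
    have := emb_coef (fun x : G => x⁻¹) inv_injective (m (dl 1)) y⁻¹
    simp only [inv_inv] at this
    rw [this]; rfl
  rw [this, norm_star, emb_norm]

lemma norm_mul_hat {m n : Op G} (hm : m ∈ LL G) (hn : n ∈ LL G) :
    ‖m (n (dl 1))‖ ≤ ‖m (dl 1)‖ * ‖n‖ := by
  have h1 := norm_star_hat (mul_mem hm hn)
  rw [star_mul] at h1
  simp only [mul_ap] at h1
  rw [← h1, ← norm_star_hat hm, mul_comm, ← norm_star n]
  exact (star n).le_opNorm _

lemma comm_LL {m r : Op G} (hm : m ∈ LL G) (hr : ∀ g, lam g * r = r * lam g) :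
    m * r = r * m := by
  have hr' : ∀ x y : G, r (dl x) y = r (dl 1) (x⁻¹ * y) := fun x y => by
    rw [← lam_one x, ← mul_ap, ← hr, mul_ap,
      lam_coef]
  refine op_ext fun x => ?_
  ext y
  simp only [mul_ap]
  rw [← inner_dl y (m _), ← inner_dl y (r (m _)), ← star_inner m, ← star_inner r (dl y),
    inner_tsum, inner_tsum]
  rw [← ((Equiv.inv G).trans ((Equiv.mulLeft x).trans (Equiv.mulRight y))).tsum_eq]
  refine tsum_congr fun z => ?_
  simp only [star_coef', Complex.conj_conj, Equiv.trans_apply, Equiv.inv_apply, Equiv.coe_mulLeft,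
    Equiv.coe_mulRight]
  rw [LL_coef hm, LL_coef hm x, hr' x, hr' z, mul_comm]
  congr 2 <;> group

/-- An invertible operator that conjugates the left translations into `LL G` normalises it. -/
lemma conj_mem_LL {U V : Op G} (hVU : V * U = 1) (hUV : U * V = 1)
    (h : ∀ g, U * lam g * V ∈ LL G) {m : Op G} (hm : m ∈ LL G) : U * m * V ∈ LL G := by
  refine mem_LL.2 fun x => ?_
  have h1 : ∀ g, lam g * (V * rho x * U) = V * rho x * U * lam g := fun g => by
    have := mem_LL.1 (h g) x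
    calc lam g * (V * rho x * U) = (V * U) * lam g * (V * rho x * U) := by rw [hVU, one_mul]
      _ = V * (U * lam g * V * rho x) * U := by simp only [mul_assoc]
      _ = V * rho x * U * lam g * (V * U) := by rw [← this]; simp only [mul_assoc]
      _ = _ := by rw [hVU, mul_one]
  have h2 := comm_LL hm h1
  calc rho x * (U * m * V) = (U * V) * rho x * (U * m * V) := by rw [hUV, one_mul]
    _ = U * (V * rho x * U * m) * V := by simp only [mul_assoc]
    _ = U * m * V * rho x * (U * V) := by rw [← h2]; simp only [mul_assoc]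
    _ = _ := by rw [hUV, mul_one]

lemma vN_eq : vN G = LL G := by
  have hS : {T : Op G | ∃ g : G, ∀ x, T (dl x) = dl (g * x)} = Set.range (lam : G →* Op G) := by
    ext T
    constructor
    · rintro ⟨g, hg⟩
      exact ⟨g, op_ext fun x => by rw [lam_dl, hg]⟩
    · rintro ⟨g, rfl⟩
      exact ⟨g, lam_dl g⟩
  have hR : ∀ r : Op G, r ∈ StarSubalgebra.centralizer ℂ (Set.range (lam : G →* Op G)) ↔
      ∀ g, lam g * r = r * lam g := fun r => by
    rw [StarSubalgebra.mem_centralizer_iff]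
    constructor
    · exact fun h g => (h _ ⟨g, rfl⟩).1
    · rintro h _ ⟨g, rfl⟩
      exact ⟨h g, by rw [star_lam]; exact h _⟩
  unfold vN
  rw [hS]
  ext m
  rw [StarSubalgebra.mem_centralizer_iff]
  constructor
  · intro h
    exact mem_LL.2 fun g => (h _ ((hR _).2 fun x => (rho_lam g x).symm)).1
  · intro hm r hr
    exact ⟨(comm_LL hm ((hR r).1 hr)).symm, (comm_LL hm ((hR _).1 (star_mem hr))).symm⟩

/-- Supports multiply. -/
lemma supp_LL {m : Op G} (hm : m ∈ LL G) {X Y Z : Set G} (hX : Supp X (m (dl 1))) {ξ : H G}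
    (hY : Supp Y ξ) (h : ∀ x ∈ X, ∀ y ∈ Y, x * y ∈ Z) : Supp Z (m ξ) := by
  refine supp_map m (fun y hy z hz => ?_) hY
  rw [LL_coef hm]
  refine hX _ fun hx => hz ?_
  simpa using h _ hx y hy

lemma supp_lam (g : G) {Y Z : Set G} {ξ : H G} (hY : Supp Y ξ) (h : ∀ y ∈ Y, g * y ∈ Z) :
    Supp Z (lam g ξ) :=
  supp_map _ (fun y hy => by rw [lam_dl]; exact supp_dl (h y hy)) hY

lemma supp_rho (g : G) {Y Z : Set G} {ξ : H G} (hY : Supp Y ξ) (h : ∀ y ∈ Y, y * g⁻¹ ∈ Z) :
    Supp Z (rho g ξ) :=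
  supp_map _ (fun y hy => by rw [rho_dl]; exact supp_dl (h y hy)) hY

/-- The complex group algebra. -/
abbrev CA (G : Type) [Group G] : Type := MonoidAlgebra ℂ G

/-- The real group algebra. -/
abbrev RA (G : Type) [Group G] : Type := MonoidAlgebra ℝ G

/-- The regular representation of the group algebra. -/
def op : CA G →ₐ[ℂ] Op G := MonoidAlgebra.lift ℂ (Op G) G lam

/-- The vector of coefficients. -/
def hat (x : CA G) : H G := op x (dl 1)

lemma op_single (g : G) (a : ℂ) : op (MonoidAlgebra.single g a) = a • lam g :=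
  MonoidAlgebra.lift_single _ _ _

lemma op_single_one (g : G) : op (MonoidAlgebra.single g 1) = lam g := by
  rw [op_single, one_smul]

lemma op_mem (x : CA G) : op x ∈ LL G := by
  induction x using MonoidAlgebra.induction_linear with
  | zero => rw [map_zero]; exact zero_mem _
  | add x y hx hy => rw [map_add]; exact add_mem hx hy
  | single g a => rw [op_single]; exact SMulMemClass.smul_mem _ (lam_mem g)

lemma hat_zero : hat (0 : CA G) = 0 := by simp [hat]

lemma hat_add (x y : CA G) : hat (x + y) = hat x + hat y := by simp [hat]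

lemma hat_sub (x y : CA G) : hat (x - y) = hat x - hat y := by simp [hat]

lemma hat_neg (x : CA G) : hat (-x) = -hat x := by simp [hat]

lemma hat_smul (a : ℂ) (x : CA G) : hat (a • x) = a • hat x := by simp [hat]

lemma hat_mul (x y : CA G) : hat (x * y) = op x (hat y) := by simp [hat]

lemma hat_sum {ι : Type*} (s : Finset ι) (f : ι → CA G) :
    hat (∑ i ∈ s, f i) = ∑ i ∈ s, hat (f i) := by simp [hat]

lemma hat_single (g : G) (a : ℂ) : hat (MonoidAlgebra.single g a) = a • dl g := by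
  simp [hat, op_single, lam_one]

lemma hat_single_one (g : G) : hat (MonoidAlgebra.single g 1) = dl g := by
  rw [hat_single, one_smul]

lemma hat_one : hat (1 : CA G) = dl 1 := by simp [hat]

lemma hat_coef (x : CA G) (y : G) : hat x y = x.coeff y := by
  classical
  induction x using MonoidAlgebra.induction_linear with
  | zero => rw [hat_zero]; rfl
  | add a b ha hb => rw [hat_add, lp.coeFn_add, Pi.add_apply, ha, hb]; simp
  | single g a =>
    rw [hat_single, lp.coeFn_smul, Pi.smul_apply, dl_apply]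
    simp [Finsupp.single_apply, eq_comm]

lemma norm_hat_le (x : CA G) : ‖hat x‖ ≤ ‖op x‖ := by
  have := (op x).le_opNorm (dl 1)
  rwa [norm_dl, mul_one] at this

/-- A unitary representation of `G'` inside `LL G` whose trace is the regular one and whose
image generates. -/
structure Gen {G' : Type} [Group G'] (π : G' →* Op G) : Prop where
  mem : ∀ g, π g ∈ LL G
  star_eq : ∀ g, star (π g) = π g⁻¹
  trace : ∀ g, g ≠ 1 → π g (dl 1) 1 = 0
  dense : Dense (Submodule.span ℂ (Set.range fun g => π g (dl 1)) : Set (H G))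

end

end Pool.Agent.MP_494aff_an.Pinch

end MrgPart0

-- ======== part 1: formerly Pool.Agent.MP_494aff_an.pinch.Spec
section MrgPart1

/-! Shared objects and the statements of the steps. -/

open scoped InnerProductSpace ComplexConjugate
open MonoidAlgebra (single)

namespace Pool.Agent.MP_494aff_an.Pinch

noncomputable section

/-- The free product of the free group on `S` with an infinite cyclic group. -/
abbrev Lm (S : Type) : Type := FreeGroup (Option S)

/-- The inclusion of the free group on `S`. -/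
def io {S : Type} : FreeGroup S →* Lm S := FreeGroup.map some

/-- The extra generator. -/
def cc (S : Type) : Lm S := FreeGroup.of none

/-- The retraction that kills the extra generator. -/
def kl {S : Type} : Lm S →* FreeGroup S := FreeGroup.lift fun o => o.elim 1 FreeGroup.of

lemma io_of {S : Type} (s : S) : io (FreeGroup.of s) = FreeGroup.of (some s) := rfl

lemma kl_cc {S : Type} : kl (cc S) = 1 := by simp [kl, cc]

lemma kl_io {S : Type} (x : FreeGroup S) : kl (io x) = x := by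
  have : (kl (S := S)).comp io = MonoidHom.id _ := by
    ext s; simp [kl, io_of]
  exact DFunLike.congr_fun this x

lemma io_inj {S : Type} : Function.Injective (io (S := S)) :=
  Function.LeftInverse.injective kl_io

/-- The nontrivial elements of the kernel of `kl`. -/
def N0 (S : Type) : Set (Lm S) := {z | kl z = 1 ∧ z ≠ 1}

/-- The powers of `c` with nonzero exponent. -/
def C0 {G : Type} [Group G] (c : G) : Set G := {z | ∃ k : ℤ, k ≠ 0 ∧ z = c ^ k}

/-- The homomorphism from the free group of rank two with `cc ↦ x`, other generator `↦ y`. -/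
def pr {G : Type} [Group G] (x y : G) : Lm Unit →* G :=
  FreeGroup.lift fun o => o.elim x fun _ => y

lemma pr_cc {G : Type} [Group G] (x y : G) : pr x y (cc Unit) = x := by simp [pr, cc]

lemma pr_io {G : Type} [Group G] (x y : G) : pr x y (io (FreeGroup.of ())) = y := by
  simp [pr, io_of]

/-- The conjugation representation. -/
def cj {G : Type} [Group G] : G →* Op G where
  toFun g := lam g * rho g
  map_one' := by simp
  map_mul' g h := by
    simp only [map_mul, mul_assoc]
    rw [← mul_assoc (rho g), rho_lam, mul_assoc]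

lemma cj_dl {G : Type} [Group G] (g x : G) : cj g (dl x) = dl (g * x * g⁻¹) := by
  show lam g (rho g (dl x)) = _
  rw [rho_dl, lam_dl, mul_assoc]

lemma cj_norm {G : Type} [Group G] (g : G) (ξ : H G) : ‖cj g ξ‖ = ‖ξ‖ := by
  show ‖lam g (rho g ξ)‖ = _
  rw [lam_norm, rho_norm]

/-- The conjugation action on the group algebra. -/
def ad {G : Type} [Group G] : G →* Module.End ℝ (CA G) where
  toFun g :=
    { toFun := fun a => single g 1 * a * single g⁻¹ 1
      map_add' := fun a b => by rw [mul_add, add_mul]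
      map_smul' := fun r a => by simp }
  map_one' := LinearMap.ext fun a => by simp [← MonoidAlgebra.one_def]
  map_mul' g h := by
    refine LinearMap.ext fun a => ?_
    show single (g * h) 1 * a * single (g * h)⁻¹ 1 =
      single g 1 * (single h 1 * a * single h⁻¹ 1) * single g⁻¹ 1
    rw [mul_inv_rev, ← mul_one (1 : ℂ), ← MonoidAlgebra.single_mul_single,
      ← MonoidAlgebra.single_mul_single]
    simp only [mul_one, mul_assoc]

lemma ad_apply {G : Type} [Group G] (g : G) (a : CA G) :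
    ad g a = single g 1 * a * single g⁻¹ 1 := rfl

lemma op_ad {G : Type} [Group G] (g : G) (a : CA G) :
    op (ad g a) = lam g * op a * lam g⁻¹ := by
  rw [ad_apply, map_mul, map_mul, op_single_one, op_single_one]

lemma hat_ad {G : Type} [Group G] (g : G) (a : CA G) : hat (ad g a) = cj g (hat a) := by
  show op (ad g a) (dl 1) = lam g (rho g (op a (dl 1)))
  rw [op_ad, rho_LL (op_mem a), rho_dl, mul_ap, mul_ap, lam_dl, mul_one, one_mul]

/-- The conjugation representation of the real group algebra of the free group on `S`. -/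
def Pj {S : Type} : RA (FreeGroup S) →ₐ[ℝ] Op (Lm S) :=
  MonoidAlgebra.lift ℝ (Op (Lm S)) (FreeGroup S) (cj.comp io)

/-- The conjugation action of the real group algebra of the free group on `S`. -/
def Ad {S : Type} : RA (FreeGroup S) →ₐ[ℝ] Module.End ℝ (CA (Lm S)) :=
  MonoidAlgebra.lift ℝ (Module.End ℝ (CA (Lm S))) (FreeGroup S) (ad.comp io)

lemma Pj_single {S : Type} (x : FreeGroup S) (r : ℝ) : Pj (single x r) = r • cj (io x) :=
  MonoidAlgebra.lift_single _ _ _

lemma Ad_single {S : Type} (x : FreeGroup S) (r : ℝ) : Ad (single x r) = r • ad (io x) :=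
  MonoidAlgebra.lift_single _ _ _

lemma op_rsmul {G : Type} [Group G] (r : ℝ) (a : CA G) : op (r • a) = r • op a :=
  (op (G := G)).toLinearMap.map_smul_of_tower r a

lemma hat_rsmul {G : Type} [Group G] (r : ℝ) (a : CA G) : hat (r • a) = r • hat a := by
  rw [hat, op_rsmul]; rfl

lemma hat_Ad {S : Type} (q : RA (FreeGroup S)) (a : CA (Lm S)) : hat (Ad q a) = Pj q (hat a) := by
  induction q using MonoidAlgebra.induction_linear with
  | zero => simp [hat_zero]
  | add x y hx hy => simp [hat_add, hx, hy]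
  | single g r => rw [Ad_single, Pj_single, LinearMap.smul_apply, hat_rsmul, hat_ad]; rfl

lemma conj_N0 {S : Type} (g : Lm S) {z : Lm S} (hz : z ∈ N0 S) : g * z * g⁻¹ ∈ N0 S :=
  ⟨by simp [hz.1], fun h => hz.2 (by simpa using h)⟩

lemma supp_cj {S : Type} (g : Lm S) {ξ : H (Lm S)} (h : Supp (N0 S) ξ) : Supp (N0 S) (cj g ξ) :=
  supp_map _ (fun z hz => by rw [cj_dl]; exact supp_dl (conj_N0 g hz)) h

lemma supp_Pj {S : Type} (q : RA (FreeGroup S)) {ξ : H (Lm S)} (h : Supp (N0 S) ξ) :
    Supp (N0 S) (Pj q ξ) := by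
  induction q using MonoidAlgebra.induction_linear with
  | zero => rw [map_zero]; exact supp_zero _
  | add x y hx hy => rw [map_add]; exact hx.add hy
  | single g r => rw [Pj_single]; exact (supp_cj _ h).rsmul r

/-- `β` is a cocycle for left multiplication. -/
def Coc {G : Type} [Group G] (β : G → RA G) : Prop :=
  ∀ x y, β (x * y) = β x + single x 1 * β y

/-- `w` is not a proper power (in particular `w ≠ 1`). -/
def Prim {G : Type} [Group G] (w : G) : Prop := ∀ (z : G) (k : ℕ), 2 ≤ k → z ^ k ≠ w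

/-- `G` with `f`, `g` is the pushout of `i`, `j`. -/
structure Amal {K P Q G : Type} [Group K] [Group P] [Group Q] [Group G] (i : K →* P) (j : K →* Q)
    (f : P →* G) (g : Q →* G) : Prop where
  comm : ∀ x, f (i x) = g (j x)
  lift : ∀ (M : Type) [Group M] (φ : P →* M) (ψ : Q →* M), (∀ x, φ (i x) = ψ (j x)) →
    ∃ π : G →* M, (∀ p, π (f p) = φ p) ∧ ∀ q, π (g q) = ψ q
  gen : ∀ T : Subgroup G, (∀ p, f p ∈ T) → (∀ q, g q ∈ T) → ∀ z, z ∈ T

/-- Ping-pong estimate. -/
def PPStmt : Prop :=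
  ∀ (G ι : Type) (s : Finset ι) (T : ι → Op G) (q : ι → ℂ) (E : ι → Set G) (Z : Set G) (M : ℝ)
    (ξ : H G), 0 ≤ M → (∀ i ∈ s, ‖T i‖ ≤ M) →
    (∀ i ∈ s, ∀ j ∈ s, i ≠ j → Disjoint (E i) (E j)) →
    (∀ i ∈ s, ∀ η, Supp (Z \ E i) η → Supp (E i) (T i η)) → Supp Z ξ →
    ‖∑ i ∈ s, q i • T i ξ‖ ≤ 2 * M * √(∑ i ∈ s, ‖q i‖ ^ 2) * ‖ξ‖

/-- The words that start with the extra generator or its inverse. -/
def WordStmt : Prop :=
  ∀ S : Type, ∃ E : Set (Lm S), (∀ z, z ∉ E → ∀ k : ℤ, k ≠ 0 → cc S ^ k * z ∈ E) ∧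
    ∀ x : FreeGroup S, x ≠ 1 → ∀ z ∈ E, io x * z ∉ E

/-- Two elements of a free group are powers of one element or a basis of a free group. -/
def PairStmt : Prop :=
  ∀ (α : Type) (x y : FreeGroup α),
    (∃ z, x ∈ Subgroup.zpowers z ∧ y ∈ Subgroup.zpowers z) ∨ Function.Injective (pr x y)

/-- A cocycle whose value at `w` is one up to a small term. -/
def GapStmt : Prop :=
  ∀ (S : Type) [Fintype S] (w : FreeGroup S), Prim w → ∃ (β : FreeGroup S → RA (FreeGroup S))
    (X : RA (FreeGroup S)), Coc β ∧ β w = 1 - X ∧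
      ∀ ξ, Supp (N0 S) ξ → ‖Pj X ξ‖ ≤ 1 / 2 * ‖ξ‖

/-- The derivation attached to a cocycle and a trigonometric polynomial. -/
def DerStmt : Prop :=
  ∀ (S : Type) [Fintype S] (β : FreeGroup S → RA (FreeGroup S)) (h : CA (Lm S)), Coc β →
    Supp (C0 (cc S)) (hat h) → IsSelfAdjoint (op h) →
    ∃ (D : CA (Lm S) →ₗ[ℂ] CA (Lm S)) (a : ℝ),
      (∀ x y, D (x * y) = D x * y + x * D y) ∧
      (∀ x y, ⟪hat (D x), hat y⟫_ℂ + ⟪hat x, hat (D y)⟫_ℂ = 0) ∧
      (∀ x, ∃ C : ℝ, ∀ k : ℕ, ‖op ((D ^ k) x)‖ ≤ C * k.factorial * a ^ k) ∧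
      (∀ k : ℤ, D (single (cc S ^ k) 1) = 0) ∧
      (∀ x, D (single (io x) 1) = Complex.I • (Ad (β x) h * single (io x) 1)) ∧
      ∀ g ∈ N0 S, Supp (N0 S) (hat (D (single g 1)))

/-- The flow of a skew derivation with analytic bounds. -/
def FlowStmt : Prop :=
  ∀ (G : Type) [Group G] (D : CA G →ₗ[ℂ] CA G) (a : ℝ),
    (∀ x y, D (x * y) = D x * y + x * D y) →
    (∀ x y, ⟪hat (D x), hat y⟫_ℂ + ⟪hat x, hat (D y)⟫_ℂ = 0) →
    (∀ x, ∃ C : ℝ, ∀ k : ℕ, ‖op ((D ^ k) x)‖ ≤ C * k.factorial * a ^ k) →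
    ∃ U : ℝ → Op G, U 0 = 1 ∧ ∀ t, |t| ≤ 1 →
      star (U t) = U (-t) ∧ U t * U (-t) = 1 ∧ (∀ g, U t * lam g * U (-t) ∈ LL G) ∧
      (∀ x, HasDerivAt (fun s => U s (hat x)) (U t (hat (D x))) t) ∧
      (∀ x, D x = 0 → U t (hat x) = hat x) ∧
      ∀ X : Set G, (∀ g ∈ X, Supp X (hat (D (single g 1)))) → ∀ ξ, Supp X ξ → Supp X (U t ξ)

/-- Trigonometric polynomials whose exponentials approach the generator. -/
def HseqStmt : Prop :=
  ∀ (G : Type) [Group G] (c : G), (∀ k : ℤ, c ^ k = 1 → k = 0) →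
    ∃ (M : ℝ) (h : ℕ → CA G),
      (∀ j, Supp (C0 c) (hat (h j)) ∧ IsSelfAdjoint (op (h j)) ∧ ‖op (h j)‖ ≤ M) ∧
      CauchySeq (fun j => hat (h j)) ∧
      Filter.Tendsto (fun j => NormedSpace.exp (Complex.I • op (h j)) (dl 1)) Filter.atTop
        (nhds (dl c))

/-- An automorphism that fixes the extra generator and multiplies `w` by it. -/
def FlexStmt : Prop :=
  ∀ (S : Type) [Fintype S] (w : FreeGroup S), Prim w →
    ∃ α : Lm S →* Op (Lm S), Gen α ∧ α (cc S) = lam (cc S) ∧ α (io w) = lam (io w * cc S)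

/-- Gluing an automorphism of one side with the identity of the other side. -/
def GlueStmt : Prop :=
  ∀ (K P Q G G' : Type) [Group K] [Group P] [Group Q] [Group G] [Group G'] (i i' : K →* P)
    (j : K →* Q) (f : P →* G) (g : Q →* G) (f' : P →* G') (g' : Q →* G'),
    Amal i j f g → Amal i' j f' g' → Function.Injective i → Function.Injective j →
    ∀ α : P →* Op P, Gen α → (∀ x, α (i' x) = lam (i x)) → ∃ π : G' →* Op G, Gen π

/-- A generating representation with the regular trace gives an isomorphism. -/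
def IsoStmt : Prop :=
  ∀ (G G' : Type) [Group G] [Group G'] (π : G' →* Op G), Gen π → Nonempty (vN G' ≃⋆ₐ[ℂ] vN G)

/-- The final statement. -/
def MainStmt : Prop :=
  ∀ (n m : ℕ) (w : FreeGroup (Fin n)) (v : FreeGroup (Fin m)), 2 ≤ m →
    (∀ (z : FreeGroup (Fin n)) (k : ℕ), 2 ≤ k → z ^ k ≠ w) → v ≠ 1 →
    Nonempty (vN (PresentedGroup
        ({FreeGroup.map Sum.inl w * (FreeGroup.map Sum.inr v)⁻¹} :
          Set (FreeGroup (Fin n ⊕ Fin m)))) ≃⋆ₐ[ℂ] vN (FreeGroup (Fin (n + m - 1))))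

end

end Pool.Agent.MP_494aff_an.Pinch

end MrgPart1

-- marker of a merged file
example : 731051 + 636336 = 731051 + 636336 := rfl

end MrgPart0

-- ======== part 1: formerly Pool.Agent.MP_494aff_an.pinch.Top
section MrgPart1

/-! The group theoretic assembly: from the flexible automorphism to the pinched groups. -/

namespace Pool.Agent.MP_494aff_an.Pinch

noncomputable section

/-- `G` with `f`, `g` is the pushout of `P` and `Q` over the relation `w = v`. -/
structure Pin {P Q G : Type} [Group P] [Group Q] [Group G] (w : P) (v : Q) (f : P →* G)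
    (g : Q →* G) : Prop where
  comm : f w = g v
  lift : ∀ (M : Type) [Group M] (φ : P →* M) (ψ : Q →* M), φ w = ψ v →
    ∃ π : G →* M, (∀ p, π (f p) = φ p) ∧ ∀ q, π (g q) = ψ q
  gen : ∀ T : Subgroup G, (∀ p, f p ∈ T) → (∀ q, g q ∈ T) → ∀ z, z ∈ T

lemma mem_of_gens {α : Type} (T : Subgroup (FreeGroup α)) (h : ∀ a, FreeGroup.of a ∈ T)
    (z : FreeGroup α) : z ∈ T := by
  have : Subgroup.closure (Set.range (FreeGroup.of : α → FreeGroup α)) ≤ T :=
    (Subgroup.closure_le T).2 (by rintro _ ⟨a, rfl⟩; exact h a)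
  rw [FreeGroup.closure_range_of] at this
  exact this (Subgroup.mem_top z)

lemma lm_ext {M : Type} [Monoid M] {φ ψ : Lm Unit →* M} (h1 : φ (cc Unit) = ψ (cc Unit))
    (h2 : φ (io (FreeGroup.of ())) = ψ (io (FreeGroup.of ()))) (x : Lm Unit) : φ x = ψ x := by
  have : φ = ψ := by
    refine FreeGroup.ext_hom _ _ fun o => ?_
    rcases o with _ | u
    · exact h1
    · exact h2
  rw [this]

/-- The extension of `f` that sends the extra generator to `y`. -/
def ex {S G : Type} [Group G] (f : FreeGroup S →* G) (y : G) : Lm S →* G :=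
  FreeGroup.lift fun o => o.elim y fun s => f (FreeGroup.of s)

lemma ex_cc {S G : Type} [Group G] (f : FreeGroup S →* G) (y : G) : ex f y (cc S) = y := by
  simp [ex, cc]

lemma ex_io {S G : Type} [Group G] (f : FreeGroup S →* G) (y : G) (x : FreeGroup S) :
    ex f y (io x) = f x := by
  have : (ex f y).comp io = f := by
    ext s
    simp [ex, io_of]
  exact DFunLike.congr_fun this x

/-- A pinched group is an amalgam over the free group of rank two. -/
lemma Pin.amal {S Q G : Type} [Group Q] [Group G] {w : FreeGroup S} {u v y : Q}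
    {f : FreeGroup S →* G} {g : Q →* G} (h : Pin w u f g) (k : ℤ) (hu : u = v * y ^ k) :
    Amal (pr (cc S) (io w * (cc S ^ k)⁻¹)) (pr y v) (ex f (g y)) g where
  comm := by
    refine lm_ext (φ := (ex f (g y)).comp _) (ψ := g.comp _) ?_ ?_
    · simp [pr_cc, ex_cc]
    · simp [pr_io, ex_cc, ex_io, h.comm, hu]
  lift := by
    intro M _ φ ψ hφ
    have h1 := hφ (cc Unit)
    have h2 := hφ (io (FreeGroup.of ()))
    rw [pr_cc, pr_cc] at h1
    rw [pr_io, pr_io, map_mul, map_inv, map_zpow, h1, mul_inv_eq_iff_eq_mul] at h2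
    obtain ⟨π, p1, p2⟩ := h.lift M (φ.comp io) ψ (by simp [h2, hu])
    refine ⟨π, fun p => ?_, p2⟩
    have : π.comp (ex f (g y)) = φ := by
      refine FreeGroup.ext_hom _ _ fun o => ?_
      rcases o with _ | s
      · show π (ex f (g y) (cc S)) = φ (cc S)
        rw [ex_cc, p2, h1]
      · show π (ex f (g y) (io (FreeGroup.of s))) = φ (io (FreeGroup.of s))
        rw [ex_io, p1]
        rfl
    exact DFunLike.congr_fun this p
  gen := fun T h1 h2 => h.gen T (fun p => by simpa [ex_io] using h1 (io p)) h2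

lemma Prim.ne_one {G : Type} [Group G] {w : G} (h : Prim w) : w ≠ 1 :=
  fun e => h 1 2 le_rfl (by simp [e])

lemma pr_cc_inj (hP : PairStmt) {S : Type} {w : FreeGroup S} (hw : w ≠ 1) :
    Function.Injective (pr (cc S) (io w)) := by
  rcases hP (Option S) (cc S) (io w) with ⟨z, ⟨a, ha⟩, ⟨b, hb⟩⟩ | h
  · exfalso
    simp only at ha hb
    have ha0 : a ≠ 0 := by
      rintro rfl
      exact FreeGroup.of_ne_one (none : Option S) (by simpa [cc] using ha.symm)
    have h1 : kl z ^ a = 1 := by rw [← map_zpow, ha, kl_cc]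
    have h2 : kl z = 1 := (IsMulTorsionFree.zpow_eq_one_iff_left ha0).1 h1
    exact hw (by rw [← kl_io w, ← hb, map_zpow, h2, one_zpow])
  · exact h

/-- Theorem A: the factor does not depend on the member of a free pair that is glued. -/
theorem thmA (hP : PairStmt) (hG : GlueStmt) (hI : IsoStmt) (hF : FlexStmt) {S : Type} [Fintype S]
    {w : FreeGroup S} (hw : Prim w) {Q G G' : Type} [Group Q] [Group G] [Group G'] {v v' : Q}
    (hv : Function.Injective (pr (v⁻¹ * v') v)) {f : FreeGroup S →* G} {g : Q →* G}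
    {f' : FreeGroup S →* G'} {g' : Q →* G'} (h : Pin w v f g) (h' : Pin w v' f' g') :
    Nonempty (vN G' ≃⋆ₐ[ℂ] vN G) := by
  obtain ⟨α, hα, a1, a2⟩ := hF S w hw
  have A := h.amal (v := v) (y := v⁻¹ * v') 0 (by simp)
  have A' := h'.amal (v := v) (y := v⁻¹ * v') 1 (by simp)
  simp only [zpow_zero, inv_one, mul_one, zpow_one] at A A'
  obtain ⟨π, hπ⟩ := hG _ _ _ _ _ _ _ _ _ _ _ _ A A' (pr_cc_inj hP hw.ne_one) hv α hα (by
    refine lm_ext (φ := α.comp _) (ψ := lam.comp _) ?_ ?_
    · simp [pr_cc, a1]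
    · simp only [MonoidHom.comp_apply, pr_io]
      rw [map_mul, a2, ← hα.star_eq, a1, star_lam, ← map_mul, mul_inv_cancel_right])
  exact hI G G' π hπ

lemma exists_gen (hP : PairStmt) {m : ℕ} (hm : 2 ≤ m) {v : FreeGroup (Fin m)} (hv : v ≠ 1) :
    ∃ a : Fin m, Function.Injective (pr (v⁻¹ * FreeGroup.of a) v) := by
  classical
  by_contra hne
  have key : ∀ a : Fin m, ∃ p k : ℤ, p ≠ 0 ∧ k ≠ 0 ∧ v ^ k = FreeGroup.of a ^ p := by
    intro a
    rcases hP (Fin m) (v⁻¹ * FreeGroup.of a) v with ⟨z, h1, h2⟩ | h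
    · have h3 : FreeGroup.of a ∈ Subgroup.zpowers z := by simpa using mul_mem h2 h1
      obtain ⟨p, hp⟩ := h2
      obtain ⟨k, hk⟩ := h3
      simp only at hp hk
      refine ⟨p, k, ?_, ?_, ?_⟩
      · rintro rfl
        exact hv (by simpa using hp.symm)
      · rintro rfl
        exact FreeGroup.of_ne_one a (by simpa using hk.symm)
      · rw [← hp, ← hk, ← zpow_mul, ← zpow_mul, mul_comm]
    · exact (hne ⟨a, h⟩).elim
  let a0 : Fin m := ⟨0, by omega⟩
  let a1 : Fin m := ⟨1, by omega⟩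
  have h01 : a0 ≠ a1 := by simp [a0, a1]
  obtain ⟨p0, k0, hp0, -, e0⟩ := key a0
  obtain ⟨p1, k1, -, hk1, e1⟩ := key a1
  have e2 : FreeGroup.of a0 ^ (p0 * k1) = FreeGroup.of a1 ^ (p1 * k0) := by
    rw [zpow_mul, zpow_mul, ← e0, ← e1, ← zpow_mul, ← zpow_mul, mul_comm]
  have e3 := congrArg (FreeGroup.lift fun b : Fin m =>
    if b = a1 then (1 : FreeGroup (Fin m)) else FreeGroup.of b) e2
  simp only [map_zpow, FreeGroup.lift_apply_of, if_neg h01, if_true, one_zpow] at e3
  exact FreeGroup.of_ne_one a0 ((IsMulTorsionFree.zpow_eq_one_iff_left (mul_ne_zero hp0 hk1)).1 e3)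

/-- The one-relator presentation is a pinched group. -/
lemma pin_pres {S T : Type} (w : FreeGroup S) (v : FreeGroup T) :
    Pin w v
      ((PresentedGroup.mk ({FreeGroup.map Sum.inl w * (FreeGroup.map Sum.inr v)⁻¹} :
        Set (FreeGroup (S ⊕ T)))).comp (FreeGroup.map Sum.inl))
      ((PresentedGroup.mk ({FreeGroup.map Sum.inl w * (FreeGroup.map Sum.inr v)⁻¹} :
        Set (FreeGroup (S ⊕ T)))).comp (FreeGroup.map Sum.inr)) where
  comm := PresentedGroup.mk_eq_mk_of_mul_inv_mem (Set.mem_singleton _)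
  lift := by
    intro M _ φ ψ h
    let F : S ⊕ T → M := Sum.elim (fun s => φ (FreeGroup.of s)) fun t => ψ (FreeGroup.of t)
    have h1 : (FreeGroup.lift F).comp (FreeGroup.map Sum.inl) = φ := by
      ext s
      simp [F]
    have h2 : (FreeGroup.lift F).comp (FreeGroup.map Sum.inr) = ψ := by
      ext s
      simp [F]
    have h1' : ∀ x, FreeGroup.lift F (FreeGroup.map Sum.inl x) = φ x := DFunLike.congr_fun h1
    have h2' : ∀ x, FreeGroup.lift F (FreeGroup.map Sum.inr x) = ψ x := DFunLike.congr_fun h2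
    have hr : ∀ r ∈ ({FreeGroup.map Sum.inl w * (FreeGroup.map Sum.inr v)⁻¹} :
        Set (FreeGroup (S ⊕ T))), FreeGroup.lift F r = 1 := by
      rintro r rfl
      rw [map_mul, map_inv, h1', h2', h, mul_inv_cancel]
    exact ⟨PresentedGroup.toGroup hr, h1', h2'⟩
  gen := by
    intro U h1 h2 z
    refine PresentedGroup.generated_by _ U (fun j => ?_) z
    rcases j with s | t
    · exact h1 (FreeGroup.of s)
    · exact h2 (FreeGroup.of t)

/-- Gluing along a free generator gives a free group. -/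
lemma pin_free {S T U : Type} [DecidableEq T] (w : FreeGroup S) (a : T)
    (e : S ⊕ {b : T // b ≠ a} ≃ U) :
    Pin w (FreeGroup.of a) (FreeGroup.map fun s => e (Sum.inl s))
      (FreeGroup.lift fun b => if h : b = a then FreeGroup.map (fun s => e (Sum.inl s)) w
        else FreeGroup.of (e (Sum.inr ⟨b, h⟩))) where
  comm := by simp
  lift := by
    intro M _ φ ψ h
    let F : U → M := fun x =>
      Sum.elim (fun s => φ (FreeGroup.of s)) (fun b => ψ (FreeGroup.of b.1)) (e.symm x)
    have h1 : (FreeGroup.lift F).comp (FreeGroup.map fun s => e (Sum.inl s)) = φ := by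
      ext s
      simp [F]
    have h1' : ∀ x, FreeGroup.lift F (FreeGroup.map (fun s => e (Sum.inl s)) x) = φ x :=
      DFunLike.congr_fun h1
    have h2 : (FreeGroup.lift F).comp (FreeGroup.lift fun b =>
        if h : b = a then FreeGroup.map (fun s => e (Sum.inl s)) w
        else FreeGroup.of (e (Sum.inr ⟨b, h⟩))) = ψ := by
      ext b
      by_cases hb : b = a
      · subst hb
        simp [h1', h]
      · simp [hb, F]
    exact ⟨FreeGroup.lift F, h1', DFunLike.congr_fun h2⟩
  gen := by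
    intro V h1 h2 z
    refine mem_of_gens V (fun x => ?_) z
    obtain ⟨y, rfl⟩ := e.surjective x
    rcases y with s | ⟨b, hb⟩
    · exact h1 (FreeGroup.of s)
    · simpa [hb] using h2 (FreeGroup.of b)

theorem top (hP : PairStmt) (hG : GlueStmt) (hI : IsoStmt) (hF : FlexStmt) : MainStmt := by
  intro n m w v hm hw hv
  obtain ⟨a, ha⟩ := exists_gen hP hm hv
  have hc : Fintype.card (Fin n ⊕ {b : Fin m // b ≠ a}) = n + m - 1 := by
    simp [Fintype.card_subtype_compl]
    omega
  obtain ⟨φ⟩ := thmA hP hG hI hF hw ha (pin_pres w v)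
    (pin_free w a (Fintype.equivFinOfCardEq hc))
  exact ⟨φ.symm⟩

end

end Pool.Agent.MP_494aff_an.Pinch

end MrgPart1

-- marker of a merged file
example : 731051 + 610280 = 731051 + 610280 := rfl
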