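import Mathlib
import Pool.Agent.MP_494aff_an.pinch.Top
import Pool.Agent.MP_494aff_an.pinch.AttA

-- ======== part 0: formerly Pool.Agent.MP_494aff_an.pinch.Iso
section MrgPart0

/-! A generating representation with the regular trace gives an isomorphism. -/

open scoped InnerProductSpace ComplexConjugate

namespace Pool.Agent.MP_494aff_an.Pinch

noncomputable section

variable {G G' : Type} [Group G] [Group G'] {π : G' →* Op G}

lemma Gen.inner_map (h : Gen π) (g : G') (ξ η : H G) : ⟪π g ξ, π g η⟫_ℂ = ⟪ξ, η⟫_ℂ :=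
  inner_of_star_mul_self (by rw [h.star_eq, ← map_mul, inv_mul_cancel, map_one]) ξ η

lemma Gen.orthonormal (h : Gen π) : Orthonormal ℂ fun g => π g (dl 1) := by
  refine ⟨fun g => ?_, fun g g' hne => ?_⟩
  · rw [norm_of_star_mul_self (by rw [h.star_eq, ← map_mul, inv_mul_cancel, map_one]), norm_dl]
  · show ⟪π g (dl 1), π g' (dl 1)⟫_ℂ = 0
    rw [← inner_star, h.star_eq, ← mul_ap, ← map_mul, inner_dl]
    exact h.trace _ fun he => hne (inv_mul_eq_one.1 he)

theorem iso : IsoStmt := by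
  intro G G' _ _ π h
  let W : H G' →L[ℂ] H G := ofON _ h.orthonormal
  have hW : ∀ g, W (dl g) = π g (dl 1) := ofON_dl _ _
  let V : H G →L[ℂ] H G' := ContinuousLinearMap.adjoint W
  have hVW : ∀ ξ, V (W ξ) = ξ := fun ξ => ext_inner_left ℂ fun η => by
    rw [ContinuousLinearMap.adjoint_inner_right]; exact ofON_inner _ _ η ξ
  have hWV : ∀ ξ, W (V ξ) = ξ := fun ξ => by
    have : W ∘L V = ContinuousLinearMap.id ℂ _ :=
      ContinuousLinearMap.ext_on h.dense (by
        rintro _ ⟨g, rfl⟩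
        simp only [ContinuousLinearMap.comp_apply, ContinuousLinearMap.id_apply]
        rw [← hW, hVW])
    exact congrArg (fun T : H G →L[ℂ] H G => T ξ) this
  have hWl : ∀ g ξ, W (lam g ξ) = π g (W ξ) := fun g ξ => by
    have : W ∘L lam g = π g ∘L W := op_ext fun x => by
      simp only [ContinuousLinearMap.comp_apply]
      rw [lam_dl, hW, hW, map_mul, mul_ap]
    exact congrArg (fun T : H G' →L[ℂ] H G => T ξ) this
  have hVp : ∀ g ξ, V (π g ξ) = lam g (V ξ) := fun g ξ => by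
    conv_lhs => rw [← hWV ξ, ← hWl, hVW]
  -- right translations of `G'` act as right multiplications
  have hr : ∀ (g : G') (m : Op G), m ∈ LL G →
      W (rho g (V (m (dl 1)))) = m (π g⁻¹ (dl 1)) := by
    intro g m hm
    have hb : ∀ n : Op G, n ∈ LL G → ‖n (π g⁻¹ (dl 1))‖ ≤ ‖n (dl 1)‖ := fun n hn => by
      refine (norm_mul_hat hn (h.mem _)).trans ?_
      have := opNorm_le_one (T := π g⁻¹) (by rw [h.star_eq, ← map_mul, inv_mul_cancel, map_one])
      nlinarith [norm_nonneg (n (dl 1))]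
    refine eq_of_forall_dist_le fun ε hε => ?_
    obtain ⟨η, hη, hd⟩ := Metric.dense_iff.1 h.dense (m (dl 1)) (ε / 2) (by positivity)
    have : ∃ n : Op G, n ∈ LL G ∧ n (dl 1) = η ∧ W (rho g (V η)) = n (π g⁻¹ (dl 1)) := by
      clear hη
      induction hd using Submodule.span_induction with
      | mem x hx =>
        obtain ⟨x, rfl⟩ := hx
        refine ⟨π x, h.mem x, rfl, ?_⟩
        simp only
        rw [← hW, hVW, rho_dl, hW, map_mul, mul_ap]
      | zero => exact ⟨0, zero_mem _, rfl, by simp⟩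
      | add x y _ _ hx hy =>
        obtain ⟨a, ha, ha1, ha2⟩ := hx
        obtain ⟨b, hb, hb1, hb2⟩ := hy
        exact ⟨a + b, add_mem ha hb, by simp [ha1, hb1], by simp [ha2, hb2]⟩
      | smul c x _ hx =>
        obtain ⟨a, ha, ha1, ha2⟩ := hx
        exact ⟨c • a, SMulMemClass.smul_mem c ha, by simp [ha1], by simp [ha2]⟩
    obtain ⟨n, hn, hn1, hn2⟩ := this
    rw [Metric.mem_ball, dist_eq_norm, ← hn1] at hη
    have e1 : ‖W (rho g (V (m (dl 1)))) - n (π g⁻¹ (dl 1))‖ = ‖m (dl 1) - n (dl 1)‖ := by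
      rw [← hn2, ← hn1, ← map_sub, ← map_sub, ← map_sub, ofON_norm, rho_norm]
      conv_rhs => rw [← hWV (m (dl 1) - n (dl 1)), ofON_norm]
    have e2 := hb (n - m) (sub_mem hn hm)
    simp only [sub_apply] at e2
    rw [dist_eq_norm]
    have e3 := norm_sub_le_norm_sub_add_norm_sub (W (rho g (V (m (dl 1))))) (n (π g⁻¹ (dl 1)))
      (m (π g⁻¹ (dl 1)))
    rw [e1, norm_sub_rev (m (dl 1))] at e3
    linarith
  have h1 : ∀ m : Op G', m ∈ LL G' → W ∘L m ∘L V ∈ LL G := fun m hm => by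
    refine mem_LL.2 fun x => ?_
    have hc : ∀ g, lam g * (V ∘L rho x ∘L W) = (V ∘L rho x ∘L W) * lam g := fun g => by
      ext1 ξ
      simp only [mul_ap, ContinuousLinearMap.comp_apply]
      rw [hWl, rho_LL (h.mem g), hVp]
    have := comm_LL hm hc
    ext1 ξ
    have h2 := congrArg (fun T : Op G' => W (T (V ξ))) this
    simp only [mul_ap, ContinuousLinearMap.comp_apply, hWV] at h2 ⊢
    exact h2.symm
  have h2 : ∀ m : Op G, m ∈ LL G → V ∘L m ∘L W ∈ LL G' := fun m hm => by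
    refine mem_LL.2 fun x => op_ext fun y => ?_
    simp only [mul_ap, ContinuousLinearMap.comp_apply]
    have := hr x (m * π y) (mul_mem hm (h.mem y))
    simp only [mul_ap] at this
    rw [rho_dl, hW, hW, map_mul, mul_ap, ← this, hVW]
  rw [vN_eq, vN_eq]
  exact ⟨{
    toFun := fun m => ⟨W ∘L m.1 ∘L V, h1 _ m.2⟩
    invFun := fun m => ⟨V ∘L m.1 ∘L W, h2 _ m.2⟩
    left_inv := fun m => Subtype.ext (by ext1 ξ; simp [hVW])
    right_inv := fun m => Subtype.ext (by ext1 ξ; simp [hWV])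
    map_mul' := fun m n => Subtype.ext (by ext1 ξ; simp [hVW])
    map_add' := fun m n => Subtype.ext (by ext1 ξ; simp)
    map_star' := fun m => Subtype.ext (by
      show W ∘L star m.1 ∘L V = star (W ∘L m.1 ∘L V)
      simp only [ContinuousLinearMap.star_eq_adjoint, ContinuousLinearMap.adjoint_comp, V,
        ContinuousLinearMap.adjoint_adjoint, ContinuousLinearMap.comp_assoc])
    map_smul' := fun c m => Subtype.ext (by ext1 ξ; simp) }⟩

end

end Pool.Agent.MP_494aff_an.Pinch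

end MrgPart0

-- ======== part 1: formerly Pool.Agent.MP_494aff_an.pinch.Sim
section MrgPart1

/-! The calculus of marked isomorphisms of group von Neumann algebras. -/

open Monoid
open scoped InnerProductSpace ComplexConjugate

namespace Pool.Agent.MP_494aff_an.Pinch

noncomputable section

namespace SimA

section U

variable {G G' G'' : Type} [Group G] [Group G'] [Group G'']

/-- A unitary with its inverse that fixes the unit vector at one and normalises `LL`. -/
structure Uni (W : H G' →L[ℂ] H G) (V : H G →L[ℂ] H G') : Prop where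
  vw : ∀ ξ, V (W ξ) = ξ
  wv : ∀ ξ, W (V ξ) = ξ
  adj : ∀ ξ η, ⟪W ξ, η⟫_ℂ = ⟪ξ, V η⟫_ℂ
  one : W (dl 1) = dl 1
  mem : ∀ m : Op G', m ∈ LL G' → W ∘L m ∘L V ∈ LL G
  mem' : ∀ m : Op G, m ∈ LL G → V ∘L m ∘L W ∈ LL G'

variable {W : H G' →L[ℂ] H G} {V : H G →L[ℂ] H G'}

lemma Uni.symm (h : Uni W V) : Uni V W where
  vw := h.wv
  wv := h.vw
  adj ξ η := by rw [← inner_conj_symm, ← h.adj, inner_conj_symm]
  one := by rw [← h.one, h.vw]
  mem := h.mem'
  mem' := h.mem

/-- Conjugation by the unitary. -/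
def Uni.cg (h : Uni W V) : Op G' →* Op G where
  toFun m := W ∘L m ∘L V
  map_one' := by ext1 ξ; exact h.wv ξ
  map_mul' m n := by ext1 ξ; simp [h.vw]

lemma Uni.cg_ap (h : Uni W V) (m : Op G') (ξ : H G) : h.cg m ξ = W (m (V ξ)) := rfl

lemma Uni.cg_symm (h : Uni W V) (m : Op G') : h.symm.cg (h.cg m) = m := by
  ext1 ξ; simp only [Uni.cg_ap, h.vw]

lemma Uni.cg_star (h : Uni W V) (m : Op G') : h.cg (star m) = star (h.cg m) := by
  ext1 η
  refine ext_inner_left ℂ fun ξ => ?_
  rw [inner_star, h.cg_ap, h.cg_ap, ← h.symm.adj, inner_star, h.adj]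

lemma Uni.cg_mem (h : Uni W V) {m : Op G'} (hm : m ∈ LL G') : h.cg m ∈ LL G := h.mem m hm

lemma Uni.cg_UL (h : Uni W V) {u : Op G'} (hu : UL u) : UL (h.cg u) :=
  ⟨h.cg_mem hu.1, by rw [← h.cg_star, ← map_mul, hu.2.1, map_one],
    by rw [← h.cg_star, ← map_mul, hu.2.2, map_one]⟩

lemma Uni.gen (h : Uni W V) {π : G'' →* Op G'} (hπ : Gen π) : Gen (h.cg.comp π) where
  mem g := h.cg_mem (hπ.mem g)
  star_eq g := by simp only [MonoidHom.comp_apply]; rw [← h.cg_star, hπ.star_eq]
  trace g hg := by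
    simp only [MonoidHom.comp_apply]
    rw [← inner_dl, h.cg_ap, ← h.symm.adj, h.symm.one, inner_dl]
    exact hπ.trace g hg
  dense := by
    have hs : Function.Surjective W := fun ξ => ⟨V ξ, h.wv ξ⟩
    refine (hs.denseRange.dense_image W.continuous hπ.dense).mono ?_
    rintro _ ⟨ξ, hξ, rfl⟩
    induction hξ using Submodule.span_induction with
    | mem x hx =>
      obtain ⟨g, rfl⟩ := hx
      refine Submodule.subset_span ⟨g, ?_⟩
      simp only [MonoidHom.comp_apply, h.cg_ap, h.symm.one]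
    | zero => rw [map_zero]; exact zero_mem _
    | add x y _ _ hx hy => rw [map_add]; exact add_mem hx hy
    | smul c x _ hx => rw [map_smul]; exact Submodule.smul_mem _ c hx

lemma gen_lam (e : G' ≃* G) : Gen ((lam : G →* Op G).comp e.toMonoidHom) where
  mem g := lam_mem _
  star_eq g := by simp [star_lam]
  trace g hg := by
    show lam (e g) (dl 1) 1 = 0
    rw [lam_one]
    exact dl_ne fun he => hg (by simpa using he.symm)
  dense := by
    refine dense_dl.mono (Submodule.span_mono ?_)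
    rintro _ ⟨x, rfl⟩
    refine ⟨e.symm x, ?_⟩
    show lam (e (e.symm x)) (dl 1) = dl x
    rw [lam_one, e.apply_symm_apply]

/-- Approximation of an element of `LL G` by the span of a generating representation. -/
lemma approx {π : G' →* Op G} (h : Gen π) {P : Op G → Prop} (h0 : P 0) (h1 : ∀ g, P (π g))
    (ha : ∀ a b, P a → P b → P (a + b)) (hs : ∀ (c : ℂ) a, P a → P (c • a)) (ξ : H G) {ε : ℝ}
    (hε : 0 < ε) : ∃ n : Op G, n ∈ LL G ∧ P n ∧ ‖n (dl 1) - ξ‖ < ε := by
  obtain ⟨η, hη, hd⟩ := Metric.dense_iff.1 h.dense ξ ε hε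
  have : ∃ n : Op G, n ∈ LL G ∧ n (dl 1) = η ∧ P n := by
    clear hη
    induction hd using Submodule.span_induction with
    | mem x hx =>
      obtain ⟨x, rfl⟩ := hx
      exact ⟨π x, h.mem x, rfl, h1 x⟩
    | zero => exact ⟨0, zero_mem _, rfl, h0⟩
    | add x y _ _ hx hy =>
      obtain ⟨a, ha0, ha1, ha2⟩ := hx
      obtain ⟨b, hb, hb1, hb2⟩ := hy
      exact ⟨a + b, add_mem ha0 hb, by simp [ha1, hb1], ha _ _ ha2 hb2⟩
    | smul c x _ hx =>
      obtain ⟨a, ha0, ha1, ha2⟩ := hx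
      exact ⟨c • a, SMulMemClass.smul_mem c ha0, by simp [ha1], hs _ _ ha2⟩
  obtain ⟨n, hn, hn1, hn2⟩ := this
  exact ⟨n, hn, hn2, by rwa [Metric.mem_ball, dist_eq_norm, ← hn1] at hη⟩

lemma gen_unit {π : G' →* Op G} (h : Gen π) (g : G') : star (π g) * π g = 1 := by
  rw [h.star_eq, ← map_mul, inv_mul_cancel, map_one]

lemma gen_UL {π : G' →* Op G} (h : Gen π) (g : G') : UL (π g) :=
  ⟨h.mem g, gen_unit h g, by rw [h.star_eq, ← map_mul, mul_inv_cancel, map_one]⟩

/-- A generating representation is the regular one conjugated by a unitary. -/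
lemma exists_uni {π : G' →* Op G} (h : Gen π) :
    ∃ (W : H G' →L[ℂ] H G) (V : H G →L[ℂ] H G') (hU : Uni W V), ∀ g, hU.cg (lam g) = π g := by
  let W : H G' →L[ℂ] H G := ofON _ h.orthonormal
  have hW : ∀ g, W (dl g) = π g (dl 1) := ofON_dl _ _
  let V : H G →L[ℂ] H G' := ContinuousLinearMap.adjoint W
  have hVW : ∀ ξ, V (W ξ) = ξ := fun ξ => ext_inner_left ℂ fun η => by
    rw [ContinuousLinearMap.adjoint_inner_right]; exact ofON_inner _ _ η ξ
  have hWV : ∀ ξ, W (V ξ) = ξ := fun ξ => by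
    have : W ∘L V = ContinuousLinearMap.id ℂ _ :=
      ContinuousLinearMap.ext_on h.dense (by
        rintro _ ⟨g, rfl⟩
        simp only [ContinuousLinearMap.comp_apply, ContinuousLinearMap.id_apply]
        rw [← hW, hVW])
    exact congrArg (fun T : H G →L[ℂ] H G => T ξ) this
  have hWl : ∀ g ξ, W (lam g ξ) = π g (W ξ) := fun g ξ => by
    have : W ∘L lam g = π g ∘L W := op_ext fun x => by
      simp only [ContinuousLinearMap.comp_apply]
      rw [lam_dl, hW, hW, map_mul, mul_ap]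
    exact congrArg (fun T : H G' →L[ℂ] H G => T ξ) this
  have hVp : ∀ g ξ, V (π g ξ) = lam g (V ξ) := fun g ξ => by
    conv_lhs => rw [← hWV ξ, ← hWl, hVW]
  have hr : ∀ (g : G') (m : Op G), m ∈ LL G →
      W (rho g (V (m (dl 1)))) = m (π g⁻¹ (dl 1)) := by
    intro g m hm
    have hb : ∀ n : Op G, n ∈ LL G → ‖n (π g⁻¹ (dl 1))‖ ≤ ‖n (dl 1)‖ := fun n hn => by
      refine (norm_mul_hat hn (h.mem _)).trans ?_
      have := opNorm_le_one (gen_unit h g⁻¹)
      nlinarith [norm_nonneg (n (dl 1))]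
    refine eq_of_forall_dist_le fun ε hε => ?_
    obtain ⟨n, hn, hn2, hη⟩ := approx h
      (P := fun n => W (rho g (V (n (dl 1)))) = n (π g⁻¹ (dl 1))) (by simp)
      (fun x => by rw [← hW, hVW, rho_dl, hW, map_mul, mul_ap])
      (fun a b ha hb => by simp [ha, hb]) (fun c a ha => by simp [ha]) (m (dl 1))
      (half_pos hε)
    have e1 : ‖W (rho g (V (m (dl 1)))) - n (π g⁻¹ (dl 1))‖ = ‖m (dl 1) - n (dl 1)‖ := by
      rw [← hn2, ← map_sub, ← map_sub, ← map_sub, ofON_norm, rho_norm]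
      conv_rhs => rw [← hWV (m (dl 1) - n (dl 1)), ofON_norm]
    have e2 := hb (n - m) (sub_mem hn hm)
    simp only [sub_apply] at e2
    rw [dist_eq_norm]
    have e3 := norm_sub_le_norm_sub_add_norm_sub (W (rho g (V (m (dl 1))))) (n (π g⁻¹ (dl 1)))
      (m (π g⁻¹ (dl 1)))
    rw [e1, norm_sub_rev (m (dl 1))] at e3
    linarith
  have h1 : ∀ m : Op G', m ∈ LL G' → W ∘L m ∘L V ∈ LL G := fun m hm => by
    refine mem_LL.2 fun x => ?_
    have hc : ∀ g, lam g * (V ∘L rho x ∘L W) = (V ∘L rho x ∘L W) * lam g := fun g => by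
      ext1 ξ
      simp only [mul_ap, ContinuousLinearMap.comp_apply]
      rw [hWl, rho_LL (h.mem g), hVp]
    have := comm_LL hm hc
    ext1 ξ
    have h2 := congrArg (fun T : Op G' => W (T (V ξ))) this
    simp only [mul_ap, ContinuousLinearMap.comp_apply, hWV] at h2 ⊢
    exact h2.symm
  have h2 : ∀ m : Op G, m ∈ LL G → V ∘L m ∘L W ∈ LL G' := fun m hm => by
    refine mem_LL.2 fun x => op_ext fun y => ?_
    simp only [mul_ap, ContinuousLinearMap.comp_apply]
    have := hr x (m * π y) (mul_mem hm (h.mem y))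
    simp only [mul_ap] at this
    rw [rho_dl, hW, hW, map_mul, mul_ap, ← this, hVW]
  refine ⟨W, V, ⟨hVW, hWV, fun ξ η => (ContinuousLinearMap.adjoint_inner_right W ξ η).symm,
    by rw [hW, map_one, one_ap], h1, h2⟩, fun g => ?_⟩
  ext1 ξ
  rw [Uni.cg_ap, hWl, hWV]

lemma UL_one : UL (1 : Op G) := ⟨one_mem _, by simp, by simp⟩

lemma UL_lam (g : G) : UL (lam g) := gen_UL (gen_lam (MulEquiv.refl G)) g

lemma UL_star {u : Op G} (h : UL u) : UL (star u) :=
  ⟨star_mem h.1, by rw [star_star]; exact h.2.2, by rw [star_star]; exact h.2.1⟩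

lemma UL_mul {u v : Op G} (h : UL u) (h' : UL v) : UL (u * v) :=
  ⟨mul_mem h.1 h'.1,
    by rw [star_mul, mul_assoc, ← mul_assoc (star u), h.2.1, one_mul, h'.2.1],
    by rw [star_mul, mul_assoc, ← mul_assoc v, h'.2.2, one_mul, h.2.2]⟩

/-- The trace property. -/
lemma trace_comm {m n : Op G} (hm : m ∈ LL G) (hn : n ∈ LL G) :
    m (n (dl 1)) 1 = n (m (dl 1)) 1 := by
  have key : ∀ {m n : Op G}, m ∈ LL G →
      m (n (dl 1)) 1 = ∑' z : G, m (dl 1) z⁻¹ * n (dl 1) z := fun {m n} hm => by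
    rw [← inner_dl 1 (m (n (dl 1))), ← star_inner m, inner_tsum]
    exact tsum_congr fun z => by rw [star_coef hm, Complex.conj_conj]
  rw [key hm, key hn, ← (Equiv.inv G).tsum_eq]
  exact tsum_congr fun z => by rw [Equiv.inv_apply, inv_inv, mul_comm]

/-- Conjugation by a unitary. -/
def adu {u : Op G} (hu : UL u) : Op G →* Op G where
  toFun m := u * m * star u
  map_one' := by rw [mul_one, hu.2.2]
  map_mul' m n := by
    simp only [mul_assoc]
    rw [← mul_assoc (star u) u, hu.2.1, one_mul]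

lemma ad_ap {u : Op G} (hu : UL u) (m : Op G) : adu hu m = u * m * star u := rfl

/-- Generating representations are stable under conjugation by a unitary of `LL G`. -/
lemma gen_ad {π : G' →* Op G} (h : Gen π) {u : Op G} (hu : UL u) : Gen ((adu hu).comp π) where
  mem g := mul_mem (mul_mem hu.1 (h.mem g)) (star_mem hu.1)
  star_eq g := by
    simp only [MonoidHom.comp_apply, ad_ap, star_mul, star_star, h.star_eq, mul_assoc]
  trace g hg := by
    simp only [MonoidHom.comp_apply, ad_ap]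
    rw [mul_ap, trace_comm (mul_mem hu.1 (h.mem g)) (star_mem hu.1), ← mul_ap, ← mul_assoc,
      hu.2.1, one_mul]
    exact h.trace g hg
  dense := by
    set K := Submodule.span ℂ (Set.range fun g => ((adu hu).comp π) g (dl 1))
    have key : ∀ y : G, dl y ∈ K.topologicalClosure := fun y => by
      refine Metric.mem_closure_iff.2 fun ε hε => ?_
      have hm : star u * lam y * u ∈ LL G := mul_mem (mul_mem (star_mem hu.1) (lam_mem y)) hu.1
      obtain ⟨n, hn, hn2, hη⟩ := approx h (P := fun n => u (n (star u (dl 1))) ∈ K)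
        (by simp) (fun x => Submodule.subset_span ⟨x, rfl⟩)
        (fun a b ha hb => by simpa using add_mem ha hb)
        (fun c a ha => by simpa using K.smul_mem c ha) ((star u * lam y * u) (dl 1)) hε
      refine ⟨_, hn2, ?_⟩
      have e : dl y = u ((star u * lam y * u) (star u (dl 1))) := by
        rw [← mul_ap, ← mul_ap, ← mul_assoc, ← mul_assoc, hu.2.2, one_mul, mul_assoc, hu.2.2,
          mul_one, lam_one]
      have e2 := norm_mul_hat (sub_mem hn hm) (star_mem hu.1)
      have e3 := opNorm_le_one (UL_star hu).2.1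
      rw [dist_comm, dist_eq_norm, e, ← map_sub, norm_of_star_mul_self hu.2.1]
      simp only [sub_apply] at e2
      nlinarith [norm_nonneg (n (dl 1) - (star u * lam y * u) (dl 1))]
    rw [← dense_closure]
    refine dense_dl.mono ?_
    show _ ⊆ (K.topologicalClosure : Set (H G))
    exact Submodule.span_le.2 (by rintro _ ⟨y, rfl⟩; exact key y)

lemma gen_inj {π : G' →* Op G} (h : Gen π) : Function.Injective π := fun x y hxy => by
  by_contra hne
  have := h.trace (x⁻¹ * y) fun he => hne (inv_mul_eq_one.1 he)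
  rw [map_mul, ← hxy, ← map_mul, inv_mul_cancel, map_one, one_ap, dl_self] at this
  exact one_ne_zero this

lemma lam_inj : Function.Injective (lam : G →* Op G) := gen_inj (gen_lam (MulEquiv.refl G))

end U

lemma att_inl (G B : Type) [Group G] [Group B] :
    AttK (1 : Unit →* G) (1 : Unit →* B) (Empty.elim : Empty → G) (Empty.elim : Empty → B)
      (Coprod.inl : G →* Coprod G B) Coprod.inr Empty.elim where
  comm0 _ := by simp
  comm l := l.elim
  lift M _ φ ψ _ _ _ := ⟨Coprod.lift φ ψ, fun p => by simp, fun q => by simp, fun l => l.elim⟩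
  gen T h1 h2 _ z := by
    induction z using Coprod.induction_on with
    | inl p => exact h1 p
    | inr q => exact h2 q
    | mul x y hx hy => exact mul_mem hx hy

lemma att_inr (G B : Type) [Group G] [Group B] :
    AttK (1 : Unit →* G) (1 : Unit →* B) (Empty.elim : Empty → G) (Empty.elim : Empty → B)
      (Coprod.inr : G →* Coprod B G) Coprod.inl Empty.elim where
  comm0 _ := by simp
  comm l := l.elim
  lift M _ φ ψ _ _ _ := ⟨Coprod.lift ψ φ, fun p => by simp, fun q => by simp, fun l => l.elim⟩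
  gen T h1 h2 _ z := by
    induction z using Coprod.induction_on with
    | inl p => exact h2 p
    | inr q => exact h1 q
    | mul x y hx hy => exact mul_mem hx hy

end SimA

open SimA

variable {Q L G G' G'' : Type} [Group Q] [Group G] [Group G'] [Group G'']
  {g : Q →* G} {a : L → G} {g' : Q →* G'} {a' : L → G'} {g'' : Q →* G''} {a'' : L → G''}

theorem Sim.of_equiv (e : G' ≃* G) (h : ∀ q, e (g' q) = g q) (h' : ∀ l, IsConj (e (a' l)) (a l)) :
    Sim g a g' a' := by
  refine ⟨_, gen_lam e, fun q => congrArg lam (h q), fun l => ?_⟩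
  obtain ⟨c, hc⟩ := isConj_iff.1 (h' l)
  refine ⟨lam c⁻¹, UL_lam _, ?_⟩
  show lam (e (a' l)) = _
  rw [star_lam, ← map_mul, ← map_mul, ← hc]
  congr 1
  group

theorem Sim.symm (h : Sim g a g' a') : Sim g' a' g a := by
  obtain ⟨π, hπ, h1, h2⟩ := h
  obtain ⟨W, V, hU, hc⟩ := exists_uni hπ
  refine ⟨_, hU.symm.gen (gen_lam (MulEquiv.refl G)), fun q => ?_, fun l => ?_⟩
  · show hU.symm.cg (lam (g q)) = _
    rw [← h1, ← hc, hU.cg_symm]
  · obtain ⟨u, hu, e⟩ := h2 l
    refine ⟨_, hU.symm.cg_UL (UL_star hu), ?_⟩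
    show hU.symm.cg (lam (a l)) = _
    rw [← hU.cg_symm (lam (a' l)), hc, e, ← hU.symm.cg_star, ← map_mul, ← map_mul, star_star]
    congr 1
    simp only [mul_assoc]
    rw [hu.2.1, mul_one, ← mul_assoc, hu.2.1, one_mul]

theorem Sim.trans (h : Sim g a g' a') (h' : Sim g' a' g'' a'') : Sim g a g'' a'' := by
  obtain ⟨π, hπ, h1, h2⟩ := h
  obtain ⟨π', hπ', h1', h2'⟩ := h'
  obtain ⟨W, V, hU, hc⟩ := exists_uni hπ
  refine ⟨_, hU.gen hπ', fun q => ?_, fun l => ?_⟩
  · show hU.cg (π' (g'' q)) = _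
    rw [h1', hc, h1]
  · obtain ⟨u, hu, e⟩ := h2 l
    obtain ⟨u', hu', e'⟩ := h2' l
    refine ⟨_, UL_mul (hU.cg_UL hu') hu, ?_⟩
    show hU.cg (π' (a'' l)) = _
    rw [e', map_mul, map_mul, hc, e, hU.cg_star, star_mul]
    simp only [mul_assoc]

theorem Sim.conj (h : Sim g a g' a') (x : G) (x' : G') :
    Sim ((MulAut.conj x).toMonoidHom.comp g) a ((MulAut.conj x').toMonoidHom.comp g') a' := by
  have h1 : Sim ((MulAut.conj x).toMonoidHom.comp g) a g a :=
    Sim.of_equiv (MulAut.conj x) (fun _ => rfl) fun l => (isConj_iff.2 ⟨x, rfl⟩).symm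
  have h2 : Sim ((MulAut.conj x').toMonoidHom.comp g') a' g' a' :=
    Sim.of_equiv (MulAut.conj x') (fun _ => rfl) fun l => (isConj_iff.2 ⟨x', rfl⟩).symm
  exact (h1.trans h).trans h2.symm

theorem Sim.comp {Q' L' : Type} [Group Q'] (h : Sim g a g' a') (φ : Q' →* Q) (ψ : L' → L) :
    Sim (g.comp φ) (a ∘ ψ) (g'.comp φ) (a' ∘ ψ) := by
  obtain ⟨π, hπ, h1, h2⟩ := h
  exact ⟨π, hπ, fun q => h1 (φ q), fun l => h2 (ψ l)⟩

theorem Sim.zero (h : Sim g a g' a') : Sim0 a a' := by
  obtain ⟨π, hπ, -, h2⟩ := h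
  exact ⟨π, hπ, fun _ => by simp, h2⟩

theorem Sim.eqv (h : Sim g a g' a') : Eqv G G' := by
  obtain ⟨π, hπ, -, -⟩ := h
  exact ⟨π, hπ, fun _ => by simp, fun l => l.elim⟩

theorem Sim.track {M : Type} (h : Sim g a g' a') (c : M → Q) :
    Sim g (Sum.elim a (g ∘ c)) g' (Sum.elim a' (g' ∘ c)) := by
  obtain ⟨π, hπ, h1, h2⟩ := h
  refine ⟨π, hπ, h1, ?_⟩
  rintro (l | m)
  · exact h2 l
  · exact ⟨1, UL_one, by simpa using h1 (c m)⟩

theorem Sim.exact (h : Sim g a g' a') (l : L) :
    Sim (zpowersHom G (a l)) a (zpowersHom G' (a' l)) a' := by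
  obtain ⟨π, hπ, -, h2⟩ := h
  obtain ⟨u, hu, e⟩ := h2 l
  refine ⟨_, gen_ad hπ (UL_star hu), fun q => ?_, fun k => ?_⟩
  · have : (((adu (UL_star hu)).comp π).comp (zpowersHom G' (a' l))) =
        (lam : G →* Op G).comp (zpowersHom G (a l)) := by
      refine MonoidHom.ext_mint ?_
      simp only [MonoidHom.comp_apply, zpowersHom_apply, toAdd_ofAdd, zpow_one, ad_ap, e,
        star_star, mul_assoc]
      rw [hu.2.1, mul_one, ← mul_assoc, hu.2.1, one_mul]
    exact DFunLike.congr_fun this q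
  · obtain ⟨v, hv, e'⟩ := h2 k
    refine ⟨_, UL_mul (UL_star hu) hv, ?_⟩
    simp only [MonoidHom.comp_apply, ad_ap, e', star_mul, mul_assoc]

theorem Sim.congr {c : L → G} {c' : L → G'} (h : Sim g a g' a') (hc : ∀ l, IsConj (a l) (c l))
    (hc' : ∀ l, IsConj (a' l) (c' l)) : Sim g c g' c' := by
  obtain ⟨π, hπ, h1, h2⟩ := h
  refine ⟨π, hπ, h1, fun l => ?_⟩
  obtain ⟨u, hu, e⟩ := h2 l
  obtain ⟨d, hd⟩ := isConj_iff.1 (hc l)
  obtain ⟨d', hd'⟩ := isConj_iff.1 (hc' l)
  refine ⟨_, UL_mul (UL_mul (gen_UL hπ d') hu) (UL_lam d⁻¹), ?_⟩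
  have : lam (a l) = lam d⁻¹ * lam (c l) * lam d := by
    rw [← map_mul, ← map_mul, ← hd]; congr 1; group
  rw [← hd', map_mul, map_mul, e, this]
  simp only [star_mul, star_lam, hπ.star_eq, inv_inv, mul_assoc]

theorem Sim.infOrd (h : Sim g a g' a') (l : L) : InfOrd (a l) ↔ InfOrd (a' l) := by
  obtain ⟨π, hπ, h1, -⟩ := h.exact l
  refine forall_congr' fun k => imp_congr_left ?_
  have e : π (a' l ^ k) = lam (a l ^ k) := h1 (Multiplicative.ofAdd k)
  constructor
  · intro hk
    exact gen_inj hπ (by rw [e, hk, map_one, map_one])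
  · intro hk
    exact lam_inj (by rw [← e, hk, map_one, map_one])

theorem Sim.comm (h : Sim g a g' a') (hG : ∀ x y : G, x * y = y * x) (x y : G') :
    x * y = y * x := by
  obtain ⟨π, hπ, -, -⟩ := h
  refine gen_inj hπ ?_
  rw [map_mul, map_mul]
  refine comm_LL (hπ.mem x) fun z => ?_
  have : lam z = rho z⁻¹ := op_ext fun w => by rw [lam_dl, rho_dl, inv_inv, hG]
  rw [this]
  exact mem_LL.1 (hπ.mem y) _

theorem Sim.vnIso (h : Sim g a g' a') : VNIso G G' := by
  obtain ⟨π, hπ, -, -⟩ := h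
  obtain ⟨e⟩ := iso G G' π hπ
  exact ⟨e.symm⟩

/-- free products (from FGStmt with K = Unit, L = Empty; AttK for Coprod) -/
theorem Sim.prod (hF : FGStmt) (h : Sim0 a a') (B : Type) [Group B] :
    Sim (Coprod.inr : B →* Coprod G B) (Coprod.inl ∘ a) (Coprod.inr : B →* Coprod G' B)
      (Coprod.inl ∘ a') := by
  refine hF Unit G G' B _ _ Empty L 1 1 1 _ _ _ _ _ _ _ _ _ a a' (att_inl G B) (att_inl G' B)
    (Function.injective_of_subsingleton _) (Function.injective_of_subsingleton _)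
    (fun l => l.elim) (fun l => l.elim) ?_
  obtain ⟨π, hπ, h1, h2⟩ := h
  refine ⟨π, hπ, h1, ?_⟩
  rintro (l | l)
  · exact l.elim
  · exact h2 l

/-- the same with the changed factor on the right -/
theorem Sim.prod' (hF : FGStmt) (h : Sim0 a a') (B : Type) [Group B] :
    Sim (Coprod.inl : B →* Coprod B G) (Coprod.inr ∘ a) (Coprod.inl : B →* Coprod B G')
      (Coprod.inr ∘ a') := by
  refine hF Unit G G' B _ _ Empty L 1 1 1 _ _ _ _ _ _ _ _ _ a a' (att_inr G B) (att_inr G' B)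
    (Function.injective_of_subsingleton _) (Function.injective_of_subsingleton _)
    (fun l => l.elim) (fun l => l.elim) ?_
  obtain ⟨π, hπ, h1, h2⟩ := h
  refine ⟨π, hπ, h1, ?_⟩
  rintro (l | l)
  · exact l.elim
  · exact h2 l

end

end Pool.Agent.MP_494aff_an.Pinch

end MrgPart1

-- marker of a merged file
example : 731051 + 322186 = 731051 + 322186 := rfl
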