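import Mathlib
import Pool.Agent.MP_494aff_an.pinch.Top

/-! Trigonometric polynomials whose exponentials approach the generator. -/

open scoped InnerProductSpace ComplexConjugate
open MonoidAlgebra (single)
open Complex Filter Topology

namespace Pool.Agent.MP_494aff_an.Pinch

noncomputable section

namespace Hs

/-- The Taylor coefficients of `log (1 + r z)`. -/
def co (r : ℝ) (j : ℕ) : ℝ := (-1) ^ (j + 1) * r ^ j / j

/-- The Taylor polynomial of `log (1 + r z)`. -/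
def tp (r : ℝ) (N : ℕ) (z : ℂ) : ℂ := logTaylor (N + 1) (r * z)

/-- Twice the imaginary part of `tp`. -/
def gg (r : ℝ) (N : ℕ) (z : ℂ) : ℂ := -I * (tp r N z - star (tp r N z))

lemma tp_eq (r : ℝ) (N : ℕ) :
    tp r N = ∑ j ∈ Finset.range (N + 1), fun z : ℂ => (co r j : ℂ) * z ^ j := by
  ext z
  simp only [tp, logTaylor, Finset.sum_apply, co]
  refine Finset.sum_congr rfl fun j _ => ?_
  push_cast
  rw [mul_pow]; ring

lemma cont_tp (r : ℝ) (N : ℕ) : Continuous (tp r N) := by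
  rw [tp_eq, Finset.sum_fn]
  fun_prop

lemma cont_gg (r : ℝ) (N : ℕ) : Continuous (gg r N) := by
  have := cont_tp r N
  unfold gg
  fun_prop

lemma gg_eq (r : ℝ) (N : ℕ) (z : ℂ) : gg r N z = ((2 * (tp r N z).im : ℝ) : ℂ) := by
  unfold gg
  apply Complex.ext
  · simp; ring
  · simp

lemma tail {r : ℝ} {N : ℕ} (h0 : 0 ≤ r) (h1 : r < 1) (hN : 1 ≤ (1 - r) ^ 2 * (N + 1)) {z : ℂ}
    (hz : ‖z‖ = 1) : ‖log (1 + r * z) - tp r N z‖ ≤ 1 - r := by
  have hn : ‖(r : ℂ) * z‖ = r := by rw [norm_mul, hz, mul_one, norm_real, Real.norm_of_nonneg h0]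
  have := norm_log_sub_logTaylor_le N (z := r * z) (by rw [hn]; exact h1)
  rw [hn] at this
  refine this.trans ?_
  have hp : r ^ (N + 1) ≤ 1 := pow_le_one₀ h0 h1.le
  have hd : 0 < 1 - r := by linarith
  have hN' : (0 : ℝ) < N + 1 := by positivity
  rw [div_le_iff₀ hN', mul_inv_le_iff₀ hd]
  nlinarith

lemma im_close {r : ℝ} {N : ℕ} (h0 : 0 ≤ r) (h1 : r < 1) (hN : 1 ≤ (1 - r) ^ 2 * (N + 1)) {z : ℂ}
    (hz : ‖z‖ = 1) : |(tp r N z).im - arg (1 + r * z)| ≤ 1 - r := by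
  have h := (abs_im_le_norm _).trans (tail h0 h1 hN hz)
  rw [sub_im, log_im] at h
  rwa [abs_sub_comm]

lemma gg_norm {r : ℝ} {N : ℕ} (h0 : 0 ≤ r) (h1 : r < 1) (hN : 1 ≤ (1 - r) ^ 2 * (N + 1)) {z : ℂ}
    (hz : ‖z‖ = 1) : ‖gg r N z‖ ≤ 2 * Real.pi + 2 := by
  have h := abs_le.1 (im_close h0 h1 hN hz)
  have ha := abs_le.1 (abs_arg_le_pi (1 + r * z))
  rw [gg_eq, norm_real, Real.norm_eq_abs, abs_le]
  constructor <;> linarith [h.1, h.2, ha.1, ha.2]

lemma exp_arg (w : ℂ) : cexp (I * ((2 * arg w : ℝ) : ℂ)) * conj w = w := by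
  have h := norm_mul_exp_arg_mul_I w
  have h2 : conj w = ‖w‖ * cexp (-(arg w * I)) := by
    conv_lhs => rw [← h]
    rw [map_mul, conj_ofReal, ← exp_conj, map_mul, conj_ofReal, conj_I, mul_neg]
  rw [h2, mul_left_comm, ← Complex.exp_add]
  conv_rhs => rw [← h]
  congr 2
  push_cast
  ring

lemma exp_close {r : ℝ} {N : ℕ} (h0 : 0 ≤ r) (h1 : r < 1) (hN : 1 ≤ (1 - r) ^ 2 * (N + 1))
    {z : ℂ} (hz : ‖z‖ = 1) :
    ‖cexp (I * gg r N z) * (1 + r * star z) - (1 + r * z)‖ ≤ 4 * (1 - r) := by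
  set w : ℂ := 1 + r * z with hw
  have hc : (1 + r * star z : ℂ) = conj w := by simp [hw]
  have hwn : ‖w‖ ≤ 2 := by
    refine (norm_add_le _ _).trans ?_
    rw [norm_one, norm_mul, hz, mul_one, norm_real, Real.norm_of_nonneg h0]
    linarith
  have e : cexp (I * gg r N z) * conj w - w =
      (cexp (I * ((2 * (tp r N z).im - 2 * arg w : ℝ) : ℂ)) - 1) * w := by
    have h3 : cexp (I * gg r N z) = cexp (I * ((2 * (tp r N z).im - 2 * arg w : ℝ) : ℂ)) *
        cexp (I * ((2 * arg w : ℝ) : ℂ)) := by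
      rw [← Complex.exp_add, gg_eq]
      congr 1
      push_cast
      ring
    rw [h3, mul_assoc, exp_arg]
    ring
  rw [hc, e, norm_mul]
  have h4 := Real.norm_exp_I_mul_ofReal_sub_one_le (x := 2 * (tp r N z).im - 2 * arg w)
  have h5 := im_close h0 h1 hN hz
  rw [← hw] at h5
  have h6 : ‖2 * (tp r N z).im - 2 * arg w‖ ≤ 2 * (1 - r) := by
    rw [← mul_sub, norm_mul, Real.norm_eq_abs, Real.norm_eq_abs, abs_two]
    linarith
  have h7 := h4.trans h6
  calc _ ≤ (2 * (1 - r)) * 2 := mul_le_mul h7 hwn (norm_nonneg _) (by linarith)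
    _ = _ := by ring

variable {G : Type} [Group G]

lemma lam_unitary (c : G) : lam c ∈ unitary (Op G) := by
  rw [Unitary.mem_iff, star_lam, ← map_mul, ← map_mul, inv_mul_cancel, mul_inv_cancel, map_one]
  exact ⟨rfl, rfl⟩

lemma lam_normal (c : G) : IsStarNormal (lam c) :=
  ⟨by rw [star_lam]; show _ * _ = _ * _; rw [← map_mul, ← map_mul, inv_mul_cancel, mul_inv_cancel]⟩

lemma spec_norm (c : G) {z : ℂ} (hz : z ∈ spectrum ℂ (lam c)) : ‖z‖ = 1 := by
  simpa using spectrum.subset_circle_of_unitary (lam_unitary c) hz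

/-- The analytic half. -/
def pa (c : G) (r : ℝ) (N : ℕ) : CA G :=
  ∑ j ∈ Finset.range (N + 1), single (c ^ j) (co r j : ℂ)

/-- The trigonometric polynomial. -/
def hh (c : G) (r : ℝ) (N : ℕ) : CA G := (-I) • (pa c r N - pa c⁻¹ r N)

lemma op_pa (c : G) (r : ℝ) (N : ℕ) : op (pa c r N) = cfc (tp r N) (lam c) := by
  have := lam_normal c
  rw [tp_eq, cfc_sum _ _ _ (fun j _ => by fun_prop), pa, map_sum]
  refine Finset.sum_congr rfl fun j _ => ?_
  rw [op_single, cfc_const_mul _ _ _ (by fun_prop), cfc_pow_id (lam c) j this, map_pow]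

lemma op_pa_inv (c : G) (r : ℝ) (N : ℕ) : op (pa c⁻¹ r N) = star (op (pa c r N)) := by
  simp only [pa, map_sum, star_sum]
  refine Finset.sum_congr rfl fun j _ => ?_
  rw [op_single, op_single, star_smul, star_lam, inv_pow]
  simp

lemma op_hh (c : G) (r : ℝ) (N : ℕ) : op (hh c r N) = cfc (gg r N) (lam c) := by
  have h := cont_tp r N
  have e : gg r N = fun z => -I * (tp r N z - star (tp r N z)) := rfl
  rw [hh, map_smul, map_sub, op_pa_inv, op_pa, e, cfc_const_mul _ _ _ (by fun_prop),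
    cfc_sub _ _ _ (by fun_prop) (by fun_prop), cfc_star]

lemma hh_sa (c : G) (r : ℝ) (N : ℕ) : IsSelfAdjoint (op (hh c r N)) := by
  rw [IsSelfAdjoint, op_hh, ← cfc_star]
  congr 1
  ext z
  rw [gg_eq]
  exact conj_ofReal _

lemma hh_norm (c : G) {r : ℝ} {N : ℕ} (h0 : 0 ≤ r) (h1 : r < 1)
    (hN : 1 ≤ (1 - r) ^ 2 * (N + 1)) : ‖op (hh c r N)‖ ≤ 2 * Real.pi + 2 := by
  rw [op_hh]
  exact norm_cfc_le (by positivity) fun z hz => gg_norm h0 h1 hN (spec_norm c hz)

lemma exp_hh (c : G) (r : ℝ) (N : ℕ) :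
    NormedSpace.exp (I • op (hh c r N)) = cfc (fun z => cexp (I * gg r N z)) (lam c) := by
  have := lam_normal c
  have h := cont_gg r N
  rw [op_hh, ← cfc_const_mul _ _ _ (by fun_prop),
    cfc_comp' cexp (fun z => I * gg r N z) _ (by fun_prop) (by fun_prop),
    CFC.complex_exp_eq_normedSpace_exp (cfc_predicate _ _)]

lemma exp_op (c : G) {r : ℝ} {N : ℕ} (h0 : 0 ≤ r) (h1 : r < 1)
    (hN : 1 ≤ (1 - r) ^ 2 * (N + 1)) :
    ‖NormedSpace.exp (I • op (hh c r N)) * (1 + (r : ℂ) • lam c⁻¹) - (1 + (r : ℂ) • lam c)‖ ≤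
      4 * (1 - r) := by
  have := lam_normal c
  have h := cont_gg r N
  have e1 : (1 + (r : ℂ) • lam c⁻¹ : Op G) = cfc (fun z : ℂ => 1 + r * star z) (lam c) := by
    rw [cfc_const_add _ _ _ (by fun_prop), cfc_const_mul _ _ _ (by fun_prop),
      cfc_star_id (a := lam c), star_lam, map_one]
  have e2 : (1 + (r : ℂ) • lam c : Op G) = cfc (fun z : ℂ => 1 + r * z) (lam c) := by
    rw [cfc_const_add _ _ _ (by fun_prop), cfc_const_mul _ _ _ (by fun_prop), cfc_id' ℂ (lam c),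
      map_one]
  rw [exp_hh, e1, e2, ← cfc_mul _ _ _ (by fun_prop) (by fun_prop),
    ← cfc_sub _ _ _ (by fun_prop) (by fun_prop)]
  exact norm_cfc_le (by linarith) fun z hz => exp_close h0 h1 hN (spec_norm c hz)

lemma exists_xi (d : G) (hd : ∀ k : ℕ, d ^ (k + 1) ≠ 1) {r : ℝ} (h0 : 0 ≤ r) (h1 : r < 1) :
    ∃ ξ : H G, ξ + (r : ℂ) • lam d ξ = dl 1 ∧ (1 - r ^ 2) * ‖ξ‖ ^ 2 = 1 := by
  have hs : Summable fun k : ℕ => (-(r : ℂ)) ^ k • dl (d ^ k) := by
    refine Summable.of_norm ?_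
    simp only [norm_smul, norm_pow, norm_neg, norm_real, Real.norm_of_nonneg h0, norm_dl, mul_one]
    exact summable_geometric_of_lt_one h0 h1
  set ξ : H G := ∑' k : ℕ, (-(r : ℂ)) ^ k • dl (d ^ k) with hξ
  have h2 : HasSum (fun k : ℕ => (-(r : ℂ)) ^ k • dl (d ^ (k + 1))) (lam d ξ) := by
    have := hs.hasSum.mapL (lam d)
    simpa only [map_smul, lam_dl, ← pow_succ'] using this
  have h3 : ξ = dl 1 + (-(r : ℂ)) • lam d ξ := by
    conv_lhs => rw [hξ, hs.tsum_eq_zero_add]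
    rw [pow_zero, pow_zero, one_smul, ← (h2.const_smul (-(r : ℂ))).tsum_eq]
    simp only [smul_smul, ← pow_succ']
  have h4 : ⟪dl (1 : G), lam d ξ⟫_ℂ = 0 := by
    have := h2.mapL (innerSL ℂ (dl (1 : G)))
    simp only [innerSL_apply_apply, inner_smul_right, inner_dl] at this
    have h5 : ∀ k : ℕ, (-(r : ℂ)) ^ k * dl (d ^ (k + 1)) (1 : G) = 0 := fun k => by
      rw [dl_ne (hd k).symm, mul_zero]
    simp only [h5] at this
    rw [inner_dl]
    exact this.unique hasSum_zero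
  refine ⟨ξ, ?_, ?_⟩
  · rw [neg_smul, ← sub_eq_add_neg] at h3
    exact eq_sub_iff_add_eq.1 h3
  · have h6 := norm_add_sq_eq_norm_sq_add_norm_sq_of_inner_eq_zero (𝕜 := ℂ) (dl (1 : G))
      ((-(r : ℂ)) • lam d ξ) (by rw [inner_smul_right, h4, mul_zero])
    rw [← h3, norm_dl, norm_smul, norm_neg, norm_real, Real.norm_of_nonneg h0, lam_norm] at h6
    nlinarith

lemma exp_vec (c : G) (hc : ∀ k : ℕ, c⁻¹ ^ (k + 1) ≠ 1) {r : ℝ} {N : ℕ} (h0 : 0 ≤ r) (h1 : r < 1)
    (hN : 1 ≤ (1 - r) ^ 2 * (N + 1)) :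
    ‖NormedSpace.exp (I • op (hh c r N)) (dl 1) - dl c‖ ≤ 6 * √(1 - r) := by
  obtain ⟨ξ, h2, h3⟩ := exists_xi c⁻¹ hc h0 h1
  set E := NormedSpace.exp (I • op (hh c r N)) with hE
  have h4 : dl c = lam c ξ + (r : ℂ) • ξ := by
    rw [← lam_one c, ← h2, map_add, map_smul, ← mul_ap, ← map_mul, mul_inv_cancel, map_one, one_ap]
  have h5 : E (dl 1) - dl c = (E * (1 + (r : ℂ) • lam c⁻¹) - (1 + (r : ℂ) • lam c)) ξ +
      ((1 - r : ℝ) : ℂ) • (ξ - lam c ξ) := by
    rw [h4, ← h2]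
    simp only [sub_apply, mul_ap, add_apply, one_ap, smul_apply]
    push_cast
    module
  have h6 : ‖ξ - lam c ξ‖ ≤ 2 * ‖ξ‖ := by
    have := norm_sub_le ξ (lam c ξ)
    rw [lam_norm] at this
    linarith
  have hd : 0 < 1 - r := by linarith
  have h7 : ‖E (dl 1) - dl c‖ ≤ 6 * ((1 - r) * ‖ξ‖) := by
    rw [h5]
    refine (norm_add_le _ _).trans ?_
    have a1 := (ContinuousLinearMap.le_opNorm _ ξ).trans
      (mul_le_mul_of_nonneg_right (exp_op c h0 h1 hN) (norm_nonneg ξ))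
    rw [norm_smul, norm_real, Real.norm_of_nonneg hd.le]
    have a2 := mul_le_mul_of_nonneg_left h6 hd.le
    rw [← hE] at a1
    linarith
  refine h7.trans (mul_le_mul_of_nonneg_left ?_ (by norm_num))
  refine Real.le_sqrt_of_sq_le ?_
  have h8 : (1 - r) * ‖ξ‖ ^ 2 ≤ 1 := by nlinarith [sq_nonneg ‖ξ‖, mul_nonneg h0 hd.le]
  nlinarith

omit [Group G] in
lemma cauchy_of_dom (x : ℕ → H G) (a : G → ℂ) (b : G → ℝ) (hb : Summable fun k => b k ^ 2)
    (hx : ∀ j k, ‖x j k‖ ≤ b k) (ha : ∀ k, Tendsto (fun j => x j k) atTop (𝓝 (a k))) :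
    CauchySeq x := by
  have hab : ∀ k, ‖a k‖ ≤ b k := fun k => le_of_tendsto' (ha k).norm fun j => hx j k
  have hm : Memℓp a 2 := by
    refine memℓp_gen ?_
    simp only [ENNReal.toReal_ofNat, Real.rpow_ofNat]
    exact Summable.of_nonneg_of_le (fun k => by positivity)
      (fun k => pow_le_pow_left₀ (norm_nonneg _) (hab k) 2) hb
  set y : H G := ⟨a, hm⟩ with hy
  have hn : ∀ j, ‖x j - y‖ ^ 2 = ∑' k, ‖x j k - a k‖ ^ 2 := fun j => by
    have := lp.norm_rpow_eq_tsum (p := 2) (by norm_num) (x j - y)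
    simp only [ENNReal.toReal_ofNat, Real.rpow_ofNat] at this
    exact this
  have h1 : Tendsto (fun j => ∑' k, ‖x j k - a k‖ ^ 2) atTop (𝓝 (∑' _ : G, (0 : ℝ))) := by
    refine tendsto_tsum_of_dominated_convergence (bound := fun k => 4 * b k ^ 2) (hb.mul_left 4)
      (fun k => ?_) (Eventually.of_forall fun j k => ?_)
    · have := ((ha k).sub_const (a k)).norm.pow 2
      simpa using this
    · have h2 := (norm_sub_le (x j k) (a k)).trans (add_le_add (hx j k) (hab k))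
      rw [Real.norm_of_nonneg (by positivity)]
      nlinarith [norm_nonneg (x j k - a k)]
  rw [tsum_zero] at h1
  have h3 : Tendsto (fun j => ‖x j - y‖) atTop (𝓝 0) := by
    have := h1.sqrt
    simpa only [← hn, Real.sqrt_sq (norm_nonneg _), Real.sqrt_zero] using this
  exact (tendsto_iff_norm_sub_tendsto_zero.2 h3).cauchySeq

/-- The radii. -/
def rr (j : ℕ) : ℝ := 1 - 1 / ((j : ℝ) + 1)

lemma rr_nonneg (j : ℕ) : 0 ≤ rr j := by
  have : 1 / ((j : ℝ) + 1) ≤ 1 := by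
    rw [div_le_one (by positivity)]
    linarith [Nat.cast_nonneg (α := ℝ) j]
  unfold rr
  linarith

lemma rr_lt (j : ℕ) : rr j < 1 := by
  have : 0 < 1 / ((j : ℝ) + 1) := by positivity
  unfold rr
  linarith

lemma rr_N (j : ℕ) : 1 ≤ (1 - rr j) ^ 2 * ((((j + 1) ^ 2 : ℕ) : ℝ) + 1) := by
  have h : (0 : ℝ) < (j : ℝ) + 1 := by positivity
  unfold rr
  push_cast
  rw [sub_sub_cancel, div_pow, one_pow, div_mul_eq_mul_div, le_div_iff₀ (by positivity)]
  linarith

lemma rr_tendsto : Tendsto rr atTop (𝓝 1) := by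
  have := (tendsto_one_div_add_atTop_nhds_zero_nat (𝕜 := ℝ)).const_sub 1
  rw [sub_zero] at this
  exact this

lemma cauchy_nat : CauchySeq fun j : ℕ =>
    ∑ k ∈ Finset.range ((j + 1) ^ 2 + 1), (co (rr j) k : ℂ) • (dl k : H ℕ) := by
  have hco : ∀ j k : ℕ, (∑ i ∈ Finset.range ((j + 1) ^ 2 + 1), (co (rr j) i : ℂ) • (dl i : H ℕ)) k =
      if k < (j + 1) ^ 2 + 1 then (co (rr j) k : ℂ) else 0 := fun j k => by
    rw [← inner_dl, inner_sum]
    simp only [inner_smul_right, inner_dl, dl_apply, mul_ite, mul_one, mul_zero]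
    rw [Finset.sum_ite_eq]
    simp only [Finset.mem_range]
  refine cauchy_of_dom _ (fun k => (co 1 k : ℂ)) (fun k => 1 / (k : ℝ)) ?_ (fun j k => ?_)
    (fun k => ?_)
  · simp
  · rw [hco]
    split_ifs
    · rw [norm_real, co, norm_div, norm_mul, norm_pow, norm_neg, norm_one, one_pow, one_mul,
        norm_pow, Real.norm_of_nonneg (rr_nonneg j), Real.norm_natCast]
      exact div_le_div_of_nonneg_right (pow_le_one₀ (rr_nonneg j) (rr_lt j).le) (by positivity)
    · rw [norm_zero]; positivity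
  · have h1 : Tendsto (fun j => (co (rr j) k : ℂ)) atTop (𝓝 (co 1 k : ℂ)) := by
      refine (continuous_ofReal.tendsto _).comp ?_
      exact ((rr_tendsto.pow k).const_mul _).div_const _
    refine h1.congr' ?_
    filter_upwards [eventually_ge_atTop k] with j hj
    rw [hco, if_pos (by nlinarith)]

lemma cauchy_pa (c : G) (hc : Function.Injective fun k : ℕ => c ^ k) :
    CauchySeq fun j : ℕ => hat (pa c (rr j) ((j + 1) ^ 2)) := by
  have := (emb _ hc).uniformContinuous.comp_cauchySeq cauchy_nat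
  refine (congrArg CauchySeq ?_).mp this
  ext1 j
  simp only [Function.comp, map_sum, map_smul, emb_dl, pa, hat_sum, hat_single]

lemma supp_pa (c d : G) (h : ∀ k : ℕ, k ≠ 0 → d ^ k ∈ C0 c) (r : ℝ) (N : ℕ) :
    Supp (C0 c) (hat (pa d r N)) := by
  rw [pa, hat_sum]
  refine supp_sum _ _ fun k _ => ?_
  rw [hat_single]
  by_cases hk : k = 0
  · subst hk
    have : co r 0 = 0 := by simp [co]
    rw [this, ofReal_zero, zero_smul]
    exact supp_zero _
  · exact (supp_dl (h k hk)).smul _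

end Hs

open Hs in
theorem hseq : HseqStmt := by
  intro G _ c hc
  have hinj : Function.Injective fun k : ℕ => c ^ k := fun a b hab => by
    have h1 : c ^ ((a : ℤ) - b) = 1 := by
      simp only at hab
      rw [zpow_sub, zpow_natCast, zpow_natCast, hab, mul_inv_cancel]
    have := hc _ h1
    omega
  have hinj' : Function.Injective fun k : ℕ => c⁻¹ ^ k := fun a b hab => by
    simp only [inv_pow, inv_inj] at hab
    exact hinj hab
  refine ⟨2 * Real.pi + 2, fun j => hh c (rr j) ((j + 1) ^ 2), fun j => ⟨?_, hh_sa _ _ _,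
    hh_norm c (rr_nonneg j) (rr_lt j) (rr_N j)⟩, ?_, ?_⟩
  · simp only [hh, hat_smul, hat_sub]
    refine (Supp.sub (supp_pa c c (fun k hk => ⟨k, by omega, (zpow_natCast c k).symm⟩) _ _)
      (supp_pa c c⁻¹ (fun k hk => ⟨-k, by omega, ?_⟩) _ _)).smul _
    rw [zpow_neg, zpow_natCast, inv_pow]
  · simp only [hh, hat_smul, hat_sub]
    simp only [sub_eq_add_neg]
    have h1 := (cauchy_pa c hinj).add (cauchy_pa c⁻¹ hinj').neg
    exact (uniformContinuous_const_smul (-I)).comp_cauchySeq h1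
  · refine tendsto_iff_norm_sub_tendsto_zero.2 (squeeze_zero (fun _ => norm_nonneg _)
      (fun j => exp_vec c (fun k hk => ?_) (rr_nonneg j) (rr_lt j) (rr_N j)) ?_)
    · have := hinj' (a₁ := k + 1) (a₂ := 0) (by simpa using hk)
      omega
    · have := ((rr_tendsto.const_sub 1).sqrt).const_mul 6
      simpa using this

end

end Pool.Agent.MP_494aff_an.Pinch
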