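import Mathlib
import Pool.Agent.MP_494aff_an.pinch.AttA
import Pool.Agent.MP_494aff_an.pinch.Sim

-- ======== part 0: formerly Pool.Agent.MP_494aff_an.pinch.StarDec
section MrgPart0

/-! The star shaped graph of groups is built one outer vertex at a time. -/

open Monoid

namespace Pool.Agent.MP_494aff_an.Pinch

namespace TowP

lemma exists_att_aux {P Q I C : Type} [Group P] [Group Q] [Group C] (a : I → P) (u : I → Q)
    (b : I) (f0 : P →* C) (g0 : Q →* C) (t0 : I → C)
    (hl : ∀ (M : Type) [Group M] (φ : P →* M) (ψ : Q →* M) (τ : I → M),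
      ∃ π : C →* M, (∀ p, π (f0 p) = φ p) ∧ (∀ q, π (g0 q) = ψ q) ∧ ∀ i, π (t0 i) = τ i)
    (hg : ∀ T : Subgroup C, (∀ p, f0 p ∈ T) → (∀ q, g0 q ∈ T) → (∀ i, t0 i ∈ T) → ∀ z, z ∈ T) :
    ∃ (G : Type) (_ : Group G) (f : P →* G) (g : Q →* G) (t : I → G), Att a u b f g t := by
  let R : Set C := {r | r = t0 b ∨ ∃ i, r = (f0 (a i))⁻¹ * (t0 i * g0 (u i) * (t0 i)⁻¹)}
  let N := Subgroup.normalClosure R
  let m : C →* C ⧸ N := QuotientGroup.mk' N
  have hm : ∀ r ∈ R, m r = 1 := fun r hr =>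
    (QuotientGroup.eq_one_iff r).2 (Subgroup.subset_normalClosure hr)
  refine ⟨C ⧸ N, inferInstance, m.comp f0, m.comp g0, fun i => m (t0 i), hm _ (Or.inl rfl),
    fun i => ?_, fun M _ φ ψ τ h0 h1 => ?_, fun T h1 h2 h3 z => ?_⟩
  · have := hm _ (Or.inr ⟨i, rfl⟩)
    simpa only [map_mul, map_inv, inv_mul_eq_one, MonoidHom.comp_apply] using this
  · obtain ⟨F, e1, e2, e3⟩ := hl M φ ψ τ
    have hN : N ≤ F.ker := Subgroup.normalClosure_le_normal (by
      rintro r (rfl | ⟨i, rfl⟩)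
      · exact (e3 b).trans h0
      · show F _ = 1
        simp only [map_mul, map_inv, e1, e2, e3, inv_mul_eq_one]
        exact h1 i)
    exact ⟨QuotientGroup.lift N F hN, e1, e2, e3⟩
  · obtain ⟨c, rfl⟩ := QuotientGroup.mk'_surjective N z
    exact hg (T.comap m) h1 h2 h3 c

lemma exists_att {P Q I : Type} [Group P] [Group Q] (a : I → P) (u : I → Q) (b : I) :
    ∃ (G : Type) (_ : Group G) (f : P →* G) (g : Q →* G) (t : I → G), Att a u b f g t := by
  refine exists_att_aux (C := Coprod P (Coprod Q (FreeGroup I))) a u b Coprod.inl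
    (Coprod.inr.comp Coprod.inl) (fun i => Coprod.inr (Coprod.inr (FreeGroup.of i)))
    (fun M _ φ ψ τ => ⟨Coprod.lift φ (Coprod.lift ψ (FreeGroup.lift τ)), fun _ => rfl,
      fun _ => rfl, fun i => by simp⟩) fun T h1 h2 h3 c => ?_
  induction c using Coprod.induction_on with
  | inl p => exact h1 p
  | mul x y hx hy => exact mul_mem hx hy
  | inr c =>
    show c ∈ T.comap Coprod.inr
    induction c using Coprod.induction_on with
    | inl q => exact h2 q
    | mul x y hx hy => exact mul_mem hx hy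
    | inr c =>
      show c ∈ (T.comap Coprod.inr).comap Coprod.inr
      induction c using FreeGroup.induction_on with
      | C1 => exact one_mem _
      | of i => exact h3 i
      | inv_of i hi => exact inv_mem hi
      | mul x y hx hy => exact mul_mem hx hy

variable {P J : Type} [Group P] {Q : J → Type} [∀ j, Group (Q j)] {I : J → Type}

/-- The star with centre `P` and the outer vertices in `T`. -/
structure StarOn (w : (Σ j, I j) → P) (v : ∀ j, I j → Q j) (b : ∀ j, I j) (T : Set J)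
    {G : Type} [Group G] (f : P →* G) (g : ∀ j, Q j →* G) (t : ∀ j, I j → G) : Prop where
  base : ∀ j ∈ T, t j (b j) = 1
  comm : ∀ j ∈ T, ∀ i, f (w ⟨j, i⟩) = t j i * g j (v j i) * (t j i)⁻¹
  lift : ∀ (M : Type) [Group M] (φ : P →* M) (ψ : ∀ j, Q j →* M) (τ : ∀ j, I j → M),
    (∀ j ∈ T, τ j (b j) = 1) →
    (∀ j ∈ T, ∀ i, φ (w ⟨j, i⟩) = τ j i * ψ j (v j i) * (τ j i)⁻¹) →
    ∃ π : G →* M, (∀ p, π (f p) = φ p) ∧ (∀ j ∈ T, ∀ q, π (g j q) = ψ j q) ∧
      ∀ j ∈ T, ∀ i, π (t j i) = τ j i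
  gen : ∀ U : Subgroup G, (∀ p, f p ∈ U) → (∀ j ∈ T, ∀ q, g j q ∈ U) →
    (∀ j ∈ T, ∀ i, t j i ∈ U) → ∀ z, z ∈ U

variable {w : (Σ j, I j) → P} {v : ∀ j, I j → Q j} {b : ∀ j, I j} {T : Set J}
  {G : Type} [Group G] {f : P →* G} {g : ∀ j, Q j →* G} {t : ∀ j, I j → G}

lemma starOn_empty (w : (Σ j, I j) → P) (v : ∀ j, I j → Q j) (b : ∀ j, I j) :
    StarOn w v b ∅ (MonoidHom.id P) (fun _ => 1) (fun _ _ => 1) where
  base := fun _ h => h.elim
  comm := fun _ h => h.elim
  lift := fun _ _ φ _ _ _ _ => ⟨φ, fun _ => rfl, fun _ h => h.elim, fun _ h => h.elim⟩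
  gen := fun _ h _ _ z => h z

lemma StarOn.step (h : StarOn w v b T f g t) {j : J} (hj : j ∉ T) {G₁ : Type} [Group G₁]
    {f₁ : G →* G₁} {g₁ : Q j →* G₁} {t₁ : I j → G₁}
    (A : Att (fun i => f (w ⟨j, i⟩)) (v j) (b j) f₁ g₁ t₁) :
    ∃ (g' : ∀ j, Q j →* G₁) (t' : ∀ j, I j → G₁), StarOn w v b (insert j T) (f₁.comp f) g' t' := by
  classical
  let g' : ∀ k, Q k →* G₁ := Function.update (fun k => f₁.comp (g k)) j g₁
  let t' : ∀ k, I k → G₁ := Function.update (fun k i => f₁ (t k i)) j t₁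
  have g1 : g' j = g₁ := Function.update_self ..
  have t1 : t' j = t₁ := Function.update_self ..
  have g2 : ∀ k ∈ T, g' k = f₁.comp (g k) := fun k hk =>
    Function.update_of_ne (fun e : k = j => hj (e ▸ hk)) ..
  have t2 : ∀ k ∈ T, t' k = fun i => f₁ (t k i) := fun k hk =>
    Function.update_of_ne (fun e : k = j => hj (e ▸ hk)) ..
  refine ⟨g', t', ?_, ?_, fun M _ φ ψ τ h0 h1 => ?_, fun U h1 h2 h3 => ?_⟩
  · rintro k (rfl | hk)
    · rw [t1]; exact A.base
    · rw [t2 k hk]; simp only [h.base k hk, map_one]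
  · rintro k (rfl | hk) i
    · rw [t1, g1]; exact A.comm i
    · rw [t2 k hk, g2 k hk]
      simp only [MonoidHom.comp_apply, h.comm k hk i, map_mul, map_inv]
  · obtain ⟨π, p1, p2, p3⟩ := h.lift M φ ψ τ (fun k hk => h0 k (Or.inr hk))
      fun k hk => h1 k (Or.inr hk)
    obtain ⟨ρ, r1, r2, r3⟩ := A.lift M π (ψ j) (τ j) (h0 j (Or.inl rfl))
      fun i => (p1 _).trans (h1 j (Or.inl rfl) i)
    refine ⟨ρ, fun p => (r1 _).trans (p1 p), ?_, ?_⟩
    · rintro k (rfl | hk) q
      · rw [g1]; exact r2 q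
      · rw [g2 k hk]; exact (r1 _).trans (p2 k hk q)
    · rintro k (rfl | hk) i
      · rw [t1]; exact r3 i
      · rw [t2 k hk]; exact (r1 _).trans (p3 k hk i)
  · refine A.gen U (h.gen (U.comap f₁) h1 (fun k hk q => ?_) fun k hk i => ?_) ?_ ?_
    · have := h2 k (Or.inr hk) q
      rwa [g2 k hk] at this
    · have := h3 k (Or.inr hk) i
      rwa [t2 k hk] at this
    · rw [← g1]; exact h2 j (Or.inl rfl)
    · rw [← t1]; exact h3 j (Or.inl rfl)

lemma StarOn.unique (h : StarOn w v b T f g t) {G' : Type} [Group G'] {f' : P →* G'}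
    {g' : ∀ j, Q j →* G'} {t' : ∀ j, I j → G'} (h' : StarOn w v b T f' g' t') :
    Nonempty (G ≃* G') := by
  obtain ⟨π, p1, p2, p3⟩ := h.lift G' f' g' t' h'.base h'.comm
  obtain ⟨ρ, r1, r2, r3⟩ := h'.lift G f g t h.base h.comm
  have e1 : ∀ z, ρ (π z) = z :=
    h.gen ((ρ.comp π).eqLocus (MonoidHom.id G)) (fun p => (congrArg ρ (p1 p)).trans (r1 p))
      (fun j hj q => (congrArg ρ (p2 j hj q)).trans (r2 j hj q))
      fun j hj i => (congrArg ρ (p3 j hj i)).trans (r3 j hj i)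
  have e2 : ∀ z, π (ρ z) = z :=
    h'.gen ((π.comp ρ).eqLocus (MonoidHom.id G')) (fun p => (congrArg π (r1 p)).trans (p1 p))
      (fun j hj q => (congrArg π (r2 j hj q)).trans (p2 j hj q))
      fun j hj i => (congrArg π (r3 j hj i)).trans (p3 j hj i)
  exact ⟨MonoidHom.toMulEquiv π ρ (MonoidHom.ext e1) (MonoidHom.ext e2)⟩

lemma starOn_pres {S : Type} (w : (Σ j, I j) → FreeGroup S) (v : ∀ j, I j → Q j)
    (b : ∀ j, I j) :
    ∃ (f : FreeGroup S →* PresentedGroup (StarRel w v b))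
      (g : ∀ j, Q j →* PresentedGroup (StarRel w v b))
      (t : ∀ j, I j → PresentedGroup (StarRel w v b)), StarOn w v b Set.univ f g t := by
  let m := PresentedGroup.mk (StarRel w v b)
  have hm : ∀ r ∈ StarRel w v b, m r = 1 := fun r hr => PresentedGroup.one_of_mem hr
  let g : ∀ j, Q j →* PresentedGroup (StarRel w v b) := fun j =>
    MonoidHom.mk' (fun q => m (vt q)) fun x y => by
      have := hm _ (Or.inl ⟨j, x, y, rfl⟩)
      rw [map_mul, map_mul, map_inv, mul_inv_eq_one] at this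
      exact this.symm
  refine ⟨m.comp (FreeGroup.map Sum.inl), g, fun j i => m (ed i),
    fun j _ => hm _ (Or.inr (Or.inl ⟨j, rfl⟩)), fun j _ i => ?_, fun M _ φ ψ τ h0 h1 => ?_,
    fun U h1 h2 h3 z => ?_⟩
  · have := hm _ (Or.inr (Or.inr ⟨j, i, rfl⟩))
    rw [map_mul, map_mul, map_mul, map_inv, map_inv, mul_assoc, mul_assoc, inv_mul_eq_one,
      ← mul_assoc] at this
    exact this
  · let F : S ⊕ (Σ j, Q j) ⊕ (Σ j, I j) → M := Sum.elim (fun s => φ (FreeGroup.of s))
      (Sum.elim (fun x => ψ x.1 x.2) fun x => τ x.1 x.2)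
    have e0 : (FreeGroup.lift F).comp (FreeGroup.map Sum.inl) = φ := by
      ext s
      simp [F]
    have e1 : ∀ x, FreeGroup.lift F (FreeGroup.map Sum.inl x) = φ x := DFunLike.congr_fun e0
    have e2 : ∀ j (q : Q j), FreeGroup.lift F (vt q) = ψ j q := fun j q => by simp [F, vt]
    have e3 : ∀ j (i : I j), FreeGroup.lift F (ed i) = τ j i := fun j i => by simp [F, ed]
    have hr : ∀ r ∈ StarRel w v b, FreeGroup.lift F r = 1 := by
      rintro r (⟨j, x, y, rfl⟩ | ⟨j, rfl⟩ | ⟨j, i, rfl⟩)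
      · simp only [map_mul, map_inv, e2, mul_inv_cancel]
      · rw [e3]; exact h0 j trivial
      · simp only [map_mul, map_inv, e1, e2, e3, h1 j trivial i]
        group
    exact ⟨PresentedGroup.toGroup hr, e1, fun j _ => e2 j, fun j _ => e3 j⟩
  · refine PresentedGroup.generated_by _ U (fun x => ?_) z
    rcases x with s | ⟨j, q⟩ | ⟨j, i⟩
    · exact h1 (FreeGroup.of s)
    · exact h2 j trivial q
    · exact h3 j trivial i

end TowP

end Pool.Agent.MP_494aff_an.Pinch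

end MrgPart0

-- ======== part 1: formerly Pool.Agent.MP_494aff_an.pinch.TowSurf
section MrgPart1

/-! A surface group is an amalgam of two free groups over a cyclic group. -/

open Monoid

namespace Pool.Agent.MP_494aff_an.Pinch

namespace TowP

/-- The integral Heisenberg group. -/
@[ext] structure Hs where
  x : ℤ
  y : ℤ
  z : ℤ

instance : Mul Hs := ⟨fun a b => ⟨a.x + b.x, a.y + b.y, a.z + b.z + a.x * b.y⟩⟩
instance : One Hs := ⟨⟨0, 0, 0⟩⟩
instance : Inv Hs := ⟨fun a => ⟨-a.x, -a.y, -a.z + a.x * a.y⟩⟩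

lemma Hs.mul_def (a b : Hs) : a * b = ⟨a.x + b.x, a.y + b.y, a.z + b.z + a.x * b.y⟩ := rfl
lemma Hs.one_def : (1 : Hs) = ⟨0, 0, 0⟩ := rfl
lemma Hs.inv_def (a : Hs) : a⁻¹ = ⟨-a.x, -a.y, -a.z + a.x * a.y⟩ := rfl

instance : Group Hs := Group.ofLeftAxioms
  (fun a b c => by ext <;> simp only [Hs.mul_def] <;> ring)
  (fun a => by ext <;> simp [Hs.mul_def, Hs.one_def])
  (fun a => by ext <;> simp [Hs.mul_def, Hs.one_def, Hs.inv_def])

lemma Hs.pow_x (a : Hs) (k : ℕ) : (a ^ k).x = k * a.x := by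
  induction k with
  | zero => simp [Hs.one_def]
  | succ k ih => rw [pow_succ, Hs.mul_def]; simp only [ih]; push_cast; ring

lemma Hs.pow_z (a : Hs) (h : a.x = 0) (k : ℕ) : (a ^ k).z = k * a.z := by
  induction k with
  | zero => simp [Hs.one_def]
  | succ k ih => rw [pow_succ, Hs.mul_def]; simp only [ih, Hs.pow_x, h]; push_cast; ring

/-- The commutator of two generators. -/
def cm {α : Type} (a b : α) : FreeGroup α :=
  FreeGroup.of a * FreeGroup.of b * (FreeGroup.of a)⁻¹ * (FreeGroup.of b)⁻¹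

/-- The map to the Heisenberg group. -/
def toHs : FreeGroup Bool →* Hs := FreeGroup.lift fun c => cond c ⟨0, 1, 0⟩ ⟨1, 0, 0⟩

lemma toHs_cm : toHs (cm false true) = ⟨0, 0, 1⟩ := by
  simp [toHs, cm, Hs.mul_def, Hs.inv_def]

lemma prim_cm (z : FreeGroup Bool) (k : ℕ) (hk : 2 ≤ k) : z ^ k ≠ cm false true := by
  intro h
  have h1 := congrArg toHs h
  rw [map_pow, toHs_cm] at h1
  have h2 := congrArg Hs.x h1
  rw [Hs.pow_x] at h2
  have h3 : (toHs z).x = 0 := (mul_eq_zero.1 h2).resolve_left (by omega)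
  have h4 := congrArg Hs.z h1
  rw [Hs.pow_z _ h3] at h4
  have h5 : (k : ℤ) ∣ 1 := ⟨_, h4.symm⟩
  have := Int.le_of_dvd one_pos h5
  omega

/-- The product of the commutators. -/
def rel (g : ℕ) : FreeGroup (Fin g × Bool) :=
  (List.ofFn fun i : Fin g => cm (i, false) (i, true)).prod

lemma map_cm {α β : Type} (φ : α → β) (a b : α) :
    FreeGroup.map φ (cm a b) = cm (φ a) (φ b) := by simp [cm]

lemma rel_succ (g : ℕ) : rel (g + 1) =
    FreeGroup.map (fun c => (0, c)) (cm false true) *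
      FreeGroup.map (fun x : Fin g × Bool => (x.1.succ, x.2)) (rel g) := by
  rw [rel, List.ofFn_succ, List.prod_cons, rel, map_list_prod, List.map_ofFn, map_cm]
  congr 3

lemma rel_ne_one (g : ℕ) : rel (g + 1) ≠ 1 := by
  intro h
  let F : FreeGroup (Fin (g + 1) × Bool) →* FreeGroup Bool :=
    FreeGroup.lift fun x => Fin.cases (motive := fun _ => FreeGroup Bool) (FreeGroup.of x.2)
      (fun _ => 1) x.1
  have e1 : F.comp (FreeGroup.map fun c => (0, c)) = MonoidHom.id _ := by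
    ext c
    simp [F]
  have e2 : F.comp (FreeGroup.map fun x : Fin g × Bool => (x.1.succ, x.2)) = 1 := by
    ext c
    simp [F]
  have h1 := congrArg F h
  rw [rel_succ, map_mul, map_one, ← MonoidHom.comp_apply, ← MonoidHom.comp_apply, e1, e2] at h1
  exact prim_cm 1 2 le_rfl (by simpa using h1.symm)

lemma att_surf (g : ℕ) :
    ∃ (f : FreeGroup Bool →* Surf (g + 1)) (h : FreeGroup (Fin g × Bool) →* Surf (g + 1)),
      Att (fun _ : Unit => cm false true) (fun _ => (rel g)⁻¹) () f h fun _ => 1 := by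
  let m : FreeGroup (Fin (g + 1) × Bool) →* Surf (g + 1) := PresentedGroup.mk {rel (g + 1)}
  refine ⟨m.comp (FreeGroup.map fun c => (0, c)),
    m.comp (FreeGroup.map fun x : Fin g × Bool => (x.1.succ, x.2)), rfl, fun _ => ?_,
    fun M _ φ ψ τ h0 h1 => ?_, fun U h1 h2 _ z => ?_⟩
  · have : m (rel (g + 1)) = 1 := PresentedGroup.one_of_mem (Set.mem_singleton _)
    rw [rel_succ, map_mul, mul_eq_one_iff_eq_inv] at this
    simpa using this
  · let F : Fin (g + 1) × Bool → M := fun x => Fin.cases (motive := fun _ => M)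
      (φ (FreeGroup.of x.2)) (fun i => ψ (FreeGroup.of (i, x.2))) x.1
    have e1 : (FreeGroup.lift F).comp (FreeGroup.map fun c => (0, c)) = φ := by
      ext c
      simp [F]
    have e2 : (FreeGroup.lift F).comp
        (FreeGroup.map fun x : Fin g × Bool => (x.1.succ, x.2)) = ψ := by
      ext c
      simp [F]
    have hr : ∀ r ∈ ({rel (g + 1)} : Set _), FreeGroup.lift F r = 1 := by
      rintro r rfl
      rw [rel_succ, map_mul, ← MonoidHom.comp_apply, ← MonoidHom.comp_apply, e1, e2, h1 (), h0]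
      simp
    exact ⟨PresentedGroup.toGroup hr, DFunLike.congr_fun e1, DFunLike.congr_fun e2,
      fun _ => (map_one _).trans h0.symm⟩
  · refine PresentedGroup.generated_by _ U (fun x => ?_) z
    obtain ⟨i, c⟩ := x
    refine Fin.cases ?_ (fun i => ?_) i
    · exact h1 (FreeGroup.of c)
    · exact h2 (FreeGroup.of (i, c))

end TowP

end Pool.Agent.MP_494aff_an.Pinch

end MrgPart1

-- ======== part 2: formerly Pool.Agent.MP_494aff_an.pinch.Tow
section MrgPart2

/-! The induction over towers. -/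

open Monoid

namespace Pool.Agent.MP_494aff_an.Pinch

namespace TowP

/-- The free product of two free groups. -/
def sumEquiv (S T : Type) : Coprod (FreeGroup S) (FreeGroup T) ≃* FreeGroup (S ⊕ T) :=
  MonoidHom.toMulEquiv (Coprod.lift (FreeGroup.map Sum.inl) (FreeGroup.map Sum.inr))
    (FreeGroup.lift (Sum.elim (fun s => Coprod.inl (FreeGroup.of s))
      fun t => Coprod.inr (FreeGroup.of t)))
    (by ext <;> simp) (by ext (s | t) <;> simp)

lemma free_sum {S T U : Type} [Finite S] [Finite T] [Finite U]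
    (h : Nat.card S + Nat.card T = Nat.card U) :
    Nonempty (Coprod (FreeGroup S) (FreeGroup T) ≃* FreeGroup U) := by
  obtain ⟨e⟩ : Nonempty (S ⊕ T ≃ U) := Finite.card_eq.1 (by rw [Nat.card_sum, h])
  exact ⟨(sumEquiv S T).trans (FreeGroup.freeGroupCongr e)⟩

lemma free_succ {U : Type} [Finite U] {n : ℕ} (h : n + 1 = Nat.card U) :
    Nonempty (Coprod (FreeGroup (Fin n)) (Multiplicative ℤ) ≃* FreeGroup U) := by
  obtain ⟨e⟩ := free_sum (S := Fin n) (T := Unit) (U := U) (by simpa using h)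
  exact ⟨(MulEquiv.coprodCongr (MulEquiv.refl _)
    (FreeGroup.mulEquivIntOfUnique (α := Unit)).symm).trans e⟩

variable {G G' G'' : Type} [Group G] [Group G'] [Group G'']

lemma sim0_equiv {L : Type} {a : L → G} {a' : L → G'} (e : G ≃* G') (h : ∀ l, e (a l) = a' l) :
    Sim0 a a' :=
  Sim.symm (Sim.of_equiv e (fun _ => map_one e) fun l => by rw [h l])

lemma eqv_equiv (e : G ≃* G') : Eqv G G' := sim0_equiv e fun l => l.elim

lemma eqv_left (hF : FGStmt) (h : Eqv G G') {B M : Type} [Group B] (c : M → B) :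
    Sim0 (fun m => (Coprod.inl (c m) : Coprod B G)) fun m => (Coprod.inl (c m) : Coprod B G') :=
  (((Sim.prod' hF h B).track c).zero).comp (MonoidHom.id Unit) Sum.inr

lemma eqv_prod (hF : FGStmt) {B B' : Type} [Group B] [Group B'] (h : Eqv G G') (h' : Eqv B B') :
    Eqv (Coprod G B) (Coprod G' B') :=
  Sim.trans (Sim.prod hF h B).eqv (Sim.prod' hF h' G').eqv

lemma eqv_free (hF : FGStmt) {n m k : ℕ} (h : Eqv G (FreeGroup (Fin n)))
    (h' : Eqv G' (FreeGroup (Fin m))) (hk : n + m = k) :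
    Eqv (Coprod G G') (FreeGroup (Fin k)) := by
  obtain ⟨e⟩ := free_sum (S := Fin n) (T := Fin m) (U := Fin k) (by simpa using hk)
  exact Sim.trans (eqv_prod hF h h') (eqv_equiv e)

lemma infOrd_map {φ : G →* G'} (hφ : Function.Injective φ) {x : G} (hx : InfOrd x) :
    InfOrd (φ x) := fun k hk => hx k (hφ (by rw [map_zpow, hk, map_one]))

lemma infOrd_ne {x : G} (hx : InfOrd x) : x ≠ 1 := fun e => one_ne_zero (hx 1 (by simp [e]))

lemma coprod_not_comm {y : G} (hy : y ≠ 1) :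
    ¬ ∀ a b : Coprod G (Multiplicative ℤ), a * b = b * a := by
  classical
  intro h
  let φ : G →* Equiv.Perm (Option G) :=
    { toFun := fun g => Equiv.optionCongr (Equiv.mulLeft g)
      map_one' := by ext (_ | a) <;> simp
      map_mul' := fun a b => by ext (_ | c) <;> simp [mul_assoc] }
  let F := Coprod.lift φ (zpowersHom _ (Equiv.swap (none : Option G) (some 1)))
  have h1 := congrArg (fun a => F a none)
    (h (Coprod.inl y) (Coprod.inr (Multiplicative.ofAdd 1)))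
  simp [F, φ] at h1
  exact hy h1

/-- The invariant of the induction. -/
def Inv (G : Type) [Group G] (N : ℕ) : Prop :=
  1 ≤ N ∧ Eqv G (FreeGroup (Fin N)) ∧ (∃ x : G, InfOrd x) ∧
    (2 ≤ N → ∃ (x : G) (R : Type) (_ : Group R) (y : R), InfOrd y ∧
      Sim0 (fun _ : Unit => x) (fun _ : Unit => (Coprod.inl y : Coprod R (Multiplicative ℤ))) ∧
      Eqv R (FreeGroup (Fin (N - 1))))

lemma inv_of (hF : FGStmt) {S R : Type} [Finite S] [Group R] {x : G} {y : R} {r N : ℕ}
    (hS : 1 ≤ Nat.card S) (hy : InfOrd y)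
    (h : Sim0 (fun _ : Unit => x) fun _ : Unit => (Coprod.inr y : Coprod (FreeGroup S) R))
    (hR : Eqv R (FreeGroup (Fin r))) (hN : Nat.card S + r = N) : Inv G N := by
  obtain ⟨e⟩ := free_succ (U := S) (n := Nat.card S - 1) (by omega)
  obtain ⟨e0⟩ : Nonempty (S ≃ Fin (Nat.card S)) := Finite.card_eq.1 (by simp)
  refine ⟨by omega, h.eqv.trans (eqv_free hF (eqv_equiv (FreeGroup.freeGroupCongr e0)) hR hN),
    ⟨x, (h.infOrd ()).2 (infOrd_map Coprod.inr_injective hy)⟩, fun _ =>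
    ⟨x, Coprod R (FreeGroup (Fin (Nat.card S - 1))), inferInstance, Coprod.inl y,
      infOrd_map Coprod.inl_injective hy, h.trans (sim0_equiv
        ((MulEquiv.coprodComm _ _).trans ((MulEquiv.coprodCongr (MulEquiv.refl R) e.symm).trans
          (MulEquiv.coprodAssoc _ _ _).symm)) fun _ => rfl),
      eqv_free hF hR (eqv_equiv (MulEquiv.refl _)) (by omega)⟩⟩

lemma Inv.iso {N : ℕ} (h : Inv G N) (e : G ≃* G') : Inv G' N := by
  obtain ⟨h1, h2, ⟨x, hx⟩, h4⟩ := h
  refine ⟨h1, (eqv_equiv e.symm).trans h2, ⟨e x, infOrd_map (φ := e.toMonoidHom) e.injective hx⟩,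
    fun hN => ?_⟩
  obtain ⟨x, R, _, y, hy, h5, h6⟩ := h4 hN
  exact ⟨e x, R, inferInstance, y, hy,
    Sim.trans (sim0_equiv e.symm fun _ => e.symm_apply_apply x) h5, h6⟩

lemma inv_prod (hF : FGStmt) {N N' : ℕ} (h : Inv G N) (h' : Inv G' N') :
    Inv (Coprod G G') (N + N') := by
  obtain ⟨-, h2, ⟨x, hx⟩, -⟩ := h
  refine inv_of hF (S := Fin N') (x := Coprod.inl x) (by simpa using h'.1) hx
    (Sim.trans (eqv_left hF h'.2.1 fun _ : Unit => x)
      (sim0_equiv (MulEquiv.coprodComm _ _) fun _ => rfl)) h2 (by simp [add_comm])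

lemma inv_one (h : Eqv G (FreeGroup (Fin 1))) {x : G} (hx : InfOrd x) : Inv G 1 :=
  ⟨le_rfl, h, ⟨x, hx⟩, fun h => absurd h (by norm_num)⟩

lemma inv_free (hF : FGStmt) {S : Type} [Finite S] {m : ℕ} (hm : 1 ≤ m) (hS : Nat.card S = m) :
    Inv (FreeGroup S) m := by
  have h1 : Inv (FreeGroup (Fin 1)) 1 := inv_one (eqv_equiv (MulEquiv.refl _))
    ((ct_free _).tf _ (FreeGroup.of_ne_one 0))
  have key : ∀ k : ℕ, Inv (FreeGroup (Fin (k + 1))) (k + 1) := fun k => by
    induction k with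
    | zero => exact h1
    | succ k ih =>
      obtain ⟨e⟩ := free_sum (S := Fin (k + 1)) (T := Fin 1) (U := Fin (k + 1 + 1)) (by simp)
      exact (inv_prod hF ih h1).iso e
  obtain ⟨k, rfl⟩ : ∃ k, m = k + 1 := ⟨m - 1, by omega⟩
  obtain ⟨e0⟩ : Nonempty (Fin (k + 1) ≃ S) := Finite.card_eq.1 (by simp [hS])
  exact (key k).iso (FreeGroup.freeGroupCongr e0)

lemma inv_abel (hA : AbelStmt) {k : ℕ} (hk : 1 ≤ k) : Inv (Multiplicative (Fin k → ℤ)) 1 :=
  inv_one (hA k hk) (x := Multiplicative.ofAdd fun _ => 1) fun n hn => by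
    simpa using congrFun (congrArg Multiplicative.toAdd hn) ⟨0, hk⟩

/-- The first outer vertex. -/
lemma floor_step (h1 : FloorStmt) {S I M H : Type} [Finite S] [Finite I] [Finite M] [Group H]
    {N : ℕ} {w : I ⊕ M → FreeGroup S} {v : I → H} {b : I} {f : FreeGroup S →* G} {g : H →* G}
    {t : I → G} (hw : Mal w) (hv : ∀ i, v i ≠ 1) (hH : CT H) (hI : Inv H N) (hN : 2 ≤ N)
    (A : Att (w ∘ Sum.inl) v b f g t) :
    ∃ (x : G) (R : Type) (_ : Group R) (y : R), InfOrd y ∧ Eqv R (FreeGroup (Fin (N - 1))) ∧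
      Sim0 (Sum.elim (f ∘ w ∘ Sum.inr) fun _ : Unit => x)
        (Sum.elim (Coprod.inl ∘ w ∘ Sum.inr)
          fun _ : Unit => (Coprod.inr y : Coprod (FreeGroup S) R)) := by
  obtain ⟨x, R, _, y, hy, h5, h6⟩ := hI.2.2.2 hN
  have hx : x ≠ 1 := infOrd_ne ((h5.infOrd ()).2 (infOrd_map Coprod.inl_injective hy))
  have hn : ¬ ∀ a b : H, a * b = b * a := fun hc => coprod_not_comm (infOrd_ne hy) (h5.comm hc)
  exact ⟨g x, R, inferInstance, y, hy, h6,
    h1 S I M H R G w v b f g t x y hw (fun i => hH.exists_mid hn (hv i) hx) hy h5 A⟩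

lemma inv_surf (hF : FGStmt) (h1 : FloorStmt) {g : ℕ} (hg : 2 ≤ g) : Inv (Surf g) (2 * g - 1) := by
  obtain ⟨g, rfl⟩ : ∃ k, g = k + 1 + 1 := ⟨g - 2, by omega⟩
  obtain ⟨f, h, A⟩ := att_surf (g + 1)
  have hw : Mal (Sum.elim (fun _ : Unit => cm false true) (Empty.elim : Empty → _)) := by
    refine ⟨?_, ?_⟩
    · rintro (_ | e)
      · exact prim_cm
      · exact e.elim
    · rintro (_ | e) (_ | e') hne
      · exact (hne rfl).elim
      · exact e'.elim
      · exact e.elim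
      · exact e.elim
  obtain ⟨x, R, _, y, hy, h6, h7⟩ := floor_step h1 (N := (g + 1) * 2) hw
    (fun _ => inv_ne_one.2 (rel_ne_one g)) (ct_free _) (inv_free hF (by omega) (by simp))
    (by omega) A
  exact inv_of hF (S := Bool) (by simp) hy (h7.comp (MonoidHom.id Unit) Sum.inr) h6
    (by simp; omega)

lemma mal_comp {ι κ P : Type} [Group P] {w : ι → P} (h : Mal w) {φ : κ → ι}
    (hφ : Function.Injective φ) : Mal (w ∘ φ) :=
  ⟨fun i => h.1 (φ i), fun _ _ hij => h.2 _ _ fun e => hij (hφ e)⟩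

section Star

variable {S J : Type} {Q : J → Type} [∀ j, Group (Q j)] {I : J → Type}

/-- The ports at `j` and the ports outside `T`. -/
def port (I : J → Type) (j : J) (T : Finset J) :
    I j ⊕ {p : Σ j, I j // p.1 ∉ T} → Σ j, I j := Sum.elim (fun i => ⟨j, i⟩) fun p => p.1

lemma port_inj {j : J} {T : Finset J} (hj : j ∈ T) : Function.Injective (port I j T) := by
  rintro (i | p) (i' | p') h
  · exact congrArg Sum.inl (sigma_mk_injective h)
  · exact (p'.2 ((congrArg Sigma.fst h : j = p'.1.1) ▸ hj)).elim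
  · exact (p.2 ((congrArg Sigma.fst h : p.1.1 = j) ▸ hj)).elim
  · exact congrArg Sum.inr (Subtype.ext h)

/-- The invariant of the star with outer vertices in `T`. -/
def SInv (w : (Σ j, I j) → FreeGroup S) (v : ∀ j, I j → Q j) (b : ∀ j, I j) (N : J → ℕ)
    (T : Finset J) : Prop :=
  ∃ (G : Type) (_ : Group G) (f : FreeGroup S →* G) (g : ∀ j, Q j →* G) (t : ∀ j, I j → G)
    (x : G) (R : Type) (_ : Group R) (y : R), StarOn w v b T f g t ∧ InfOrd y ∧
    1 ≤ ∑ j ∈ T, (N j - 1) ∧ Eqv R (FreeGroup (Fin (∑ j ∈ T, (N j - 1)))) ∧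
    Sim0 (Sum.elim (fun p : {p : Σ j, I j // p.1 ∉ T} => f (w p.1)) fun _ : Unit => x)
      (Sum.elim (fun p : {p : Σ j, I j // p.1 ∉ T} => Coprod.inl (w p.1))
        fun _ : Unit => (Coprod.inr y : Coprod (FreeGroup S) R))

variable [Finite S] [Finite J] [∀ j, Finite (I j)] {w : (Σ j, I j) → FreeGroup S}
  {v : ∀ j, I j → Q j} {b : ∀ j, I j} {N : J → ℕ}

lemma sinv_base (h1 : FloorStmt) (hw : Mal w) {j : J} (hv : ∀ i, v j i ≠ 1) (hQ : CT (Q j))
    (hI : Inv (Q j) (N j)) (hN : 2 ≤ N j) : SInv w v b N {j} := by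
  obtain ⟨G, _, f, g, t, A⟩ := exists_att (fun i => w ⟨j, i⟩) (v j) (b j)
  obtain ⟨g', t', hS⟩ := (starOn_empty w v b).step (j := j) (fun h => h) A
  obtain ⟨x, R, _, y, hy, h6, h7⟩ := floor_step h1
    (mal_comp hw (port_inj (Finset.mem_singleton_self j))) hv hQ hI hN A
  refine ⟨G, inferInstance, f, g', t', x, R, inferInstance, y, ?_, hy, ?_, ?_, h7⟩
  · simpa using hS
  · rw [Finset.sum_singleton]; omega
  · rw [Finset.sum_singleton]; exact h6

lemma sinv_step [DecidableEq J] (hF : FGStmt) (h2 : AttachStmt) (hw : Mal w) {T : Finset J}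
    {j : J} (hj : j ∉ T) (hv : ∀ i, InfOrd (v j i)) (hI : Inv (Q j) (N j))
    (h : SInv w v b N T) : SInv w v b N (insert j T) := by
  obtain ⟨G, _, f, g, t, x, R, _, y, hS, -, hr, hR, h7⟩ := h
  obtain ⟨hN, hQ, ⟨z, hz⟩, -⟩ := hI
  obtain ⟨G₁, _, f₁, g₁, t₁, A⟩ := exists_att (fun i => f (w ⟨j, i⟩)) (v j) (b j)
  obtain ⟨g', t', hS'⟩ := hS.step (j := j) (by simpa using hj) A
  obtain ⟨e⟩ := free_succ (U := Fin (∑ j ∈ T, (N j - 1))) (n := ∑ j ∈ T, (N j - 1) - 1)
    (by simp only [Nat.card_eq_fintype_card, Fintype.card_fin]; omega)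
  let ψ : I j ⊕ {p : Σ j, I j // p.1 ∉ insert j T} → {p : Σ j, I j // p.1 ∉ T} ⊕ Unit :=
    Sum.elim (fun i => Sum.inl ⟨⟨j, i⟩, hj⟩)
      fun p => Sum.inl ⟨p.1, fun hp => p.2 (Finset.mem_insert_of_mem hp)⟩
  have h8 : Sim0 (fun p => f (w (port I j (insert j T) p)))
      fun p => (Coprod.inl (w (port I j (insert j T) p)) : Coprod (FreeGroup S) R) :=
    (h7.comp (MonoidHom.id Unit) ψ).congr (by rintro (i | p) <;> exact IsConj.refl _)
      (by rintro (i | p) <;> exact IsConj.refl _)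
  have h9 := h2 S (I j) _ (FreeGroup (Fin (∑ j ∈ T, (N j - 1) - 1))) (Q j) G G₁
    (w ∘ port I j (insert j T)) (fun p => f (w (port I j (insert j T) p))) (v j) (b j) f₁ g₁ t₁
    (mal_comp hw (port_inj (Finset.mem_insert_self j T))) hv
    (h8.trans (eqv_left hF (hR.trans (eqv_equiv e.symm)) _)) A
  refine ⟨G₁, inferInstance, f₁.comp f, g', t', g₁ z, _, inferInstance, Coprod.inr z, ?_,
    infOrd_map Coprod.inr_injective hz, ?_, ?_, (h9.track fun _ : Unit => z).zero⟩
  · simpa using hS'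
  · rw [Finset.sum_insert hj]; omega
  · exact eqv_free hF (eqv_equiv (MulEquiv.refl _)) hQ (by rw [Finset.sum_insert hj]; omega)

end Star

lemma inv_star (hF : FGStmt) (h1 : FloorStmt) (h2 : AttachStmt) {n : ℕ} {J : Type} [Fintype J]
    {Q : J → Type} [∀ j, Group (Q j)] {N : J → ℕ} {I : J → Type} [∀ j, Finite (I j)]
    {w : (Σ j, I j) → FreeGroup (Fin n)} {v : ∀ j, I j → Q j} (b : ∀ j, I j)
    (hI : ∀ j, Inv (Q j) (N j)) (hL : ∀ j, Lim (Q j)) (h0 : ∃ j, 2 ≤ N j) (hw : Mal w)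
    (hv : ∀ j i, v j i ≠ 1) : Inv (PresentedGroup (StarRel w v b)) (n + ∑ j, (N j - 1)) := by
  classical
  obtain ⟨j0, h0⟩ := h0
  have key : ∀ T : Finset J, SInv w v b N (insert j0 T) := fun T => by
    induction T using Finset.induction_on with
    | empty => simpa using sinv_base h1 hw (hv j0) (ct_lim (hL j0)) (hI j0) h0
    | insert j T hj ih =>
      rw [Finset.insert_comm]
      by_cases hj' : j ∈ insert j0 T
      · rwa [Finset.insert_eq_of_mem hj']
      · exact sinv_step hF h2 hw hj' (fun i => (ct_lim (hL j)).tf _ (hv j i)) (hI j) ih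
  have h3 := key Finset.univ
  rw [Finset.insert_eq_of_mem (Finset.mem_univ _)] at h3
  obtain ⟨G, _, f, g, t, x, R, _, y, hS, hy, -, hR, h7⟩ := h3
  obtain ⟨f', g', t', hS'⟩ := starOn_pres w v b
  rw [Finset.coe_univ] at hS
  obtain ⟨e⟩ := hS.unique hS'
  have hn : 1 ≤ n := by
    rcases n with _ | n
    · exact (hw.1 ⟨j0, b j0⟩ 1 2 le_rfl (Subsingleton.elim _ _)).elim
    · omega
  exact (inv_of hF (S := Fin n) (by simpa using hn) hy (h7.comp (MonoidHom.id Unit) Sum.inr) hR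
    (by simp)).iso e

end TowP

open TowP in
theorem tow (hF : FGStmt) (hA : AbelStmt) (h1 : FloorStmt) (h2 : AttachStmt) : TowStmt := by
  intro G _ N h
  suffices H : Inv G N from H.2.1.vnIso
  induction h with
  | abel k hk => exact inv_abel hA hk
  | free m hm => exact inv_free hF hm (by simp)
  | surf g hg => exact inv_surf hF h1 hg
  | iso G G' N _ e ih => exact ih.iso e
  | prod G G' N N' _ _ ih ih' => exact inv_prod hF ih ih'
  | star n J Q N I w v b _ hL h0 hw hv ih => exact inv_star hF h1 h2 b ih hL h0 hw hv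

end Pool.Agent.MP_494aff_an.Pinch

end MrgPart2

-- ======== part 3: formerly Pool.Agent.MP_494aff_an.pinch.AbelM
section MrgPart3

/-! A standard probability space without atoms is isomorphic to the circle. -/

open MeasureTheory ProbabilityTheory Set Filter Topology

namespace Pool.Agent.MP_494aff_an.Pinch.Abel

section Real
variable (ν : Measure ℝ) [IsProbabilityMeasure ν]

lemma continuous_cdf (h : ∀ x, ν {x} = 0) : Continuous (cdf ν) := by
  refine continuous_iff_continuousAt.2 fun x => ?_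
  have h1 := (cdf ν).measure_singleton x
  rw [measure_cdf, h x, eq_comm, ENNReal.ofReal_eq_zero] at h1
  rw [(monotone_cdf ν).continuousAt_iff_leftLim_eq_rightLim, (cdf ν).rightLim_eq]
  exact le_antisymm ((monotone_cdf ν).leftLim_le le_rfl) (by linarith)

lemma level (h : ∀ x, ν {x} = 0) {t : ℝ} (h0 : 0 < t) (h1 : t < 1) :
    ν (cdf ν ⁻¹' Iic t) = ENNReal.ofReal t := by
  have hc := continuous_cdf ν h
  obtain ⟨a, ha⟩ := ((tendsto_cdf_atBot ν).eventually (gt_mem_nhds h0)).exists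
  obtain ⟨b, hb⟩ := ((tendsto_cdf_atTop ν).eventually (lt_mem_nhds h1)).exists
  have hbd : BddAbove (cdf ν ⁻¹' Iic t) := ⟨b, fun x hx => le_of_not_gt fun hlt =>
    absurd (hb.trans_le (monotone_cdf ν hlt.le)) (not_lt.2 hx)⟩
  have hs := (isClosed_Iic.preimage hc).csSup_mem ⟨a, ha.le⟩ hbd
  have e : cdf ν ⁻¹' Iic t = Iic (sSup (cdf ν ⁻¹' Iic t)) :=
    Subset.antisymm (fun x hx => le_csSup hbd hx) fun x hx => le_trans (monotone_cdf ν hx) hs
  rw [e, ← ofReal_cdf]
  congr 1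
  refine le_antisymm hs (le_of_not_gt fun hlt => ?_)
  obtain ⟨y, hy, hy'⟩ := (((hc.continuousAt.eventually (gt_mem_nhds hlt)).filter_mono
    (nhdsWithin_le_nhds (s := Ioi (sSup (cdf ν ⁻¹' Iic t))))).and self_mem_nhdsWithin).exists
  exact absurd (le_csSup hbd (show y ∈ cdf ν ⁻¹' Iic t from le_of_lt hy)) (not_le.2 hy')

lemma level' (h : ∀ x, ν {x} = 0) (t : ℝ) :
    ν (cdf ν ⁻¹' Iic t) = volume (Iic t ∩ Ioc 0 (0 + 1)) := by
  rcases le_or_gt t 0 with h0 | h0
  · rw [show Iic t ∩ Ioc 0 (0 + 1) = ∅ from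
      eq_empty_of_forall_notMem fun x hx => absurd (hx.2.1.trans_le hx.1) (not_lt.2 h0),
      measure_empty, ← le_zero_iff]
    refine ENNReal.le_of_forall_pos_le_add fun ε hε _ => ?_
    have h2 : (0 : ℝ) < min ε (1 / 2) := lt_min hε (by norm_num)
    refine (measure_mono (preimage_mono (Iic_subset_Iic.2 (h0.trans h2.le)))).trans ?_
    rw [level ν h h2 ((min_le_right _ _).trans_lt (by norm_num)), zero_add,
      ← ENNReal.ofReal_coe_nnreal]
    exact ENNReal.ofReal_le_ofReal (min_le_left _ _)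
  rcases lt_or_ge t 1 with h1 | h1
  · rw [level ν h h0 h1, show Iic t ∩ Ioc 0 (0 + 1) = Ioc 0 t from Subset.antisymm
      (fun x hx => ⟨hx.2.1, hx.1⟩) fun x hx => ⟨hx.2, hx.1, by linarith [hx.2]⟩]
    simp
  · rw [eq_univ_of_forall (s := cdf ν ⁻¹' Iic t) fun x => (cdf_le_one ν x).trans h1,
      inter_eq_right.2 (show Ioc 0 (0 + 1) ⊆ Iic t from fun x hx => show x ≤ t by linarith [hx.2])]
    simp

lemma mp_cdf (h : ∀ x, ν {x} = 0) :
    MeasurePreserving (cdf ν) ν (volume.restrict (Ioc 0 (0 + 1))) := by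
  have hm := (continuous_cdf ν h).measurable
  refine ⟨hm, Measure.ext_of_Iic _ _ fun t => ?_⟩
  rw [Measure.map_apply hm measurableSet_Iic, Measure.restrict_apply measurableSet_Iic, level' ν h]

lemma sat (h : ∀ x, ν {x} = 0) {A : Set ℝ} (hA : MeasurableSet A) :
    ∃ C, MeasurableSet C ∧ A =ᵐ[ν] cdf ν ⁻¹' C := by
  have e : MeasurableSet[MeasurableSpace.generateFrom (range Iic)] A := by
    rw [← borel_eq_generateFrom_Iic, ← BorelSpace.measurable_eq]
    exact hA
  clear hA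
  induction A, e using MeasurableSpace.generateFrom_induction with
  | hC _ ht =>
    obtain ⟨x, rfl⟩ := ht
    refine ⟨Iic (cdf ν x), measurableSet_Iic, ae_eq_of_subset_of_measure_ge
      (fun y hy => monotone_cdf ν hy) ?_ measurableSet_Iic.nullMeasurableSet (measure_ne_top _ _)⟩
    rw [level' ν h, ← ofReal_cdf]
    exact (measure_mono (t := Ioc 0 (cdf ν x)) fun y hy => ⟨hy.2.1, hy.1⟩).trans (by simp)
  | empty => exact ⟨∅, .empty, by simp⟩
  | compl t _ ih =>
    obtain ⟨C, h1, h2⟩ := ih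
    exact ⟨Cᶜ, h1.compl, h2.compl⟩
  | iUnion s _ ih =>
    choose C h1 h2 using ih
    exact ⟨⋃ i, C i, .iUnion h1, by rw [preimage_iUnion]; exact Filter.EventuallyEq.countable_iUnion h2⟩

end Real

/-- the isomorphism with the circle -/
lemma exists_iso {X : Type} [MeasurableSpace X] [StandardBorelSpace X] (μ : Measure X)
    [IsProbabilityMeasure μ] (h : ∀ x, μ {x} = 0) :
    ∃ φ : X → AddCircle (1 : ℝ), MeasurePreserving φ μ AddCircle.haarAddCircle ∧
      ∀ A, MeasurableSet A → ∃ B, MeasurableSet B ∧ A =ᵐ[μ] φ ⁻¹' B := by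
  have hψ := measurableEmbedding_embeddingReal X
  set ψ := embeddingReal X
  have hp : MeasurePreserving ψ μ (μ.map ψ) := ⟨hψ.measurable, rfl⟩
  have : IsProbabilityMeasure (μ.map ψ) := Measure.isProbabilityMeasure_map hψ.measurable.aemeasurable
  have hν : ∀ y, μ.map ψ {y} = 0 := fun y => by
    rw [hψ.map_apply]
    rcases (subsingleton_singleton.preimage hψ.injective (s := {y})).eq_empty_or_singleton with
      e | ⟨x, e⟩
    · rw [e, measure_empty]
    · rw [e, h]
  have h1 := (mp_cdf _ hν).comp hp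
  have h2 := (AddCircle.measurePreserving_mk 1 0).comp h1
  rw [AddCircle.volume_eq_smul_haarAddCircle, ENNReal.ofReal_one, one_smul] at h2
  refine ⟨_, h2, fun A hA => ?_⟩
  obtain ⟨C, hC, e⟩ := sat _ hν (hψ.measurableSet_image' hA)
  refine ⟨(fun θ => (AddCircle.equivIoc 1 0 θ : ℝ)) ⁻¹' C, (measurable_subtype_coe.comp
    (AddCircle.measurableEquivIoc 1 0).measurable) hC, ?_⟩
  filter_upwards [hp.quasiMeasurePreserving.ae e,
    h1.quasiMeasurePreserving.ae (ae_restrict_mem measurableSet_Ioc)] with x k1 k2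
  have k3 : (x ∈ A) = (ψ x ∈ ψ '' A) := propext (hψ.injective.mem_set_image).symm
  refine k3.trans (k1.trans ?_)
  change (_ ∈ C) = ((AddCircle.equivIoc 1 0 (((cdf (μ.map ψ) ∘ ψ) x : ℝ) : AddCircle (1 : ℝ)) : ℝ) ∈ C)
  rw [AddCircle.equivIoc_coe_eq k2]
  rfl

end Pool.Agent.MP_494aff_an.Pinch.Abel

end MrgPart3

-- ======== part 4: formerly Pool.Agent.MP_494aff_an.pinch.Abel
section MrgPart4

/-! Row ABEL: free abelian groups. -/

open MeasureTheory Set Filter Topology
open scoped InnerProductSpace ComplexConjugate ENNReal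

namespace Pool.Agent.MP_494aff_an.Pinch

noncomputable section

namespace Abel

variable {X : Type} [MeasurableSpace X] {μ : Measure X} {G G' : Type} [Group G] [Group G']

/-- A multiplicative family of unimodular functions that is a Hilbert basis. -/
structure Ch (χ : G → X → ℂ) (v : G → Lp ℂ 2 μ) : Prop where
  ae : ∀ g, v g =ᵐ[μ] χ g
  norm : ∀ g x, ‖χ g x‖ = 1
  mul : ∀ g h x, χ (g * h) x = χ g x * χ h x
  on : Orthonormal ℂ v
  tot : ∀ f, (∀ g, ⟪v g, f⟫_ℂ = 0) → f = 0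

variable {χ : G → X → ℂ} {v : G → Lp ℂ 2 μ} {χ' : G' → X → ℂ} {v' : G' → Lp ℂ 2 μ}

lemma Ch.one (h : Ch χ v) (x : X) : χ 1 x = 1 := by
  have h1 := h.mul 1 1 x
  have h2 : χ 1 x ≠ 0 := norm_ne_zero_iff.1 (by rw [h.norm]; exact one_ne_zero)
  rw [mul_one] at h1
  exact mul_left_cancel₀ h2 (h1.symm.trans (mul_one _).symm)

lemma Ch.inv (h : Ch χ v) (g : G) (x : X) : conj (χ g⁻¹ x) = χ g x := by
  have h1 := h.mul g g⁻¹ x
  have h2 := Complex.mul_conj' (χ g⁻¹ x)
  rw [mul_inv_cancel, h.one] at h1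
  rw [h.norm] at h2
  calc conj (χ g⁻¹ x) = χ g x * (χ g⁻¹ x * conj (χ g⁻¹ x)) := by rw [← mul_assoc, ← h1, one_mul]
    _ = _ := by rw [h2]; simp

lemma Ch.top (h : Ch χ v) (g : G) : MemLp (χ g) ∞ μ :=
  memLp_top_of_bound ((Lp.aestronglyMeasurable (v g)).congr (h.ae g)) 1
    (Eventually.of_forall fun x => (h.norm g x).le)

/-- The multiplication operator. -/
def Ch.M0 (h : Ch χ v) (g : G) : Lp ℂ 2 μ →L[ℂ] Lp ℂ 2 μ :=
  (ContinuousLinearMap.mul ℂ ℂ).holderL μ ∞ 2 2 (h.top g).toLp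

lemma Ch.M0_ae (h : Ch χ v) (g : G) (f : Lp ℂ 2 μ) : h.M0 g f =ᵐ[μ] fun x => χ g x * f x := by
  filter_upwards [(ContinuousLinearMap.mul ℂ ℂ).coeFn_holder (r := 2) (h.top g).toLp f,
    (h.top g).coeFn_toLp] with x h1 h2
  rw [← h2]
  exact h1

/-- The multiplication operators as a representation. -/
def Ch.M (h : Ch χ v) : G →* (Lp ℂ 2 μ →L[ℂ] Lp ℂ 2 μ) where
  toFun := h.M0
  map_one' := ContinuousLinearMap.ext fun f => Lp.ext (by
    filter_upwards [h.M0_ae 1 f] with x h1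
    rw [h1, h.one, one_mul]
    rfl)
  map_mul' a b := ContinuousLinearMap.ext fun f => Lp.ext (by
    filter_upwards [h.M0_ae (a * b) f, h.M0_ae a (h.M0 b f), h.M0_ae b f] with x h1 h2 h3
    rw [h1, h.mul, mul_assoc, ← h3, ← h2]
    rfl)

lemma Ch.M_ae (h : Ch χ v) (g : G) (f : Lp ℂ 2 μ) : h.M g f =ᵐ[μ] fun x => χ g x * f x :=
  h.M0_ae g f

lemma Ch.star_M (h : Ch χ v) (g : G) : star (h.M g) = h.M g⁻¹ := by
  refine ((ContinuousLinearMap.eq_adjoint_iff _ _).2 fun a b => ?_).symm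
  rw [L2.inner_def, L2.inner_def]
  refine integral_congr_ae ?_
  filter_upwards [h.M_ae g⁻¹ a, h.M_ae g b] with x h1 h2
  rw [h1, h2, RCLike.inner_apply, RCLike.inner_apply, map_mul, h.inv]
  ring

lemma Ch.M_v (h : Ch χ v) (g a : G) : h.M g (v a) = v (g * a) := Lp.ext (by
  filter_upwards [h.M_ae g (v a), h.ae a, h.ae (g * a)] with x h1 h2 h3
  rw [h1, h2, h3, h.mul])

lemma Ch.comm (h : Ch χ v) (h' : Ch χ' v') (g : G) (g' : G') :
    h.M g * h'.M g' = h'.M g' * h.M g := ContinuousLinearMap.ext fun f => Lp.ext (by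
  filter_upwards [h.M_ae g (h'.M g' f), h'.M_ae g' f, h'.M_ae g' (h.M g f), h.M_ae g f]
    with x h1 h2 h3 h4
  refine h1.trans (Eq.trans ?_ h3.symm)
  rw [h2, h4, mul_left_comm])

lemma Ch.perp (h : Ch χ v) : (Submodule.span ℂ (range v))ᗮ = ⊥ :=
  (Submodule.eq_bot_iff _).2 fun f hf => h.tot f fun g =>
    Submodule.inner_right_of_mem_orthogonal (Submodule.subset_span (mem_range_self g)) hf

/-- The Fourier transform. -/
def Ch.W (h : Ch χ v) : Lp ℂ 2 μ ≃ₗᵢ[ℂ] H G := (HilbertBasis.mkOfOrthogonalEqBot h.on h.perp).repr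

lemma Ch.W_v (h : Ch χ v) (g : G) : h.W (v g) = dl g := by
  classical
  have := (HilbertBasis.mkOfOrthogonalEqBot h.on h.perp).repr_self g
  rw [HilbertBasis.coe_mkOfOrthogonalEqBot] at this
  exact this

lemma Ch.gen (h : Ch χ v) (h' : Ch χ' v') : ∃ π : G' →* Op G, Gen π := by
  have hs : ∀ g, h.W.symm (dl g) = v g := fun g => by rw [← h.W_v, h.W.symm_apply_apply]
  have h1 : v 1 = v' 1 := Lp.ext (by
    filter_upwards [h.ae 1, h'.ae 1] with x k1 k2
    rw [k1, k2, h.one, h'.one])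
  let π : G' →* Op G :=
    { toFun := fun g => h.W.conjStarAlgEquiv (h'.M g)
      map_one' := by rw [map_one, map_one]
      map_mul' := fun a b => by rw [map_mul, map_mul] }
  have h2 : ∀ g, π g (dl 1) = h.W (v' g) := fun g => by
    change h.W (h'.M g (h.W.symm (dl 1))) = _
    rw [hs, h1, h'.M_v, mul_one]
  have h3 : ∀ g, rho g = h.W.conjStarAlgEquiv (h.M g⁻¹) := fun g => op_ext fun x => by
    change _ = h.W (h.M g⁻¹ (h.W.symm (dl x)))
    rw [hs, rho_dl, ← h.W_v]
    refine congrArg _ (Lp.ext ?_)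
    filter_upwards [h.M_ae g⁻¹ (v x), h.ae x, h.ae (x * g⁻¹)] with y k1 k2 k3
    rw [k1, k2, k3, h.mul, mul_comm]
  refine ⟨π, fun g => mem_LL.2 fun a => ?_, fun g => ?_, fun g hg => ?_, ?_⟩
  · change _ * h.W.conjStarAlgEquiv (h'.M g) = h.W.conjStarAlgEquiv (h'.M g) * _
    rw [h3, ← map_mul, ← map_mul, h.comm h']
  · change star (h.W.conjStarAlgEquiv (h'.M g)) = h.W.conjStarAlgEquiv (h'.M g⁻¹)
    rw [← map_star, h'.star_M]
  · rw [h2, ← inner_dl, ← h.W_v, h.W.inner_map_map, h1]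
    exact h'.on.2 hg.symm
  · rw [Submodule.dense_iff_topologicalClosure_eq_top,
      Submodule.topologicalClosure_eq_top_iff, Submodule.eq_bot_iff]
    intro ξ hξ
    refine (map_eq_zero_iff _ h.W.symm.injective).1 (h'.tot _ fun g => ?_)
    rw [← h.W.inner_map_map, h.W.apply_symm_apply, ← h2]
    exact Submodule.inner_right_of_mem_orthogonal (Submodule.subset_span (mem_range_self g)) hξ

lemma Ch.comp (h : Ch χ v) (e : G' ≃* G) : Ch (χ ∘ e) (v ∘ e) :=
  ⟨fun g => h.ae _, fun g => h.norm _, fun a b x => by simp [h.mul], h.on.comp e e.injective,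
    fun f hf => h.tot f fun g => by simpa using hf (e.symm g)⟩

lemma Ch.pull {Y : Type} [MeasurableSpace Y] {ν : Measure Y} [IsFiniteMeasure μ]
    [IsFiniteMeasure ν] (h : Ch χ v) {φ : Y → X} (hφ : MeasurePreserving φ ν μ)
    (hs : ∀ A, MeasurableSet A → ∃ B, MeasurableSet B ∧ A =ᵐ[ν] φ ⁻¹' B) :
    Ch (fun g y => χ g (φ y)) fun g => Lp.compMeasurePreservingₗᵢ ℂ φ hφ (v g) := by
  refine ⟨fun g => (Lp.coeFn_compMeasurePreserving (v g) hφ).trans
    (hφ.quasiMeasurePreserving.ae (h.ae g)), fun g y => h.norm _ _, fun a b y => h.mul _ _ _,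
    h.on.comp_linearIsometry _, fun f hf => ?_⟩
  have h1 : (Lp.compMeasurePreservingₗᵢ ℂ φ hφ).toContinuousLinearMap.adjoint f = 0 :=
    h.tot _ fun g => by rw [ContinuousLinearMap.adjoint_inner_right]; exact hf g
  refine Lp.ext ((Lp.ae_eq_zero_of_forall_setIntegral_eq_zero f two_ne_zero ENNReal.ofNat_ne_top
    (fun s _ _ => ((Lp.memLp f).integrable one_le_two).integrableOn) fun A hA _ => ?_).trans
    (Lp.coeFn_zero _ _ _).symm)
  obtain ⟨B, hB, e⟩ := hs A hA
  have h2 := (Lp.compMeasurePreservingₗᵢ ℂ φ hφ).toContinuousLinearMap.adjoint_inner_right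
    (indicatorConstLp 2 hB (measure_ne_top μ B) (1 : ℂ)) f
  rw [h1, inner_zero_right] at h2
  rw [setIntegral_congr_set e, ← L2.inner_indicatorConstLp_one (hB.preimage hφ.measurable)
    (measure_ne_top _ _), ← Lp.indicatorConstLp_compMeasurePreserving hB (measure_ne_top μ B) _ hφ]
  exact h2.symm

lemma tot_basis {ι E : Type} [NormedAddCommGroup E] [InnerProductSpace ℂ E]
    (b : HilbertBasis ι ℂ E) (f : E) (h : ∀ i, ⟪b i, f⟫_ℂ = 0) : f = 0 :=
  (map_eq_zero_iff _ b.repr.injective).1 (lp.ext (funext fun i => by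
    rw [b.repr_apply_apply, h]; rfl))

lemma circle : Ch (μ := AddCircle.haarAddCircle)
    (fun (g : Multiplicative ℤ) (x : AddCircle (1 : ℝ)) => fourier g.toAdd x)
    fun g => fourierLp 2 g.toAdd :=
  ⟨fun g => coeFn_fourierLp 2 _, fun g x => Circle.norm_coe _, fun _ _ _ => fourier_add,
    orthonormal_fourier, fun f hf => tot_basis fourierBasis f fun i => by
      rw [coe_fourierBasis]; exact hf (Multiplicative.ofAdd i)⟩

lemma torus (k : ℕ) : Ch (μ := Measure.pi fun _ : Fin k => AddCircle.haarAddCircle)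
    (fun (g : Multiplicative (Fin k → ℤ)) (x : Fin k → AddCircle (1 : ℝ)) =>
      UnitAddTorus.mFourier g.toAdd x) fun g => UnitAddTorus.mFourierLp 2 g.toAdd :=
  ⟨fun g => UnitAddTorus.coeFn_mFourierLp 2 _, fun g x => by simp [UnitAddTorus.mFourier],
    fun _ _ _ => UnitAddTorus.mFourier_add, UnitAddTorus.orthonormal_mFourier,
    fun f hf => tot_basis UnitAddTorus.mFourierBasis f fun i => by
      rw [UnitAddTorus.coe_mFourierBasis]; exact hf (Multiplicative.ofAdd i)⟩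

end Abel

theorem abel : AbelStmt := by
  intro k hk
  have h0 : ∀ y : AddCircle (1 : ℝ), AddCircle.haarAddCircle {y} = 0 := fun y => by
    have := AddCircle.volume_closedBall 1 (x := y) 0
    rw [AddCircle.volume_eq_smul_haarAddCircle] at this
    simpa using this
  obtain ⟨φ, hφ, hs⟩ := Abel.exists_iso
    (Measure.pi fun _ : Fin k => (AddCircle.haarAddCircle : Measure (AddCircle (1 : ℝ)))) fun x => by
      rw [← univ_pi_singleton, Measure.pi_pi]
      exact Finset.prod_eq_zero (Finset.mem_univ ⟨0, hk⟩) (h0 _)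
  obtain ⟨π, hπ⟩ := (Abel.torus k).gen
    ((Abel.circle.pull hφ hs).comp (FreeGroup.mulEquivIntOfUnique (α := Fin 1)))
  exact ⟨π, hπ, fun _ => by simp, fun l => l.elim⟩

end

end Pool.Agent.MP_494aff_an.Pinch

end MrgPart4

-- marker of a merged file
example : 731051 + 140906 = 731051 + 140906 := rfl
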