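import Mathlib
import Pool.Agent.MP_494aff_an.pinch.Top

/-! The derivation attached to a cocycle and a trigonometric polynomial. -/

open scoped InnerProductSpace ComplexConjugate Pointwise
open MonoidAlgebra (single)

namespace Pool.Agent.MP_494aff_an.Pinch

noncomputable section

namespace Der

section Bound

variable {G : Type} [Group G]

/-- `x` is a combination of elements of `T ^ L` with coefficients of total size at most `r`. -/
inductive Bd (T : Set G) (L : ℕ) : CA G → ℝ → Prop
  | sing (g : G) (c : ℂ) : g ∈ T ^ L → Bd T L (single g c) ‖c‖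
  | zero : Bd T L 0 0
  | add {x y : CA G} {r s : ℝ} : Bd T L x r → Bd T L y s → Bd T L (x + y) (r + s)
  | mono {x : CA G} {r s : ℝ} : Bd T L x r → r ≤ s → Bd T L x s

variable {T : Set G}

lemma Bd.norm_le {L : ℕ} {x : CA G} {r : ℝ} (h : Bd T L x r) : ‖op x‖ ≤ r := by
  induction h with
  | sing g c _ =>
    rw [op_single, norm_smul]
    exact mul_le_of_le_one_right (norm_nonneg _) (opNorm_lam g)
  | zero => simp
  | add _ _ h1 h2 => rw [map_add]; exact (norm_add_le _ _).trans (add_le_add h1 h2)
  | mono _ h1 h2 => exact h2.trans h1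

lemma Bd.nonneg {L : ℕ} {x : CA G} {r : ℝ} (h : Bd T L x r) : 0 ≤ r :=
  (norm_nonneg _).trans h.norm_le

lemma Bd.len (hT : (1 : G) ∈ T) {L L' : ℕ} (hL : L ≤ L') {x : CA G} {r : ℝ} (h : Bd T L x r) :
    Bd T L' x r := by
  induction h with
  | sing g c hg => exact .sing g c (Set.pow_subset_pow_right hT hL hg)
  | zero => exact .zero
  | add _ _ h1 h2 => exact h1.add h2
  | mono _ h1 h2 => exact h2.mono h1

lemma Bd.smul {L : ℕ} {x : CA G} {r : ℝ} (h : Bd T L x r) (a : ℂ) :
    Bd T L (a • x) (‖a‖ * r) := by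
  induction h with
  | sing g c hg =>
    rw [MonoidAlgebra.smul_single, smul_eq_mul, ← norm_mul]
    exact .sing g _ hg
  | zero => rw [smul_zero, mul_zero]; exact .zero
  | add _ _ h1 h2 => rw [smul_add, mul_add]; exact h1.add h2
  | mono _ h1 h2 => exact h2.mono (mul_le_mul_of_nonneg_left h1 (norm_nonneg _))

lemma Bd.mul {L L' : ℕ} {x y : CA G} {r s : ℝ} (h : Bd T L x r) (h' : Bd T L' y s) :
    Bd T (L + L') (x * y) (r * s) := by
  induction h with
  | sing g c hg =>
    induction h' with
    | sing g' c' hg' =>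
      rw [MonoidAlgebra.single_mul_single, ← norm_mul]
      exact .sing _ _ (by rw [pow_add]; exact Set.mul_mem_mul hg hg')
    | zero => rw [mul_zero, mul_zero]; exact .zero
    | add _ _ h1 h2 => rw [mul_add, mul_add]; exact h1.add h2
    | mono _ h1 h2 => exact h2.mono (mul_le_mul_of_nonneg_left h1 (norm_nonneg _))
  | zero => rw [zero_mul, zero_mul]; exact .zero
  | add _ _ h1 h2 => rw [add_mul, add_mul]; exact h1.add h2
  | mono _ h1 h2 => exact h2.mono (mul_le_mul_of_nonneg_right h1 h'.nonneg)

lemma bd_one {L : ℕ} {g : G} (hg : g ∈ T ^ L) : Bd T L (single g 1) 1 := by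
  have := Bd.sing (T := T) (L := L) g 1 hg
  rwa [norm_one] at this

lemma exists_bd (hT : (1 : G) ∈ T) (hgen : ∀ g : G, ∃ n, g ∈ T ^ n) (x : CA G) :
    ∃ L r, Bd T L x r := by
  induction x using MonoidAlgebra.induction_linear with
  | zero => exact ⟨0, 0, .zero⟩
  | add x y hx hy =>
    obtain ⟨L, r, h⟩ := hx
    obtain ⟨L', r', h'⟩ := hy
    exact ⟨L + L', r + r', (h.len hT (by omega)).add (h'.len hT (by omega))⟩
  | single g c =>
    obtain ⟨n, hn⟩ := hgen g
    exact ⟨n, _, .sing g c hn⟩

lemma der_one {D : CA G →ₗ[ℂ] CA G} (hD : ∀ x y, D (x * y) = D x * y + x * D y) : D 1 = 0 := by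
  have := hD 1 1
  rw [mul_one, mul_one, one_mul] at this
  simpa using this

lemma bd_der_single {D : CA G →ₗ[ℂ] CA G} (hD : ∀ x y, D (x * y) = D x * y + x * D y)
    (hT : (1 : G) ∈ T) {L0 : ℕ} {B : ℝ} (hB : ∀ t ∈ T, Bd T L0 (D (single t 1)) B) (n : ℕ) :
    ∀ g ∈ T ^ n, Bd T (n + L0) (D (single g 1)) (B * n) := by
  induction n with
  | zero =>
    intro g hg
    rw [pow_zero, Set.mem_one] at hg
    rw [hg, ← MonoidAlgebra.one_def, der_one hD, Nat.cast_zero, mul_zero]
    exact .zero
  | succ n ih =>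
    intro g hg
    rw [pow_succ] at hg
    obtain ⟨g', hg', t, ht, rfl⟩ := hg
    have e : (single (g' * t) 1 : CA G) = single g' 1 * single t 1 := by
      rw [MonoidAlgebra.single_mul_single, mul_one]
    have h1 := (ih g' hg').mul (bd_one (L := 1) (by rwa [pow_one]))
    have h2 := (bd_one hg').mul (hB t ht)
    have h3 := (h1.len hT (L' := n + 1 + L0) (by omega)).add (h2.len hT (by omega))
    show Bd T _ (D (single (g' * t) 1)) _
    rw [e, hD]
    exact h3.mono (by push_cast; linarith)

lemma bd_der {D : CA G →ₗ[ℂ] CA G} (hD : ∀ x y, D (x * y) = D x * y + x * D y)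
    (hT : (1 : G) ∈ T) {L0 : ℕ} {B : ℝ} (hB : ∀ t ∈ T, Bd T L0 (D (single t 1)) B) {L : ℕ}
    {x : CA G} {r : ℝ} (h : Bd T L x r) : Bd T (L + L0) (D x) (B * L * r) := by
  have hB0 : 0 ≤ B := (hB 1 hT).nonneg
  induction h with
  | sing g c hg =>
    have e : (single g c : CA G) = c • single g 1 := by
      rw [MonoidAlgebra.smul_single, smul_eq_mul, mul_one]
    rw [e, map_smul, mul_comm]
    exact (bd_der_single hD hT hB L g hg).smul c
  | zero => rw [map_zero, mul_zero]; exact .zero
  | add _ _ h1 h2 => rw [map_add, mul_add]; exact h1.add h2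
  | mono _ h1 h2 => exact h2.mono (mul_le_mul_of_nonneg_left h1 (by positivity))

/-- A derivation of the group algebra of a finitely generated group has analytic growth. -/
lemma analytic {D : CA G →ₗ[ℂ] CA G} (hD : ∀ x y, D (x * y) = D x * y + x * D y)
    (hfin : T.Finite) (hT : (1 : G) ∈ T) (hgen : ∀ g : G, ∃ n, g ∈ T ^ n) :
    ∃ a : ℝ, ∀ x, ∃ C : ℝ, ∀ k : ℕ, ‖op ((D ^ k) x)‖ ≤ C * k.factorial * a ^ k := by
  choose Lf rf hf using fun t => exists_bd hT hgen (D (single t 1))
  obtain ⟨L0, B, hL0, hB⟩ : ∃ (L0 : ℕ) (B : ℝ), 1 ≤ L0 ∧ ∀ t ∈ T, Bd T L0 (D (single t 1)) B := by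
    refine ⟨∑ t ∈ hfin.toFinset, Lf t + 1, ∑ t ∈ hfin.toFinset, rf t, by omega, fun t ht => ?_⟩
    have ht' := hfin.mem_toFinset.2 ht
    refine ((hf t).len hT ?_).mono
      (Finset.single_le_sum (fun s _ => (hf s).nonneg) ht')
    exact (Finset.single_le_sum (fun s _ => Nat.zero_le (Lf s)) ht').trans (Nat.le_succ _)
  have hB0 : 0 ≤ B := (hB 1 hT).nonneg
  refine ⟨2 * (B * L0), fun x => ?_⟩
  obtain ⟨L, r, hx⟩ := exists_bd hT hgen x
  have hr := hx.nonneg
  have key : ∀ k : ℕ, Bd T (L + k * L0) ((D ^ k) x) (r * (B * L0) ^ k * L.ascFactorial k) := by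
    intro k
    induction k with
    | zero => simpa using hx
    | succ k ih =>
      rw [pow_succ', Module.End.mul_apply, Nat.succ_mul, ← add_assoc]
      refine (bd_der hD hT hB ih).mono ?_
      rw [Nat.ascFactorial_succ]
      have h1 : ((L + k * L0 : ℕ) : ℝ) ≤ L0 * ((L + k : ℕ) : ℝ) := by
        have : L + k * L0 ≤ L0 * (L + k) := by nlinarith
        exact_mod_cast this
      calc B * ((L + k * L0 : ℕ) : ℝ) * (r * (B * L0) ^ k * L.ascFactorial k)
          ≤ B * (L0 * ((L + k : ℕ) : ℝ)) * (r * (B * L0) ^ k * L.ascFactorial k) := by gcongr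
        _ = _ := by push_cast; ring
  refine ⟨r * 2 ^ L, fun k => (key k).norm_le.trans ?_⟩
  have h1 : L.ascFactorial k ≤ k.factorial * 2 ^ (L + k) := by
    rw [Nat.ascFactorial_eq_factorial_mul_choose']
    exact Nat.mul_le_mul_left _ ((Nat.choose_le_two_pow _ _).trans
      (Nat.pow_le_pow_right (by norm_num) (by omega)))
  have h2 : (L.ascFactorial k : ℝ) ≤ k.factorial * 2 ^ (L + k) := by exact_mod_cast h1
  calc r * (B * L0) ^ k * L.ascFactorial k
      ≤ r * (B * L0) ^ k * (k.factorial * 2 ^ (L + k)) := by gcongr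
    _ = _ := by rw [pow_add, mul_pow 2]; ring

end Bound

section Coc

variable {G : Type} [Group G]

lemma ad_mul (g g' : G) (a : CA G) : ad (g * g') a = ad g (ad g' a) := by
  rw [map_mul]; rfl

lemma ad_one (a : CA G) : ad (1 : G) a = a := by
  rw [map_one]; rfl

/-- The affine map `a ↦ v + ad g a`. -/
def aff (v : CA G) (g : G) : Equiv.Perm (CA G) where
  toFun a := v + ad g a
  invFun a := ad g⁻¹ (a - v)
  left_inv a := by
    show ad g⁻¹ (v + ad g a - v) = a
    rw [add_sub_cancel_left, ← ad_mul, inv_mul_cancel, ad_one]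
  right_inv a := by
    show v + ad g (ad g⁻¹ (a - v)) = a
    rw [← ad_mul, mul_inv_cancel, ad_one, add_sub_cancel]

/-- A cocycle on a free group with given values at the generators. -/
lemma exists_coc {α : Type} (v : α → CA (FreeGroup α)) :
    ∃ b : FreeGroup α → CA (FreeGroup α), (∀ g g', b (g * g') = b g + ad g (b g')) ∧
      ∀ o, b (FreeGroup.of o) = v o := by
  let Φ : FreeGroup α →* Equiv.Perm (CA (FreeGroup α)) :=
    FreeGroup.lift fun o => aff (v o) (FreeGroup.of o)
  have hΦ : ∀ o, Φ (FreeGroup.of o) = aff (v o) (FreeGroup.of o) := fun o => by simp [Φ]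
  have h : ∀ g a, Φ g a = Φ g 0 + ad g a := by
    intro g
    induction g using FreeGroup.induction_on with
    | C1 => intro a; simp
    | of o =>
      intro a
      rw [hΦ]
      show v o + ad _ a = v o + ad _ 0 + ad _ a
      rw [map_zero, add_zero]
    | inv_of o _ =>
      intro a
      rw [map_inv, hΦ]
      show ad _ (a - v o) = ad _ (0 - v o) + ad _ a
      rw [← map_add]
      congr 1
      abel
    | mul x y hx hy =>
      intro a
      rw [map_mul, Equiv.Perm.mul_apply, Equiv.Perm.mul_apply, hx, hy, hx (Φ y 0), map_add,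
        ad_mul, add_assoc]
  refine ⟨fun g => Φ g 0, fun g g' => ?_, fun o => ?_⟩
  · show Φ (g * g') 0 = _
    rw [map_mul, Equiv.Perm.mul_apply, h]
  · show Φ _ 0 = _
    rw [hΦ]
    show v o + ad _ 0 = _
    rw [map_zero, add_zero]

variable {G' : Type} [Group G'] {i : G' →* G} {b : G' → CA G}

lemma coc_one (hb : ∀ g g', b (g * g') = b g + ad (i g) (b g')) : b 1 = 0 := by
  have := hb 1 1
  rw [mul_one, map_one i, ad_one] at this
  simpa using this

lemma coc_inv (hb : ∀ g g', b (g * g') = b g + ad (i g) (b g')) (g : G') :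
    b g⁻¹ = -ad (i g⁻¹) (b g) := by
  have := hb g⁻¹ g
  rw [inv_mul_cancel, coc_one hb] at this
  exact eq_neg_of_add_eq_zero_left this.symm

lemma hat_ad_coef (g : G) (a : CA G) (y : G) : hat (ad g a) y = hat a (g⁻¹ * y * g) := by
  rw [hat_ad]
  show lam g (rho g (hat a)) y = _
  rw [lam_coef, rho_coef]

lemma hat_mul_single (a : CA G) (g y : G) : hat (a * single g 1) y = hat a (y * g⁻¹) := by
  rw [hat_mul, hat_single_one, LL_coef (op_mem a)]
  rfl

lemma hat_add_coef (a a' : CA G) (y : G) : hat (a + a') y = hat a y + hat a' y := by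
  rw [hat_add, lp.coeFn_add, Pi.add_apply]

lemma hat_neg_coef (a : CA G) (y : G) : hat (-a) y = -hat a y := by
  rw [hat_neg, lp.coeFn_neg, Pi.neg_apply]

lemma hat_smul_coef (c : ℂ) (a : CA G) (y : G) : hat (c • a) y = c * hat a y := by
  rw [hat_smul, lp.coeFn_smul, Pi.smul_apply, smul_eq_mul]

/-- The conjugates of the powers of `c`. -/
def Kc (c : G) : Set G := {z | ∃ (x : G) (k : ℤ), z = x * c ^ k * x⁻¹}

/-- Selfadjoint and supported on the conjugates of the powers of `c`. -/
def Good (c : G) (a : CA G) : Prop := Supp (Kc c) (hat a) ∧ IsSelfAdjoint (op a)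

variable {c : G}

lemma good_zero : Good c 0 :=
  ⟨by rw [hat_zero]; exact supp_zero _, by rw [map_zero]; exact IsSelfAdjoint.zero _⟩

lemma Good.add {a a' : CA G} (h : Good c a) (h' : Good c a') : Good c (a + a') :=
  ⟨by rw [hat_add]; exact h.1.add h'.1, by rw [map_add]; exact h.2.add h'.2⟩

lemma Good.neg {a : CA G} (h : Good c a) : Good c (-a) :=
  ⟨by rw [hat_neg]; exact h.1.neg, by rw [map_neg]; exact h.2.neg⟩

lemma Good.rsmul {a : CA G} (h : Good c a) (r : ℝ) : Good c (r • a) :=
  ⟨by rw [hat_rsmul]; exact h.1.rsmul r, by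
    have e : r • a = (r : ℂ) • a := (Complex.coe_smul r a).symm
    rw [e, map_smul]
    exact (show IsSelfAdjoint (r : ℂ) from Complex.conj_ofReal r).smul h.2⟩

lemma Good.ad {a : CA G} (h : Good c a) (g : G) : Good c (ad g a) := by
  constructor
  · intro y hy
    rw [hat_ad_coef]
    refine h.1 _ ?_
    rintro ⟨x, k, hx⟩
    refine hy ⟨g * x, k, ?_⟩
    calc y = g * (g⁻¹ * y * g) * g⁻¹ := by group
      _ = _ := by rw [hx]; group
  · show star _ = _
    rw [op_ad, star_mul, star_mul, star_lam, star_lam, inv_inv, h.2.star_eq, mul_assoc]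

lemma Good.conj {a : CA G} (h : Good c a) (y : G) : conj (hat a y⁻¹) = hat a y := by
  have := star_coef (op_mem a) y
  rw [h.2.star_eq] at this
  exact this.symm

/-- The trace of the derivation vanishes. -/
lemma coc_trace {b : G → CA G} (hb : ∀ g g', b (g * g') = b g + ad g (b g'))
    (hg : ∀ g, Good c (b g)) (hc : ∀ k : ℤ, b (c ^ k) = 0) (u : G) : hat (b u) u⁻¹ = 0 := by
  have hb' : ∀ g g', b (g * g') = b g + ad (MonoidHom.id G g) (b g') := hb
  by_contra hne
  have : u⁻¹ ∈ Kc c := by
    by_contra hn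
    exact hne ((hg u).1 _ hn)
  obtain ⟨x, k, hx⟩ := this
  have hu : u = x * c ^ (-k) * x⁻¹ := by
    rw [← inv_inv u, hx]; group
  have e : b u = b x + -ad u (b x) := by
    have h1 := coc_inv hb' x
    rw [MonoidHom.id_apply] at h1
    conv_lhs => rw [hu]
    rw [hb, hb, hc, map_zero, add_zero, h1, map_neg, ← ad_mul, ← hu]
  apply hne
  rw [e, hat_add_coef, hat_neg_coef, hat_ad_coef, inv_mul_cancel_right, add_neg_cancel]

/-- The linear extension of `g ↦ I • b g * g`. -/
def dd (b : G → CA G) : CA G →ₗ[ℂ] CA G :=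
  (MonoidAlgebra.basis G ℂ).constr ℂ fun g => Complex.I • (b g * single g 1)

lemma dd_single (b : G → CA G) (g : G) : dd b (single g 1) = Complex.I • (b g * single g 1) := by
  have := (MonoidAlgebra.basis G ℂ).constr_basis ℂ (fun g => Complex.I • (b g * single g 1)) g
  rwa [MonoidAlgebra.basis_apply] at this

lemma single_eq (g : G) (a : ℂ) : (single g a : CA G) = a • single g 1 := by
  rw [MonoidAlgebra.smul_single, smul_eq_mul, mul_one]

lemma dd_mul {b : G → CA G} (hb : ∀ g g', b (g * g') = b g + ad g (b g')) (x y : CA G) :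
    dd b (x * y) = dd b x * y + x * dd b y := by
  induction x using MonoidAlgebra.induction_linear with
  | zero => simp
  | add x x' hx hx' => rw [add_mul, map_add, map_add, hx, hx', add_mul, add_mul]; abel
  | single g a =>
    induction y using MonoidAlgebra.induction_linear with
    | zero => simp
    | add y y' hy hy' => rw [mul_add, map_add, map_add, hy, hy', mul_add, mul_add]; abel
    | single g' a' =>
      have e : (single (g * g') 1 : CA G) = single g 1 * single g' 1 := by
        rw [MonoidAlgebra.single_mul_single, mul_one]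
      have e' : (single g⁻¹ 1 : CA G) * single g 1 = 1 := by
        rw [MonoidAlgebra.single_mul_single, mul_one, inv_mul_cancel, MonoidAlgebra.one_def]
      have key : dd b (single g 1 * single g' 1) =
          dd b (single g 1) * single g' 1 + single g 1 * dd b (single g' 1) := by
        rw [← e, dd_single, dd_single, dd_single, hb, ad_apply, e, add_mul, smul_add,
          smul_mul_assoc, mul_smul_comm]
        congr 2
        · rw [mul_assoc]
        · simp only [mul_assoc]
          rw [← mul_assoc (single g⁻¹ 1), e', one_mul]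
      rw [single_eq g a, single_eq g' a']
      simp only [smul_mul_assoc, mul_smul_comm, map_smul, key, smul_add]

lemma dd_coef (b : G → CA G) (g y : G) :
    hat (dd b (single g 1)) y = Complex.I * hat (b g) (y * g⁻¹) := by
  rw [dd_single, hat_smul_coef, hat_mul_single]

lemma dd_skew {b : G → CA G} (hb : ∀ g g', b (g * g') = b g + ad g (b g'))
    (hg : ∀ g, Good c (b g)) (hc : ∀ k : ℤ, b (c ^ k) = 0) (x y : CA G) :
    ⟪hat (dd b x), hat y⟫_ℂ + ⟪hat x, hat (dd b y)⟫_ℂ = 0 := by
  induction x using MonoidAlgebra.induction_linear with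
  | zero => simp [hat_zero]
  | add x x' hx hx' =>
    rw [map_add, hat_add, hat_add, inner_add_left, inner_add_left]
    linear_combination hx + hx'
  | single g a =>
    induction y using MonoidAlgebra.induction_linear with
    | zero => simp [hat_zero]
    | add y y' hy hy' =>
      rw [map_add, hat_add, hat_add, inner_add_right, inner_add_right]
      linear_combination hy + hy'
    | single g' a' =>
      have key : ⟪hat (dd b (single g 1)), hat (single g' 1)⟫_ℂ +
          ⟪hat (single g 1), hat (dd b (single g' 1))⟫_ℂ = 0 := by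
        rw [hat_single_one, hat_single_one, inner_dl, inner_dl', dd_coef, dd_coef, map_mul,
          Complex.conj_I]
        have h1 : g' * g⁻¹ = (g * g'⁻¹)⁻¹ := by group
        have h2 : hat (b (g * g'⁻¹)) (g * g'⁻¹) = 0 := by
          rw [← (hg _).conj, coc_trace hb hg hc, map_zero]
        have h3 : b g = b (g * g'⁻¹) + ad (g * g'⁻¹) (b g') := by
          rw [← hb, inv_mul_cancel_right]
        rw [h1, (hg g).conj, h3, hat_add_coef, h2, hat_ad_coef, inv_mul_cancel, one_mul]
        ring
      rw [single_eq g a, single_eq g' a', map_smul, map_smul, hat_smul, hat_smul, hat_smul,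
        hat_smul, inner_smul_left, inner_smul_left, inner_smul_right, inner_smul_right]
      linear_combination conj a * a' * key

end Coc

lemma good_Ad {S : Type} {h : CA (Lm S)} (hh : Good (cc S) h) (q : RA (FreeGroup S)) :
    Good (cc S) (Ad q h) := by
  induction q using MonoidAlgebra.induction_linear with
  | zero => rw [map_zero]; exact good_zero
  | add x y hx hy => rw [map_add]; exact hx.add hy
  | single g r => rw [Ad_single]; exact (hh.ad _).rsmul r

lemma exists_gens (α : Type) [Finite α] : ∃ T : Set (FreeGroup α), T.Finite ∧ 1 ∈ T ∧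
    ∀ g, ∃ n, g ∈ T ^ n := by
  refine ⟨insert 1 (Set.range FreeGroup.of ∪ Set.range fun o => (FreeGroup.of o)⁻¹),
    ((Set.finite_range _).union (Set.finite_range _)).insert _, Set.mem_insert _ _, fun g => ?_⟩
  induction g using FreeGroup.induction_on with
  | C1 => exact ⟨0, by rw [pow_zero]; exact Set.mem_one.2 rfl⟩
  | of o => exact ⟨1, by rw [pow_one]; exact Or.inr (Or.inl ⟨o, rfl⟩)⟩
  | inv_of o _ => exact ⟨1, by rw [pow_one]; exact Or.inr (Or.inr ⟨o, rfl⟩)⟩
  | mul x y hx hy =>
    obtain ⟨m, hm⟩ := hx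
    obtain ⟨n, hn⟩ := hy
    exact ⟨m + n, by rw [pow_add]; exact Set.mul_mem_mul hm hn⟩

end Der

open Der in
theorem der : DerStmt := by
  intro S _ β h hβ hs hsa
  have hh : Good (cc S) h := by
    refine ⟨hs.mono ?_, hsa⟩
    rintro _ ⟨k, -, rfl⟩
    exact ⟨1, k, by simp⟩
  obtain ⟨b, hb, hv⟩ := exists_coc (α := Option S)
    fun o => o.elim 0 fun s => Ad (β (FreeGroup.of s)) h
  have hb' : ∀ g g', b (g * g') = b g + ad (MonoidHom.id _ g) (b g') := hb
  have hg : ∀ g, Good (cc S) (b g) := by
    intro g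
    induction g using FreeGroup.induction_on with
    | C1 => rw [coc_one hb']; exact good_zero
    | of o =>
      rw [hv]
      cases o with
      | none => exact good_zero
      | some s => exact good_Ad hh _
    | inv_of o ho => rw [coc_inv hb']; exact (ho.ad _).neg
    | mul x y hx hy => rw [hb]; exact hx.add (hy.ad _)
  have hc1 : b (cc S) = 0 := hv none
  have hc : ∀ k : ℤ, b (cc S ^ k) = 0 := by
    intro k
    induction k using Int.induction_on with
    | zero => rw [zpow_zero, coc_one hb']
    | succ k ih => rw [zpow_add_one, hb, ih, hc1, map_zero, add_zero]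
    | pred k ih => rw [zpow_sub_one, hb, ih, coc_inv hb', hc1]; simp
  have hio : ∀ x, b (io x) = Ad (β x) h := by
    have h1 : ∀ x y, b (io (x * y)) = b (io x) + ad (io x) (b (io y)) := fun x y => by
      rw [map_mul, hb]
    have h2 : ∀ x y, Ad (β (x * y)) h = Ad (β x) h + ad (io x) (Ad (β y) h) := fun x y => by
      rw [hβ, map_add, map_mul, Ad_single, one_smul]
      rfl
    intro x
    induction x using FreeGroup.induction_on with
    | C1 => rw [coc_one (b := fun x => b (io x)) h1, coc_one (b := fun x => Ad (β x) h) h2]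
    | of s => exact hv (some s)
    | inv_of s hs =>
      rw [coc_inv (b := fun x => b (io x)) h1, coc_inv (b := fun x => Ad (β x) h) h2, hs]
    | mul x y hx hy => rw [h1, h2, hx, hy]
  obtain ⟨T, hfin, hT, hgen⟩ := exists_gens (Option S)
  obtain ⟨a, ha⟩ := analytic (dd_mul hb) hfin hT hgen
  refine ⟨dd b, a, dd_mul hb, dd_skew hb hg hc, ha, fun k => ?_, fun x => ?_, fun g hgN y hy => ?_⟩
  · rw [dd_single, hc, zero_mul, smul_zero]
  · rw [dd_single, hio]
  · rw [dd_coef]
    by_cases hy1 : y = 1
    · rw [hy1, one_mul, coc_trace hb hg hc, mul_zero]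
    · rw [(hg g).1, mul_zero]
      rintro ⟨x, k, hx⟩
      refine hy ⟨?_, hy1⟩
      have := congrArg kl hx
      simpa [hgN.1, kl_cc] using this

end

end Pool.Agent.MP_494aff_an.Pinch
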