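import Mathlib
import Pool.Agent.MP_494aff_an.pinch.AttA
import Pool.Agent.MP_494aff_an.pinch.Sim
import Pool.Agent.MP_494aff_an.pinch.Der
import Pool.Agent.MP_494aff_an.pinch.Hseq
import Pool.Agent.MP_494aff_an.pinch.Top

-- ======== part 0: formerly Pool.Agent.MP_494aff_an.pinch.Limit
section MrgPart0

-- ======== part 0: formerly Pool.Agent.MP_494aff_an.pinch.Lip
section MrgPart0

/-! The Bessel bound and the Lipschitz estimate. -/

open scoped InnerProductSpace ComplexConjugate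
open MonoidAlgebra (single)

namespace Pool.Agent.MP_494aff_an.Pinch

noncomputable section

variable {S : Type}

lemma cc_zpow {k : ℤ} (h : cc S ^ k = 1) : k = 0 := by
  have := congrArg (FreeGroup.lift fun _ : Option S => Multiplicative.ofAdd (1 : ℤ)) h
  simpa [cc, ← ofAdd_zsmul] using this

lemma C0_sub : C0 (cc S) ⊆ N0 S := by
  rintro _ ⟨k, hk, rfl⟩
  exact ⟨by simp [kl_cc], fun h => hk (cc_zpow h)⟩

lemma cc_mem : cc S ∈ N0 S := C0_sub ⟨1, one_ne_zero, by simp⟩

lemma ra_sum {G : Type} [Group G] (q : RA G) :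
    q = ∑ y ∈ q.coeff.support, single y (q.coeff y) := (MonoidAlgebra.sum_coeff_single q).symm

lemma norm_Pj_cc (q : RA (FreeGroup S)) :
    ‖Pj q (dl (cc S))‖ ^ 2 = ∑ y ∈ q.coeff.support, ‖((q.coeff y : ℝ) : ℂ)‖ ^ 2 := by
  conv_lhs => rw [ra_sum q, map_sum, _root_.sum_apply]
  rw [norm_sq_sum _ _ fun y => {io y * cc S * (io y)⁻¹}]
  · refine Finset.sum_congr rfl fun y _ => ?_
    rw [Pj_single, _root_.smul_apply, norm_smul, cj_norm, norm_dl, mul_one]
    simp
  · intro x _ y _ hne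
    rw [Set.disjoint_singleton]
    intro h
    refine conj_ne kl (x := io (y⁻¹ * x)) (n := cc S) ?_ kl_cc cc_mem.2 ?_
    · rw [kl_io]; exact fun h => hne (inv_mul_eq_one.1 h).symm
    · rw [map_mul, map_inv]
      calc _ = (io y)⁻¹ * (io x * cc S * (io x)⁻¹) * io y := by group
        _ = _ := by rw [h]; group
  · intro y _
    rw [Pj_single, _root_.smul_apply, cj_dl]
    exact (supp_dl (Set.mem_singleton _)).rsmul _

theorem bessel (q : RA (FreeGroup S)) {h : CA (Lm S)} (hh : Supp (C0 (cc S)) (hat h)) :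
    ‖op (Ad q h)‖ ≤ 2 * ‖op h‖ * ‖Pj q (dl (cc S))‖ := by
  obtain ⟨E, hE1, hE2⟩ := word S
  refine ContinuousLinearMap.opNorm_le_bound _ (by positivity) fun ξ => ?_
  have := pp (Lm S) (FreeGroup S) q.coeff.support
    (fun y => lam (io y) * op h * lam (io y)⁻¹) (fun y => ((q.coeff y : ℝ) : ℂ))
    (fun y => {z | (io y)⁻¹ * z ∈ E}) Set.univ ‖op h‖ ξ (norm_nonneg _) ?_ ?_ ?_ (supp_univ ξ)
  · rw [← norm_Pj_cc, Real.sqrt_sq (norm_nonneg _)] at this
    refine le_of_eq_of_le (congrArg norm ?_) this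
    conv_lhs => rw [ra_sum q, map_sum, LinearMap.sum_apply, map_sum, _root_.sum_apply]
    refine Finset.sum_congr rfl fun y _ => ?_
    rw [Ad_single, LinearMap.smul_apply, op_rsmul, op_ad, Complex.coe_smul]
    rfl
  · intro y _
    have h1 := opNorm_lam (io y)
    have h2 := opNorm_lam (io y)⁻¹
    calc _ ≤ ‖lam (io y)‖ * ‖op h‖ * ‖lam (io y)⁻¹‖ :=
          (norm_mul_le _ _).trans (by gcongr; exact norm_mul_le _ _)
      _ ≤ 1 * ‖op h‖ * 1 := by gcongr
      _ = _ := by ring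
  · intro x _ y _ hne
    rw [Set.disjoint_left]
    intro z hx hy
    refine hE2 (y⁻¹ * x) (fun h => hne (inv_mul_eq_one.1 h).symm) _ hx ?_
    simpa [mul_assoc] using hy
  · intro y _ η hη
    simp only [mul_ap]
    refine supp_lam (Y := E) _ ?_ fun z hz => by simpa using hz
    refine supp_LL (Y := Eᶜ) (op_mem h) hh ?_ ?_
    · exact supp_lam _ hη fun z hz => hz.2
    · rintro _ ⟨k, hk, rfl⟩ z hz
      exact hE1 z hz k hk

/-- Unitaries that normalise `LL`, fix the powers of `cc` and preserve `N0`. -/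
structure Good (W : Op (Lm S)) : Prop where
  l : star W * W = 1
  r : W * star W = 1
  mem : ∀ m ∈ LL (Lm S), W * m * star W ∈ LL (Lm S)
  mem' : ∀ m ∈ LL (Lm S), star W * m * W ∈ LL (Lm S)
  fix : ∀ k : ℤ, W (dl (cc S ^ k)) = dl (cc S ^ k)
  sp : ∀ ξ, Supp (N0 S) ξ → Supp (N0 S) (W ξ)
  sp' : ∀ ξ, Supp (N0 S) ξ → Supp (N0 S) (star W ξ)

variable {W W' : Op (Lm S)}

lemma Good.la (h : Good W) (ξ : H (Lm S)) : star W (W ξ) = ξ := by rw [← mul_ap, h.l, one_ap]

lemma Good.ra (h : Good W) (ξ : H (Lm S)) : W (star W ξ) = ξ := by rw [← mul_ap, h.r, one_ap]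

lemma Good.norm (h : Good W) (ξ : H (Lm S)) : ‖W ξ‖ = ‖ξ‖ := norm_of_star_mul_self h.l ξ

lemma Good.st (h : Good W) : Good (star W) where
  l := by rw [star_star]; exact h.r
  r := by rw [star_star]; exact h.l
  mem := by rw [star_star]; exact h.mem'
  mem' := by rw [star_star]; exact h.mem
  fix k := by conv_lhs => rw [← h.fix k, h.la]
  sp := h.sp'
  sp' := by rw [star_star]; exact h.sp

lemma Good.mul (h : Good W) (h' : Good W') : Good (W * W') where
  l := by rw [star_mul, mul_assoc, ← mul_assoc (star W), h.l, one_mul, h'.l]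
  r := by rw [star_mul, mul_assoc, ← mul_assoc W', h'.r, one_mul, h.r]
  mem m hm := by simpa only [star_mul, mul_assoc] using h.mem _ (h'.mem m hm)
  mem' m hm := by simpa only [star_mul, mul_assoc] using h'.mem' _ (h.mem' m hm)
  fix k := by rw [mul_ap, h'.fix, h.fix]
  sp ξ hξ := h.sp _ (h'.sp ξ hξ)
  sp' ξ hξ := by rw [star_mul]; exact h'.sp' _ (h.sp' ξ hξ)

lemma Good.one (h : Good W) : W (dl 1) = dl 1 := by simpa using h.fix 0

lemma Good.fix' (h : Good W) {ξ : H (Lm S)} (hξ : Supp (C0 (cc S)) ξ) : W ξ = ξ := by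
  have := supp_map (Y := ∅) (W - 1) (by
    rintro _ ⟨k, -, rfl⟩
    rw [sub_apply, h.fix, one_ap, sub_self]
    exact supp_zero _) hξ
  rw [← sub_eq_zero]
  ext y
  exact this y fun h => h

/-- The image of a translation under conjugation by `W`. -/
def th (W : Op (Lm S)) (g : Lm S) : Op (Lm S) := W * lam g * star W

lemma Good.th_mem (h : Good W) (g : Lm S) : th W g ∈ LL (Lm S) := h.mem _ (lam_mem g)

lemma Good.th_one (h : Good W) (g : Lm S) : th W g (dl 1) = W (dl g) := by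
  simp only [th, mul_ap, h.st.one, lam_one]

lemma th_star (g : Lm S) : star (th W g) = th W g⁻¹ := by
  simp only [th, star_mul, star_star, star_lam, mul_assoc]

lemma Good.th_mul (h : Good W) (x y : Lm S) : th W (x * y) = th W x * th W y := by
  ext1 ξ
  simp only [th, mul_ap, h.la, map_mul]

lemma Good.th_norm (h : Good W) (g : Lm S) (ξ : H (Lm S)) : ‖th W g ξ‖ = ‖ξ‖ := by
  simp only [th, mul_ap, h.norm, lam_norm, h.st.norm]

lemma Good.th_opNorm (h : Good W) (g : Lm S) : ‖th W g‖ ≤ 1 :=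
  ContinuousLinearMap.opNorm_le_bound _ zero_le_one fun ξ => by rw [h.th_norm, one_mul]

lemma Good.dev_inv (h : Good W) (g : Lm S) : ‖W (dl g⁻¹) - dl g⁻¹‖ = ‖W (dl g) - dl g‖ := by
  have := norm_star_hat (sub_mem (h.th_mem g) (lam_mem g))
  rwa [star_sub, th_star, star_lam, sub_apply, sub_apply, h.th_one, h.th_one, lam_one,
    lam_one] at this

lemma Good.dev_mul (h : Good W) (x y : Lm S) :
    ‖W (dl (x * y)) - dl (x * y)‖ ≤ ‖W (dl x) - dl x‖ + ‖W (dl y) - dl y‖ := by
  have h1 := norm_mul_hat (sub_mem (h.th_mem x) (lam_mem x)) (lam_mem y)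
  rw [sub_apply, sub_apply, h.th_one, lam_one, lam_one] at h1
  have h2 : W (dl (x * y)) - dl (x * y) =
      (th W x (dl y) - lam x (dl y)) + th W x (W (dl y) - dl y) := by
    rw [← h.th_one, h.th_mul, mul_ap, h.th_one, map_sub, lam_dl]; abel
  rw [h2]
  refine (norm_add_le _ _).trans ?_
  rw [h.th_norm]
  have := opNorm_lam y
  nlinarith [norm_nonneg (W (dl x) - dl x)]

/-- `W` moves the unit vectors at the generators by at most `d`. -/
def Dev (W : Op (Lm S)) (d : ℝ) : Prop :=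
  0 ≤ d ∧ ∀ s, ‖W (dl (io (FreeGroup.of s))) - dl (io (FreeGroup.of s))‖ ≤ d

lemma dev_len (g : Lm S) : ∃ c : ℝ, 0 ≤ c ∧ ∀ (W : Op (Lm S)) (d : ℝ), Good W → Dev W d →
    ‖W (dl g) - dl g‖ ≤ c * d := by
  induction g using FreeGroup.induction_on with
  | C1 => exact ⟨0, le_rfl, fun W d h _ => by simp [h.one]⟩
  | of o =>
    refine ⟨1, zero_le_one, fun W d h hd => ?_⟩
    rw [one_mul]
    cases o with
    | none =>
      have := h.fix 1
      rw [zpow_one] at this
      show ‖W (dl (cc S)) - dl (cc S)‖ ≤ d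
      rw [this, sub_self, norm_zero]
      exact hd.1
    | some s => exact hd.2 s
  | inv_of o ih =>
    obtain ⟨c, hc, ih⟩ := ih
    exact ⟨c, hc, fun W d h hd => by rw [h.dev_inv]; exact ih W d h hd⟩
  | mul x y hx hy =>
    obtain ⟨a, ha, hx⟩ := hx
    obtain ⟨b, hb, hy⟩ := hy
    refine ⟨a + b, by positivity, fun W d h hd => (h.dev_mul x y).trans ?_⟩
    have := hx W d h hd
    have := hy W d h hd
    linarith

lemma cj_LL {G : Type} [Group G] {B : Op G} (hB : B ∈ LL G) (g : G) :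
    cj g (B (dl 1)) = lam g (B (lam g⁻¹ (dl 1))) := by
  show lam g (rho g (B (dl 1))) = _
  rw [rho_LL hB, rho_dl, lam_one, one_mul]

lemma Good.cj_dev (h : Good W) (g : Lm S) {B : Op (Lm S)} (hB : B ∈ LL (Lm S)) :
    ‖W (cj g (star W (B (dl 1)))) - cj g (B (dl 1))‖ ≤ 2 * ‖B‖ * ‖W (dl g) - dl g‖ := by
  have h1 : W (cj g (star W (B (dl 1)))) = th W g (B (th W g⁻¹ (dl 1))) := by
    have := cj_LL (h.mem' B hB) g
    simp only [mul_ap, h.one] at this
    rw [this]
    simp only [th, mul_ap, h.st.one]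
  have h2 : th W g (B (th W g⁻¹ (dl 1))) - lam g (B (lam g⁻¹ (dl 1))) =
      (th W g - lam g) ((B * th W g⁻¹) (dl 1)) + lam g (B (W (dl g⁻¹) - dl g⁻¹)) := by
    simp only [sub_apply, mul_ap, map_sub, h.th_one, lam_one]; abel
  rw [h1, cj_LL hB, h2]
  refine (norm_add_le _ _).trans ?_
  have h3 := norm_mul_hat (sub_mem (h.th_mem g) (lam_mem g)) (mul_mem hB (h.th_mem g⁻¹))
  rw [sub_apply (th W g) _ (dl 1), h.th_one, lam_one] at h3
  have h4 : ‖B * th W g⁻¹‖ ≤ ‖B‖ :=
    (norm_mul_le _ _).trans (mul_le_of_le_one_right (norm_nonneg _) (h.th_opNorm _))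
  have h5 := B.le_opNorm (W (dl g⁻¹) - dl g⁻¹)
  rw [h.dev_inv] at h5
  rw [lam_norm]
  nlinarith [norm_nonneg (W (dl g) - dl g)]

lemma Pj_dev (Y : RA (FreeGroup S)) : ∃ c : ℝ, 0 ≤ c ∧ ∀ (W : Op (Lm S)) (d : ℝ), Good W →
    Dev W d → ∀ B ∈ LL (Lm S),
    ‖W (Pj Y (star W (B (dl 1)))) - Pj Y (B (dl 1))‖ ≤ c * ‖B‖ * d := by
  induction Y using MonoidAlgebra.induction_linear with
  | zero => exact ⟨0, le_rfl, fun W d _ _ B _ => by simp⟩
  | add x y hx hy =>
    obtain ⟨a, ha, hx⟩ := hx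
    obtain ⟨b, hb, hy⟩ := hy
    refine ⟨a + b, by positivity, fun W d h hd B hB => ?_⟩
    have h1 := hx W d h hd B hB
    have h2 := hy W d h hd B hB
    simp only [map_add, _root_.add_apply]
    rw [add_sub_add_comm]
    refine (norm_add_le _ _).trans ?_
    linarith
  | single g r =>
    obtain ⟨c, hc, hg⟩ := dev_len (io g)
    refine ⟨|r| * 2 * c, by positivity, fun W d h hd B hB => ?_⟩
    have h1 := h.cj_dev (io g) hB
    have h2 := hg W d h hd
    simp only [Pj_single, _root_.smul_apply, ContinuousLinearMap.map_smul_of_tower]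
    rw [← smul_sub, norm_smul, Real.norm_eq_abs]
    calc _ ≤ |r| * (2 * ‖B‖ * (c * d)) := by
          gcongr
          exact h1.trans (by gcongr)
      _ = _ := by ring

/-- The geometric sums. -/
def qq (w : FreeGroup S) (X : RA (FreeGroup S)) : ℕ → RA (FreeGroup S)
  | 0 => 0
  | R + 1 => single w 1 + X * qq w X R

/-- `X` acts with norm at most one half on vectors supported in `N0`. -/
def Half (X : RA (FreeGroup S)) : Prop := ∀ ξ, Supp (N0 S) ξ → ‖Pj X ξ‖ ≤ 1 / 2 * ‖ξ‖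

variable {w : FreeGroup S} {X : RA (FreeGroup S)}

lemma Pj_w (w : FreeGroup S) (ξ : H (Lm S)) : ‖Pj (single w 1) ξ‖ = ‖ξ‖ := by
  rw [Pj_single, one_smul, cj_norm]

lemma norm_qq (hX : Half X) (R : ℕ) {ξ : H (Lm S)} (hξ : Supp (N0 S) ξ) :
    ‖Pj (qq w X R) ξ‖ ≤ 2 * ‖ξ‖ := by
  induction R with
  | zero => simp [qq]
  | succ R ih =>
    simp only [qq, map_add, map_mul, _root_.add_apply, mul_ap]
    refine (norm_add_le _ _).trans ?_
    have := hX _ (supp_Pj (qq w X R) hξ)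
    rw [Pj_w]
    linarith

lemma norm_pow_X (hX : Half X) (R : ℕ) {ξ : H (Lm S)} (hξ : Supp (N0 S) ξ) :
    ‖Pj (X ^ R) ξ‖ ≤ (1 / 2) ^ R * ‖ξ‖ := by
  induction R with
  | zero => simp
  | succ R ih =>
    rw [pow_succ', map_mul, mul_ap, pow_succ', mul_assoc]
    exact (hX _ (supp_Pj _ hξ)).trans (by gcongr)

lemma qq_add (N i : ℕ) : qq w X (N + i) = qq w X N + X ^ N * qq w X i := by
  induction N with
  | zero => simp [qq]
  | succ N ih =>
    rw [Nat.add_right_comm, qq, qq, ih, pow_succ']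
    noncomm_ring

lemma qq_tel (R : ℕ) : (1 - X) * qq w X R = single w 1 - X ^ R * single w 1 := by
  induction R with
  | zero => simp [qq]
  | succ R ih =>
    have : (1 - X) * (single w 1 + X * qq w X R) =
        single w 1 - X * single w 1 + X * ((1 - X) * qq w X R) := by noncomm_ring
    rw [qq, this, ih, pow_succ']
    noncomm_ring

lemma dev_mul_le (hW : Good W) (Y q : RA (FreeGroup S)) (ξ : H (Lm S)) :
    ‖W (Pj (Y * q) ξ) - Pj (Y * q) ξ‖ ≤ ‖Pj Y (star W (W (Pj q ξ) - Pj q ξ))‖ +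
      ‖W (Pj Y (star W (Pj q ξ))) - Pj Y (Pj q ξ)‖ := by
  rw [← hW.norm (Pj Y _)]
  refine le_of_eq_of_le ?_ (norm_add_le _ _)
  congr 1
  simp only [map_mul, mul_ap, map_sub, hW.la]
  abel

theorem lip (hX : Half X) (w : FreeGroup S) (r : RA (FreeGroup S)) : ∃ C : ℝ, 0 ≤ C ∧
    ∀ (W : Op (Lm S)) (d : ℝ), Good W → Dev W d → ∀ h : CA (Lm S), Supp (C0 (cc S)) (hat h) →
    ∀ R, ‖W (Pj (r * qq w X R) (hat h)) - Pj (r * qq w X R) (hat h)‖ ≤ C * ‖op h‖ * d := by
  obtain ⟨a, ha, hw⟩ := Pj_dev (single w 1)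
  obtain ⟨b, hb, hx⟩ := Pj_dev X
  obtain ⟨c, hc, hr⟩ := Pj_dev r
  refine ⟨‖Pj r‖ * (2 * (a + 4 * b)) + 4 * c, by positivity, fun W d hW hd h hh R => ?_⟩
  have hd0 := hd.1
  have hN : Supp (N0 S) (hat h) := hh.mono C0_sub
  have hB : ∀ R, ‖op (Ad (qq w X R) h)‖ ≤ 4 * ‖op h‖ := fun R => by
    have h1 := bessel (qq w X R) hh
    have h2 := norm_qq (w := w) hX R (supp_dl cc_mem)
    rw [norm_dl] at h2
    nlinarith [norm_nonneg (op h)]
  have hq : ∀ R, ‖W (Pj (qq w X R) (hat h)) - Pj (qq w X R) (hat h)‖ ≤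
      2 * (a + 4 * b) * ‖op h‖ * d := by
    intro R
    induction R with
    | zero => simp only [qq, map_zero, _root_.zero_apply, sub_self, norm_zero]; positivity
    | succ R ih =>
      have h1 := hw W d hW hd _ (op_mem h)
      have h2 := dev_mul_le hW X (qq w X R) (hat h)
      have h3 := hX _ (hW.sp' _ ((hW.sp _ (supp_Pj (qq w X R) hN)).sub (supp_Pj (qq w X R) hN)))
      have h4 := hx W d hW hd _ (op_mem (Ad (qq w X R) h))
      change ‖W (Pj X (star W (hat _))) - Pj X (hat _)‖ ≤ _ at h4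
      change ‖W (Pj _ (star W (hat _))) - Pj _ (hat _)‖ ≤ _ at h1
      rw [hat_Ad] at h4
      rw [hW.st.fix' hh] at h1
      rw [hW.st.norm] at h3
      have h5 : b * ‖op (Ad (qq w X R) h)‖ * d ≤ b * (4 * ‖op h‖) * d := by gcongr; exact hB R
      simp only [qq, map_add, _root_.add_apply]
      rw [add_sub_add_comm]
      refine (norm_add_le _ _).trans ?_
      linarith
  have h2 := dev_mul_le hW r (qq w X R) (hat h)
  have h3 := (Pj r).le_opNorm (star W (W (Pj (qq w X R) (hat h)) - Pj (qq w X R) (hat h)))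
  have h4 := hr W d hW hd _ (op_mem (Ad (qq w X R) h))
  change ‖W (Pj r (star W (hat _))) - Pj r (hat _)‖ ≤ _ at h4
  rw [hat_Ad] at h4
  rw [hW.st.norm] at h3
  have h5 : c * ‖op (Ad (qq w X R) h)‖ * d ≤ c * (4 * ‖op h‖) * d := by gcongr; exact hB R
  have h6 : ‖Pj r‖ * ‖W (Pj (qq w X R) (hat h)) - Pj (qq w X R) (hat h)‖ ≤
      ‖Pj r‖ * (2 * (a + 4 * b) * ‖op h‖ * d) := by gcongr; exact hq R
  linarith

end

end Pool.Agent.MP_494aff_an.Pinch

end MrgPart0

-- ======== part 1: formerly Pool.Agent.MP_494aff_an.pinch.Limit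
section MrgPart1

/-! The limit of the flows. -/

open scoped InnerProductSpace ComplexConjugate
open MonoidAlgebra (single)
open Filter Topology

namespace Pool.Agent.MP_494aff_an.Pinch

noncomputable section

lemma gron {E : Type} [NormedAddCommGroup E] [NormedSpace ℝ E] {f f' : ℝ → E} {K ε : ℝ}
    (hK : 1 ≤ K) (hε : 0 ≤ ε) (hf : ∀ t ∈ Set.Icc (0 : ℝ) 1, HasDerivAt f (f' t) t)
    (h0 : f 0 = 0) (hb : ∀ t ∈ Set.Icc (0 : ℝ) 1, ‖f' t‖ ≤ K * ‖f t‖ + ε) :
    ‖f 1‖ ≤ Real.exp K * ε := by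
  have := norm_le_gronwallBound_of_norm_deriv_right_le (f := f) (f' := f') (δ := 0) (K := K)
    (ε := ε) (a := 0) (b := 1) (fun t ht => (hf t ht).continuousAt.continuousWithinAt)
    (fun t ht => (hf t (Set.Ico_subset_Icc_self ht)).hasDerivWithinAt) (by simp [h0])
    (fun t ht => hb t (Set.Ico_subset_Icc_self ht)) 1 ⟨zero_le_one, le_rfl⟩
  rw [gronwallBound_of_K_ne_0 (by linarith)] at this
  simp only [sub_zero, mul_one, zero_mul, zero_add] at this
  refine this.trans ?_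
  have h1 : ε / K ≤ ε := div_le_self hε hK
  have h2 : 0 ≤ Real.exp K - 1 := by linarith [Real.add_one_le_exp K]
  nlinarith

lemma der_exp {G : Type} (A B : Op G) (ξ : H G) (t : ℝ) :
    HasDerivAt (fun u : ℝ => B (NormedSpace.exp (u • A) ξ))
      (B ((NormedSpace.exp (t • A) * A) ξ)) t := by
  have h1 : HasDerivAt (fun u : ℝ => NormedSpace.exp (u • A)) (NormedSpace.exp (t • A) * A) t :=
    hasDerivAt_exp_smul_const A t
  let Φ : Op G →L[ℝ] H G :=
    (B.comp (ContinuousLinearMap.apply ℂ (H G) ξ)).restrictScalars ℝ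
  have h2 := Φ.hasFDerivAt.comp_hasDerivAt t h1
  exact h2

lemma der_lin {E : Type} [NormedAddCommGroup E] [NormedSpace ℝ E] {f g : ℝ → E} {f' g' : E}
    {σ t : ℝ} (hf : HasDerivAt f f' (σ * t)) (hg : HasDerivAt g g' (σ * t)) :
    HasDerivAt (fun u => f (σ * u) - g (σ * u)) (σ • (f' - g')) t := by
  have := (hf.sub hg).scomp t ((hasDerivAt_id t).const_mul σ)
  rw [mul_one] at this
  exact this

lemma strong_of_dl {G : Type} {T : ℕ → Op G} {L : Op G} (hT : ∀ j ξ, ‖T j ξ‖ = ‖ξ‖)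
    (hL : ∀ ξ, ‖L ξ‖ = ‖ξ‖) (h : ∀ g, Tendsto (fun j => T j (dl g)) atTop (𝓝 (L (dl g))))
    (ξ : H G) : Tendsto (fun j => T j ξ) atTop (𝓝 (L ξ)) := by
  have h1 : ∀ η ∈ Submodule.span ℂ (Set.range (dl : G → H G)),
      Tendsto (fun j => T j η) atTop (𝓝 (L η)) := by
    intro η hη
    induction hη using Submodule.span_induction with
    | mem x hx => obtain ⟨g, rfl⟩ := hx; exact h g
    | zero => simp
    | add x y _ _ hx hy => simpa using hx.add hy
    | smul c x _ hx => simpa using hx.const_smul c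
  rw [Metric.tendsto_atTop]
  intro ε hε
  obtain ⟨η, hη, hd⟩ := Metric.dense_iff.1 dense_dl ξ (ε / 3) (by positivity)
  obtain ⟨N, hN⟩ := Metric.tendsto_atTop.1 (h1 η hd) (ε / 3) (by positivity)
  refine ⟨N, fun n hn => ?_⟩
  have h2 := dist_triangle4 (T n ξ) (T n η) (L η) (L ξ)
  have h3 : dist (T n ξ) (T n η) = dist η ξ := by
    rw [dist_comm, dist_eq_norm, dist_eq_norm, ← map_sub, hT]
  have h4 : dist (L η) (L ξ) = dist η ξ := by rw [dist_eq_norm, dist_eq_norm, ← map_sub, hL]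
  have := hN n hn
  rw [Metric.mem_ball] at hη
  linarith

lemma strong_ap {G : Type} {T : ℕ → Op G} {L : Op G} (hT : ∀ j ξ, ‖T j ξ‖ = ‖ξ‖)
    (h : ∀ ξ, Tendsto (fun j => T j ξ) atTop (𝓝 (L ξ))) {η : ℕ → H G} {ξ : H G}
    (hη : Tendsto η atTop (𝓝 ξ)) : Tendsto (fun j => T j (η j)) atTop (𝓝 (L ξ)) := by
  have h1 : Tendsto (fun j => T j (η j - ξ)) atTop (𝓝 0) := by
    rw [tendsto_zero_iff_norm_tendsto_zero]
    simp only [hT]
    exact tendsto_iff_norm_sub_tendsto_zero.1 hη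
  simpa using h1.add (h ξ)

variable {S : Type}

/-- The flow attached to a cocycle `β` and a trigonometric polynomial `h`. -/
structure Flw (β : FreeGroup S → RA (FreeGroup S)) (h : CA (Lm S)) (U : ℝ → Op (Lm S)) :
    Prop where
  zero : U 0 = 1
  good : ∀ t, |t| ≤ 1 → Good (U t)
  st : ∀ t, |t| ≤ 1 → star (U t) = U (-t)
  der : ∀ x t, |t| ≤ 1 → HasDerivAt (fun s => U s (dl (io x)))
    (Complex.I • U t (op (Ad (β x) h) (dl (io x)))) t

lemma exists_fl (hD : DerStmt) (hF : FlowStmt) [Fintype S] {β : FreeGroup S → RA (FreeGroup S)}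
    {h : CA (Lm S)} (hβ : Coc β) (hh : Supp (C0 (cc S)) (hat h)) (hs : IsSelfAdjoint (op h)) :
    ∃ U, Flw β h U := by
  obtain ⟨D, a, h1, h2, h3, h4, h5, h6⟩ := hD S β h hβ hh hs
  obtain ⟨U, hU0, hU⟩ := hF (Lm S) D a h1 h2 h3
  refine ⟨U, hU0, fun t ht => ?_, fun t ht => (hU t ht).1, fun x t ht => ?_⟩
  · obtain ⟨a1, a2, a3, -, a5, a6⟩ := hU t ht
    obtain ⟨-, b2, b3, -, -, b6⟩ := hU (-t) (by rwa [abs_neg])
    rw [neg_neg] at b2 b3
    refine ⟨by rw [a1, b2], by rw [a1, a2], fun m hm => ?_, fun m hm => ?_, fun k => ?_,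
      a6 _ h6, ?_⟩
    · rw [a1]; exact conj_mem_LL b2 a2 a3 hm
    · rw [a1]; exact conj_mem_LL a2 b2 b3 hm
    · have := a5 _ (h4 k)
      rwa [hat_single_one] at this
    · rw [a1]; exact b6 _ h6
  · have := (hU t ht).2.2.2.1 (single (io x) 1)
    rwa [h5, hat_smul, map_smul, hat_mul, hat_single_one] at this

lemma Good.conj_ap {W : Op (Lm S)} (h : Good W) (B : Op (Lm S)) (g : Lm S) :
    W (B (dl g)) = (W * B * star W) (W (dl g)) := by simp only [mul_ap, h.la]

lemma Good.conj_one {W : Op (Lm S)} (h : Good W) (B : Op (Lm S)) :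
    (W * B * star W) (dl 1) = W (B (dl 1)) := by simp only [mul_ap, h.st.one]

lemma two_flow {W W' : Op (Lm S)} (h : Good W) (h' : Good W') (b b' : CA (Lm S)) (g : Lm S) :
    ‖W (op b (dl g)) - W' (op b' (dl g))‖ ≤ ‖op b‖ * ‖W (dl g) - W' (dl g)‖ +
      (‖(star W' * W) (hat b) - hat b‖ + ‖hat b - hat b'‖) := by
  have e1 : W (op b (dl g)) - W' (op b' (dl g)) = W (op b (star W (W (dl g) - W' (dl g)))) +
      (W * op b * star W - W' * op b' * star W') (th W' g (dl 1)) := by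
    rw [h'.th_one, h'.conj_ap (op b') g]
    simp only [sub_apply, mul_ap, map_sub, h.la]
    abel
  have e2 := norm_mul_hat (sub_mem (h.mem _ (op_mem b)) (h'.mem _ (op_mem b'))) (h'.th_mem g)
  rw [sub_apply _ _ (dl 1), h.conj_one, h'.conj_one] at e2
  have e3 : ‖W (op b (dl 1)) - W' (op b' (dl 1))‖ ≤
      ‖(star W' * W) (hat b) - hat b‖ + ‖hat b - hat b'‖ := by
    rw [← h'.st.norm, map_sub, h'.la]
    exact norm_sub_le_norm_sub_add_norm_sub _ _ _
  have e4 := (op b).le_opNorm (star W (W (dl g) - W' (dl g)))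
  rw [h.st.norm] at e4
  rw [e1]
  refine (norm_add_le _ _).trans ?_
  rw [h.norm]
  have := h'.th_opNorm g
  nlinarith [norm_nonneg (W (op b (dl 1)) - W' (op b' (dl 1)))]

lemma dev_two {W W' : Op (Lm S)} (h' : Good W') (ξ : H (Lm S)) :
    ‖(star W' * W) ξ - ξ‖ = ‖W ξ - W' ξ‖ := by
  rw [← h'.norm, map_sub, mul_ap, h'.ra]

/-- Two flows with close data stay close. -/
lemma flows_close [Fintype S] {X : RA (FreeGroup S)} (hX : Half X) (w : FreeGroup S)
    (β : FreeGroup S → RA (FreeGroup S)) (M : ℝ) : ∃ C : ℝ, 0 ≤ C ∧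
    ∀ (h h' : CA (Lm S)) (R R' : ℕ) (U U' : ℝ → Op (Lm S)) (σ ε : ℝ), |σ| = 1 → 0 ≤ ε →
      Supp (C0 (cc S)) (hat h) → ‖op h‖ ≤ M → Flw (fun x => β x * qq w X R) h U →
      Flw (fun x => β x * qq w X R') h' U' →
      ‖Pj (qq w X R) (hat h) - Pj (qq w X R') (hat h')‖ ≤ ε →
      Dev (star (U' σ) * U σ) (C * ε) := by
  choose c hc0 hc using fun s : S => lip hX w (β (FreeGroup.of s))
  obtain ⟨A, hA0, hA⟩ : ∃ A : ℝ, 0 ≤ A ∧ ∀ s : S, ‖Pj (β (FreeGroup.of s))‖ ≤ A ∧ c s ≤ A := by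
    refine ⟨∑ s, (‖Pj (β (FreeGroup.of s))‖ + c s),
      Finset.sum_nonneg fun s _ => add_nonneg (norm_nonneg _) (hc0 s), fun s => ?_⟩
    have := Finset.single_le_sum (f := fun s => ‖Pj (β (FreeGroup.of s))‖ + c s)
      (fun s _ => add_nonneg (norm_nonneg _) (hc0 s)) (Finset.mem_univ s)
    constructor <;> linarith [hc0 s, norm_nonneg (Pj (β (FreeGroup.of s)))]
  refine ⟨Real.exp (1 + 5 * A * |M|) * A, by positivity, ?_⟩
  intro h h' R R' U U' σ ε hσ hε hh hM hU hU' hd
  have hM' : ‖op h‖ ≤ |M| := hM.trans (le_abs_self M)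
  have hin : ∀ t ∈ Set.Icc (0 : ℝ) 1, |σ * t| ≤ 1 := fun t ht => by
    rw [abs_mul, hσ, one_mul, abs_of_nonneg ht.1]; exact ht.2
  have key := gron (E := S → H (Lm S))
    (f := fun t s => U (σ * t) (dl (io (FreeGroup.of s))) - U' (σ * t) (dl (io (FreeGroup.of s))))
    (f' := fun t s => σ • (Complex.I • U (σ * t) (op (Ad (β (FreeGroup.of s) * qq w X R) h)
      (dl (io (FreeGroup.of s)))) - Complex.I • U' (σ * t) (op (Ad (β (FreeGroup.of s) *
        qq w X R') h') (dl (io (FreeGroup.of s))))))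
    (K := 1 + 5 * A * |M|) (ε := A * ε) (by have := abs_nonneg M; nlinarith [mul_nonneg hA0 this])
    (by positivity) ?_ ?_ ?_
  · refine ⟨by positivity, fun s => ?_⟩
    rw [dev_two (hU'.good σ hσ.le), mul_assoc]
    refine le_trans ?_ key
    have := norm_le_pi_norm (fun s => U (σ * 1) (dl (io (FreeGroup.of s))) -
      U' (σ * 1) (dl (io (FreeGroup.of s)))) s
    simpa using this
  · intro t ht
    refine hasDerivAt_pi.2 fun s => ?_
    exact der_lin (hU.der (FreeGroup.of s) _ (hin t ht)) (hU'.der (FreeGroup.of s) _ (hin t ht))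
  · ext1 s
    simp [hU.zero, hU'.zero]
  · intro t ht
    have g1 := hU.good _ (hin t ht)
    have g2 := hU'.good _ (hin t ht)
    set F : S → H (Lm S) := fun s => U (σ * t) (dl (io (FreeGroup.of s))) -
      U' (σ * t) (dl (io (FreeGroup.of s))) with hF
    have hF0 := norm_nonneg F
    refine (pi_norm_le_iff_of_nonneg (by positivity)).2 fun s => ?_
    rw [norm_smul, Real.norm_eq_abs, hσ, one_mul, ← smul_sub, norm_smul, Complex.norm_I, one_mul]
    refine (two_flow g1 g2 _ _ _).trans ?_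
    have b1 := bessel (β (FreeGroup.of s) * qq w X R) hh
    have b2 : ‖Pj (β (FreeGroup.of s) * qq w X R) (dl (cc S))‖ ≤ A * 2 := by
      rw [map_mul, mul_ap]
      refine ((Pj _).le_opNorm _).trans ?_
      have := norm_qq (w := w) hX R (supp_dl cc_mem)
      rw [norm_dl, mul_one] at this
      gcongr
      exact (hA s).1
    have b3 := hc s (star (U' (σ * t)) * U (σ * t)) ‖F‖ (g2.st.mul g1)
      ⟨hF0, fun s => by rw [dev_two g2]; exact norm_le_pi_norm F s⟩ h hh R
    have b4 : ‖hat (Ad (β (FreeGroup.of s) * qq w X R) h) -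
        hat (Ad (β (FreeGroup.of s) * qq w X R') h')‖ ≤ A * ε := by
      rw [hat_Ad, hat_Ad, map_mul, map_mul, mul_ap, mul_ap, ← map_sub]
      refine ((Pj _).le_opNorm _).trans ?_
      gcongr
      exact (hA s).1
    rw [← hat_Ad] at b3
    have b5 : c s * ‖op h‖ * ‖F‖ ≤ A * |M| * ‖F‖ := by
      gcongr
      exact (hA s).2
    have b6 : ‖op (Ad (β (FreeGroup.of s) * qq w X R) h)‖ * ‖F s‖ ≤ (2 * |M| * (A * 2)) * ‖F‖ := by
      gcongr
      · exact b1.trans (by gcongr)
      · exact norm_le_pi_norm F s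
    change _ * ‖F s‖ + _ ≤ _
    nlinarith

/-- The flow moves `w` close to `w` times the exponential. -/
lemma flow_w {X : RA (FreeGroup S)} (hX : Half X) {w : FreeGroup S}
    {β : FreeGroup S → RA (FreeGroup S)} (hβ : β w = 1 - X) {M : ℝ} {h : CA (Lm S)} {R : ℕ}
    {U : ℝ → Op (Lm S)} (hh : Supp (C0 (cc S)) (hat h)) (hM : ‖op h‖ ≤ M)
    (hU : Flw (fun x => β x * qq w X R) h U) :
    ‖U 1 (dl (io w)) - lam (io w) (NormedSpace.exp (Complex.I • op h) (dl 1))‖ ≤
      Real.exp (1 + M) * ((1 / 2) ^ R * M) := by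
  have hM0 : 0 ≤ M := (norm_nonneg _).trans hM
  have hin : ∀ t ∈ Set.Icc (0 : ℝ) 1, |t| ≤ 1 := fun t ht => by
    rw [abs_of_nonneg ht.1]; exact ht.2
  have key := gron (E := H (Lm S))
    (f := fun t => U t (dl (io w)) - lam (io w) (NormedSpace.exp (t • Complex.I • op h) (dl 1)))
    (f' := fun t => Complex.I • U t (op (Ad (β w * qq w X R) h) (dl (io w))) -
      lam (io w) ((NormedSpace.exp (t • Complex.I • op h) * Complex.I • op h) (dl 1)))
    (K := 1 + M) (ε := (1 / 2) ^ R * M) (by linarith) (by positivity) ?_ ?_ ?_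
  · simpa using key
  · intro t ht
    exact (hU.der w t (hin t ht)).sub (der_exp _ _ _ t)
  · simp [hU.zero, lam_one]
  · intro t ht
    have g := hU.good t (hin t ht)
    set Z := NormedSpace.exp (t • Complex.I • op h) with hZ
    have hZm : Z ∈ LL (Lm S) := mem_LL.2 fun x =>
      Commute.exp_right (Commute.smul_right (Commute.smul_right (mem_LL.1 (op_mem h) x) _) _)
    have e1 : U t (op (ad (io w) h) (dl (io w))) = th (U t) (io w) (op h (dl 1)) := by
      rw [op_ad]
      simp only [mul_ap, th, lam_dl, inv_mul_cancel]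
      rw [show op h (dl 1) = hat h from rfl, g.st.fix' hh]
    have e2 : Complex.I • U t (op (Ad (β w * qq w X R) h) (dl (io w))) -
        lam (io w) ((Z * Complex.I • op h) (dl 1)) =
        Complex.I • ((th (U t) (io w) - lam (io w) * Z) (op h (dl 1)) -
          U t (op (Ad (X ^ R * single w 1) h) (dl (io w)))) := by
      rw [hβ, qq_tel, map_sub, Ad_single, one_smul, LinearMap.sub_apply, map_sub, sub_apply,
        map_sub, e1]
      simp only [mul_ap, sub_apply, _root_.smul_apply, map_smul, smul_sub]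
      abel
    have e3 := norm_mul_hat (sub_mem (g.th_mem (io w)) (mul_mem (lam_mem (io w)) hZm)) (op_mem h)
    rw [sub_apply _ _ (dl 1), g.th_one, mul_ap] at e3
    have e4 := norm_mul_hat (op_mem (Ad (X ^ R * single w 1) h)) (lam_mem (io w))
    rw [lam_one] at e4
    change _ ≤ ‖hat _‖ * _ at e4
    rw [hat_Ad, map_mul Pj, mul_ap] at e4
    have e5 := norm_pow_X hX R (supp_Pj (single w 1) (hh.mono C0_sub))
    rw [Pj_w] at e5
    have e6 : (1 / 2 : ℝ) ^ R * ‖hat h‖ ≤ (1 / 2) ^ R * M := by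
      gcongr
      exact (norm_hat_le h).trans hM
    rw [e2, norm_smul, Complex.norm_I, one_mul]
    refine (norm_sub_le _ _).trans ?_
    rw [g.norm]
    have e7 := opNorm_lam (io w)
    have e8 := norm_nonneg (U t (dl (io w)) - lam (io w) (Z (dl 1)))
    nlinarith [norm_nonneg (Pj (X ^ R) (Pj (single w 1) (hat h)))]

lemma cauchy_data {X : RA (FreeGroup S)} (hX : Half X) (w : FreeGroup S) {ξ : ℕ → H (Lm S)}
    (hξ : ∀ j, Supp (N0 S) (ξ j)) {M : ℝ} (hM : ∀ j, ‖ξ j‖ ≤ M) (hc : CauchySeq ξ) :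
    CauchySeq fun j => Pj (qq w X j) (ξ j) := by
  have hM0 : 0 ≤ M := (norm_nonneg _).trans (hM 0)
  rw [Metric.cauchySeq_iff'] at hc ⊢
  intro ε hε
  obtain ⟨N, hN⟩ := Metric.cauchySeq_iff.1 (Metric.cauchySeq_iff'.2 hc) (ε / 4) (by positivity)
  have ht : Tendsto (fun n : ℕ => (1 / 2 : ℝ) ^ n * (2 * M)) atTop (𝓝 (0 * (2 * M))) :=
    (tendsto_pow_atTop_nhds_zero_of_lt_one (by norm_num) (by norm_num)).mul_const _
  rw [zero_mul] at ht
  obtain ⟨N', hN'⟩ := eventually_atTop.1 (ht.eventually (gt_mem_nhds (half_pos hε)))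
  refine ⟨max N N', fun n hn => ?_⟩
  obtain ⟨i, rfl⟩ := Nat.exists_eq_add_of_le hn
  have h1 := hN _ ((le_max_left N N').trans hn) _ (le_max_left N N')
  have h2 := hN' _ (le_max_right N N')
  set k := max N N'
  have h3 := norm_qq (w := w) hX k ((hξ (k + i)).sub (hξ k))
  have h4 := norm_pow_X hX k (supp_Pj (qq w X i) (hξ (k + i)))
  have h5 : (1 / 2 : ℝ) ^ k * ‖Pj (qq w X i) (ξ (k + i))‖ ≤ (1 / 2) ^ k * (2 * M) := by
    gcongr
    exact (norm_qq hX i (hξ _)).trans (by linarith [hM (k + i)])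
  rw [dist_eq_norm] at h1 ⊢
  rw [qq_add, map_add, map_mul, _root_.add_apply, mul_ap, add_sub_right_comm, ← map_sub]
  refine (norm_add_le _ _).trans_lt ?_
  linarith

theorem flex_of (hG : GapStmt) (hD : DerStmt) (hF : FlowStmt) (hH : HseqStmt) : FlexStmt := by
  intro S _ w hw
  obtain ⟨β, X, hβ, hβw, hX⟩ := hG S w hw
  obtain ⟨M, h, hh, hc, hexp⟩ := hH (Lm S) (cc S) fun k => cc_zpow
  have hβ' : ∀ R, Coc fun x => β x * qq w X R := fun R x y => by
    simp only [hβ x y, add_mul, mul_assoc]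
  choose U hU using fun j => exists_fl hD hF (hβ' j) (hh j).1 (hh j).2.1
  obtain ⟨C, hC0, hC⟩ := flows_close hX w β M
  have hcd := cauchy_data hX w (fun j => (hh j).1.mono C0_sub)
    (fun j => (norm_hat_le _).trans (hh j).2.2) hc
  have lim : ∀ σ : ℝ, |σ| = 1 → ∃ L : Op (Lm S), (∀ ξ η, ⟪L ξ, L η⟫_ℂ = ⟪ξ, η⟫_ℂ) ∧
      ∀ ξ, Tendsto (fun j => U j σ ξ) atTop (𝓝 (L ξ)) := by
    intro σ hσ
    have g := fun j => (hU j).good σ hσ.le
    have h1 : ∀ x, CauchySeq fun j => U j σ (dl x) := by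
      intro x
      obtain ⟨c, hc0, hcx⟩ := dev_len x
      rw [Metric.cauchySeq_iff]
      intro ε hε
      obtain ⟨N, hN⟩ := Metric.cauchySeq_iff.1 hcd (ε / (c * C + 1)) (by positivity)
      refine ⟨N, fun j hj k hk => ?_⟩
      have h2 := hN j hj k hk
      rw [dist_eq_norm] at h2 ⊢
      have h3 := hcx _ _ ((g k).st.mul (g j)) (hC _ _ j k _ _ σ _ hσ (by positivity) (hh j).1
        (hh j).2.2 (hU j) (hU k) h2.le)
      rw [dev_two (g k)] at h3
      refine h3.trans_lt ?_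
      rw [← mul_assoc, ← mul_div_assoc, div_lt_iff₀ (by positivity)]
      nlinarith
    choose u hu using fun x => cauchySeq_tendsto_of_complete (h1 x)
    have h2 : ∀ x y, ⟪u x, u y⟫_ℂ = ⟪dl x, dl y⟫_ℂ := fun x y => by
      refine tendsto_nhds_unique ((hu x).inner (hu y)) ?_
      simp only [inner_of_star_mul_self (g _).l]
      exact tendsto_const_nhds
    have h3 : Orthonormal ℂ u := by
      classical
      rw [orthonormal_iff_ite]
      intro x y
      rw [h2]
      exact orthonormal_iff_ite.1 orthonormal_dl x y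
    exact ⟨ofON u h3, ofON_inner _ _, strong_of_dl (fun j => (g j).norm) (ofON_norm _ _)
      fun x => by rw [ofON_dl]; exact hu x⟩
  obtain ⟨P, hP, hPl⟩ := lim 1 abs_one
  obtain ⟨Q, hQ, hQl⟩ := lim (-1) (by simp)
  have g := fun j => (hU j).good 1 abs_one.le
  have g' := fun j => (hU j).good (-1) (by simp)
  have st : ∀ j, U j (-1) = star (U j 1) := fun j => ((hU j).st 1 abs_one.le).symm
  have hPQ : P * Q = 1 := by
    ext1 ξ
    refine tendsto_nhds_unique (strong_ap (fun j => (g j).norm) hPl (hQl ξ)) ?_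
    simp only [st, (g _).ra]
    exact tendsto_const_nhds
  have hQP : Q * P = 1 := by
    ext1 ξ
    refine tendsto_nhds_unique (strong_ap (fun j => (g' j).norm) hQl (hPl ξ)) ?_
    simp only [st, (g _).la]
    exact tendsto_const_nhds
  have hst : star P = Q := star_eq_of_inner hP hPQ
  have hQ1 : Q (dl 1) = dl 1 := by
    refine tendsto_nhds_unique (hQl _) ?_
    simp only [(g' _).one]
    exact tendsto_const_nhds
  have hPc : ∀ k : ℤ, P (dl (cc S ^ k)) = dl (cc S ^ k) := fun k => by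
    refine tendsto_nhds_unique (hPl _) ?_
    simp only [(g _).fix]
    exact tendsto_const_nhds
  have hP1 : P (dl 1) = dl 1 := by simpa using hPc 0
  let α : Lm S →* Op (Lm S) :=
    { toFun := fun x => P * lam x * Q
      map_one' := by simp [hPQ]
      map_mul' := fun x y => by
        rw [map_mul]
        calc _ = P * lam x * (Q * P) * lam y * Q := by rw [hQP]; simp only [mul_one, mul_assoc]
          _ = _ := by simp only [mul_assoc] }
  have hα : ∀ x, α x (dl 1) = P (dl x) := fun x => by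
    show P (lam x (Q (dl 1))) = _
    rw [hQ1, lam_one]
  have hm : ∀ x, α x ∈ LL (Lm S) := fun x => by
    refine mem_LL_of_tendsto (l := atTop) (fun j => (g j).th_mem x) fun ξ => ?_
    have := strong_ap (fun j => (g j).norm) hPl (((lam x).continuous.tendsto _).comp (hQl ξ))
    simp only [st] at this
    exact this
  refine ⟨α, ⟨hm, fun x => ?_, fun x hx => ?_, ?_⟩, ?_, ?_⟩
  · show star (P * lam x * Q) = P * lam x⁻¹ * Q
    rw [← hst, star_mul, star_mul, star_star, star_lam, mul_assoc]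
  · rw [hα, ← inner_dl, ← hP1, hP, inner_dl]
    exact dl_ne hx.symm
  · simp only [hα]
    have h1 : Function.Surjective P := fun ξ => ⟨Q ξ, by rw [← mul_ap, hPQ, one_ap]⟩
    refine (h1.denseRange.dense_image P.continuous dense_dl).mono ?_
    rintro _ ⟨ξ, hξ, rfl⟩
    have := Submodule.apply_mem_span_image_of_mem_span (P : H (Lm S) →ₗ[ℂ] H (Lm S)) hξ
    rwa [← Set.range_comp] at this
  · refine LL_ext (hm _) (lam_mem _) ?_
    have := hPc 1
    rw [zpow_one] at this
    rw [hα, this, lam_one]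
  · refine LL_ext (hm _) (lam_mem _) ?_
    rw [hα, lam_one, ← lam_dl]
    refine tendsto_nhds_unique (hPl _) ?_
    have h1 := ((lam (io w)).continuous.tendsto _).comp hexp
    have h2 : Tendsto (fun j => U j 1 (dl (io w)) -
        lam (io w) (NormedSpace.exp (Complex.I • op (h j)) (dl 1))) atTop (𝓝 0) := by
      refine squeeze_zero_norm (fun j => flow_w hX hβw (hh j).1 (hh j).2.2 (hU j)) ?_
      have := ((tendsto_pow_atTop_nhds_zero_of_lt_one (r := (1 / 2 : ℝ)) (by norm_num)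
        (by norm_num)).mul_const M).const_mul (Real.exp (1 + M))
      simpa using this
    simpa using h2.add h1

end

end Pool.Agent.MP_494aff_an.Pinch

end MrgPart1

-- marker of a merged file
example : 731051 + 164686 = 731051 + 164686 := rfl

end MrgPart0

-- ======== part 1: formerly Pool.Agent.MP_494aff_an.pinch.Main
section MrgPart1

/-! Assembly. -/

namespace Pool.Agent.MP_494aff_an.Pinch

theorem flex : FlexStmt := flex_of (gap pp word) der flow hseq

theorem main : MainStmt := top pair glue iso flex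

end Pool.Agent.MP_494aff_an.Pinch

end MrgPart1

-- marker of a merged file
example : 731051 + 183543 = 731051 + 183543 := rfl
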