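import Mathlib
import Pool.Agent.MP_494aff_an.pinch.AttA
import Pool.Agent.MP_494aff_an.pinch.Sim
import Pool.Agent.MP_494aff_an.pinch.Abel
import Pool.Agent.MP_494aff_an.pinch.Main
import Pool.Agent.MP_494aff_an.pinch.Top

-- ======== part 0: formerly Pool.Agent.MP_494aff_an.pinch.Att
section MrgPart0

/-! Moving the ends of the edges, and resolving the edges. -/

open Monoid

namespace Pool.Agent.MP_494aff_an.Pinch

namespace AttP

lemma sim_eq {Q L G G' : Type} [Group Q] [Group G] [Group G'] {g g₁ : Q →* G} {a a₁ : L → G}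
    {g' g₁' : Q →* G'} {a' a₁' : L → G'} (h : Sim g a g' a') (e1 : ∀ q, g q = g₁ q)
    (e2 : ∀ l, a l = a₁ l) (e3 : ∀ q, g' q = g₁' q) (e4 : ∀ l, a' l = a₁' l) :
    Sim g₁ a₁ g₁' a₁' := by
  rw [← MonoidHom.ext e1, ← funext e2, ← MonoidHom.ext e3, ← funext e4]
  exact h

section Move

variable {S I M Q G G' : Type} [Finite S] [Finite I] [Finite M] [Group Q] [Group G] [Group G']
  {w : I ⊕ M → FreeGroup S} {v v' : I → Q} {b : I} {f : FreeGroup S →* G} {g : Q →* G}
  {t : I → G} {f' : FreeGroup S →* G'} {g' : Q →* G'} {t' : I → G'}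

lemma move_base (hM : MFlexStmt) (hF : FGStmt) (hw : Mal w) (hv : ∀ i, i ≠ b → InfOrd (v i))
    (he : ∀ i, i ≠ b → v i = v' i) (hfr : Fr (v b) (v' b)) (A : Att (w ∘ Sum.inl) v b f g t)
    (A' : Att (w ∘ Sum.inl) v' b f' g' t') : Sim g (f ∘ w ∘ Sum.inr) g' (f' ∘ w ∘ Sum.inr) := by
  have B := attL A (v := v b) (y := (v b)⁻¹ * v' b) 0 (by simp) (u' := fun l => v l) fun _ => rfl
  have B' := attL A' (v := v b) (y := (v b)⁻¹ * v' b) 1 (by simp) (u' := fun l => v l)
    fun l => he l l.2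
  simp only [zpow_zero, inv_one, mul_one, zpow_one] at B B'
  let ψ : {i // i ≠ b} ⊕ M → {i : I ⊕ M // i ≠ Sum.inl b} :=
    Sum.elim (fun l => ⟨Sum.inl l, fun e => l.2 (Sum.inl_injective e)⟩)
      fun m => ⟨Sum.inr m, Sum.inr_ne_inl⟩
  have h0 := (hM S (I ⊕ M) w (Sum.inl b) hw).comp (MonoidHom.id _) ψ
  have h1 := hF _ _ _ _ _ _ _ M _ _ _ _ _ _ _ _ _ _ _ _ (fun m => io (w (Sum.inr m)))
    (fun m => io (w (Sum.inr m))) B B' (pr_cc_inj pair (mal_ne hw _)) hfr
    (fun l => io_map io_inj (io_free (mal_ne hw _))) (fun l => hv l l.2)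
    (sim_eq h0 (fun _ => rfl) (by rintro (l | m) <;> rfl) (fun _ => rfl)
      (by rintro (l | m) <;> rfl))
  exact sim_eq h1 (fun _ => rfl) (fun m => ex_io _ _ _) (fun _ => rfl) fun m => ex_io _ _ _

lemma move (hM : MFlexStmt) (hF : FGStmt) (hw : Mal w) {i : I} (hv : ∀ j, j ≠ i → InfOrd (v j))
    (he : ∀ j, j ≠ i → v j = v' j) (hfr : Fr (v i) (v' i)) (A : Att (w ∘ Sum.inl) v b f g t)
    (A' : Att (w ∘ Sum.inl) v' b f' g' t') : Sim g (f ∘ w ∘ Sum.inr) g' (f' ∘ w ∘ Sum.inr) :=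
  sim_eq ((move_base hM hF hw hv he hfr (rebase A i) (rebase A' i)).conj (t i)⁻¹ (t' i)⁻¹)
    (fun q => by simp [mul_assoc]) (fun _ => rfl) (fun q => by simp [mul_assoc]) fun _ => rfl

lemma move_all (hM : MFlexStmt) (hF : FGStmt) (hw : Mal w) (hfr : ∀ i, Fr (v i) (v' i))
    (A : Att (w ∘ Sum.inl) v b f g t) (A' : Att (w ∘ Sum.inl) v' b f' g' t') :
    Sim g (f ∘ w ∘ Sum.inr) g' (f' ∘ w ∘ Sum.inr) := by
  classical
  have key : ∀ (s : Finset I) (G₁ : Type) [Group G₁] (f₁ : FreeGroup S →* G₁) (g₁ : Q →* G₁)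
      (t₁ : I → G₁), Att (w ∘ Sum.inl) (fun i => if i ∈ s then v' i else v i) b f₁ g₁ t₁ →
      Sim g (f ∘ w ∘ Sum.inr) g₁ (f₁ ∘ w ∘ Sum.inr) := by
    intro s
    induction s using Finset.induction_on with
    | empty =>
      intro G₁ _ f₁ g₁ t₁ A₁
      simp only [Finset.notMem_empty, if_false] at A₁
      obtain ⟨e, e1, e2⟩ := unique A A₁
      exact Sim.of_equiv e e2 fun m => by
        rw [Function.comp_apply, e1]
        rfl
    | insert i s hi ih =>
      intro G₁ _ f₁ g₁ t₁ A₁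
      obtain ⟨G₀, _, f₀, g₀, t₀, A₀⟩ := TowP.exists_att (w ∘ Sum.inl)
        (fun i => if i ∈ s then v' i else v i) b
      refine (ih G₀ f₀ g₀ t₀ A₀).trans (move hM hF hw (i := i) (fun j _ => ?_) (fun j hj => ?_)
        ?_ A₀ A₁)
      · split_ifs
        · exact fr_right (hfr j)
        · exact fr_left (hfr j)
      · simp [hj]
      · simpa [hi] using hfr i
  cases nonempty_fintype I
  exact key Finset.univ G' f' g' t' (by simpa using A')

end Move

lemma resolve (hM : MFlexStmt) (hF : FGStmt) {S M Q0 : Type} [Finite S] [Finite M] [Group Q0]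
    (n : ℕ) : ∀ (I G : Type) [Finite I] [Group G] (w : I ⊕ M → FreeGroup S) (u0 : I → Q0) (b : I)
      (f : FreeGroup S →* G) (g : Coprod Q0 Zm →* G) (t : I → G), Nat.card I = n → Mal w →
      (∀ i, InfOrd (u0 i)) → Att (w ∘ Sum.inl) (fun i => Coprod.inl (u0 i)) b f g t →
      Sim (g.comp Coprod.inl) (f ∘ w ∘ Sum.inr) (Coprod.inr : Q0 →* Coprod (FreeGroup S) Q0)
        (Coprod.inl ∘ w ∘ Sum.inr) := by
  classical
  induction n using Nat.strong_induction_on with
  | _ n ih =>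
  intro I G _ _ w u0 b f g t hn hw hu A
  by_cases hb : ∀ i, i = b
  · exact (move_all hM hF hw (fun i => fr_zz (hu i)) A (last (w ∘ Sum.inl) b hb)).comp
      Coprod.inl id
  · obtain ⟨i, hi⟩ := not_forall.1 hb
    obtain ⟨G₁, _, f₁, g₁, t₁, A₁⟩ := TowP.exists_att (w ∘ Sum.inl)
      (fun j => if j = i then zz Q0 else Coprod.inl (u0 j)) b
    have h1 := (move hM hF hw (i := i) (fun j _ => fr_left (fr_zz (hu j)))
      (fun j hj => by simp [hj]) (by simpa using fr_zz (hu i)) A A₁).comp Coprod.inl id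
    have A₂ := drop A₁ (i := i) (fun e => hi e.symm) (by simp) (u0 := u0) fun j hj => by simp [hj]
    have h2 := ih _ (hn ▸ Finite.card_subtype_lt (p := fun j => j ≠ i) (x := i) (by simp))
      {j // j ≠ i} G₁ (w ∘ Sum.map Subtype.val id) (fun j => u0 j) _ f₁ _ _ rfl
      (mal_comp hw (Subtype.val_injective.sumMap Function.injective_id)) (fun j => hu j) A₂
    exact h1.trans h2

end AttP

open AttP

theorem floor (hM : MFlexStmt) (hF : FGStmt) : FloorStmt := by
  intro S I M H R G _ _ _ _ _ _ w v b f g t x y hw hv hy hx A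
  choose z hz1 hz2 using hv
  obtain ⟨G₀, _, f₀, g₀, t₀, A₀⟩ := TowP.exists_att (w ∘ Sum.inl) z b
  obtain ⟨G₁, _, f₁, g₁, t₁, A₁⟩ := TowP.exists_att (w ∘ Sum.inl) (fun _ => x) b
  obtain ⟨G₂, _, f₂, g₂, t₂, A₂⟩ := TowP.exists_att (w ∘ Sum.inl)
    (fun _ => (Coprod.inl y : Coprod R Zm)) b
  have hx0 : InfOrd x := fr_right (hz2 b)
  have h1 := (((move_all hM hF hw hz1 A A₀).trans (move_all hM hF hw hz2 A₀ A₁)).track
    fun _ : Unit => x).zero
  have h2 := hF _ _ _ _ _ _ _ Unit _ _ _ _ _ _ _ _ _ _ _ _ (fun _ => x) (fun _ => Coprod.inl y)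
    (attZ (swap A₁)) (attZ (swap A₂)) (zp_inj hx0) (zp_inj (io_free (mal_ne hw _)))
    (fun _ => hx0) (fun l => io_free (mal_ne hw _))
    (sim_eq ((hx.exact ()).comp (MonoidHom.id _) fun _ => ()) (fun _ => rfl)
      (by rintro (l | m) <;> rfl) (fun _ => rfl) (by rintro (l | m) <;> rfl))
  have h3 := ((h2.track (w ∘ Sum.inr)).zero).comp (MonoidHom.id Unit) Sum.swap
  have h4 := ((resolve hM hF _ I G₂ w (fun _ => y) b f₂ g₂ t₂ rfl hw (fun _ => hy) A₂).track
    fun _ : Unit => y).zero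
  exact (h1.trans (sim_eq h3 (fun _ => rfl) (by rintro (l | m) <;> rfl) (fun _ => rfl)
    (by rintro (l | m) <;> rfl))).trans h4

theorem attach (hM : MFlexStmt) (hF : FGStmt) : AttachStmt := by
  intro S I M R B G G₁ _ _ _ _ _ _ _ w a u b f g t hw hu ha A
  obtain ⟨G₂, _, f₂, g₂, t₂, A₂⟩ := TowP.exists_att
    (fun i => (Coprod.inl (w (Sum.inl i)) : Coprod (FreeGroup S) (Coprod R Zm))) u b
  have h0 : ∀ l, InfOrd (a l) := fun l =>
    (ha.infOrd l).2 (io_map Coprod.inl_injective (io_free (mal_ne hw l)))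
  have h1 := hF _ _ _ _ _ _ _ M _ _ _ _ _ _ _ _ _ _ _ _ (a ∘ Sum.inr)
    (Coprod.inl ∘ w ∘ Sum.inr) (attZ A) (attZ A₂) (zp_inj (h0 _)) (zp_inj (hu b))
    (fun l => h0 _) (fun l => hu l)
    (sim_eq ((ha.exact (Sum.inl b)).comp (MonoidHom.id _) (Sum.map Subtype.val id))
      (fun _ => rfl) (by rintro (l | m) <;> rfl) (fun _ => rfl) (by rintro (l | m) <;> rfl))
  have h2 := (resolve hM hF _ I G₂ w (fun i => (Coprod.inr (u i) : Coprod R B)) b _ _ t₂ rfl hw
    (fun i => io_map Coprod.inr_injective (hu i)) (shift A₂)).comp Coprod.inr id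
  exact h1.trans h2

end Pool.Agent.MP_494aff_an.Pinch

end MrgPart0

-- ======== part 1: formerly Pool.Agent.MP_494aff_an.pinch.MLip
section MrgPart1

/-! Controlled sequences and the geometric sums for several ports. -/

open scoped InnerProductSpace ComplexConjugate
open MonoidAlgebra (single)

namespace Pool.Agent.MP_494aff_an.Pinch

noncomputable section

variable {S : Type}

/-- Bounded, geometrically convergent, Lipschitz sequences. -/
structure Ct (A : ℝ) (q : ℕ → RA (FreeGroup S)) : Prop where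
  nn : 0 ≤ A
  bd : ∀ R ξ, Supp (N0 S) ξ → ‖Pj (q R) ξ‖ ≤ A * ‖ξ‖
  ca : ∀ N k ξ, Supp (N0 S) ξ → ‖Pj (q (N + k)) ξ - Pj (q N) ξ‖ ≤ A * (1 / 2) ^ N * ‖ξ‖
  lp : ∀ (W : Op (Lm S)) (d : ℝ), Good W → Dev W d → ∀ h : CA (Lm S),
    Supp (C0 (cc S)) (hat h) → ∀ R,
    ‖W (Pj (q R) (hat h)) - Pj (q R) (hat h)‖ ≤ A * ‖op h‖ * d

variable {A B : ℝ} {q q' : ℕ → RA (FreeGroup S)}

lemma Ct.mono (h : Ct A q) (hAB : A ≤ B) : Ct B q where
  nn := h.nn.trans hAB
  bd R ξ hξ := (h.bd R ξ hξ).trans (by gcongr)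
  ca N k ξ hξ := (h.ca N k ξ hξ).trans (by gcongr)
  lp W d hW hd x hx R := (h.lp W d hW hd x hx R).trans (by have := hd.1; gcongr)

lemma ct_zero : Ct 0 (fun _ => (0 : RA (FreeGroup S))) where
  nn := le_rfl
  bd R ξ _ := by simp
  ca N k ξ _ := by simp
  lp W d _ _ x _ R := by simp

lemma Ct.add (h : Ct A q) (h' : Ct B q') : Ct (A + B) fun R => q R + q' R where
  nn := add_nonneg h.nn h'.nn
  bd R ξ hξ := by
    have := h.bd R ξ hξ
    have := h'.bd R ξ hξ
    rw [map_add, _root_.add_apply]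
    refine (norm_add_le _ _).trans ?_
    linarith
  ca N k ξ hξ := by
    have := h.ca N k ξ hξ
    have := h'.ca N k ξ hξ
    simp only [map_add, _root_.add_apply]
    rw [add_sub_add_comm]
    refine (norm_add_le _ _).trans ?_
    linarith
  lp W d hW hd x hx R := by
    have := h.lp W d hW hd x hx R
    have := h'.lp W d hW hd x hx R
    simp only [map_add, _root_.add_apply]
    rw [add_sub_add_comm]
    refine (norm_add_le _ _).trans ?_
    linarith

lemma Ct.bes (h : Ct A q) {x : CA (Lm S)} (hx : Supp (C0 (cc S)) (hat x)) (R : ℕ) :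
    ‖op (Ad (q R) x)‖ ≤ 2 * A * ‖op x‖ := by
  have h1 := bessel (q R) hx
  have h2 := h.bd R _ (supp_dl cc_mem)
  rw [norm_dl] at h2
  nlinarith [norm_nonneg (op x)]

lemma Ct.mul (h : Ct A q) (r : RA (FreeGroup S)) : ∃ B, Ct B fun R => r * q R := by
  obtain ⟨c, hc, hr⟩ := Pj_dev r
  have hA := h.nn
  refine ⟨‖Pj r‖ * A + 2 * c * A, by positivity, fun R ξ hξ => ?_, fun N k ξ hξ => ?_,
    fun W d hW hd x hx R => ?_⟩
  · rw [map_mul, mul_ap]
    refine ((Pj r).le_opNorm _).trans ?_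
    calc _ ≤ ‖Pj r‖ * (A * ‖ξ‖) := by gcongr; exact h.bd R ξ hξ
      _ ≤ _ := by nlinarith [mul_nonneg (mul_nonneg hc hA) (norm_nonneg ξ)]
  · rw [map_mul, map_mul, mul_ap, mul_ap, ← map_sub]
    refine ((Pj r).le_opNorm _).trans ?_
    have h0 : 0 ≤ c * A * ((1 / 2) ^ N * ‖ξ‖) := by positivity
    calc _ ≤ ‖Pj r‖ * (A * (1 / 2) ^ N * ‖ξ‖) := by gcongr; exact h.ca N k ξ hξ
      _ ≤ _ := by nlinarith
  · have hd0 := hd.1
    refine (dev_mul_le hW r (q R) (hat x)).trans ?_
    have h1 := (Pj r).le_opNorm (star W (W (Pj (q R) (hat x)) - Pj (q R) (hat x)))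
    rw [hW.st.norm] at h1
    have h2 := hr W d hW hd _ (op_mem (Ad (q R) x))
    change ‖W (Pj r (star W (hat _))) - Pj r (hat _)‖ ≤ _ at h2
    rw [hat_Ad] at h2
    have h3 : ‖Pj r‖ * ‖W (Pj (q R) (hat x)) - Pj (q R) (hat x)‖ ≤ ‖Pj r‖ * (A * ‖op x‖ * d) := by
      gcongr
      exact h.lp W d hW hd x hx R
    have h4 : c * ‖op (Ad (q R) x)‖ * d ≤ c * (2 * A * ‖op x‖) * d := by
      gcongr
      exact h.bes hx R
    nlinarith

lemma ct_sum {ι : Type} (s : Finset ι) (f : ι → ℕ → RA (FreeGroup S))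
    (h : ∀ j, ∃ A, Ct A (f j)) : ∃ A, Ct A fun R => ∑ j ∈ s, f j R := by
  classical
  induction s using Finset.induction_on with
  | empty => exact ⟨0, by simpa using ct_zero⟩
  | insert j s hj ih =>
    obtain ⟨a, ha⟩ := h j
    obtain ⟨b, hb⟩ := ih
    exact ⟨a + b, by simpa only [Finset.sum_insert hj] using ha.add hb⟩

lemma ct_max {ι : Type} [Fintype ι] (f : ι → ℕ → RA (FreeGroup S)) (h : ∀ j, ∃ A, Ct A (f j)) :
    ∃ A, 0 ≤ A ∧ ∀ j, Ct A (f j) := by
  choose a ha using h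
  exact ⟨∑ j, a j, Finset.sum_nonneg fun j _ => (ha j).nn, fun j => (ha j).mono
    (Finset.single_le_sum (fun j _ => (ha j).nn) (Finset.mem_univ j))⟩

variable {ι : Type} [Fintype ι]

/-- The geometric sums of a matrix applied to a vector. -/
def mq (e : ι → RA (FreeGroup S)) (X : ι → ι → RA (FreeGroup S)) : ℕ → ι → RA (FreeGroup S)
  | 0 => 0
  | R + 1 => fun i => e i + ∑ j, X i j * mq e X R j

/-- The matrix `X` acts with norm at most one half. -/
def MHalf (X : ι → ι → RA (FreeGroup S)) : Prop :=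
  ∀ (η : ι → H (Lm S)) (b : ℝ), (∀ j, Supp (N0 S) (η j)) → (∀ j, ‖η j‖ ≤ b) → ∀ i,
    ‖∑ j, Pj (X i j) (η j)‖ ≤ 1 / 2 * b

variable {e : ι → RA (FreeGroup S)} {X : ι → ι → RA (FreeGroup S)}

lemma mhalf (h : ∀ i j ξ, Supp (N0 S) ξ → ‖Pj (X i j) ξ‖ ≤ 1 / (2 * Fintype.card ι) * ‖ξ‖) :
    MHalf X := by
  intro η b h1 h2 i
  have hn : (0 : ℝ) < Fintype.card ι := by exact_mod_cast Fintype.card_pos_iff.2 ⟨i⟩
  refine (norm_sum_le _ _).trans ?_
  calc _ ≤ ∑ _j : ι, 1 / (2 * Fintype.card ι) * b :=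
        Finset.sum_le_sum fun j _ => (h i j _ (h1 j)).trans (by gcongr; exact h2 j)
    _ = _ := by
      rw [Finset.sum_const, Finset.card_univ, nsmul_eq_mul]
      field_simp

lemma Pj_mq (R : ℕ) (i : ι) (ξ : H (Lm S)) :
    Pj (mq e X (R + 1) i) ξ = Pj (e i) ξ + ∑ j, Pj (X i j) (Pj (mq e X R j) ξ) := by
  simp only [mq, map_add, map_sum, map_mul, _root_.add_apply, _root_.sum_apply, mul_ap]

lemma mq_bd (hX : MHalf X) (he : ∀ i ξ, ‖Pj (e i) ξ‖ ≤ ‖ξ‖) {ξ : H (Lm S)} (hξ : Supp (N0 S) ξ)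
    (R : ℕ) (i : ι) : ‖Pj (mq e X R i) ξ‖ ≤ 2 * ‖ξ‖ := by
  induction R generalizing i with
  | zero => simp [mq]
  | succ R ih =>
    rw [Pj_mq]
    refine (norm_add_le _ _).trans ?_
    have := hX _ _ (fun j => supp_Pj (mq e X R j) hξ) ih i
    have := he i ξ
    linarith

lemma mq_ca (hX : MHalf X) (he : ∀ i ξ, ‖Pj (e i) ξ‖ ≤ ‖ξ‖) {ξ : H (Lm S)} (hξ : Supp (N0 S) ξ)
    (N k : ℕ) (i : ι) :
    ‖Pj (mq e X (N + k) i) ξ - Pj (mq e X N i) ξ‖ ≤ 2 * (1 / 2) ^ N * ‖ξ‖ := by
  induction N generalizing i with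
  | zero => simpa [mq] using mq_bd hX he hξ k i
  | succ N ih =>
    rw [Nat.add_right_comm, Pj_mq, Pj_mq, add_sub_add_left_eq_sub, ← Finset.sum_sub_distrib]
    simp only [← map_sub]
    refine (hX _ _ (fun j => (supp_Pj _ hξ).sub (supp_Pj _ hξ)) ih i).trans_eq ?_
    ring

theorem mq_ct (hX : MHalf X) (he : ∀ i ξ, ‖Pj (e i) ξ‖ ≤ ‖ξ‖) (i : ι) :
    ∃ A, Ct A fun R => mq e X R i := by
  choose a ha0 ha using fun i => Pj_dev (e i)
  choose b hb0 hb using fun i j => Pj_dev (X i j)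
  obtain ⟨c, hc0, hc⟩ : ∃ c : ℝ, 0 ≤ c ∧ ∀ i, a i + 4 * ∑ j, b i j ≤ c := by
    have h0 : ∀ i, 0 ≤ a i + 4 * ∑ j, b i j := fun i =>
      add_nonneg (ha0 i) (mul_nonneg (by norm_num) (Finset.sum_nonneg fun j _ => hb0 i j))
    exact ⟨_, Finset.sum_nonneg fun i _ => h0 i, fun i =>
      Finset.single_le_sum (fun i _ => h0 i) (Finset.mem_univ i)⟩
  refine ⟨2 + 2 * c, by positivity, fun R ξ hξ => (mq_bd hX he hξ R i).trans ?_,
    fun N k ξ hξ => (mq_ca hX he hξ N k i).trans ?_, fun W d hW hd h hh R => ?_⟩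
  · gcongr; linarith
  · gcongr; linarith
  have hd0 := hd.1
  have hN : Supp (N0 S) (hat h) := hh.mono C0_sub
  have key : ∀ R i, ‖W (Pj (mq e X R i) (hat h)) - Pj (mq e X R i) (hat h)‖ ≤
      2 * c * ‖op h‖ * d := by
    intro R
    induction R with
    | zero =>
      intro i
      simp only [mq, Pi.zero_apply, map_zero, _root_.zero_apply, sub_self, norm_zero]
      positivity
    | succ R ih =>
      intro i
      set η : ι → H (Lm S) := fun j => Pj (mq e X R j) (hat h) with hη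
      have h1 : W (Pj (mq e X (R + 1) i) (hat h)) - Pj (mq e X (R + 1) i) (hat h) =
          (W (Pj (e i) (hat h)) - Pj (e i) (hat h)) +
          (W (∑ j, Pj (X i j) (star W (W (η j) - η j))) +
          ∑ j, (W (Pj (X i j) (star W (η j))) - Pj (X i j) (η j))) := by
        rw [Pj_mq]
        simp only [map_add, map_sum, map_sub, hW.la, Finset.sum_sub_distrib, hη]
        abel
      have h2 := ha i W d hW hd _ (op_mem h)
      change ‖W (Pj _ (star W (hat h))) - Pj _ (hat h)‖ ≤ _ at h2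
      rw [hW.st.fix' hh] at h2
      have h3 := hX (fun j => star W (W (η j) - η j)) _
        (fun j => hW.sp' _ ((hW.sp _ (supp_Pj _ hN)).sub (supp_Pj _ hN)))
        (fun j => (hW.st.norm _).trans_le (ih j)) i
      have h4 : ∀ j, ‖W (Pj (X i j) (star W (η j))) - Pj (X i j) (η j)‖ ≤
          b i j * (4 * ‖op h‖ * d) := fun j => by
        have h5 := hb i j W d hW hd _ (op_mem (Ad (mq e X R j) h))
        change ‖W (Pj _ (star W (hat _))) - Pj _ (hat _)‖ ≤ _ at h5
        rw [hat_Ad] at h5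
        have h6 := bessel (mq e X R j) hh
        have h7 := mq_bd hX he (supp_dl cc_mem) R j
        rw [norm_dl] at h7
        have h8 : ‖op (Ad (mq e X R j) h)‖ ≤ 4 * ‖op h‖ := by nlinarith [norm_nonneg (op h)]
        refine h5.trans ?_
        have := hb0 i j
        calc _ ≤ b i j * (4 * ‖op h‖) * d := by gcongr
          _ = _ := by ring
      have h9 := (norm_sum_le _ _).trans (Finset.sum_le_sum fun j (_ : j ∈ Finset.univ) => h4 j)
      rw [← Finset.sum_mul] at h9
      rw [h1]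
      refine (norm_add_le _ _).trans ?_
      have h10 := norm_add_le (W (∑ j, Pj (X i j) (star W (W (η j) - η j))))
        (∑ j, (W (Pj (X i j) (star W (η j))) - Pj (X i j) (η j)))
      rw [hW.norm] at h10
      have h11 : (a i + 4 * ∑ j, b i j) * (‖op h‖ * d) ≤ c * (‖op h‖ * d) := by
        gcongr
        exact hc i
      nlinarith
  refine (key R i).trans ?_
  gcongr
  linarith

end

end Pool.Agent.MP_494aff_an.Pinch

end MrgPart1

-- ======== part 2: formerly Pool.Agent.MP_494aff_an.pinch.MLimit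
section MrgPart2

/-! The limit of the flows attached to a controlled sequence of cocycles. -/

open scoped InnerProductSpace ComplexConjugate
open MonoidAlgebra (single)
open Filter Topology

namespace Pool.Agent.MP_494aff_an.Pinch

noncomputable section

variable {S : Type}

/-- Every derivation attached to `κ` preserves the vectors supported in `X`. -/
def Inv (κ : FreeGroup S → RA (FreeGroup S)) (X : Set (Lm S)) : Prop :=
  ∀ (h : CA (Lm S)) (D : CA (Lm S) →ₗ[ℂ] CA (Lm S)), Supp (C0 (cc S)) (hat h) →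
    (∀ x y, D (x * y) = D x * y + x * D y) → (∀ k : ℤ, D (single (cc S ^ k) 1) = 0) →
    (∀ x, D (single (io x) 1) = Complex.I • (Ad (κ x) h * single (io x) 1)) →
    ∀ g ∈ X, Supp X (hat (D (single g 1)))

lemma exists_fl2 (hD : DerStmt) (hF : FlowStmt) [Fintype S] {β : FreeGroup S → RA (FreeGroup S)}
    {h : CA (Lm S)} (hβ : Coc β) (hh : Supp (C0 (cc S)) (hat h)) (hs : IsSelfAdjoint (op h)) :
    ∃ U, Flw β h U ∧ ∀ X, Inv β X → ∀ t, |t| ≤ 1 → ∀ ξ, Supp X ξ → Supp X (U t ξ) := by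
  obtain ⟨D, a, h1, h2, h3, h4, h5, h6⟩ := hD S β h hβ hh hs
  obtain ⟨U, hU0, hU⟩ := hF (Lm S) D a h1 h2 h3
  refine ⟨U, ⟨hU0, fun t ht => ?_, fun t ht => (hU t ht).1, fun x t ht => ?_⟩,
    fun X hX t ht => (hU t ht).2.2.2.2.2 X (hX h D hh h1 h4 h5)⟩
  · obtain ⟨a1, a2, a3, -, a5, a6⟩ := hU t ht
    obtain ⟨-, b2, b3, -, -, b6⟩ := hU (-t) (by rwa [abs_neg])
    rw [neg_neg] at b2 b3
    refine ⟨by rw [a1, b2], by rw [a1, a2], fun m hm => ?_, fun m hm => ?_, fun k => ?_,
      a6 _ h6, ?_⟩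
    · rw [a1]; exact conj_mem_LL b2 a2 a3 hm
    · rw [a1]; exact conj_mem_LL a2 b2 b3 hm
    · have := a5 _ (h4 k)
      rwa [hat_single_one] at this
    · rw [a1]; exact b6 _ h6
  · have := (hU t ht).2.2.2.1 (single (io x) 1)
    rwa [h5, hat_smul, map_smul, hat_mul, hat_single_one] at this

variable {κ : ℕ → FreeGroup S → RA (FreeGroup S)} {A M : ℝ} {h h' : CA (Lm S)}
  {U U' : ℝ → Op (Lm S)}

/-- Two flows with close data stay close. -/
lemma flows_close2 [Fintype S] (hA0 : 0 ≤ A) (hA : ∀ s, Ct A fun R => κ R (FreeGroup.of s))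
    {R R' : ℕ} {σ ε : ℝ} (hσ : |σ| = 1) (hε : 0 ≤ ε) (hh : Supp (C0 (cc S)) (hat h))
    (hM : ‖op h‖ ≤ M) (hU : Flw (κ R) h U) (hU' : Flw (κ R') h' U')
    (hd : ∀ s, ‖Pj (κ R (FreeGroup.of s)) (hat h) - Pj (κ R' (FreeGroup.of s)) (hat h')‖ ≤ ε) :
    Dev (star (U' σ) * U σ) (Real.exp (1 + 3 * A * M) * ε) := by
  have hM0 : 0 ≤ M := (norm_nonneg _).trans hM
  have hin : ∀ t ∈ Set.Icc (0 : ℝ) 1, |σ * t| ≤ 1 := fun t ht => by
    rw [abs_mul, hσ, one_mul, abs_of_nonneg ht.1]; exact ht.2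
  have key := gron (E := S → H (Lm S))
    (f := fun t s => U (σ * t) (dl (io (FreeGroup.of s))) - U' (σ * t) (dl (io (FreeGroup.of s))))
    (f' := fun t s => σ • (Complex.I • U (σ * t) (op (Ad (κ R (FreeGroup.of s)) h)
      (dl (io (FreeGroup.of s)))) - Complex.I • U' (σ * t) (op (Ad (κ R' (FreeGroup.of s)) h')
        (dl (io (FreeGroup.of s))))))
    (K := 1 + 3 * A * M) (ε := ε) (by nlinarith [mul_nonneg hA0 hM0]) hε ?_ ?_ ?_
  · refine ⟨by positivity, fun s => ?_⟩
    rw [dev_two (hU'.good σ hσ.le)]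
    refine le_trans ?_ key
    have := norm_le_pi_norm (fun s => U (σ * 1) (dl (io (FreeGroup.of s))) -
      U' (σ * 1) (dl (io (FreeGroup.of s)))) s
    simpa using this
  · intro t ht
    refine hasDerivAt_pi.2 fun s => ?_
    exact der_lin (hU.der (FreeGroup.of s) _ (hin t ht)) (hU'.der (FreeGroup.of s) _ (hin t ht))
  · ext1 s
    simp [hU.zero, hU'.zero]
  · intro t ht
    have g1 := hU.good _ (hin t ht)
    have g2 := hU'.good _ (hin t ht)
    set F : S → H (Lm S) := fun s => U (σ * t) (dl (io (FreeGroup.of s))) -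
      U' (σ * t) (dl (io (FreeGroup.of s))) with hF
    have hF0 := norm_nonneg F
    refine (pi_norm_le_iff_of_nonneg (by positivity)).2 fun s => ?_
    rw [norm_smul, Real.norm_eq_abs, hσ, one_mul, ← smul_sub, norm_smul, Complex.norm_I, one_mul]
    refine (two_flow g1 g2 _ _ _).trans ?_
    have b1 := (hA s).bes hh R
    have b3 := (hA s).lp (star (U' (σ * t)) * U (σ * t)) ‖F‖ (g2.st.mul g1)
      ⟨hF0, fun s => by rw [dev_two g2]; exact norm_le_pi_norm F s⟩ h hh R
    have b4 := hd s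
    rw [← hat_Ad, ← hat_Ad] at b4
    rw [← hat_Ad] at b3
    have b5 : A * ‖op h‖ * ‖F‖ ≤ A * M * ‖F‖ := by gcongr
    have b6 : ‖op (Ad (κ R (FreeGroup.of s)) h)‖ * ‖F s‖ ≤ (2 * A * M) * ‖F‖ := by
      gcongr
      · exact b1.trans (by gcongr)
      · exact norm_le_pi_norm F s
    change _ * ‖F s‖ + _ ≤ _
    nlinarith

/-- The flow moves `w` close to `w` times the exponential. -/
lemma flow_w2 {β : FreeGroup S → RA (FreeGroup S)} {w : FreeGroup S} {ε : ℝ}
    (hh : Supp (C0 (cc S)) (hat h)) (hM : ‖op h‖ ≤ M) (hU : Flw β h U)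
    (hε : ‖Pj (single w 1 - β w) (hat h)‖ ≤ ε) :
    ‖U 1 (dl (io w)) - lam (io w) (NormedSpace.exp (Complex.I • op h) (dl 1))‖ ≤
      Real.exp (1 + M) * ε := by
  have hM0 : 0 ≤ M := (norm_nonneg _).trans hM
  have hin : ∀ t ∈ Set.Icc (0 : ℝ) 1, |t| ≤ 1 := fun t ht => by
    rw [abs_of_nonneg ht.1]; exact ht.2
  have key := gron (E := H (Lm S))
    (f := fun t => U t (dl (io w)) - lam (io w) (NormedSpace.exp (t • Complex.I • op h) (dl 1)))
    (f' := fun t => Complex.I • U t (op (Ad (β w) h) (dl (io w))) -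
      lam (io w) ((NormedSpace.exp (t • Complex.I • op h) * Complex.I • op h) (dl 1)))
    (K := 1 + M) (ε := ε) (by linarith) ((norm_nonneg _).trans hε) ?_ ?_ ?_
  · simpa using key
  · intro t ht
    exact (hU.der w t (hin t ht)).sub (der_exp _ _ _ t)
  · simp [hU.zero, lam_one]
  · intro t ht
    have g := hU.good t (hin t ht)
    set Z := NormedSpace.exp (t • Complex.I • op h) with hZ
    have hZm : Z ∈ LL (Lm S) := mem_LL.2 fun x =>
      Commute.exp_right (Commute.smul_right (Commute.smul_right (mem_LL.1 (op_mem h) x) _) _)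
    have e1 : U t (op (ad (io w) h) (dl (io w))) = th (U t) (io w) (op h (dl 1)) := by
      rw [op_ad]
      simp only [mul_ap, th, lam_dl, inv_mul_cancel]
      rw [show op h (dl 1) = hat h from rfl, g.st.fix' hh]
    have e2 : Complex.I • U t (op (Ad (β w) h) (dl (io w))) -
        lam (io w) ((Z * Complex.I • op h) (dl 1)) =
        Complex.I • ((th (U t) (io w) - lam (io w) * Z) (op h (dl 1)) -
          U t (op (Ad (single w 1 - β w) h) (dl (io w)))) := by
      rw [map_sub Ad, Ad_single, one_smul, LinearMap.sub_apply, map_sub op, sub_apply (op _),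
        map_sub (U t), e1]
      simp only [mul_ap, sub_apply, _root_.smul_apply, map_smul, smul_sub]
      abel
    have e3 := norm_mul_hat (sub_mem (g.th_mem (io w)) (mul_mem (lam_mem (io w)) hZm)) (op_mem h)
    rw [sub_apply _ _ (dl 1), g.th_one, mul_ap] at e3
    have e4 := norm_mul_hat (op_mem (Ad (single w 1 - β w) h)) (lam_mem (io w))
    rw [lam_one] at e4
    change _ ≤ ‖hat _‖ * _ at e4
    rw [hat_Ad] at e4
    rw [e2, norm_smul, Complex.norm_I, one_mul]
    refine (norm_sub_le _ _).trans ?_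
    rw [g.norm]
    have e7 := opNorm_lam (io w)
    have e8 := norm_nonneg (U t (dl (io w)) - lam (io w) (Z (dl 1)))
    nlinarith [norm_nonneg (Pj (single w 1 - β w) (hat h))]

/-- The flow almost fixes `x` if the cocycle is small at `x`. -/
lemma flow_fix {β : FreeGroup S → RA (FreeGroup S)} {x : FreeGroup S} {ε : ℝ} (hU : Flw β h U)
    (hε : ‖Pj (β x) (hat h)‖ ≤ ε) : ‖U 1 (dl (io x)) - dl (io x)‖ ≤ Real.exp 1 * ε := by
  have hin : ∀ t ∈ Set.Icc (0 : ℝ) 1, |t| ≤ 1 := fun t ht => by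
    rw [abs_of_nonneg ht.1]; exact ht.2
  refine gron (E := H (Lm S)) (f := fun t => U t (dl (io x)) - dl (io x))
    (f' := fun t => Complex.I • U t (op (Ad (β x) h) (dl (io x)))) le_rfl
    ((norm_nonneg _).trans hε) (fun t ht => (hU.der x t (hin t ht)).sub_const _)
    (by simp [hU.zero]) fun t ht => ?_
  have e4 := norm_mul_hat (op_mem (Ad (β x) h)) (lam_mem (io x))
  rw [lam_one] at e4
  change _ ≤ ‖hat _‖ * _ at e4
  rw [hat_Ad] at e4
  rw [norm_smul, Complex.norm_I, one_mul, (hU.good t (hin t ht)).norm]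
  have e7 := opNorm_lam (io x)
  nlinarith [norm_nonneg (Pj (β x) (hat h)), norm_nonneg (U t (dl (io x)) - dl (io x))]

lemma Ct.cauchy {q : ℕ → RA (FreeGroup S)} (hq : Ct A q) {ξ η : H (Lm S)} (hξ : Supp (N0 S) ξ)
    (hη : Supp (N0 S) η) {N j k : ℕ} (hj : N ≤ j) (hk : N ≤ k) :
    ‖Pj (q j) ξ - Pj (q k) η‖ ≤ A * ‖ξ - η‖ + 2 * (A * (1 / 2) ^ N * ‖η‖) := by
  obtain ⟨j, rfl⟩ := Nat.exists_eq_add_of_le hj
  obtain ⟨k, rfl⟩ := Nat.exists_eq_add_of_le hk
  have h1 := hq.bd (N + j) _ (hξ.sub hη)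
  have h2 := hq.ca N j _ hη
  have h3 := hq.ca N k _ hη
  have h4 : Pj (q (N + j)) ξ - Pj (q (N + k)) η = Pj (q (N + j)) (ξ - η) +
      ((Pj (q (N + j)) η - Pj (q N) η) - (Pj (q (N + k)) η - Pj (q N) η)) := by
    rw [map_sub]; abel
  rw [h4]
  refine (norm_add_le _ _).trans ?_
  have := norm_sub_le (Pj (q (N + j)) η - Pj (q N) η) (Pj (q (N + k)) η - Pj (q N) η)
  linarith

/-- Geometrically small sequences. -/
def Sm (q : ℕ → RA (FreeGroup S)) : Prop :=
  ∀ R ξ, Supp (N0 S) ξ → ‖Pj (q R) ξ‖ ≤ 2 * (1 / 2) ^ R * ‖ξ‖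

lemma geo (a b : ℝ) : Tendsto (fun n : ℕ => a * (2 * (1 / 2 : ℝ) ^ n * b)) atTop (𝓝 0) := by
  have := (((tendsto_pow_atTop_nhds_zero_of_lt_one (r := (1 / 2 : ℝ)) (by norm_num)
    (by norm_num)).const_mul 2).mul_const b).const_mul a
  simpa using this

theorem flex_lim (hD : DerStmt) (hF : FlowStmt) (hH : HseqStmt) [Fintype S] (hκ : ∀ R, Coc (κ R))
    (hct : ∀ s, ∃ A, Ct A fun R => κ R (FreeGroup.of s)) :
    ∃ P Q : Op (Lm S), P * Q = 1 ∧ Q * P = 1 ∧ star P = Q ∧ (∀ x, P * lam x * Q ∈ LL (Lm S)) ∧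
      (∀ k : ℤ, P (dl (cc S ^ k)) = dl (cc S ^ k)) ∧
      (∀ w, Sm (fun R => single w 1 - κ R w) → P (dl (io w)) = dl (io w * cc S)) ∧
      (∀ x, Sm (fun R => κ R x) → P (dl (io x)) = dl (io x)) ∧
      ∀ X, (∀ R, Inv (κ R) X) → ∀ ξ, Supp X ξ → Supp X (P ξ) ∧ Supp X (Q ξ) := by
  obtain ⟨A, hA0, hA⟩ := ct_max _ hct
  obtain ⟨M, h, hh, hc, hexp⟩ := hH (Lm S) (cc S) fun k => cc_zpow
  have hM0 : 0 ≤ M := (norm_nonneg _).trans (hh 0).2.2
  have hN : ∀ j, Supp (N0 S) (hat (h j)) := fun j => (hh j).1.mono C0_sub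
  have hMh : ∀ j, ‖hat (h j)‖ ≤ M := fun j => (norm_hat_le _).trans (hh j).2.2
  choose U hU hI using fun j => exists_fl2 hD hF (hκ j) (hh j).1 (hh j).2.1
  have hcd : ∀ ε > 0, ∃ N, ∀ j ≥ N, ∀ k ≥ N, ∀ s, ‖Pj (κ j (FreeGroup.of s)) (hat (h j)) -
      Pj (κ k (FreeGroup.of s)) (hat (h k))‖ ≤ ε := by
    intro ε hε
    obtain ⟨N, hN1⟩ := Metric.cauchySeq_iff.1 hc (ε / 2 / (A + 1)) (by positivity)
    obtain ⟨N', hN'⟩ := eventually_atTop.1 ((geo A M).eventually (gt_mem_nhds (half_pos hε)))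
    refine ⟨max N N', fun j hj k hk s => ?_⟩
    refine ((hA s).cauchy (hN j) (hN k) hj hk).trans ?_
    have h1 := hN1 j ((le_max_left _ _).trans hj) k ((le_max_left _ _).trans hk)
    have h2 := hN' _ (le_max_right N N')
    rw [dist_eq_norm, lt_div_iff₀ (by positivity)] at h1
    have h3 : A * (1 / 2) ^ max N N' * ‖hat (h k)‖ ≤ A * (1 / 2) ^ max N N' * M := by
      gcongr
      exact hMh k
    nlinarith [norm_nonneg (hat (h j) - hat (h k))]
  have lim : ∀ σ : ℝ, |σ| = 1 → ∃ L : Op (Lm S), (∀ ξ η, ⟪L ξ, L η⟫_ℂ = ⟪ξ, η⟫_ℂ) ∧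
      ∀ ξ, Tendsto (fun j => U j σ ξ) atTop (𝓝 (L ξ)) := by
    intro σ hσ
    have g := fun j => (hU j).good σ hσ.le
    have h1 : ∀ x, CauchySeq fun j => U j σ (dl x) := by
      intro x
      obtain ⟨c, hc0, hcx⟩ := dev_len x
      rw [Metric.cauchySeq_iff]
      intro ε hε
      set C := Real.exp (1 + 3 * A * M) with hC
      have hC0 : 0 ≤ C := (Real.exp_pos _).le
      obtain ⟨N, hN⟩ := hcd (ε / (c * C + 1)) (by positivity)
      refine ⟨N, fun j hj k hk => ?_⟩
      rw [dist_eq_norm]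
      have h3 := hcx _ _ ((g k).st.mul (g j)) (flows_close2 hA0 hA hσ (by positivity) (hh j).1
        (hh j).2.2 (hU j) (hU k) (hN j hj k hk))
      rw [dev_two (g k)] at h3
      refine h3.trans_lt ?_
      rw [← hC, ← mul_assoc, ← mul_div_assoc, div_lt_iff₀ (by positivity)]
      nlinarith
    choose u hu using fun x => cauchySeq_tendsto_of_complete (h1 x)
    have h2 : ∀ x y, ⟪u x, u y⟫_ℂ = ⟪dl x, dl y⟫_ℂ := fun x y => by
      refine tendsto_nhds_unique ((hu x).inner (hu y)) ?_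
      simp only [inner_of_star_mul_self (g _).l]
      exact tendsto_const_nhds
    have h3 : Orthonormal ℂ u := by
      classical
      rw [orthonormal_iff_ite]
      intro x y
      rw [h2]
      exact orthonormal_iff_ite.1 orthonormal_dl x y
    exact ⟨ofON u h3, ofON_inner _ _, strong_of_dl (fun j => (g j).norm) (ofON_norm _ _)
      fun x => by rw [ofON_dl]; exact hu x⟩
  obtain ⟨P, hP, hPl⟩ := lim 1 abs_one
  obtain ⟨Q, hQ, hQl⟩ := lim (-1) (by simp)
  have g := fun j => (hU j).good 1 abs_one.le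
  have g' := fun j => (hU j).good (-1) (by simp)
  have st : ∀ j, U j (-1) = star (U j 1) := fun j => ((hU j).st 1 abs_one.le).symm
  have hPQ : P * Q = 1 := by
    ext1 ξ
    refine tendsto_nhds_unique (strong_ap (fun j => (g j).norm) hPl (hQl ξ)) ?_
    simp only [st, (g _).ra]
    exact tendsto_const_nhds
  have hQP : Q * P = 1 := by
    ext1 ξ
    refine tendsto_nhds_unique (strong_ap (fun j => (g' j).norm) hQl (hPl ξ)) ?_
    simp only [st, (g _).la]
    exact tendsto_const_nhds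
  have hsm : ∀ q : ℕ → RA (FreeGroup S), Sm q → ∀ j,
      ‖Pj (q j) (hat (h j))‖ ≤ 2 * (1 / 2) ^ j * M := fun q hq j =>
    (hq j _ (hN j)).trans (by gcongr; exact hMh j)
  refine ⟨P, Q, hPQ, hQP, star_eq_of_inner hP hPQ, fun x => ?_, fun k => ?_, fun w hw => ?_,
    fun x hx => ?_, fun X hX ξ hξ => ⟨?_, ?_⟩⟩
  · refine mem_LL_of_tendsto (l := atTop) (fun j => (g j).th_mem x) fun ξ => ?_
    have := strong_ap (fun j => (g j).norm) hPl (((lam x).continuous.tendsto _).comp (hQl ξ))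
    simp only [st] at this
    exact this
  · refine tendsto_nhds_unique (hPl _) ?_
    simp only [(g _).fix]
    exact tendsto_const_nhds
  · rw [← lam_dl]
    refine tendsto_nhds_unique (hPl _) ?_
    have h1 := ((lam (io w)).continuous.tendsto _).comp hexp
    have h2 : Tendsto (fun j => U j 1 (dl (io w)) -
        lam (io w) (NormedSpace.exp (Complex.I • op (h j)) (dl 1))) atTop (𝓝 0) :=
      squeeze_zero_norm (fun j => flow_w2 (hh j).1 (hh j).2.2 (hU j) (hsm _ hw j)) (geo _ _)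
    simpa using h2.add h1
  · refine tendsto_nhds_unique (hPl _) ?_
    have h2 : Tendsto (fun j => U j 1 (dl (io x)) - dl (io x)) atTop (𝓝 0) :=
      squeeze_zero_norm (fun j => flow_fix (hU j) (hsm _ hx j)) (geo _ _)
    simpa using h2.add_const (dl (io x))
  · exact (isClosed_supp X).mem_of_tendsto (hPl ξ)
      (Eventually.of_forall fun j => hI j X (hX j) 1 abs_one.le ξ hξ)
  · exact (isClosed_supp X).mem_of_tendsto (hQl ξ)
      (Eventually.of_forall fun j => hI j X (hX j) (-1) (by simp) ξ hξ)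

end

end Pool.Agent.MP_494aff_an.Pinch

end MrgPart2

-- ======== part 3: formerly Pool.Agent.MP_494aff_an.pinch.MRes
section MrgPart3

/-! Restriction to a subgroup and the flexible automorphism for several ports. -/

open scoped InnerProductSpace ComplexConjugate
open MonoidAlgebra (single)

namespace Pool.Agent.MP_494aff_an.Pinch

noncomputable section

section Res

variable {G G' : Type} [Group G] [Group G'] {f : G →* G'} (hf : Function.Injective f)

/-- The compression of an operator to a subgroup. -/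
def res (m : Op G') : Op G := ContinuousLinearMap.adjoint (emb f hf) ∘L m ∘L emb f hf

/-- `m` preserves the vectors supported in the image of `f`. -/
def Pres (f : G →* G') (m : Op G') : Prop := ∀ ξ, Supp (f.range : Set G') ξ → Supp f.range (m ξ)

lemma res_ap (m : Op G') (ξ : H G) :
    res hf m ξ = ContinuousLinearMap.adjoint (emb f hf) (m (emb f hf ξ)) := rfl

lemma adj_coef (η : H G') (x : G) : ContinuousLinearMap.adjoint (emb f hf) η x = η (f x) := by
  rw [← inner_dl, ContinuousLinearMap.adjoint_inner_right, emb_dl, inner_dl]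

lemma adj_emb (ξ : H G) : ContinuousLinearMap.adjoint (emb f hf) (emb f hf ξ) = ξ := by
  ext x
  rw [adj_coef, emb_coef]

lemma supp_emb' (ξ : H G) : Supp (f.range : Set G') (emb f hf ξ) :=
  (supp_emb f hf (supp_univ ξ)).mono (by rintro _ ⟨x, -, rfl⟩; exact ⟨x, rfl⟩)

lemma emb_adj {η : H G'} (h : Supp (f.range : Set G') η) :
    emb f hf (ContinuousLinearMap.adjoint (emb f hf) η) = η := by
  ext y
  by_cases hy : y ∈ f.range
  · obtain ⟨x, rfl⟩ := hy
    rw [emb_coef, adj_coef]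
  · rw [supp_emb' hf _ y hy, h y hy]

lemma res_mul (m : Op G') {n : Op G'} (hn : Pres f n) : res hf (m * n) = res hf m * res hf n := by
  ext1 ξ
  rw [mul_ap, res_ap, res_ap, res_ap, emb_adj hf (hn _ (supp_emb' hf ξ)), mul_ap]

lemma res_one : res hf 1 = 1 := by
  ext1 ξ
  rw [res_ap, one_ap, adj_emb, one_ap]

lemma res_star (m : Op G') : star (res hf m) = res hf (star m) := by
  simp only [res, ContinuousLinearMap.star_eq_adjoint, ContinuousLinearMap.adjoint_comp,
    ContinuousLinearMap.adjoint_adjoint, ContinuousLinearMap.comp_assoc]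

lemma res_dl {m : Op G'} {x y : G} (h : m (dl (f x)) = dl (f y)) : res hf m (dl x) = dl y := by
  rw [res_ap, emb_dl, h, ← emb_dl f hf, adj_emb]

lemma res_lam (g : G) : res hf (lam (f g)) = lam g :=
  op_ext fun x => by rw [lam_dl]; exact res_dl hf (by rw [lam_dl, map_mul])

lemma res_rho (g : G) : res hf (rho (f g)) = rho g :=
  op_ext fun x => by rw [rho_dl]; exact res_dl hf (by rw [rho_dl, map_mul, map_inv])

lemma pres_lam (g : G) : Pres f (lam (f g)) :=
  fun _ h => supp_lam _ h fun _ hy => f.range.mul_mem ⟨g, rfl⟩ hy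

lemma pres_rho (g : G) : Pres f (rho (f g)) :=
  fun _ h => supp_rho _ h fun _ hy => f.range.mul_mem hy (f.range.inv_mem ⟨g, rfl⟩)

lemma Pres.mul {m n : Op G'} (hm : Pres f m) (hn : Pres f n) : Pres f (m * n) :=
  fun ξ h => hm _ (hn ξ h)

lemma pres_LL {m : Op G'} (hm : m ∈ LL G') (h : Supp (f.range : Set G') (m (dl 1))) : Pres f m :=
  fun _ hξ => supp_LL hm h hξ fun _ hx _ hy => f.range.mul_mem hx hy

lemma pres_star {m : Op G'} (hm : m ∈ LL G') (h : Supp (f.range : Set G') (m (dl 1))) :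
    Pres f (star m) :=
  pres_LL (star_mem hm) fun y hy => by
    rw [star_coef hm, h _ fun hy' => hy (inv_mem_iff.1 hy'), map_zero]

lemma res_mem {m : Op G'} (hm : m ∈ LL G') (hp : Pres f m) : res hf m ∈ LL G :=
  mem_LL.2 fun g => by
    rw [← res_rho hf, ← res_mul hf _ hp, ← res_mul hf _ (pres_rho g), mem_LL.1 hm]

lemma exists_gen_unit {P Q : Op G} (hPQ : P * Q = 1) (hQP : Q * P = 1) (hst : star P = Q)
    (hm : ∀ x, P * lam x * Q ∈ LL G) (h1 : P (dl 1) = dl 1) :
    ∃ α : G →* Op G, Gen α ∧ (∀ x, α x = P * lam x * Q) ∧ ∀ x, α x (dl 1) = P (dl x) := by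
  have hQ1 : Q (dl 1) = dl 1 := by rw [← h1, ← mul_ap, hQP, one_ap, h1]
  let α : G →* Op G :=
    { toFun := fun x => P * lam x * Q
      map_one' := by simp [hPQ]
      map_mul' := fun x y => by
        rw [map_mul]
        calc _ = P * lam x * (Q * P) * lam y * Q := by rw [hQP]; simp only [mul_one, mul_assoc]
          _ = _ := by simp only [mul_assoc] }
  have hα : ∀ x, α x (dl 1) = P (dl x) := fun x => by
    show P (lam x (Q (dl 1))) = _
    rw [hQ1, lam_one]
  refine ⟨α, ⟨hm, fun x => ?_, fun x hx => ?_, ?_⟩, fun _ => rfl, hα⟩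
  · show star (P * lam x * Q) = P * lam x⁻¹ * Q
    rw [← hst, star_mul, star_mul, star_star, star_lam, mul_assoc]
  · rw [hα, ← inner_dl, ← h1, inner_of_star_mul_self (by rw [hst, hQP]), inner_dl]
    exact dl_ne hx.symm
  · simp only [hα]
    have h1 : Function.Surjective P := fun ξ => ⟨Q ξ, by rw [← mul_ap, hPQ, one_ap]⟩
    refine (h1.denseRange.dense_image P.continuous dense_dl).mono ?_
    rintro _ ⟨ξ, hξ, rfl⟩
    have := Submodule.apply_mem_span_image_of_mem_span (P : H G →ₗ[ℂ] H G) hξ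
    rwa [← Set.range_comp] at this

/-- The left coset of `g`. -/
def Cs (R : Subgroup G) (g : G) : Set G := {z | g⁻¹ * z ∈ R}

lemma der_cs {D : CA G →ₗ[ℂ] CA G} (hD : ∀ x y, D (x * y) = D x * y + x * D y) {R : Subgroup G}
    {g r : G} (hr : r ∈ R) (h1 : Supp (Cs R g) (hat (D (single g 1))))
    (h2 : Supp (R : Set G) (hat (D (single r 1)))) :
    Supp (Cs R g) (hat (D (single (g * r) 1))) := by
  rw [← mul_one (1 : ℂ), ← MonoidAlgebra.single_mul_single, hD, hat_add, hat_mul, hat_mul,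
    hat_single_one, op_single_one]
  refine (supp_LL (Y := {r}) (op_mem _) h1 (supp_dl rfl) ?_).add (supp_lam _ h2 ?_)
  · rintro x hx _ rfl
    show _ ∈ R
    rw [← mul_assoc]
    exact R.mul_mem hx hr
  · intro y hy
    show _ ∈ R
    rwa [inv_mul_cancel_left]

lemma cs_mem {R : Subgroup G} {r : G} (hr : r ∈ R) : Cs R r = R := by
  ext z
  exact R.mul_mem_cancel_left (R.inv_mem hr)

lemma der_inv {D : CA G →ₗ[ℂ] CA G} (hD : ∀ x y, D (x * y) = D x * y + x * D y) {R : Subgroup G}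
    {r : G} (hr : r ∈ R) (h1 : D (single 1 1) = 0) (h2 : Supp (R : Set G) (hat (D (single r 1)))) :
    Supp (R : Set G) (hat (D (single r⁻¹ 1))) := by
  have h3 := congrArg hat (hD (single r 1) (single r⁻¹ 1))
  rw [MonoidAlgebra.single_mul_single, mul_inv_cancel, mul_one, h1, hat_zero, hat_add, hat_mul,
    hat_mul, hat_single_one, op_single_one, eq_comm, add_eq_zero_iff_neg_eq] at h3
  have h4 : hat (D (single r⁻¹ 1)) = lam r⁻¹ (lam r (hat (D (single r⁻¹ 1)))) := by
    rw [← mul_ap, ← map_mul, inv_mul_cancel, map_one, one_ap]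
  rw [h4, ← h3]
  refine supp_lam (Y := R) _ (Supp.neg (supp_LL (Y := {r⁻¹}) (op_mem _) h2 (supp_dl rfl) ?_))
    fun y hy => R.mul_mem (R.inv_mem hr) hy
  rintro x hx _ rfl
  exact R.mul_mem hx (R.inv_mem hr)

end Res

variable {S ι : Type}

/-- The inclusion induced by the inclusion of the letters. -/
def em (S ι : Type) : Lm S →* Lm (S ⊕ ι) := FreeGroup.map (Option.map Sum.inl)

lemma em_inj : Function.Injective (em S ι) :=
  FreeGroup.map_injective (Option.map_injective Sum.inl_injective)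

lemma em_mem (r : Lm S) : em S ι r ∈ (em S ι).range := ⟨r, rfl⟩

lemma em_cc : em S ι (cc S) = cc (S ⊕ ι) := rfl

lemma em_io (x : FreeGroup S) : em S ι (io x) = io (FreeGroup.map Sum.inl x) := by
  have : (em S ι).comp io = io.comp (FreeGroup.map Sum.inl) := by
    ext s
    rfl
  exact DFunLike.congr_fun this x

lemma inP_zero : InP (0 : RA (FreeGroup (S ⊕ ι))) := fun _ h => (h rfl).elim

lemma InP.add {a b : RA (FreeGroup (S ⊕ ι))} (ha : InP a) (hb : InP b) : InP (a + b) := by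
  intro x hx
  by_contra h
  exact hx (by
    rw [MonoidAlgebra.coeff_add, Finsupp.add_apply, not_not.1 (mt (ha x) h),
      not_not.1 (mt (hb x) h), add_zero])

lemma InP.mul {a b : RA (FreeGroup (S ⊕ ι))} (ha : InP a) (hb : InP b) : InP (a * b) := by
  classical
  intro x hx
  obtain ⟨y, hy, z, hz, rfl⟩ := Finset.mem_mul.1
    (MonoidAlgebra.support_coeff_mul_subset a b (Finsupp.mem_support_iff.2 hx))
  exact mul_mem (ha y (Finsupp.mem_support_iff.1 hy)) (hb z (Finsupp.mem_support_iff.1 hz))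

lemma inP_sum {κ : Type} (s : Finset κ) (f : κ → RA (FreeGroup (S ⊕ ι))) (h : ∀ j, InP (f j)) :
    InP (∑ j ∈ s, f j) :=
  Finset.sum_induction f InP (fun _ _ => InP.add) inP_zero fun j _ => h j

lemma inP_single (x : FreeGroup S) :
    InP (single (FreeGroup.map Sum.inl x) 1 : RA (FreeGroup (S ⊕ ι))) := by
  intro y hy
  rw [MonoidAlgebra.coeff_single] at hy
  exact ⟨x, (Finsupp.single_apply_ne_zero.1 hy).1.symm⟩

lemma supp_Ad {ζ : RA (FreeGroup (S ⊕ ι))} (hζ : InP ζ) {h : CA (Lm (S ⊕ ι))}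
    (hh : Supp (C0 (cc (S ⊕ ι))) (hat h)) : Supp ((em S ι).range : Set _) (hat (Ad ζ h)) := by
  rw [hat_Ad, ra_sum ζ, map_sum, _root_.sum_apply]
  refine supp_sum _ _ fun y hy => ?_
  obtain ⟨x, rfl⟩ := hζ y (Finsupp.mem_support_iff.1 hy)
  rw [Pj_single, _root_.smul_apply]
  refine Supp.rsmul (supp_map _ ?_ hh) _
  rintro _ ⟨k, -, rfl⟩
  rw [cj_dl]
  exact supp_dl ⟨io x * cc S ^ k * (io x)⁻¹, by simp only [map_mul, map_inv, map_zpow, em_io, em_cc]⟩

lemma inv_cs {κ : FreeGroup (S ⊕ ι) → RA (FreeGroup (S ⊕ ι))}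
    (hκ : ∀ s, InP (κ (FreeGroup.of (Sum.inl s)))) {x : FreeGroup (S ⊕ ι)}
    {ζ : RA (FreeGroup (S ⊕ ι))} (hζ : InP ζ) (hx : x = 1 ∨ κ x = single x 1 * ζ) :
    Inv κ (Cs (em S ι).range (io x)) := by
  intro h D hh hD h1 h2
  have h0 : D (single 1 1) = 0 := by simpa using h1 0
  have h3 : ∀ r : Lm S, Supp ((em S ι).range : Set _) (hat (D (single (em S ι r) 1))) := by
    intro r
    induction r using FreeGroup.induction_on with
    | C1 => rw [map_one, h0, hat_zero]; exact supp_zero _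
    | of o =>
      rcases o with _ | s
      · have := h1 1
        rw [zpow_one] at this
        show Supp _ (hat (D (single (cc _) 1)))
        rw [this, hat_zero]
        exact supp_zero _
      · show Supp _ (hat (D (single (io (FreeGroup.of (Sum.inl s))) 1)))
        rw [h2, hat_smul, hat_mul, hat_single_one]
        refine Supp.smul (supp_LL (Y := (em S ι).range) (op_mem _) (supp_Ad (hκ s) hh)
          (supp_dl (em_mem (FreeGroup.of (some s)))) fun _ hx _ hy => mul_mem hx hy) _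
    | inv_of o ih => rw [map_inv]; exact der_inv hD (em_mem _) h0 ih
    | mul a b ha hb =>
      have := der_cs hD (g := em S ι a) (em_mem b) (by rwa [cs_mem (em_mem a)]) hb
      rwa [cs_mem (em_mem a), ← map_mul] at this
  have h4 : Supp (Cs (em S ι).range (io x)) (hat (D (single (io x) 1))) := by
    rcases hx with rfl | hx
    · rw [map_one, h0, hat_zero]; exact supp_zero _
    · rw [h2, hx, map_mul, Ad_single, one_smul, Module.End.mul_apply, ad_apply, mul_assoc,
        MonoidAlgebra.single_mul_single, inv_mul_cancel, mul_one, ← MonoidAlgebra.one_def, mul_one,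
        hat_smul, hat_mul, op_single_one]
      refine Supp.smul (supp_lam _ (supp_Ad hζ hh) fun y hy => ?_) _
      show _ ∈ (em S ι).range
      rwa [inv_mul_cancel_left]
  rintro g ⟨r, hr⟩
  have := der_cs hD (em_mem r) h4 (h3 r)
  rwa [hr, mul_inv_cancel_left] at this

theorem mflex_of (hG : MGapStmt) (hD : DerStmt) (hF : FlowStmt) (hH : HseqStmt) : MFlexStmt := by
  classical
  intro S ι _ _ w i0 hw
  cases nonempty_fintype S
  cases nonempty_fintype ι
  obtain ⟨β, X, hβ, hβw, hX, hXP, hβP, hβQ⟩ := hG S ι w i0 hw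
  let e : ι → RA (FreeGroup (S ⊕ ι)) := fun i =>
    if i = i0 then single (FreeGroup.map Sum.inl (w i0)) 1 else 0
  have he : ∀ i ξ, ‖Pj (e i) ξ‖ ≤ ‖ξ‖ := fun i ξ => by
    simp only [e]
    split_ifs
    · exact (Pj_w _ _).le
    · simp
  have hX' := mhalf hX
  let κ : ℕ → FreeGroup (S ⊕ ι) → RA (FreeGroup (S ⊕ ι)) := fun R x => ∑ j, β j x * mq e X R j
  have hκ : ∀ R, Coc (κ R) := fun R x y => by
    simp only [κ, hβ _ x y, add_mul, mul_assoc, Finset.sum_add_distrib, Finset.mul_sum]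
  have hq : ∀ R j, InP (mq e X R j) := by
    intro R
    induction R with
    | zero => exact fun _ => inP_zero
    | succ R ih =>
      refine fun i => InP.add ?_ (inP_sum _ _ fun j => (hXP i j).mul (ih j))
      simp only [e]
      split_ifs
      · exact inP_single _
      · exact inP_zero
  have hκP : ∀ R s, InP (κ R (FreeGroup.of (Sum.inl s))) := fun R s =>
    inP_sum _ _ fun j => (hβP j s).mul (hq R j)
  have hκw : ∀ R i, κ R (sl S i0 i * FreeGroup.map Sum.inl (w i) * (sl S i0 i)⁻¹) =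
      single (sl S i0 i) 1 * (e i - (mq e X (R + 1) i - mq e X R i)) := fun R i => by
    simp only [κ, hβw]
    simp only [mul_assoc, ← Finset.mul_sum, sub_mul, Finset.sum_sub_distrib, ite_mul,
      one_mul, zero_mul, Finset.sum_ite_eq, Finset.mem_univ, if_true, mq]
    congr 1
    abel
  have hsm : ∀ i, Sm fun R => mq e X (R + 1) i - mq e X R i := fun i R ξ hξ => by
    rw [map_sub, sub_apply]
    exact mq_ca hX' he hξ R 1 i
  obtain ⟨P, Q, hPQ, hQP, hst, hm, hc, h1, h2, hI⟩ := flex_lim hD hF hH hκ fun s =>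
    ct_sum _ _ fun j => by
      obtain ⟨A, hA⟩ := mq_ct hX' he j
      exact hA.mul _
  have hP1 : P (dl 1) = dl 1 := by simpa using hc 0
  obtain ⟨α, hα, hα1, hα2⟩ := exists_gen_unit hPQ hQP hst hm hP1
  have hR : ∀ ξ, Supp ((em S ι).range : Set _) ξ →
      Supp (em S ι).range (P ξ) ∧ Supp (em S ι).range (Q ξ) := by
    have := hI _ fun R => inv_cs (hκP R) inP_zero (Or.inl rfl)
    rwa [map_one, cs_mem (one_mem _)] at this
  have hPP : Pres (em S ι) P := fun ξ hξ => (hR ξ hξ).1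
  have hPQ' : Pres (em S ι) Q := fun ξ hξ => (hR ξ hξ).2
  have hres : ∀ x, res em_inj P * lam x * res em_inj Q = res em_inj (α (em S ι x)) := fun x => by
    rw [hα1, res_mul _ _ hPQ', res_mul _ _ (pres_lam x), res_lam]
  obtain ⟨α0, g0, a1, a2⟩ := exists_gen_unit (P := res em_inj P) (Q := res em_inj Q)
    (by rw [← res_mul _ _ hPQ', hPQ, res_one]) (by rw [← res_mul _ _ hPP, hQP, res_one])
    (by rw [res_star, hst])
    (fun x => by
      rw [hres]
      refine res_mem _ (hα.mem _) ?_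
      rw [hα1]
      exact (hPP.mul (pres_lam x)).mul hPQ')
    (res_dl _ (by rwa [map_one]))
  have c1 : α0 (cc S) = lam (cc S) := by
    refine LL_ext (g0.mem _) (lam_mem _) ?_
    rw [a2, lam_one]
    exact res_dl _ (by simpa [em_cc] using hc 1)
  have c2 : α0 (io (w i0)) = lam (io (w i0) * cc S) := by
    refine LL_ext (g0.mem _) (lam_mem _) ?_
    rw [a2, lam_one]
    refine res_dl _ ?_
    rw [map_mul, em_io, em_cc]
    refine h1 _ ?_
    have := hsm i0
    have h3 := fun R => hκw R i0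
    simp only [sl, if_true, one_mul, inv_one, mul_one, e, ← MonoidAlgebra.one_def] at h3
    simpa only [h3, sub_sub_cancel] using this
  refine ⟨α0, g0, ?_, ?_⟩
  · refine lm_ext (φ := α0.comp _) (ψ := lam.comp _) ?_ ?_
    · simp [pr_cc, c1]
    · simp only [MonoidHom.comp_apply, pr_io]
      rw [map_mul, c2, ← g0.star_eq, c1, star_lam, ← map_mul, mul_inv_cancel_right]
  · rintro ⟨i, hi⟩
    set s : Lm (S ⊕ ι) := io (FreeGroup.of (Sum.inr i)) with hs
    have h3 : α (s * em S ι (io (w i)) * s⁻¹) = lam (s * em S ι (io (w i)) * s⁻¹) := by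
      refine LL_ext (hα.mem _) (lam_mem _) ?_
      rw [hα2, lam_one, em_io, hs, ← map_inv, ← map_mul, ← map_mul]
      refine h2 _ fun R ξ hξ => ?_
      have h4 := hκw R i
      simp only [sl, if_neg hi, e, zero_sub] at h4
      simp only [h4]
      rw [map_mul, mul_ap, Pj_w, map_neg, _root_.neg_apply, norm_neg]
      exact hsm i R ξ hξ
    choose ζ hζ1 hζ2 using fun j => hβQ j i
    have h4 := (hI _ (fun R => inv_cs (hκP R) (inP_sum Finset.univ _ fun j => (hζ1 j).mul (hq R j))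
      (x := FreeGroup.of (Sum.inr i)) (Or.inr (by
        simp only [κ, hζ2, mul_assoc, Finset.mul_sum]))) (dl s)
        (supp_dl (by show _ ∈ (em S ι).range; rw [inv_mul_cancel]; exact one_mem _))).1
    have hv : lam s⁻¹ * α s ∈ LL (Lm (S ⊕ ι)) := mul_mem (lam_mem _) (hα.mem _)
    have h5 : Supp ((em S ι).range : Set _) ((lam s⁻¹ * α s) (dl 1)) := by
      rw [mul_ap, hα2]
      exact supp_lam _ h4 fun y hy => hy
    have p1 := pres_LL hv h5
    have p2 := pres_star hv h5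
    have e1 : star (lam s⁻¹ * α s) = α s⁻¹ * lam s := by
      rw [star_mul, hα.star_eq, star_lam, inv_inv]
    refine ⟨res em_inj (star (lam s⁻¹ * α s)), ⟨res_mem _ (star_mem hv) p2, ?_, ?_⟩, ?_⟩
    · rw [res_star, ← res_mul _ _ p2, star_star, e1, mul_assoc, ← mul_assoc (α s), ← map_mul,
        mul_inv_cancel, map_one, one_mul, ← map_mul, inv_mul_cancel, map_one, res_one]
    · rw [res_star, star_star, ← res_mul _ _ p1, e1, mul_assoc, ← mul_assoc (lam s), ← map_mul,
        mul_inv_cancel, map_one, one_mul, ← map_mul, inv_mul_cancel, map_one, res_one]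
    · rw [a1, hres, res_star, star_star, ← res_lam em_inj (io (w i)), ← res_mul _ _ (pres_lam _),
        ← res_mul _ _ p1, e1]
      congr 1
      calc _ = α s⁻¹ * α (s * em S ι (io (w i)) * s⁻¹) * α s := by
            rw [← map_mul, ← map_mul]; congr 1; group
        _ = _ := by rw [h3, map_mul, map_mul]; simp only [mul_assoc]

end

end Pool.Agent.MP_494aff_an.Pinch

end MrgPart3

-- ======== part 4: formerly Pool.Agent.MP_494aff_an.pinch.MGap
section MrgPart4

/-! The gap for several ports. -/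

open MonoidAlgebra (single)

namespace Pool.Agent.MP_494aff_an.Pinch

noncomputable section

namespace MGap

/-- Ping-pong with two families of sets. -/
lemma pp2 {G ι : Type} (s : Finset ι) (T : ι → Op G) (E E' : ι → Set G) (Z : Set G) (ξ : H G)
    (hT : ∀ i η, ‖T i η‖ ≤ ‖η‖) (hE : ∀ i ∈ s, ∀ j ∈ s, i ≠ j → Disjoint (E i) (E j))
    (hE' : ∀ i ∈ s, ∀ j ∈ s, i ≠ j → Disjoint (E' i) (E' j))
    (hS : ∀ i η, Supp (Z \ E i) η → Supp (E' i) (T i η)) (hξ : Supp Z ξ) :
    ‖∑ i ∈ s, T i ξ‖ ≤ 2 * √s.card * ‖ξ‖ := by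
  have h0 : ∑ i ∈ s, T i ξ =
      ∑ i ∈ s, T i (ξ - cut (E i) ξ) + ∑ i ∈ s, T i (cut (E i) ξ) := by
    rw [← Finset.sum_add_distrib]
    refine Finset.sum_congr rfl fun i _ => ?_
    rw [← map_add, sub_add_cancel]
  have h1 : ‖∑ i ∈ s, T i (ξ - cut (E i) ξ)‖ ≤ √s.card * ‖ξ‖ := by
    refine abs_le_of_sq_le_sq' ?_ (by positivity) |>.2
    rw [norm_sq_sum s _ E' hE' fun i _ => hS i _ (supp_sub_cut hξ), mul_pow,
      Real.sq_sqrt (Nat.cast_nonneg _), ← nsmul_eq_mul]
    refine Finset.sum_le_card_nsmul _ _ _ fun i _ => ?_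
    exact pow_le_pow_left₀ (norm_nonneg _) ((hT i _).trans (norm_sub_cut_le _ _)) 2
  have h2 : ‖∑ i ∈ s, T i (cut (E i) ξ)‖ ≤ √s.card * ‖ξ‖ := by
    refine (norm_sum_le _ _).trans ((Finset.sum_le_sum fun i _ => hT i _).trans ?_)
    have h3 := Real.sum_mul_le_sqrt_mul_sqrt s (fun _ => (1 : ℝ)) fun i => ‖cut (E i) ξ‖
    have h4 : √(∑ i ∈ s, ‖cut (E i) ξ‖ ^ 2) ≤ ‖ξ‖ :=
      Real.sqrt_le_iff.2 ⟨norm_nonneg _, sum_cut_le s E hE ξ⟩
    simp only [one_mul, one_pow, Finset.sum_const, nsmul_eq_mul, mul_one] at h3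
    exact h3.trans (by gcongr)
  rw [h0]
  refine (norm_add_le _ _).trans ?_
  linarith

lemma pow_ne {i j : ℕ} (hij : i ≠ j) :
    (FreeGroup.of () : FreeGroup Unit) ^ j * (FreeGroup.of () ^ i)⁻¹ ≠ 1 := by
  intro h1
  rw [mul_inv_eq_one] at h1
  have h2 := congrArg (FreeGroup.lift fun _ : Unit => Multiplicative.ofAdd (1 : ℤ)) h1
  simp only [map_pow, FreeGroup.lift_apply_of] at h2
  have h3 := congrArg Multiplicative.toAdd h2
  simp only [toAdd_ofAdd, toAdd_pow, nsmul_eq_mul, mul_one, Nat.cast_inj] at h3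
  exact hij h3.symm

/-- The sum of the quotients of the powers of a free pair is small on the kernel. -/
lemma avg2 {S : Type} {a b : FreeGroup S} (h : Function.Injective (pr a b)) (K : ℕ)
    {ξ : H (Lm S)} (hξ : Supp (N0 S) ξ) :
    ‖∑ k ∈ Finset.range K, cj (io ((a ^ k)⁻¹ * b ^ k)) ξ‖ ≤ 2 * √K * ‖ξ‖ := by
  classical
  obtain ⟨E, hE1, hE2⟩ := word Unit
  let φ : Lm Unit →* Lm S := io.comp (pr a b)
  let A : Lm Unit →* Equiv.Perm (Lm S) := (MulAut.toPerm (Lm S)).comp (MulAut.conj.comp φ)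
  have hA : ∀ γ z, A γ z = φ γ * z * (φ γ)⁻¹ := fun _ _ => rfl
  obtain ⟨ψ, hψ⟩ := exists_equivariant A (N0 S) fun γ z hz hγ => by
    by_contra hne
    refine conj_ne kl (x := φ γ) ?_ hz.1 hz.2 hγ
    intro h1
    refine hne (h ?_)
    rw [map_one, ← h1]
    exact (kl_io _).symm
  let t : FreeGroup Unit := FreeGroup.of ()
  have key := pp2 (Finset.range K) (fun k => cj (io ((a ^ k)⁻¹ * b ^ k)))
    (fun k => {z | io t ^ k * ψ z ∈ E}) (fun k => {z | cc Unit ^ k * ψ z ∉ E}) (N0 S) ξ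
    (fun k η => (cj_norm _ η).le)
    (fun i _ j _ hij => by
      rw [Set.disjoint_left]
      intro z hi hj
      refine hE2 _ (pow_ne hij) _ hi ?_
      have hj' : io t ^ j * ψ z ∈ E := hj
      simpa [t, mul_assoc] using hj')
    (fun i _ j _ hij => by
      rw [Set.disjoint_left]
      intro z hi hj
      have := hE1 _ hi ((j : ℤ) - i) (by omega)
      refine hj ?_
      rwa [← mul_assoc, ← zpow_natCast, ← zpow_add, sub_add_cancel, zpow_natCast] at this)
    (fun k η hη => by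
      refine supp_map _ (fun z hz => ?_) hη
      rw [cj_dl]
      refine supp_dl ?_
      have e : io ((a ^ k)⁻¹ * b ^ k) = φ ((cc Unit ^ k)⁻¹ * io t ^ k) := by
        simp only [φ, t, MonoidHom.comp_apply, map_mul, map_inv, map_pow, pr_cc, pr_io]
      show cc Unit ^ k * ψ _ ∉ E
      rw [e, ← hA, hψ _ z hz.1, ← mul_assoc, mul_inv_cancel_left]
      exact hz.2) hξ
  simpa using key

section Alg

variable {G ι : Type} [Group G]

lemma unit_of_prim {w z : G} (hw : Prim w) {n : ℤ} (h : w = z ^ n) : w = z ∨ w = z⁻¹ := by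
  obtain ⟨k, rfl | rfl⟩ := Int.eq_nat_or_neg n
  · rw [zpow_natCast] at h
    rcases k with _ | _ | k
    · exact (hw 1 2 le_rfl (by simp [h])).elim
    · exact Or.inl (by simpa using h)
    · exact (hw z _ (by omega) h.symm).elim
  · rw [zpow_neg, zpow_natCast, ← inv_pow] at h
    rcases k with _ | _ | k
    · exact (hw 1 2 le_rfl (by simp [h])).elim
    · exact Or.inr (by simpa using h)
    · exact (hw z⁻¹ _ (by omega) h.symm).elim

lemma free_of_mal {S : Type} {w : ι → FreeGroup S} (hw : Mal w) {i j : ι} (hij : i ≠ j)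
    (q : FreeGroup S) : Function.Injective (pr (q⁻¹ * w i * q) (w j)) := by
  refine (pair S _ _).resolve_left ?_
  rintro ⟨z, ⟨m, hm⟩, n, hn⟩
  have h1 : Prim (q⁻¹ * w i * q) := fun y k hk h => hw.1 i (q * y * q⁻¹) k hk (by
    rw [conj_pow, h]; group)
  have hc : IsConj (w i) (q⁻¹ * w i * q) := isConj_iff.2 ⟨q⁻¹, by rw [inv_inv]⟩
  rcases unit_of_prim h1 hm.symm with h2 | h2 <;>
    rcases unit_of_prim (w := w j) (hw.1 j) hn.symm with h3 | h3
  · exact (hw.2 i j hij).1 (by rwa [h2, ← h3] at hc)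
  · exact (hw.2 i j hij).2 (by rwa [h2, ← inv_inv z, ← h3] at hc)
  · exact (hw.2 i j hij).2 (by rwa [h2, ← h3] at hc)
  · exact (hw.2 i j hij).1 (by rwa [h2, ← h3] at hc)

/-- The values at the ports of the cocycles, up to the letters. -/
def Mod (w : ι → G) (i0 : ι) : Submodule ℝ (ι → RA G) where
  carrier := {v | ∃ (β : G → RA G) (ζ : ι → RA G), Coc β ∧ ζ i0 = 0 ∧
    ∀ i, v i = β (w i) + (1 - single (w i) 1) * ζ i}
  zero_mem' := ⟨0, 0, fun _ _ => by simp, rfl, fun _ => by simp⟩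
  add_mem' := by
    rintro _ _ ⟨β, ζ, hβ, hζ, h⟩ ⟨β', ζ', hβ', hζ', h'⟩
    refine ⟨β + β', ζ + ζ', fun x y => ?_, by simp [hζ, hζ'], fun i => ?_⟩
    · simp only [Pi.add_apply, hβ x y, hβ' x y, mul_add]
      abel
    · simp only [Pi.add_apply, h i, h' i, mul_add]
      abel
  smul_mem' := by
    rintro r _ ⟨β, ζ, hβ, hζ, h⟩
    refine ⟨r • β, r • ζ, fun x y => ?_, by simp [hζ], fun i => ?_⟩
    · simp only [Pi.smul_apply, hβ x y, smul_add, mul_smul_comm]
    · simp only [Pi.smul_apply, h i, smul_add, mul_smul_comm]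

variable {w : ι → G} {i0 : ι}

lemma mod_mul {v : ι → RA G} (h : v ∈ Mod w i0) (r : RA G) : (fun i => v i * r) ∈ Mod w i0 := by
  obtain ⟨β, ζ, hβ, hζ, h⟩ := h
  exact ⟨fun x => β x * r, fun i => ζ i * r, fun x y => by simp only [hβ x y, add_mul, mul_assoc],
    by simp [hζ], fun i => by simp only [h i, add_mul, mul_assoc]⟩

variable [DecidableEq ι]

lemma mod_congr {i : ι} {a b : RA G} (h : Pi.single i a ∈ Mod w i0) (e : b = a) :
    Pi.single i b ∈ Mod w i0 := e ▸ h

lemma mod_base (i : ι) (r : RA G) : Pi.single i ((single (w i) 1 - 1) * r) ∈ Mod w i0 := by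
  by_cases hi : i = i0
  · subst hi
    refine ⟨fun x => (single x 1 - 1) * r, fun j => if j = i then 0 else r, fun x y => ?_,
      by simp, fun j => ?_⟩
    · have := coc_sub x y
      simp only at this
      simp only [this, add_mul, mul_assoc]
    · by_cases hj : j = i
      · subst hj; simp
      · simp only [Pi.single_eq_of_ne hj, hj, if_false, sub_mul, one_mul]
        abel
  · refine ⟨0, Pi.single i (-r), fun _ _ => by simp, Pi.single_eq_of_ne' hi _, fun j => ?_⟩
    by_cases hj : j = i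
    · subst hj
      simp only [Pi.single_eq_same, Pi.zero_apply, zero_add, sub_mul, one_mul, mul_neg, neg_sub]
    · simp [Pi.single_eq_of_ne hj]

lemma mod_zpow (i : ι) {h : G} (hh : h ∈ Subgroup.zpowers (w i)) (r : RA G) :
    Pi.single i ((single h 1 - 1) * r) ∈ Mod w i0 := by
  obtain ⟨k, rfl⟩ := hh
  induction k using Int.induction_on with
  | zero => simp [← MonoidAlgebra.one_def]
  | succ k ih =>
    have := add_mem (mod_base (w := w) (i0 := i0) i (single (w i ^ (k : ℤ)) 1 * r)) ih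
    rw [← Pi.single_add] at this
    refine mod_congr this ?_
    simp only [sub_mul, ← mul_assoc, sgl_mul, one_mul, add_comm (k : ℤ) 1, zpow_add, zpow_one]
    abel
  | pred k ih =>
    have := sub_mem ih (mod_base (w := w) (i0 := i0) i (single (w i ^ (-(k : ℤ) - 1)) 1 * r))
    rw [← Pi.single_sub] at this
    refine mod_congr this ?_
    have e : w i * w i ^ (-(k : ℤ) - 1) = w i ^ (-(k : ℤ)) := by group
    simp only [sub_mul, ← mul_assoc, sgl_mul, one_mul, e]
    abel

lemma mod_left [Fintype ι] {v : ι → RA G} (hv : v ∈ Mod w i0) {h : ι → G}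
    (hh : ∀ i, h i ∈ Subgroup.zpowers (w i)) : (fun i => single (h i) 1 * v i) ∈ Mod w i0 := by
  have := add_mem (Submodule.sum_mem (Mod w i0) fun i (_ : i ∈ Finset.univ) =>
    mod_zpow (i0 := i0) i (hh i) (v i)) hv
  rw [Finset.univ_sum_single fun i => (single (h i) 1 - 1) * v i] at this
  convert this using 1
  ext1 i
  simp [sub_mul]

lemma coc_conj {β : G → RA G} (h : Coc β) {s : G} {Z : RA G} (hs : β s = single s 1 * Z) (y : G) :
    β (s * y * s⁻¹) = single s 1 * (β y + (1 - single y 1) * Z) := by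
  have h1 := h (s * y * s⁻¹) s
  rw [inv_mul_cancel_right, h s y, hs, ← mul_assoc, sgl_mul, inv_mul_cancel_right] at h1
  rw [eq_sub_of_add_eq h1.symm, ← sgl_mul]
  noncomm_ring

end Alg

variable {S T ι : Type} (m : FreeGroup S →* FreeGroup T)

/-- The map of group algebras induced by `m`. -/
def mp : RA (FreeGroup S) →ₐ[ℝ] RA (FreeGroup T) :=
  MonoidAlgebra.lift ℝ (RA (FreeGroup T)) (FreeGroup S) ((MonoidAlgebra.of ℝ _).comp m)

lemma mp_single (x : FreeGroup S) (r : ℝ) : mp m (single x r) = single (m x) r := by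
  simp [mp]

lemma mp_supp (a : RA (FreeGroup S)) : ∀ x, (mp m a).coeff x ≠ 0 → x ∈ m.range := by
  classical
  induction a using MonoidAlgebra.induction_linear with
  | zero => simp
  | add b c hb hc =>
    intro x hx
    by_contra hn
    have h1 : (mp m b).coeff x = 0 := by_contra fun h => hn (hb x h)
    have h2 : (mp m c).coeff x = 0 := by_contra fun h => hn (hc x h)
    exact hx (by simp [h1, h2])
  | single q r =>
    intro x hx
    rw [mp_single] at hx
    refine ⟨q, ?_⟩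
    by_contra hn
    exact hx (by simp [hn])

lemma coc_mp {β : FreeGroup S → RA (FreeGroup S)} {β' : FreeGroup T → RA (FreeGroup T)}
    (h : Coc β) (h' : Coc β') (e : ∀ s, β' (m (FreeGroup.of s)) = mp m (β (FreeGroup.of s)))
    (x : FreeGroup S) : β' (m x) = mp m (β x) := by
  induction x using FreeGroup.induction_on with
  | C1 => rw [map_one, h.one, h'.one, map_zero]
  | of s => exact e s
  | inv_of s hs =>
    have h1 := congrArg (mp m) (h (FreeGroup.of s)⁻¹ (FreeGroup.of s))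
    have h2 := h' (m (FreeGroup.of s)⁻¹) (m (FreeGroup.of s))
    rw [inv_mul_cancel, h.one, map_zero, map_add, map_mul, mp_single, ← hs] at h1
    rw [← map_mul, inv_mul_cancel, map_one, h'.one] at h2
    exact add_right_cancel (h2.symm.trans h1)
  | mul x y hx hy => rw [map_mul, h, h', hx, hy, map_add, map_mul, mp_single]

variable {m}

lemma pr_map (hm : Function.Injective m) {a b : FreeGroup S} (h : Function.Injective (pr a b)) :
    Function.Injective (pr (m a) (m b)) := by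
  have : pr (m a) (m b) = m.comp (pr a b) := by
    ext o; cases o <;> simp [pr]
  rw [this]
  exact hm.comp h

lemma avg_mod [DecidableEq ι] (hm : Function.Injective m) {w : ι → FreeGroup S} (i0 : ι)
    (hw : Mal w) (i j : ι) (a : RA (FreeGroup S)) : ∃ C : ℝ, ∀ K : ℕ, ∃ Y : RA (FreeGroup S),
      Pi.single i (∑ k ∈ Finset.range K, single (w i ^ k)⁻¹ 1 * a * single (w j ^ k) 1 -
        (K * sg (w j) a) • (if i = j then 1 else 0) - Y) ∈ Mod w i0 ∧
        ∀ ξ, Supp (N0 T) ξ → ‖Pj (mp m Y) ξ‖ ≤ C * √K * ‖ξ‖ := by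
  classical
  induction a using MonoidAlgebra.induction_linear with
  | zero => exact ⟨0, fun K => ⟨0, by simp, by simp⟩⟩
  | add b c hb hc =>
    obtain ⟨B, hB⟩ := hb
    obtain ⟨C, hC⟩ := hc
    refine ⟨B + C, fun K => ?_⟩
    obtain ⟨Y, hY, hY'⟩ := hB K
    obtain ⟨Z, hZ, hZ'⟩ := hC K
    refine ⟨Y + Z, ?_, fun ξ hξ => ?_⟩
    · have := add_mem hY hZ
      rw [← Pi.single_add] at this
      refine mod_congr this ?_
      simp only [mul_add, add_mul, Finset.sum_add_distrib, map_add, add_smul]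
      abel
    · rw [map_add, map_add, add_apply]
      refine (norm_add_le _ _).trans ?_
      have := add_le_add (hY' ξ hξ) (hZ' ξ hξ)
      linarith
  | single q r =>
    refine ⟨2 * |r|, fun K => ?_⟩
    have fin : ∀ (g : ℕ → FreeGroup S) (ξ : H (Lm T)),
        ‖∑ k ∈ Finset.range K, cj (io (m (g k))) ξ‖ ≤ 2 * √K * ‖ξ‖ →
        ‖Pj (mp m (∑ k ∈ Finset.range K, single (g k) r)) ξ‖ ≤ 2 * |r| * √K * ‖ξ‖ := by
      intro g ξ this
      simp only [map_sum, mp_single, Pj_single, sum_apply, smul_apply, ← Finset.smul_sum,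
        norm_smul, Real.norm_eq_abs]
      have := mul_le_mul_of_nonneg_left this (abs_nonneg r)
      linarith
    by_cases hij : i = j
    · subst hij
      by_cases hq : q ∈ Subgroup.zpowers (w i)
      · refine ⟨0, ?_, fun ξ _ => by simp; positivity⟩
        have e : ∀ k : ℕ, (w i ^ k)⁻¹ * q * w i ^ k = q := fun k => by
          obtain ⟨j, rfl⟩ := hq
          group
        have := Submodule.smul_mem _ (K * r : ℝ) (mod_zpow (i0 := i0) i hq 1)
        rw [← Pi.single_smul] at this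
        refine mod_congr this ?_
        simp only [MonoidAlgebra.single_mul_single, e, sg, lin_single, hq, if_true, one_mul,
          mul_one, Finset.sum_const, Finset.card_range, smul_eq_mul, sub_zero, smul_sub,
          MonoidAlgebra.smul_single, nsmul_eq_mul]
      · refine ⟨∑ k ∈ Finset.range K, single ((w i ^ k)⁻¹ * q * w i ^ k) r, ?_, fun ξ hξ => ?_⟩
        · simp [MonoidAlgebra.single_mul_single, sg, lin_single, hq]
        · have h1 : w i ≠ 1 := fun h => hw.1 i 1 2 le_rfl (by simp [h])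
          have hi := pr_inj (inj_of_not_mem h1 (fun z k hk h => hw.1 i z k hk h.symm) hq)
          refine fin _ ξ ?_
          simpa only [map_mul, map_inv, map_pow] using avg_bound pp word (pr_map hm hi) K hξ
    · refine ⟨∑ k ∈ Finset.range K, single ((w i ^ k)⁻¹ * q * w j ^ k) r, ?_, fun ξ hξ => ?_⟩
      · simp [MonoidAlgebra.single_mul_single, hij]
      · refine fin _ ξ ?_
        have := avg2 (pr_map hm (free_of_mal hw hij q)) K hξ
        rw [← cj_norm (io (m q)), map_sum] at this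
        convert this using 3 with k
        have e : (w i ^ k)⁻¹ * q * w j ^ k = q * (((q⁻¹ * w i * q) ^ k)⁻¹ * w j ^ k) := by
          have := conj_pow (a := q⁻¹) (b := w i) (i := k)
          rw [inv_inv] at this
          rw [this]; group
        rw [e, ← map_pow, ← map_pow, ← map_inv, ← map_mul, map_mul m q, map_mul io, map_mul cj]
        rfl

lemma core [Fintype S] [Fintype ι] [DecidableEq ι] (hm : Function.Injective m)
    {w : ι → FreeGroup S} (i0 : ι) (hw : Mal w) (j : ι) {ε : ℝ} (hε : 0 < ε) :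
    ∃ X : ι → RA (FreeGroup S), (fun i => (if i = j then 1 else 0) - X i) ∈ Mod w i0 ∧
      ∀ i ξ, Supp (N0 T) ξ → ‖Pj (mp m (X i)) ξ‖ ≤ ε * ‖ξ‖ := by
  have h1 : w j ≠ 1 := fun h => hw.1 j 1 2 le_rfl (by simp [h])
  obtain ⟨_, ⟨β, hβ, rfl⟩, hs⟩ := exists_sg h1
  have hD : (fun i => β (w i)) ∈ Mod w i0 := ⟨β, 0, hβ, rfl, fun i => by simp⟩
  choose C hC using fun i => avg_mod hm i0 hw i j (β (w i))
  have hs' : 0 < |sg (w j) (β (w j))| := abs_pos.2 hs
  obtain ⟨n, hn⟩ := exists_nat_gt ((∑ i, |C i|) / (ε * |sg (w j) (β (w j))|))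
  have hn0 : (0 : ℝ) < n := lt_of_le_of_lt (by positivity) hn
  choose Y hY hY' using fun i => hC i (n ^ 2)
  have h2 : ∑ k ∈ Finset.range (n ^ 2),
      (fun i => single (w i ^ k)⁻¹ 1 * β (w i) * single (w j ^ k) 1) ∈ Mod w i0 :=
    Submodule.sum_mem _ fun k _ =>
      mod_mul (mod_left hD fun i => inv_mem (Subgroup.npow_mem_zpowers (w i) k)) _
  set c : ℝ := ((n ^ 2 : ℕ) : ℝ) * sg (w j) (β (w j)) with hc
  have hc0 : c ≠ 0 := by rw [hc]; push_cast; positivity
  have h3 := Submodule.smul_mem _ c⁻¹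
    (sub_mem h2 (Submodule.sum_mem (Mod w i0) fun i (_ : i ∈ Finset.univ) => hY i))
  rw [Finset.univ_sum_single fun i => ∑ k ∈ Finset.range (n ^ 2),
    single (w i ^ k)⁻¹ 1 * β (w i) * single (w j ^ k) 1 -
      (((n ^ 2 : ℕ) : ℝ) * sg (w j) (β (w i))) • (if i = j then 1 else 0) - Y i] at h3
  refine ⟨fun i => -(c⁻¹ • Y i), ?_, fun i ξ hξ => ?_⟩
  · convert h3 using 1
    ext1 i
    simp only [Pi.smul_apply, Pi.sub_apply, Finset.sum_apply, sub_sub, sub_sub_cancel, smul_add,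
      sub_neg_eq_add]
    by_cases hij : i = j
    · subst hij
      rw [smul_smul, ← hc, inv_mul_cancel₀ hc0, one_smul]
    · simp [hij]
  · have h4 := hY' i ξ hξ
    rw [map_neg, map_neg, map_smul, map_smul, neg_apply, norm_neg, smul_apply,
      norm_smul, norm_inv, Real.norm_eq_abs, inv_mul_le_iff₀ (abs_pos.2 hc0)]
    refine h4.trans ?_
    rw [← mul_assoc]
    refine mul_le_mul_of_nonneg_right ?_ (norm_nonneg _)
    rw [hc, abs_mul]
    push_cast
    rw [Real.sqrt_sq hn0.le, abs_of_pos (pow_pos hn0 2)]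
    rw [div_lt_iff₀ (by positivity)] at hn
    have h5 : C i ≤ ∑ i, |C i| := (le_abs_self _).trans
      (Finset.single_le_sum (f := fun i => |C i|) (fun _ _ => abs_nonneg _) (Finset.mem_univ i))
    nlinarith

end MGap

open MGap in
theorem mgap : MGapStmt := by
  classical
  intro S ι _ _ w i0 hw
  let m : FreeGroup S →* FreeGroup (S ⊕ ι) := FreeGroup.map Sum.inl
  have hm : Function.Injective m := FreeGroup.map_injective Sum.inl_injective
  have hc : (0 : ℝ) < Fintype.card ι := by exact_mod_cast Fintype.card_pos_iff.2 ⟨i0⟩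
  choose X hX hX' using fun j => core hm i0 hw j (ε := 1 / (2 * Fintype.card ι)) (by positivity)
  choose β ζ hβ hζ hv using hX
  choose β' hβ' hβs using fun j => exists_coc (S := S ⊕ ι) (Sum.elim
    (fun s => mp m (β j (FreeGroup.of s)))
    fun i => single (FreeGroup.of (Sum.inr i)) 1 * mp m (ζ j i))
  refine ⟨β', fun i j => mp m (X j i), hβ', fun i j => ?_, fun i j => hX' j i,
    fun i j => mp_supp m _, fun j s => ?_, fun j i => ⟨_, mp_supp m _, hβs j _⟩⟩
  · have h1 : β' j (sl S i0 i) = single (sl S i0 i) 1 * mp m (ζ j i) := by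
      unfold sl
      split_ifs with h
      · rw [(hβ' j).one, h, hζ, map_zero, mul_zero]
      · exact hβs j _
    have h2 := congrArg (mp m) (hv j i)
    rw [map_add, map_mul, map_sub, map_sub, map_one, mp_single, apply_ite (mp m), map_one,
      map_zero] at h2
    rw [coc_conj (hβ' j) h1, coc_mp m (hβ j) (hβ' j) (fun s => hβs j (Sum.inl s)), ← h2]
  · rw [hβs]
    exact mp_supp m _

end

end Pool.Agent.MP_494aff_an.Pinch

end MrgPart4

-- marker of a merged file
example : 731051 + 704523 = 731051 + 704523 := rfl
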