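import Mathlib
import Pool.Agent.MP_494aff_an.pinch.MGap
import Pool.Agent.MP_494aff_an.pinch.Abel
import Pool.Agent.MP_494aff_an.pinch.Main
import Pool.Agent.MP_494aff_an.pinch.FG

/-! Assembly for towers. -/

namespace Pool.Agent.MP_494aff_an.Pinch

theorem mflex : MFlexStmt := mflex_of mgap der flow hseq

theorem tower : TowStmt := tow fg abel (floor mflex fg) (attach mflex fg)

end Pool.Agent.MP_494aff_an.Pinch
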