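import Mathlib
import Pool.Agent.MP_494aff_an.pinch.St2
import Pool.Agent.MP_494aff_an.pinch.Main

/-! The closed orientable surface groups, in their standard presentation. -/

namespace Pool.Agent.MP_494aff_an.Pinch

noncomputable section

/-- Isomorphic groups have isomorphic von Neumann algebras. -/
lemma vn_of_equiv {G G' : Type} [Group G] [Group G'] (e : G' ≃* G) :
    Nonempty (vN G' ≃⋆ₐ[ℂ] vN G) := by
  refine iso G G' (lam.comp e.toMonoidHom) ⟨fun g => lam_mem _, fun g => ?_, fun g hg => ?_, ?_⟩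
  · show star (lam (e g)) = lam (e g⁻¹)
    rw [star_lam, map_inv e]
  · show lam (e g) (dl 1) 1 = 0
    rw [lam_one]
    exact dl_ne fun h => hg (e.injective (by rw [← h, map_one]))
  · have : (Set.range fun g => (lam.comp e.toMonoidHom) g (dl 1)) = Set.range (dl : G → H G) := by
      ext ξ
      constructor
      · rintro ⟨g, rfl⟩
        exact ⟨e g, (lam_one _).symm⟩
      · rintro ⟨g, rfl⟩
        refine ⟨e.symm g, ?_⟩
        show lam (e (e.symm g)) (dl 1) = dl g
        rw [lam_one, e.apply_symm_apply]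
    rw [this]
    exact dense_dl

namespace Sf

/-- The integral Heisenberg group. -/
@[ext] structure Hei where
  x : ℤ
  y : ℤ
  z : ℤ

instance : Group Hei where
  mul a b := ⟨a.x + b.x, a.y + b.y, a.z + b.z + a.x * b.y⟩
  one := ⟨0, 0, 0⟩
  inv a := ⟨-a.x, -a.y, -a.z + a.x * a.y⟩
  mul_assoc a b c := by
    refine Hei.ext ?_ ?_ ?_
    · show a.x + b.x + c.x = a.x + (b.x + c.x)
      ring
    · show a.y + b.y + c.y = a.y + (b.y + c.y)
      ring
    · show a.z + b.z + a.x * b.y + c.z + (a.x + b.x) * c.y =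
        a.z + (b.z + c.z + b.x * c.y) + a.x * (b.y + c.y)
      ring
  one_mul a := by
    refine Hei.ext ?_ ?_ ?_
    · show 0 + a.x = a.x
      ring
    · show 0 + a.y = a.y
      ring
    · show 0 + a.z + 0 * a.y = a.z
      ring
  mul_one a := by
    refine Hei.ext ?_ ?_ ?_
    · show a.x + 0 = a.x
      ring
    · show a.y + 0 = a.y
      ring
    · show a.z + 0 + a.x * 0 = a.z
      ring
  inv_mul_cancel a := by
    refine Hei.ext ?_ ?_ ?_
    · show -a.x + a.x = 0
      ring
    · show -a.y + a.y = 0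
      ring
    · show -a.z + a.x * a.y + a.z + -a.x * a.y = 0
      ring

lemma mul_def (a b : Hei) : a * b = ⟨a.x + b.x, a.y + b.y, a.z + b.z + a.x * b.y⟩ := rfl

lemma inv_def (a : Hei) : a⁻¹ = ⟨-a.x, -a.y, -a.z + a.x * a.y⟩ := rfl

lemma one_def : (1 : Hei) = ⟨0, 0, 0⟩ := rfl

lemma pow_x (a : Hei) (k : ℕ) : (a ^ k).x = k * a.x := by
  induction k with
  | zero => simp [one_def]
  | succ k ih => rw [pow_succ, mul_def]; push_cast; simp only [ih]; ring

lemma pow_z (a : Hei) (ha : a.x = 0) (k : ℕ) : (a ^ k).z = k * a.z := by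
  induction k with
  | zero => simp [one_def]
  | succ k ih => rw [pow_succ, mul_def]; push_cast; simp only [ih, pow_x, ha]; ring

/-- The two standard generators. -/
def gen (b : Bool) : Hei := if b then ⟨0, 1, 0⟩ else ⟨1, 0, 0⟩

lemma comm_gen :
    gen false * gen true * (gen false)⁻¹ * (gen true)⁻¹ = (⟨0, 0, 1⟩ : Hei) := by
  simp [gen, mul_def, inv_def]

/-- The commutator of the two free generators. -/
def cm : FreeGroup (Fin 2) :=
  FreeGroup.of 0 * FreeGroup.of 1 * (FreeGroup.of 0)⁻¹ * (FreeGroup.of 1)⁻¹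

/-- A commutator of two free generators is not a proper power. -/
lemma prim_comm (z : FreeGroup (Fin 2)) (k : ℕ) (hk : 2 ≤ k) :
    z ^ k ≠ cm := by
  intro h
  have h1 := congrArg (FreeGroup.lift fun i : Fin 2 => gen (decide (i = 1))) h
  rw [map_pow, cm] at h1
  simp only [map_mul, map_inv, FreeGroup.lift_apply_of] at h1
  have h2 : gen (decide ((0 : Fin 2) = 1)) = gen false := rfl
  have h3 : gen (decide True) = gen true := rfl
  rw [h2, h3, comm_gen] at h1
  set a := (FreeGroup.lift fun i : Fin 2 => gen (decide (i = 1))) z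
  have hx : (k : ℤ) * a.x = 0 := by rw [← pow_x, h1]
  have hx0 : a.x = 0 := (mul_eq_zero.1 hx).resolve_left (by omega)
  have hz : (k : ℤ) * a.z = 1 := by rw [← pow_z a hx0, h1]
  have := Int.eq_one_of_mul_eq_one_right (by omega) hz
  omega

/-- The product of the commutators. -/
def rel (g : ℕ) : FreeGroup (Fin g × Bool) :=
  (List.ofFn fun i : Fin g =>
    FreeGroup.of (i, false) * FreeGroup.of (i, true) * (FreeGroup.of (i, false))⁻¹ *
      (FreeGroup.of (i, true))⁻¹).prod

lemma rel_ne (k : ℕ) (hk : 1 ≤ k) : rel k ≠ 1 := by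
  intro h
  have h1 := congrArg (FreeGroup.lift fun p : Fin k × Bool => gen p.2) h
  rw [rel, map_list_prod, List.map_ofFn, map_one] at h1
  have h2 : ((FreeGroup.lift fun p : Fin k × Bool => gen p.2) ∘ fun i : Fin k =>
      FreeGroup.of (i, false) * FreeGroup.of (i, true) * (FreeGroup.of (i, false))⁻¹ *
      (FreeGroup.of (i, true))⁻¹) =
      fun _ => (⟨0, 0, 1⟩ : Hei) := by
    funext i
    simp only [Function.comp, map_mul, map_inv, FreeGroup.lift_apply_of, comm_gen]
  rw [h2, List.ofFn_const, List.prod_replicate] at h1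
  have h3 := pow_z (⟨0, 0, 1⟩ : Hei) rfl k
  rw [h1] at h3
  have h4 : (0 : ℤ) = k * 1 := h3
  omega

/-- Splitting off the first pair of generators. -/
def eq1 (k : ℕ) : Fin 2 ⊕ (Fin k × Bool) ≃ Fin (k + 1) × Bool where
  toFun := Sum.elim (fun i => (0, decide (i = 1))) fun p => (p.1.succ, p.2)
  invFun p := Fin.cases (Sum.inl (if p.2 then 1 else 0)) (fun j => Sum.inr (j, p.2)) p.1
  left_inv := by
    rintro (i | ⟨j, b⟩)
    · fin_cases i <;> simp
    · simp
  right_inv := by
    rintro ⟨i, b⟩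
    refine Fin.cases ?_ (fun j => ?_) i
    · cases b <;> simp
    · simp

lemma rel_succ (k : ℕ) : rel (k + 1) =
    FreeGroup.of (0, false) * FreeGroup.of (0, true) * (FreeGroup.of (0, false))⁻¹ *
      (FreeGroup.of (0, true))⁻¹ *
      FreeGroup.map (fun p : Fin k × Bool => (p.1.succ, p.2)) (rel k) := by
  rw [rel, List.ofFn_succ, List.prod_cons, rel, map_list_prod, List.map_ofFn]
  congr 3

end Sf

open Sf in
theorem surf_iso (g : ℕ) (hg : 2 ≤ g) :
    VNIso (Surf g) (FreeGroup (Fin (2 * g - 1))) := by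
  obtain ⟨k, rfl⟩ : ∃ k, g = k + 1 := ⟨g - 1, by omega⟩
  have e1 : Fin k × Bool ≃ Fin (2 * k) := Fintype.equivFinOfCardEq (by simp [mul_comm])
  have hv : (FreeGroup.map e1 (rel k))⁻¹ ≠ 1 := by
    intro h
    rw [inv_eq_one] at h
    exact rel_ne k (by omega) ((FreeGroup.freeGroupCongr e1).injective (by
      rw [map_one]; exact h))
  obtain ⟨φ⟩ := main 2 (2 * k) cm (FreeGroup.map e1 (rel k))⁻¹
    (by omega) prim_comm hv
  let e : Fin 2 ⊕ Fin (2 * k) ≃ Fin (k + 1) × Bool :=
    (Equiv.sumCongr (Equiv.refl _) e1.symm).trans (eq1 k)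
  have he : FreeGroup.freeGroupCongr e ''
      ({FreeGroup.map Sum.inl cm *
        (FreeGroup.map Sum.inr (FreeGroup.map e1 (rel k))⁻¹)⁻¹} :
        Set (FreeGroup (Fin 2 ⊕ Fin (2 * k)))) = {rel (k + 1)} := by
    rw [Set.image_singleton, rel_succ, map_inv, inv_inv, map_mul]
    congr 2
    · show FreeGroup.map e (FreeGroup.map Sum.inr (FreeGroup.map e1 (rel k))) = _
      rw [FreeGroup.map.comp, FreeGroup.map.comp]
      congr 2
      funext p
      simp [e, eq1]
  obtain ⟨ψ⟩ := vn_of_equiv (PresentedGroup.equivPresentedGroup _ e).symm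
  have h2 : 2 * (k + 1) - 1 = 2 + 2 * k - 1 := by omega
  rw [h2]
  rw [he] at ψ
  exact ⟨ψ.trans φ⟩

end

end Pool.Agent.MP_494aff_an.Pinch
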